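import Pool.Agent.MVC.St2

/-!
# Vaught's conjecture for modules: honest amalgams (6.5)
-/

set_option autoImplicit false
set_option linter.unusedSectionVars false
set_option linter.unusedVariables false

namespace Pool.Agent.MVC

open Set Ax

/-- a map which sends the generators into the principal part is null -/
private theorem amg_nup {R : Type} [Ring R] {X : Ax R} {ι : Type} [Countable ι]
    {S : Set (PP R ι)} {N M : Type} [AddCommGroup N] [Module R N] [AddCommGroup M] [Module R M]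
    {g : ι → N} {u : N →ₗ[R] M} (hN : X.Honest S N g) (hu : X.P S M (u ∘ g)) : X.Null u := by
  intro k b
  obtain ⟨χ, h1, h2⟩ := hu
  obtain ⟨θ, h3, h4⟩ := hN.gen k b
  obtain ⟨ρ, hρ⟩ := (isPP_sat χ).image (isPP_sat θ)
  refine ⟨ρ, fun ψ hψ K _ _ hK y hy => ?_, (hρ M _).mp ⟨u ∘ g, h2, ?_⟩⟩
  · rw [← hρ] at hy
    obtain ⟨x, hx, hy⟩ := hy
    have h5 : Sat (ren Sum.inr ψ) N (Sum.elim g b) := (sat_ren _ _ _).mpr hψ
    obtain ⟨s, hs, h6⟩ := h4 _ h5
    have h7 := h6 K hK x y (fun φ hφ => h1 φ (hs hφ) K hK x hx) hy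
    exact (sat_ren Sum.inr ψ (Sum.elim x y)).mp h7
  · have h8 := h3.map u
    rwa [Sum.comp_elim] at h8

/-- realisations of the amalgam -/
private theorem amg_re {R : Type} [Ring R] {n : ℕ} {A : Type} {S : Set (PP R (Fin n))} {k : A → ℕ}
    {V : ∀ j, Set (PP R (Fin n ⊕ Fin (k j)))} {M : Type} [AddCommGroup M] [Module R M]
    {x : Fin n → M} {t : (j : A) × Fin (k j) → M} (hx : Re S M x)
    (ht : ∀ j, Re (V j) M (Sum.elim x (fun i => t ⟨j, i⟩))) :
    Re (amg S k V) M (Sum.elim x t) := by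
  rintro φ (hφ | hφ)
  · obtain ⟨ψ, hψ, rfl⟩ := hφ
    exact (sat_ren _ _ _).mpr (hx ψ hψ)
  · obtain ⟨j, hj⟩ := mem_iUnion.mp hφ
    obtain ⟨ψ, hψ, rfl⟩ := hj
    rw [sat_ren]
    have h1 : Sum.elim x t ∘ Sum.map id (Sigma.mk j) = Sum.elim x (fun i => t ⟨j, i⟩) := by
      funext i
      cases i <;> rfl
    rw [h1]
    exact ht j ψ hψ

theorem thm_AMG (h1 : St_EX0) (h2 : St_NUZ) (h3 : St_HDS) (h4 : St_SDS) (h5 : St_MIS)
    (h6 : St_MIT) (h7 : St_DEL) (h8 : St_EXT) (h9 : St_AMT) : St_AMG := by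
  intro R _ _ X n A _ _ S k V G g Nq gq l W NW gW b hV hG hq hW hNW hb
  classical
  -- the direct sum
  have hP := h3 R X A (fun j => Fin (k j)) (fun j => zer '' V j) Nq gq hq
  have hIn : X.In (Π₀ j, Nq j) := hP.mem
  -- the map to the direct sum
  obtain ⟨ρ, hρ⟩ := h1 R X (Fin n ⊕ (j : A) × Fin (k j)) (amg S k V) G ⟨Π₀ j, Nq j⟩ g
    (Sum.elim 0 (fun p => DFinsupp.single p.1 (gq p.1 p.2))) hG hIn
    (amg_re (Re.zero S) fun j => by
      have h10 := (hq j).sat.map (DFinsupp.lsingle (R := R) (M := fun j => Nq j) j)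
      exact (re_zer (V j) _).mp h10)
  -- the induced map of `NW`
  have hb1 : Re (zer '' W) (Π₀ j, Nq j) (ρ ∘ b) := by
    rw [re_zer]
    have h10 := hb.map ρ
    rw [Sum.comp_elim] at h10
    have h11 : (ρ ∘ fun i => g (Sum.inl i)) = 0 := by
      funext i
      exact hρ (Sum.inl i)
    rw [h11] at h10
    exact h10
  obtain ⟨μ, hμ⟩ := h1 R X (Fin l) (zer '' W) NW ⟨Π₀ j, Nq j⟩ gW (ρ ∘ b) hNW hIn hb1
  -- the generating formula
  obtain ⟨θ, hθ, hgen⟩ := hG.gen l b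
  have hχ : ∀ ψ ∈ zer '' W, X.Le (zer θ) ψ := by
    rintro _ ⟨φ, hφ, rfl⟩ K _ _ hK y hy
    rw [sat_zer] at hy ⊢
    have h10 : Sat (ren (Sum.map Sum.inl id) φ) G (Sum.elim g b) := by
      rw [sat_ren]
      have h11 : Sum.elim g b ∘ Sum.map Sum.inl id = Sum.elim (fun i => g (Sum.inl i)) b := by
        funext i
        cases i <;> rfl
      rw [h11]
      exact hb φ hφ
    obtain ⟨s, hs, h11⟩ := hgen _ h10
    have h12 := h11 K hK 0 y (fun φ _ => Sat.zero φ) hy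
    rw [sat_ren] at h12
    have h13 : Sum.elim (0 : (Fin n ⊕ (j : A) × Fin (k j)) → K) y ∘ Sum.map Sum.inl id =
        Sum.elim (0 : Fin n → K) y := by
      funext i
      cases i <;> rfl
    rwa [h13] at h12
  -- the finite subsum
  let μj : ∀ j, NW →ₗ[R] Nq j := fun j => DFinsupp.lapply (R := R) (M := fun j => Nq j) j ∘ₗ μ
  let F : Finset A := Finset.univ.biUnion fun i : Fin l => (ρ (b i) : Π₀ j, Nq j).support
  refine ⟨F, μj, ?_⟩
  intro M hM a ha e ee he hee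
  choose T f hT hf hfe using hee
  have hMI : X.In (MI M) := (h5 R M).2 X hM
  have ha1 : Re S (MI M) (fun i => MI.cst M (a i)) := ha.map (MI.cst M)
  -- the map of the amalgam
  obtain ⟨fG, hfG⟩ := h1 R X (Fin n ⊕ (j : A) × Fin (k j)) (amg S k V) G (MI M) g
    (Sum.elim (fun i => MI.cst M (a i)) (fun p => T p.1 p.2)) hG hMI (amg_re ha1 fun j => hT j)
  -- the map of the direct sum
  let h : (Π₀ j, Nq j) →ₗ[R] MI M := DFinsupp.lsum ℕ (fun j => f j)
  let u : G →ₗ[R] MI M := (MI.sh M ∘ₗ fG - fG) - h ∘ₗ ρ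
  have hu : ∀ i, u (g i) = 0 := by
    intro i
    show (MI.sh M (fG (g i)) - fG (g i)) - h (ρ (g i)) = 0
    rw [hρ, hfG]
    rcases i with i | ⟨j, i⟩
    · show (MI.sh M (MI.cst M (a i)) - MI.cst M (a i)) - h 0 = 0
      have h10 : MI.sh M (MI.cst M (a i)) = MI.cst M (a i) := rfl
      rw [map_zero, h10, sub_self, sub_zero]
    · show (MI.sh M (T j i) - T j i) - h (DFinsupp.single j (gq j i)) = 0
      have h10 : h (DFinsupp.single j (gq j i)) = f j (gq j i) :=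
        DFinsupp.lsum_single ℕ (fun j => f j) j (gq j i)
      rw [h10, hf, sub_self]
  have hub : X.P (zer '' W) (MI M) (u ∘ b) := by
    refine ⟨zer θ, hχ, ?_⟩
    rw [sat_zer]
    have h10 := hθ.map u
    rw [Sum.comp_elim] at h10
    have h11 : (u ∘ g) = 0 := funext hu
    rw [h11] at h10
    exact h10
  obtain ⟨w, hw⟩ := h1 R X (Fin l) (zer '' W) NW (MI M) gW (u ∘ b) hNW hMI (hub.re hMI)
  have hwn : X.Null w := by
    refine amg_nup hNW ?_
    have h10 : w ∘ gW = u ∘ b := funext hw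
    rw [h10]
    exact hub
  -- the class of the map
  let f' : NW →ₗ[R] MI M := ∑ j ∈ F, f j ∘ₗ μj j + w
  have hf' : ∀ i, f' (gW i) = MI.sh M (fG (b i)) - fG (b i) := by
    intro i
    have h10 : h (ρ (b i)) = ∑ j ∈ F, f j ((ρ (b i) : Π₀ j, Nq j) j) := by
      show DFinsupp.sumAddHom (fun j => (f j).toAddMonoidHom) (ρ (b i)) = _
      rw [DFinsupp.sumAddHom_apply]
      refine Finset.sum_subset (Finset.subset_biUnion_of_mem
        (fun i : Fin l => (ρ (b i) : Π₀ j, Nq j).support) (Finset.mem_univ i)) fun j _ hj => ?_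
      rw [DFinsupp.notMem_support_iff.mp hj]
      exact map_zero _
    show (∑ j ∈ F, f j ∘ₗ μj j) (gW i) + w (gW i) = _
    rw [hw, LinearMap.sum_apply]
    show ∑ j ∈ F, f j ((μ (gW i) : Π₀ j, Nq j) j) + ((MI.sh M (fG (b i)) - fG (b i)) - h (ρ (b i))) = _
    rw [hμ, h10]
    show ∑ j ∈ F, f j ((ρ (b i) : Π₀ j, Nq j) j) + _ = _
    abel
  have hdel : X.IsDel W NW gW M a (X.exMk NW M f') := by
    refine ⟨fG ∘ b, f', ?_, hf', rfl⟩
    have h10 := hb.map fG
    rw [Sum.comp_elim] at h10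
    have h11 : (fG ∘ fun i => g (Sum.inl i)) = fun i => MI.cst M (a i) := by
      funext i
      exact hfG (Sum.inl i)
    rw [h11] at h10
    exact h10
  have h10 := (h7 R X n l S W NW M gW a hW hNW hM ha).2.1 e _ he hdel
  rw [h10]
  show X.exMk NW M (∑ j ∈ F, f j ∘ₗ μj j + w) = _
  rw [map_add, map_sum]
  have h11 : X.exMk NW M w = 0 := (exMk_eq_zero X NW M w).mpr ⟨0, w, hwn, by simp⟩
  rw [h11, add_zero]
  refine Finset.sum_congr rfl fun j _ => ?_
  rw [hfe j, exMap_mk]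

end Pool.Agent.MVC
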