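import Pool.Agent.MVC.St2

/-!
# Vaught's conjecture for modules: module AMT (amalgams of conservative extensions)
-/

set_option autoImplicit false
set_option linter.unusedSectionVars false
set_option linter.unusedVariables false

namespace Pool.Agent.MVC

open Set Ax

private theorem amt_split {R : Type} [Ring R] {n : ℕ} {A : Type} (S : Set (PP R (Fin n)))
    (k : A → ℕ) (V : ∀ j, Set (PP R (Fin n ⊕ Fin (k j))))
    (s : Finset (PP R (Fin n ⊕ (j : A) × Fin (k j)))) : ↑s ⊆ amg S k V →
    ∃ (s' : Finset (PP R (Fin n))) (J : Finset A)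
      (sj : ∀ j, Finset (PP R (Fin n ⊕ Fin (k j)))), ↑s' ⊆ S ∧ (∀ j, ↑(sj j) ⊆ V j) ∧
      (∀ j, j ∉ J → sj j = ∅) ∧ ∀ (M : Type) [AddCommGroup M] [Module R M] (x : Fin n → M)
        (t : (j : A) × Fin (k j) → M), (∀ φ ∈ s', Sat φ M x) →
        (∀ j, ∀ φ ∈ sj j, Sat φ M (Sum.elim x fun i => t ⟨j, i⟩)) →
        ∀ φ ∈ s, Sat φ M (Sum.elim x t) := by
  classical
  induction s using Finset.induction_on with
  | empty =>
    intro _
    exact ⟨∅, ∅, fun _ => ∅, by simp, by simp, fun _ _ => rfl,
      fun M _ _ x t _ _ φ hφ => absurd hφ (Finset.notMem_empty φ)⟩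
  | insert φ s hφ ih =>
    intro hs
    obtain ⟨s', J, sj, h1, h2, h3, h4⟩ := ih fun ψ hψ =>
      hs (Finset.mem_coe.mpr (Finset.mem_insert_of_mem (Finset.mem_coe.mp hψ)))
    have hm : φ ∈ amg S k V := hs (Finset.mem_coe.mpr (Finset.mem_insert_self φ s))
    rcases hm with ⟨ψ, hψ, rfl⟩ | hm
    · refine ⟨insert ψ s', J, sj, ?_, h2, h3, fun M _ _ x t hx ht χ hχ => ?_⟩
      · intro χ hχ
        rcases Finset.mem_insert.mp (Finset.mem_coe.mp hχ) with rfl | h
        · exact hψ
        · exact h1 (Finset.mem_coe.mpr h)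
      · rcases Finset.mem_insert.mp hχ with rfl | h
        · rw [sat_ren]
          exact hx ψ (Finset.mem_insert_self _ _)
        · exact h4 M x t (fun φ hφ => hx φ (Finset.mem_insert_of_mem hφ)) ht χ h
    · obtain ⟨j, ψ, hψ, rfl⟩ := Set.mem_iUnion.mp hm
      refine ⟨s', insert j J, Function.update sj j (insert ψ (sj j)), h1, fun i => ?_,
        fun i hi => ?_, fun M _ _ x t hx ht χ hχ => ?_⟩
      · by_cases hij : i = j
        · subst hij
          rw [Function.update_self]
          intro χ hχ
          rcases Finset.mem_insert.mp (Finset.mem_coe.mp hχ) with rfl | h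
          · exact hψ
          · exact h2 i (Finset.mem_coe.mpr h)
        · rw [Function.update_of_ne hij]
          exact h2 i
      · have hij : i ≠ j := fun h => hi (by rw [h]; exact Finset.mem_insert_self _ _)
        rw [Function.update_of_ne hij]
        exact h3 i fun h => hi (Finset.mem_insert_of_mem h)
      · rcases Finset.mem_insert.mp hχ with rfl | h
        · rw [sat_ren]
          have h5 := ht j ψ (by
            rw [Function.update_self]
            exact Finset.mem_insert_self _ _)
          have h6 : (Sum.elim x t) ∘ Sum.map id (Sigma.mk j) = Sum.elim x fun i => t ⟨j, i⟩ := by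
            funext i
            rcases i with i | i <;> rfl
          rw [h6]
          exact h5
        · refine h4 M x t hx (fun i χ' hχ' => ht i χ' ?_) χ h
          by_cases hij : i = j
          · subst hij
            rw [Function.update_self]
            exact Finset.mem_insert_of_mem hχ'
          · rw [Function.update_of_ne hij]
            exact hχ'

theorem thm_AMT : St_AMT := by
  classical
  intro R _ _ X n A _ S k V hV
  refine ⟨fun φ hφ => ent_of_mem (Or.inl ⟨φ, hφ, rfl⟩), fun s hs => ?_⟩
  obtain ⟨s', J, sj, h1, h2, h3, h4⟩ := amt_split S k V s hs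
  choose u hu1 hu2 using fun j => (hV j).2 (sj j) (h2 j)
  refine ⟨s' ∪ J.biUnion u, ?_, fun M _ _ hM x hx => ?_⟩
  · intro φ hφ
    rcases Finset.mem_union.mp (Finset.mem_coe.mp hφ) with h | h
    · exact h1 (Finset.mem_coe.mpr h)
    · obtain ⟨j, -, hj⟩ := Finset.mem_biUnion.mp h
      exact hu1 j (Finset.mem_coe.mpr hj)
  · have h5 : ∀ j, ∃ t : Fin (k j) → M, ∀ φ ∈ sj j, Sat φ M (Sum.elim x t) := by
      intro j
      by_cases hj : j ∈ J
      · exact hu2 j M hM x fun φ hφ => hx φ (Finset.mem_union_right _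
          (Finset.mem_biUnion.mpr ⟨j, hj, hφ⟩))
      · refine ⟨0, fun φ hφ => ?_⟩
        rw [h3 j hj] at hφ
        exact absurd hφ (Finset.notMem_empty φ)
    choose t ht using h5
    exact ⟨fun p => t p.1 p.2, h4 M x _ (fun φ hφ => hx φ (Finset.mem_union_left _ hφ)) ht⟩

end Pool.Agent.MVC
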