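import Pool.Agent.MVC.Defs

/-!
# Positive primitive formulas: closure properties
-/

set_option autoImplicit false
set_option linter.unusedSectionVars false
set_option linter.unusedVariables false

namespace Pool.Agent.MVC

open Set

variable {R : Type} [Ring R] {ι κ : Type}
variable {M N : Type} [AddCommGroup M] [Module R M] [AddCommGroup N] [Module R N]

theorem Sat.map {φ : PP R ι} {x : ι → M} (h : Sat φ M x) (u : M →ₗ[R] N) : Sat φ N (u ∘ x) := by
  obtain ⟨y, hy⟩ := h
  refine ⟨u ∘ y, fun e he => ?_⟩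
  have h1 := congrArg u (hy e he)
  rw [map_zero, LinearMap.map_finsupp_linearCombination] at h1
  rw [← Sum.comp_elim]
  exact h1

theorem Sat.zero (φ : PP R ι) : Sat φ M (0 : ι → M) := by
  refine ⟨0, fun e he => ?_⟩
  have : (Sum.elim (0 : ι → M) (0 : ℕ → M)) = 0 := by
    funext i
    cases i <;> rfl
  rw [this]
  simp

theorem lc_add (x y : ι → M) (e : ι →₀ R) : Finsupp.linearCombination R (x + y) e =
    Finsupp.linearCombination R x e + Finsupp.linearCombination R y e := by
  simp [Finsupp.linearCombination_apply, Finsupp.sum, smul_add, Finset.sum_add_distrib]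

theorem lc_neg (x : ι → M) (e : ι →₀ R) : Finsupp.linearCombination R (-x) e =
    - Finsupp.linearCombination R x e := by
  simp [Finsupp.linearCombination_apply, Finsupp.sum, smul_neg, Finset.sum_neg_distrib]

theorem Sat.add {φ : PP R ι} {x y : ι → M} (h : Sat φ M x) (h' : Sat φ M y) :
    Sat φ M (x + y) := by
  obtain ⟨u, hu⟩ := h
  obtain ⟨v, hv⟩ := h'
  refine ⟨u + v, fun e he => ?_⟩
  have h1 : Sum.elim (x + y) (u + v) = Sum.elim x u + Sum.elim y v := by
    funext i
    cases i <;> rfl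
  rw [h1, lc_add, hu e he, hv e he, add_zero]

theorem Sat.neg {φ : PP R ι} {x : ι → M} (h : Sat φ M x) : Sat φ M (-x) := by
  obtain ⟨u, hu⟩ := h
  refine ⟨-u, fun e he => ?_⟩
  have h1 : Sum.elim (-x) (-u) = -Sum.elim x u := by
    funext i
    cases i <;> rfl
  rw [h1, lc_neg, hu e he, neg_zero]

theorem Sat.sub {φ : PP R ι} {x y : ι → M} (h : Sat φ M x) (h' : Sat φ M y) :
    Sat φ M (x - y) := by
  rw [sub_eq_add_neg]
  exact h.add h'.neg

/-- the subgroup defined by a formula -/
def satGroup (φ : PP R ι) (M : Type) [AddCommGroup M] [Module R M] : AddSubgroup (ι → M) where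
  carrier := {x | Sat φ M x}
  add_mem' := Sat.add
  zero_mem' := Sat.zero φ
  neg_mem' := Sat.neg

theorem mem_satGroup {φ : PP R ι} {x : ι → M} : x ∈ satGroup φ M ↔ Sat φ M x := Iff.rfl

theorem sat_prod {φ : PP R ι} {x : ι → M × N} :
    Sat φ (M × N) x ↔ Sat φ M (fun i => (x i).1) ∧ Sat φ N (fun i => (x i).2) := by
  constructor
  · intro h
    exact ⟨h.map (LinearMap.fst R M N), h.map (LinearMap.snd R M N)⟩
  · rintro ⟨⟨y, hy⟩, ⟨z, hz⟩⟩
    refine ⟨fun n => (y n, z n), fun e he => ?_⟩
    have h1 : (Sum.elim x fun n => (y n, z n)) =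
        fun i => ((Sum.elim (fun i => (x i).1) y i, Sum.elim (fun i => (x i).2) z i) : M × N) := by
      funext i
      cases i <;> rfl
    rw [h1]
    refine Prod.ext ?_ ?_
    · have := LinearMap.map_finsupp_linearCombination (LinearMap.fst R M N)
        (g := fun i => ((Sum.elim (fun i => (x i).1) y i, Sum.elim (fun i => (x i).2) z i) : M × N))
        (l := e)
      exact this.trans (hy e he)
    · have := LinearMap.map_finsupp_linearCombination (LinearMap.snd R M N)
        (g := fun i => ((Sum.elim (fun i => (x i).1) y i, Sum.elim (fun i => (x i).2) z i) : M × N))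
        (l := e)
      exact this.trans (hz e he)

theorem sat_pi {A : Type} {Q : A → Type} [∀ a, AddCommGroup (Q a)] [∀ a, Module R (Q a)]
    {φ : PP R ι} {x : ι → ∀ a, Q a} :
    Sat φ (∀ a, Q a) x ↔ ∀ a, Sat φ (Q a) (fun i => x i a) := by
  constructor
  · intro h a
    exact h.map (LinearMap.proj a)
  · intro h
    choose y hy using h
    refine ⟨fun n a => y a n, fun e he => ?_⟩
    funext a
    have := LinearMap.map_finsupp_linearCombination (LinearMap.proj (R := R) (φ := Q) a)
      (g := Sum.elim x fun n a => y a n) (l := e)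
    have h1 : ((LinearMap.proj (R := R) (φ := Q) a) ∘ (Sum.elim x fun n a => y a n)) =
        Sum.elim (fun i => x i a) (y a) := by
      funext i
      cases i <;> rfl
    rw [h1] at this
    exact this.trans (hy a e he)

/-! ### Closure properties of `IsPP` -/

theorem isPP_sat (φ : PP R ι) : IsPP (R := R) (fun M _ _ x => Sat φ M x) :=
  ⟨φ, fun M _ _ x => Iff.rfl⟩

theorem IsPP.congr {F G : ∀ (M : Type) [AddCommGroup M] [Module R M], (ι → M) → Prop}
    (hF : IsPP F) (h : ∀ (M : Type) [AddCommGroup M] [Module R M] (x : ι → M), F M x ↔ G M x) :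
    IsPP G := by
  obtain ⟨φ, hφ⟩ := hF
  exact ⟨φ, fun M _ _ x => (h M x).symm.trans (hφ M x)⟩

theorem isPP_true : IsPP (R := R) (ι := ι) (fun M _ _ x => True) :=
  ⟨[], fun M _ _ x => by simp [Sat]⟩

theorem isPP_lin (e : ι →₀ R) :
    IsPP (R := R) (fun M _ _ x => Finsupp.linearCombination R x e = 0) := by
  refine ⟨[e.mapDomain Sum.inl], fun M _ _ x => ?_⟩
  constructor
  · intro h
    refine ⟨0, fun e' he' => ?_⟩
    rw [List.mem_singleton] at he'
    subst he'
    rw [Finsupp.linearCombination_mapDomain]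
    exact h
  · rintro ⟨y, hy⟩
    have := hy _ (List.mem_singleton_self _)
    rw [Finsupp.linearCombination_mapDomain] at this
    exact this

/-- renaming of variables -/
theorem IsPP.comap {F : ∀ (M : Type) [AddCommGroup M] [Module R M], (κ → M) → Prop}
    (hF : IsPP F) (f : κ → ι) : IsPP (R := R) (fun M _ _ (x : ι → M) => F M (x ∘ f)) := by
  obtain ⟨φ, hφ⟩ := hF
  refine ⟨φ.map (Finsupp.mapDomain (Sum.map f id)), fun M _ _ x => (hφ M _).trans ?_⟩
  unfold Sat
  refine exists_congr fun y => ?_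
  have h1 : ∀ e : (κ ⊕ ℕ) →₀ R, Finsupp.linearCombination R (Sum.elim x y)
      (Finsupp.mapDomain (Sum.map f id) e) =
      Finsupp.linearCombination R (Sum.elim (x ∘ f) y) e := by
    intro e
    rw [Finsupp.linearCombination_mapDomain]
    congr 2
    funext i
    cases i <;> rfl
  constructor
  · intro h e' he'
    obtain ⟨e, he, rfl⟩ := List.mem_map.mp he'
    rw [h1]
    exact h e he
  · intro h e he
    rw [← h1]
    exact h _ (List.mem_map_of_mem he)

/-- linear substitution -/
theorem IsPP.subst {F : ∀ (M : Type) [AddCommGroup M] [Module R M], (κ → M) → Prop}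
    (hF : IsPP F) (f : κ → (ι →₀ R)) :
    IsPP (R := R) (fun M _ _ (x : ι → M) =>
      F M (fun i => Finsupp.linearCombination R x (f i))) := by
  obtain ⟨φ, hφ⟩ := hF
  let w : κ ⊕ ℕ → ((ι ⊕ ℕ) →₀ R) :=
    Sum.elim (fun k => (f k).mapDomain Sum.inl) (fun n => Finsupp.single (Sum.inr n) 1)
  refine ⟨φ.map (Finsupp.linearCombination R w), fun M _ _ x => (hφ M _).trans ?_⟩
  unfold Sat
  refine exists_congr fun y => ?_
  have h1 : ∀ e : (κ ⊕ ℕ) →₀ R, Finsupp.linearCombination R (Sum.elim x y)
      (Finsupp.linearCombination R w e) =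
      Finsupp.linearCombination R
        (Sum.elim (fun i => Finsupp.linearCombination R x (f i)) y) e := by
    intro e
    rw [LinearMap.map_finsupp_linearCombination]
    congr 2
    funext i
    cases i with
    | inl i =>
      simp only [w, Function.comp, Sum.elim_inl]
      rw [Finsupp.linearCombination_mapDomain]
      rfl
    | inr n => simp [w]
  constructor
  · intro h e' he'
    obtain ⟨e, he, rfl⟩ := List.mem_map.mp he'
    rw [h1]
    exact h e he
  · intro h e he
    rw [← h1]
    exact h _ (List.mem_map_of_mem he)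

theorem IsPP.and {F G : ∀ (M : Type) [AddCommGroup M] [Module R M], (ι → M) → Prop}
    (hF : IsPP F) (hG : IsPP G) : IsPP (R := R) (fun M _ _ x => F M x ∧ G M x) := by
  obtain ⟨φ, hφ⟩ := hF
  obtain ⟨ψ, hψ⟩ := hG
  let r1 : ι ⊕ ℕ → ι ⊕ ℕ := Sum.map id (fun n => 2 * n)
  let r2 : ι ⊕ ℕ → ι ⊕ ℕ := Sum.map id (fun n => 2 * n + 1)
  refine ⟨φ.map (Finsupp.mapDomain r1) ++ ψ.map (Finsupp.mapDomain r2),
    fun M _ _ x => (and_congr (hφ M x) (hψ M x)).trans ?_⟩
  have h1 : ∀ (y : ℕ → M) (e : (ι ⊕ ℕ) →₀ R), Finsupp.linearCombination R (Sum.elim x y)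
      (Finsupp.mapDomain r1 e) =
      Finsupp.linearCombination R (Sum.elim x (fun n => y (2 * n))) e := by
    intro y e
    rw [Finsupp.linearCombination_mapDomain]
    congr 2
    funext i
    cases i <;> rfl
  have h2 : ∀ (y : ℕ → M) (e : (ι ⊕ ℕ) →₀ R), Finsupp.linearCombination R (Sum.elim x y)
      (Finsupp.mapDomain r2 e) =
      Finsupp.linearCombination R (Sum.elim x (fun n => y (2 * n + 1))) e := by
    intro y e
    rw [Finsupp.linearCombination_mapDomain]
    congr 2
    funext i
    cases i <;> rfl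
  constructor
  · rintro ⟨⟨y, hy⟩, ⟨z, hz⟩⟩
    refine ⟨fun n => if n % 2 = 0 then y (n / 2) else z (n / 2), fun e' he' => ?_⟩
    rcases List.mem_append.mp he' with he' | he'
    · obtain ⟨e, he, rfl⟩ := List.mem_map.mp he'
      rw [h1]
      have : (fun n => if (2 * n) % 2 = 0 then y (2 * n / 2) else z (2 * n / 2)) = y := by
        funext n
        simp
      rw [this]
      exact hy e he
    · obtain ⟨e, he, rfl⟩ := List.mem_map.mp he'
      rw [h2]
      have : (fun n => if (2 * n + 1) % 2 = 0 then y ((2 * n + 1) / 2)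
          else z ((2 * n + 1) / 2)) = z := by
        funext n
        have h3 : (2 * n + 1) % 2 = 1 := by omega
        have h4 : (2 * n + 1) / 2 = n := by omega
        rw [h3, h4]
        simp
      rw [this]
      exact hz e he
  · rintro ⟨y, hy⟩
    refine ⟨⟨fun n => y (2 * n), fun e he => ?_⟩, ⟨fun n => y (2 * n + 1), fun e he => ?_⟩⟩
    · rw [← h1]
      exact hy _ (List.mem_append_left _ (List.mem_map_of_mem he))
    · rw [← h2]
      exact hy _ (List.mem_append_right _ (List.mem_map_of_mem he))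

theorem IsPP.ex [Countable κ] {F : ∀ (M : Type) [AddCommGroup M] [Module R M], (ι ⊕ κ → M) → Prop}
    (hF : IsPP F) :
    IsPP (R := R) (fun M _ _ (x : ι → M) => ∃ y : κ → M, F M (Sum.elim x y)) := by
  obtain ⟨φ, hφ⟩ := hF
  obtain ⟨g, hg⟩ := Countable.exists_injective_nat (κ ⊕ ℕ)
  let r : (ι ⊕ κ) ⊕ ℕ → ι ⊕ ℕ :=
    Sum.elim (Sum.elim Sum.inl (fun k => Sum.inr (g (Sum.inl k)))) (fun n => Sum.inr (g (Sum.inr n)))
  refine ⟨φ.map (Finsupp.mapDomain r), fun M _ _ x => ?_⟩
  have h1 : ∀ (y : ℕ → M) (e : ((ι ⊕ κ) ⊕ ℕ) →₀ R), Finsupp.linearCombination R (Sum.elim x y)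
      (Finsupp.mapDomain r e) =
      Finsupp.linearCombination R (Sum.elim (Sum.elim x (fun k => y (g (Sum.inl k))))
        (fun n => y (g (Sum.inr n)))) e := by
    intro y e
    rw [Finsupp.linearCombination_mapDomain]
    congr 2
    funext i
    rcases i with (i | i) | i <;> rfl
  constructor
  · rintro ⟨y, hy⟩
    rw [hφ] at hy
    obtain ⟨z, hz⟩ := hy
    refine ⟨Function.extend g (Sum.elim y z) 0, fun e' he' => ?_⟩
    obtain ⟨e, he, rfl⟩ := List.mem_map.mp he'
    rw [h1]
    simp only [hg.extend_apply, Sum.elim_inl, Sum.elim_inr]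
    exact hz e he
  · rintro ⟨y, hy⟩
    refine ⟨fun k => y (g (Sum.inl k)), ?_⟩
    rw [hφ]
    refine ⟨fun n => y (g (Sum.inr n)), fun e he => ?_⟩
    rw [← h1]
    exact hy _ (List.mem_map_of_mem he)

/-- finite conjunctions -/
theorem isPP_list (l : List (PP R ι)) : IsPP (R := R) (fun M _ _ x => ∀ φ ∈ l, Sat φ M x) := by
  induction l with
  | nil => exact isPP_true.congr (fun M _ _ x => by simp)
  | cons φ l ih => exact ((isPP_sat φ).and ih).congr (fun M _ _ x => by simp)

theorem isPP_finset (s : Finset (PP R ι)) :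
    IsPP (R := R) (fun M _ _ x => ∀ φ ∈ s, Sat φ M x) := by
  classical
  exact (isPP_list s.toList).congr (fun M _ _ x => by simp)

/-- sums of formulas -/
theorem IsPP.sum {F G : ∀ (M : Type) [AddCommGroup M] [Module R M], (ι → M) → Prop}
    [Countable ι] (hF : IsPP F) (hG : IsPP G) :
    IsPP (R := R) (fun M _ _ x => ∃ y : ι → M, F M y ∧ G M (x - y)) := by
  have h1 : IsPP (R := R) (ι := ι ⊕ ι) (fun M _ _ z => F M (z ∘ Sum.inr)) := hF.comap Sum.inr
  have h2 : IsPP (R := R) (ι := ι ⊕ ι) (fun M _ _ z => G M (fun i => z (Sum.inl i) - z (Sum.inr i))) := by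
    refine (hG.subst (fun i : ι => Finsupp.single (Sum.inl i) (1 : R) -
      Finsupp.single (Sum.inr i) 1)).congr (fun M _ _ x => ?_)
    simp [map_sub]
  exact (h1.and h2).ex.congr (fun M _ _ x => Iff.rfl)

/-- images of a formula under a relation -/
theorem IsPP.image [Countable ι] {F : ∀ (M : Type) [AddCommGroup M] [Module R M], (ι → M) → Prop}
    {G : ∀ (M : Type) [AddCommGroup M] [Module R M], (ι ⊕ κ → M) → Prop}
    (hF : IsPP F) (hG : IsPP G) :
    IsPP (R := R) (fun M _ _ (y : κ → M) => ∃ x : ι → M, F M x ∧ G M (Sum.elim x y)) := by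
  have h1 : IsPP (R := R) (ι := κ ⊕ ι) (fun M _ _ z => F M (z ∘ Sum.inr)) := hF.comap Sum.inr
  have h2 : IsPP (R := R) (ι := κ ⊕ ι) (fun M _ _ z => G M (z ∘ Sum.elim Sum.inr Sum.inl)) :=
    hG.comap (Sum.elim Sum.inr Sum.inl)
  refine (h1.and h2).ex.congr (fun M _ _ y => ?_)
  refine exists_congr fun x => and_congr Iff.rfl (iff_of_eq ?_)
  congr 1
  funext i
  cases i <;> rfl

instance [Countable R] [Countable ι] : Countable (PP R ι) := by
  unfold PP
  infer_instance

end Pool.Agent.MVC
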