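import Pool.Agent.MVC.Api3

/-!
# Level-one formulas: closure properties

`IsL0 F`: the family `F` is given by a level-one formula in all modules (without the restriction to a
class). All closure properties are proved for `IsL0`, and `IsL0.isL1` gives `X.IsL1`.
-/

set_option autoImplicit false
set_option linter.unusedSectionVars false
set_option linter.unusedVariables false

namespace Pool.Agent.MVC

open Set

variable {R : Type} [Ring R] {ι κ : Type}
variable {M N : Type} [AddCommGroup M] [Module R M] [AddCommGroup N] [Module R N]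

/-- the subgroup defined by a level-one formula -/
def sat1Group (V : L1 R ι) (M : Type) [AddCommGroup M] [Module R M] : AddSubgroup (ι → M) where
  carrier := {x | Sat1 V M x}
  add_mem' := Sat1.add
  zero_mem' := Sat1.zero V
  neg_mem' := Sat1.neg

theorem mem_sat1Group {V : L1 R ι} {x : ι → M} : x ∈ sat1Group V M ↔ Sat1 V M x := Iff.rfl

/-- A family of relations given by a level-one formula in all modules. -/
def IsL0 (F : ∀ (M : Type) [AddCommGroup M] [Module R M], (ι → M) → Prop) : Prop :=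
  ∃ V : L1 R ι, ∀ (M : Type) [AddCommGroup M] [Module R M] (x : ι → M), F M x ↔ Sat1 V M x

theorem IsL0.isL1 {F : ∀ (M : Type) [AddCommGroup M] [Module R M], (ι → M) → Prop}
    (h : IsL0 F) (X : Ax R) : X.IsL1 F := by
  obtain ⟨V, hV⟩ := h
  exact ⟨V, fun M _ _ _ _ x => hV M x⟩

theorem isL0_sat1 (V : L1 R ι) : IsL0 (R := R) (fun M _ _ x => Sat1 V M x) :=
  ⟨V, fun M _ _ x => Iff.rfl⟩

theorem IsL0.congr {F G : ∀ (M : Type) [AddCommGroup M] [Module R M], (ι → M) → Prop}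
    (hF : IsL0 F) (h : ∀ (M : Type) [AddCommGroup M] [Module R M] (x : ι → M), F M x ↔ G M x) :
    IsL0 G := by
  obtain ⟨φ, hφ⟩ := hF
  exact ⟨φ, fun M _ _ x => (h M x).symm.trans (hφ M x)⟩

/-- The general form of a level-one formula: the bound variables are indexed by a finite type and
there is any set of families of pp relations. -/
theorem isL0_of_set [Finite κ]
    (𝒮 : Set (∀ (M : Type) [AddCommGroup M] [Module R M], (ι ⊕ κ → M) → Prop))
    (h : ∀ F ∈ 𝒮, IsPP F) :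
    IsL0 (R := R) (fun M _ _ (x : ι → M) => ∃ t : κ → M, ∀ F ∈ 𝒮, F M (Sum.elim x t)) := by
  obtain ⟨n, ⟨e⟩⟩ := Finite.exists_equiv_fin κ
  refine ⟨⟨n, {φ | ∃ F ∈ 𝒮, ∀ (M : Type) [AddCommGroup M] [Module R M] (x : ι ⊕ Fin n → M),
    F M (x ∘ Sum.map id e) ↔ Sat φ M x}⟩, fun M _ _ x => ?_⟩
  constructor
  · rintro ⟨t, ht⟩
    refine ⟨t ∘ e.symm, ?_⟩
    rintro φ ⟨F, hF, hφ⟩
    rw [← hφ]
    have h1 : Sum.elim x (t ∘ e.symm) ∘ Sum.map id e = Sum.elim x t := by
      funext i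
      cases i <;> simp
    rw [h1]
    exact ht F hF
  · rintro ⟨t, ht⟩
    refine ⟨t ∘ e, fun F hF => ?_⟩
    obtain ⟨φ, hφ⟩ := (h F hF).comap (Sum.map (id : ι → ι) e)
    have h2 := ht φ ⟨F, hF, fun M _ _ x => hφ M x⟩
    have h3 : F M (Sum.elim x t ∘ Sum.map id e) := (hφ M _).mpr h2
    have h1 : Sum.elim x t ∘ Sum.map id e = Sum.elim x (t ∘ e) := by
      funext i
      cases i <;> simp
    rw [h1] at h3
    exact h3

/-- a set of pp formulas (a type) is a level-one formula -/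
theorem isL0_re (S : Set (PP R ι)) : IsL0 (R := R) (fun M _ _ x => Re S M x) := by
  refine (isL0_of_set (R := R) (ι := ι) (κ := PEmpty)
    {F | ∃ φ ∈ S, F = fun (M : Type) [AddCommGroup M] [Module R M] (z : ι ⊕ PEmpty → M) => Sat φ M (z ∘ Sum.inl)} ?_).congr ?_
  · rintro F ⟨φ, hφ, rfl⟩
    exact (isPP_sat φ).comap Sum.inl
  · intro M _ _ x
    constructor
    · rintro ⟨t, ht⟩ φ hφ
      exact ht _ ⟨φ, hφ, rfl⟩
    · intro h
      refine ⟨PEmpty.elim, ?_⟩
      rintro F ⟨φ, hφ, rfl⟩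
      exact h φ hφ

/-- a pp relation is a level-one relation -/
theorem IsPP.isL0 {F : ∀ (M : Type) [AddCommGroup M] [Module R M], (ι → M) → Prop}
    (hF : IsPP F) : IsL0 F := by
  obtain ⟨φ, hφ⟩ := hF
  refine (isL0_re {φ}).congr fun M _ _ x => ?_
  rw [hφ M x]
  exact ⟨fun h => h φ (mem_singleton φ), fun h ψ hψ => by
    rw [mem_singleton_iff] at hψ
    rw [hψ]
    exact h⟩

theorem isL0_true : IsL0 (R := R) (ι := ι) (fun M _ _ x => True) := isPP_true.isL0

/-- linear substitution -/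
theorem IsL0.subst {F : ∀ (M : Type) [AddCommGroup M] [Module R M], (κ → M) → Prop}
    (hF : IsL0 F) (f : κ → (ι →₀ R)) :
    IsL0 (R := R) (fun M _ _ (x : ι → M) =>
      F M (fun i => Finsupp.linearCombination R x (f i))) := by
  obtain ⟨V, hV⟩ := hF
  refine (isL0_of_set (R := R) (ι := ι) (κ := Fin V.1)
    {F | ∃ φ ∈ V.2, F = fun (M : Type) [AddCommGroup M] [Module R M] (z : ι ⊕ Fin V.1 → M) => Sat φ M (Sum.elim
      (fun i => Finsupp.linearCombination R (z ∘ Sum.inl) (f i)) (z ∘ Sum.inr))} ?_).congr ?_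
  · rintro F ⟨φ, hφ, rfl⟩
    refine ((isPP_sat φ).subst (ι := ι ⊕ Fin V.1) (Sum.elim
      (fun i => (f i).mapDomain Sum.inl) (fun n => Finsupp.single (Sum.inr n) 1))).congr ?_
    intro M _ _ x
    refine iff_of_eq ?_
    congr 1
    funext i
    cases i with
    | inl i =>
      simp only [Sum.elim_inl]
      rw [Finsupp.linearCombination_mapDomain]
    | inr n => simp
  · intro M _ _ x
    rw [hV]
    unfold Sat1
    refine exists_congr fun t => ?_
    constructor
    · intro h φ hφ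
      exact h _ ⟨φ, hφ, rfl⟩
    · rintro h F ⟨φ, hφ, rfl⟩
      exact h φ hφ

/-- renaming of variables -/
theorem IsL0.comap {F : ∀ (M : Type) [AddCommGroup M] [Module R M], (κ → M) → Prop}
    (hF : IsL0 F) (f : κ → ι) : IsL0 (R := R) (fun M _ _ (x : ι → M) => F M (x ∘ f)) := by
  refine (hF.subst (fun k => Finsupp.single (f k) (1 : R))).congr fun M _ _ x => ?_
  refine iff_of_eq ?_
  congr 1
  funext i
  simp

/-- countable or uncountable conjunction with the same bound variables is built into the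
definition; this is the conjunction of two level-one families -/
theorem IsL0.and {F G : ∀ (M : Type) [AddCommGroup M] [Module R M], (ι → M) → Prop}
    (hF : IsL0 F) (hG : IsL0 G) : IsL0 (R := R) (fun M _ _ x => F M x ∧ G M x) := by
  obtain ⟨V, hV⟩ := hF
  obtain ⟨W, hW⟩ := hG
  refine (isL0_of_set (R := R) (ι := ι) (κ := Fin V.1 ⊕ Fin W.1)
    ({F | ∃ φ ∈ V.2, F = fun (M : Type) [AddCommGroup M] [Module R M] (z : ι ⊕ (Fin V.1 ⊕ Fin W.1) → M) =>
      Sat φ M (z ∘ Sum.map id Sum.inl)} ∪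
      {F | ∃ φ ∈ W.2, F = fun (M : Type) [AddCommGroup M] [Module R M] (z : ι ⊕ (Fin V.1 ⊕ Fin W.1) → M) =>
      Sat φ M (z ∘ Sum.map id Sum.inr)}) ?_).congr ?_
  · rintro F (⟨φ, hφ, rfl⟩ | ⟨φ, hφ, rfl⟩)
    · exact (isPP_sat φ).comap _
    · exact (isPP_sat φ).comap _
  · intro M _ _ x
    rw [hV, hW]
    have h1 : ∀ t : Fin V.1 ⊕ Fin W.1 → M, Sum.elim x t ∘ Sum.map id Sum.inl =
        Sum.elim x (t ∘ Sum.inl) := by
      intro t
      funext i
      cases i <;> rfl
    have h2 : ∀ t : Fin V.1 ⊕ Fin W.1 → M, Sum.elim x t ∘ Sum.map id Sum.inr =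
        Sum.elim x (t ∘ Sum.inr) := by
      intro t
      funext i
      cases i <;> rfl
    constructor
    · rintro ⟨t, ht⟩
      refine ⟨⟨t ∘ Sum.inl, fun φ hφ => ?_⟩, ⟨t ∘ Sum.inr, fun φ hφ => ?_⟩⟩
      · rw [← h1]
        exact ht _ (Or.inl ⟨φ, hφ, rfl⟩)
      · rw [← h2]
        exact ht _ (Or.inr ⟨φ, hφ, rfl⟩)
    · rintro ⟨⟨s, hs⟩, ⟨t, ht⟩⟩
      refine ⟨Sum.elim s t, ?_⟩
      rintro F (⟨φ, hφ, rfl⟩ | ⟨φ, hφ, rfl⟩)
      · show Sat φ M (Sum.elim x (Sum.elim s t) ∘ Sum.map id Sum.inl)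
        rw [h1]
        exact hs φ hφ
      · show Sat φ M (Sum.elim x (Sum.elim s t) ∘ Sum.map id Sum.inr)
        rw [h2]
        exact ht φ hφ

theorem IsL0.ex [Finite κ] {F : ∀ (M : Type) [AddCommGroup M] [Module R M], (ι ⊕ κ → M) → Prop}
    (hF : IsL0 F) :
    IsL0 (R := R) (fun M _ _ (x : ι → M) => ∃ y : κ → M, F M (Sum.elim x y)) := by
  obtain ⟨V, hV⟩ := hF
  refine (isL0_of_set (R := R) (ι := ι) (κ := κ ⊕ Fin V.1)
    {F | ∃ φ ∈ V.2, F = fun (M : Type) [AddCommGroup M] [Module R M] (z : ι ⊕ (κ ⊕ Fin V.1) → M) =>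
      Sat φ M (z ∘ (Equiv.sumAssoc ι κ (Fin V.1)))} ?_).congr ?_
  · rintro F ⟨φ, hφ, rfl⟩
    exact (isPP_sat φ).comap _
  · intro M _ _ x
    have h1 : ∀ (y : κ → M) (t : Fin V.1 → M), Sum.elim x (Sum.elim y t) ∘
        (Equiv.sumAssoc ι κ (Fin V.1)) = Sum.elim (Sum.elim x y) t := by
      intro y t
      funext i
      rcases i with (i | i) | i <;> rfl
    constructor
    · rintro ⟨t, ht⟩
      refine ⟨t ∘ Sum.inl, ?_⟩
      rw [hV]
      refine ⟨t ∘ Sum.inr, fun φ hφ => ?_⟩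
      rw [← h1]
      have := ht _ ⟨φ, hφ, rfl⟩
      rwa [← Sum.elim_comp_inl_inr t] at this
    · rintro ⟨y, hy⟩
      rw [hV] at hy
      obtain ⟨t, ht⟩ := hy
      refine ⟨Sum.elim y t, ?_⟩
      rintro F ⟨φ, hφ, rfl⟩
      show Sat φ M (Sum.elim x (Sum.elim y t) ∘ (Equiv.sumAssoc ι κ (Fin V.1)))
      rw [h1]
      exact ht φ hφ

/-- a finite conjunction -/
theorem isL0_forall_lt (W : ℕ → L1 R ι) (n : ℕ) :
    IsL0 (R := R) (fun M _ _ x => ∀ i < n, Sat1 (W i) M x) := by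
  induction n with
  | zero => exact isL0_true.congr (fun M _ _ x => by simp)
  | succ n ih =>
    refine (ih.and (isL0_sat1 (W n))).congr (fun M _ _ x => ?_)
    constructor
    · rintro ⟨h1, h2⟩ i hi
      rcases Nat.lt_succ_iff_lt_or_eq.mp hi with h | rfl
      · exact h1 i h
      · exact h2
    · intro h
      exact ⟨fun i hi => h i (Nat.lt_succ_of_lt hi), h n (Nat.lt_succ_self n)⟩

/-- sums of level-one families -/
theorem IsL0.sum {F G : ∀ (M : Type) [AddCommGroup M] [Module R M], (ι → M) → Prop}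
    [Finite ι] (hF : IsL0 F) (hG : IsL0 G) :
    IsL0 (R := R) (fun M _ _ x => ∃ y : ι → M, F M y ∧ G M (x - y)) := by
  have h1 : IsL0 (R := R) (ι := ι ⊕ ι) (fun M _ _ z => F M (z ∘ Sum.inr)) := hF.comap Sum.inr
  have h2 : IsL0 (R := R) (ι := ι ⊕ ι)
      (fun M _ _ z => G M (fun i => z (Sum.inl i) - z (Sum.inr i))) := by
    refine (hG.subst (fun i : ι => Finsupp.single (Sum.inl i) (1 : R) -
      Finsupp.single (Sum.inr i) 1)).congr (fun M _ _ x => ?_)
    simp [map_sub]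
  exact (h1.and h2).ex.congr (fun M _ _ x => Iff.rfl)

/-- images of a level-one family under a relation -/
theorem IsL0.image [Finite ι] {F : ∀ (M : Type) [AddCommGroup M] [Module R M], (ι → M) → Prop}
    {G : ∀ (M : Type) [AddCommGroup M] [Module R M], (ι ⊕ κ → M) → Prop}
    (hF : IsL0 F) (hG : IsL0 G) :
    IsL0 (R := R) (fun M _ _ (y : κ → M) => ∃ x : ι → M, F M x ∧ G M (Sum.elim x y)) := by
  have h1 : IsL0 (R := R) (ι := κ ⊕ ι) (fun M _ _ z => F M (z ∘ Sum.inr)) := hF.comap Sum.inr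
  have h2 : IsL0 (R := R) (ι := κ ⊕ ι) (fun M _ _ z => G M (z ∘ Sum.elim Sum.inr Sum.inl)) :=
    hG.comap (Sum.elim Sum.inr Sum.inl)
  refine (h1.and h2).ex.congr (fun M _ _ y => ?_)
  refine exists_congr fun x => and_congr Iff.rfl (iff_of_eq ?_)
  congr 1
  funext i
  cases i <;> rfl

/-- the formula with given meaning -/
noncomputable def IsL0.fm {F : ∀ (M : Type) [AddCommGroup M] [Module R M], (ι → M) → Prop}
    (h : IsL0 F) : L1 R ι := h.choose

theorem IsL0.fm_iff {F : ∀ (M : Type) [AddCommGroup M] [Module R M], (ι → M) → Prop}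
    (h : IsL0 F) {x : ι → M} : Sat1 h.fm M x ↔ F M x := (h.choose_spec M x).symm

end Pool.Agent.MVC
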