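import Pool.Agent.MVC.Api2

/-!
# Level-one formulas: closure properties
-/

set_option autoImplicit false
set_option linter.unusedSectionVars false
set_option linter.unusedVariables false

namespace Pool.Agent.MVC

open Set Ax

variable {R : Type} [Ring R] {ι κ : Type} {X : Ax R}
variable {M N K : Type} [AddCommGroup M] [Module R M] [AddCommGroup N] [Module R N]
  [AddCommGroup K] [Module R K]

/-- the set of the formulas `φ(x ∘ f)`, `φ ∈ S`, up to equivalence -/
theorem exists_comap_set (S : Set (PP R κ)) (f : κ → ι) : ∃ T : Set (PP R ι),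
    ∀ (M : Type) [AddCommGroup M] [Module R M] (x : ι → M), Re T M x ↔ Re S M (x ∘ f) := by
  choose g hg using fun φ : PP R κ => (isPP_sat (R := R) φ).comap f
  refine ⟨g '' S, fun M _ _ x => ⟨fun h φ hφ => (hg φ M x).mpr (h _ (mem_image_of_mem g hφ)), ?_⟩⟩
  rintro h _ ⟨φ, hφ, rfl⟩
  exact (hg φ M x).mp (h φ hφ)

/-- linear substitution in a set of formulas -/
theorem exists_subst_set (S : Set (PP R κ)) (f : κ → (ι →₀ R)) : ∃ T : Set (PP R ι),
    ∀ (M : Type) [AddCommGroup M] [Module R M] (x : ι → M),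
      Re T M x ↔ Re S M (fun i => Finsupp.linearCombination R x (f i)) := by
  choose g hg using fun φ : PP R κ => (isPP_sat (R := R) φ).subst f
  refine ⟨g '' S, fun M _ _ x => ⟨fun h φ hφ => (hg φ M x).mpr (h _ (mem_image_of_mem g hφ)), ?_⟩⟩
  rintro h _ ⟨φ, hφ, rfl⟩
  exact (hg φ M x).mp (h φ hφ)

/-- a family given by a set of formulas -/
theorem isL1_re (S : Set (PP R ι)) : X.IsL1 (fun M _ _ x => Re S M x) := by
  obtain ⟨T, hT⟩ := exists_comap_set (ι := ι ⊕ Fin 0) S Sum.inl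
  refine ⟨⟨0, T⟩, fun M _ _ _ _ x => ?_⟩
  constructor
  · intro h
    exact ⟨Fin.elim0, (hT M _).mpr (by simpa using h)⟩
  · rintro ⟨t, ht⟩
    simpa using (hT M _).mp ht

theorem isL1_sat1 (V : L1 R ι) : X.IsL1 (fun M _ _ x => Sat1 V M x) :=
  ⟨V, fun M _ _ _ _ x => Iff.rfl⟩

theorem isL1_pp {F : ∀ (M : Type) [AddCommGroup M] [Module R M], (ι → M) → Prop}
    (hF : IsPP F) : X.IsL1 F := by
  obtain ⟨φ, hφ⟩ := hF
  obtain ⟨V, hV⟩ := isL1_re (X := X) ({φ} : Set (PP R ι))
  refine ⟨V, fun M _ _ hc hM x => ?_⟩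
  rw [hφ, ← hV M hc hM x]
  simp [Re]

theorem Ax.IsL1.congr {F G : ∀ (M : Type) [AddCommGroup M] [Module R M], (ι → M) → Prop}
    (hF : X.IsL1 F) (h : ∀ (M : Type) [AddCommGroup M] [Module R M], Countable M → X.In M →
      ∀ x : ι → M, F M x ↔ G M x) : X.IsL1 G := by
  obtain ⟨V, hV⟩ := hF
  exact ⟨V, fun M _ _ hc hM x => (h M hc hM x).symm.trans (hV M hc hM x)⟩

/-- level-one formulas with an arbitrary finite set of bound variables -/
theorem isL1_exists [Finite κ] (S : Set (PP R (ι ⊕ κ))) :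
    X.IsL1 (fun M _ _ (x : ι → M) => ∃ t : κ → M, Re S M (Sum.elim x t)) := by
  cases nonempty_fintype κ
  let e := Fintype.equivFin κ
  obtain ⟨T, hT⟩ := exists_comap_set (ι := ι ⊕ Fin (Fintype.card κ)) S (Sum.map id e)
  refine ⟨⟨Fintype.card κ, T⟩, fun M _ _ _ _ x => ?_⟩
  constructor
  · rintro ⟨t, ht⟩
    refine ⟨t ∘ e.symm, (hT M _).mpr ?_⟩
    have : (Sum.elim x (t ∘ e.symm)) ∘ (Sum.map id e) = Sum.elim x t := by
      funext i
      cases i <;> simp
    rw [this]
    exact ht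
  · rintro ⟨t, ht⟩
    refine ⟨t ∘ e, ?_⟩
    have h1 := (hT M _).mp ht
    have : (Sum.elim x t) ∘ (Sum.map id e) = Sum.elim x (t ∘ e) := by
      funext i
      cases i <;> simp
    rw [this] at h1
    exact h1

theorem Ax.IsL1.subst {F : ∀ (M : Type) [AddCommGroup M] [Module R M], (κ → M) → Prop}
    (hF : X.IsL1 F) (f : κ → (ι →₀ R)) :
    X.IsL1 (fun M _ _ (x : ι → M) => F M (fun i => Finsupp.linearCombination R x (f i))) := by
  obtain ⟨⟨k, S⟩, hV⟩ := hF
  obtain ⟨T, hT⟩ := exists_subst_set (ι := ι ⊕ Fin k) S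
    (Sum.elim (fun i => (f i).mapDomain Sum.inl) (fun j => Finsupp.single (Sum.inr j) 1))
  refine ⟨⟨k, T⟩, fun M _ _ hc hM x => (hV M hc hM _).trans ?_⟩
  refine exists_congr fun t => ?_
  show Re S M _ ↔ Re T M _
  rw [hT]
  have : (Sum.elim (fun i => Finsupp.linearCombination R x (f i)) t : κ ⊕ Fin k → M) =
      fun i => Finsupp.linearCombination R (Sum.elim x t)
        ((Sum.elim (fun i => (f i).mapDomain Sum.inl)
          (fun j => Finsupp.single (Sum.inr j) 1) : κ ⊕ Fin k → _) i) := by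
    funext i
    cases i with
    | inl i =>
      simp only [Sum.elim_inl]
      rw [Finsupp.linearCombination_mapDomain]
      rfl
    | inr j => simp
  rw [this]

theorem Ax.IsL1.comap {F : ∀ (M : Type) [AddCommGroup M] [Module R M], (κ → M) → Prop}
    (hF : X.IsL1 F) (f : κ → ι) : X.IsL1 (fun M _ _ (x : ι → M) => F M (x ∘ f)) := by
  refine (hF.subst (fun k => Finsupp.single (f k) (1 : R))).congr (fun M _ _ _ _ x => ?_)
  have : (fun i => Finsupp.linearCombination R x (Finsupp.single (f i) (1 : R))) = x ∘ f := by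
    funext i
    simp
  rw [this]

theorem Ax.IsL1.and {F G : ∀ (M : Type) [AddCommGroup M] [Module R M], (ι → M) → Prop}
    (hF : X.IsL1 F) (hG : X.IsL1 G) : X.IsL1 (fun M _ _ x => F M x ∧ G M x) := by
  obtain ⟨⟨k, S⟩, hV⟩ := hF
  obtain ⟨⟨l, T⟩, hW⟩ := hG
  obtain ⟨S', hS'⟩ := exists_comap_set (ι := ι ⊕ (Fin k ⊕ Fin l)) S (Sum.map id Sum.inl)
  obtain ⟨T', hT'⟩ := exists_comap_set (ι := ι ⊕ (Fin k ⊕ Fin l)) T (Sum.map id Sum.inr)
  refine (isL1_exists (X := X) (κ := Fin k ⊕ Fin l) (S' ∪ T')).congr (fun M _ _ hc hM x => ?_)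
  rw [hV M hc hM, hW M hc hM]
  constructor
  · rintro ⟨t, ht⟩
    rw [re_union, hS', hT'] at ht
    refine ⟨⟨t ∘ Sum.inl, ?_⟩, ⟨t ∘ Sum.inr, ?_⟩⟩
    · have : (Sum.elim x t) ∘ (Sum.map id Sum.inl) = Sum.elim x (t ∘ Sum.inl) := by
        funext i
        cases i <;> rfl
      rw [this] at ht
      exact ht.1
    · have : (Sum.elim x t) ∘ (Sum.map id Sum.inr) = Sum.elim x (t ∘ Sum.inr) := by
        funext i
        cases i <;> rfl
      rw [this] at ht
      exact ht.2
  · rintro ⟨⟨s, hs⟩, ⟨t, ht⟩⟩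
    refine ⟨Sum.elim s t, ?_⟩
    rw [re_union, hS', hT']
    constructor
    · have : (Sum.elim x (Sum.elim s t)) ∘ (Sum.map id Sum.inl) = Sum.elim x s := by
        funext i
        cases i <;> rfl
      rw [this]
      exact hs
    · have : (Sum.elim x (Sum.elim s t)) ∘ (Sum.map id Sum.inr) = Sum.elim x t := by
        funext i
        cases i <;> rfl
      rw [this]
      exact ht

theorem Ax.IsL1.ex [Finite κ] {F : ∀ (M : Type) [AddCommGroup M] [Module R M], (ι ⊕ κ → M) → Prop}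
    (hF : X.IsL1 F) : X.IsL1 (fun M _ _ (x : ι → M) => ∃ y : κ → M, F M (Sum.elim x y)) := by
  obtain ⟨⟨k, S⟩, hV⟩ := hF
  obtain ⟨S', hS'⟩ := exists_comap_set (ι := ι ⊕ (κ ⊕ Fin k)) S
    (Sum.elim (Sum.map id Sum.inl) (fun j => Sum.inr (Sum.inr j)))
  refine (isL1_exists (X := X) (κ := κ ⊕ Fin k) S').congr (fun M _ _ hc hM x => ?_)
  constructor
  · rintro ⟨t, ht⟩
    rw [hS'] at ht
    refine ⟨t ∘ Sum.inl, (hV M hc hM _).mpr ⟨t ∘ Sum.inr, ?_⟩⟩
    have : (Sum.elim x t) ∘ (Sum.elim (Sum.map id Sum.inl) (fun j => Sum.inr (Sum.inr j))) =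
        Sum.elim (Sum.elim x (t ∘ Sum.inl)) (t ∘ Sum.inr) := by
      funext i
      rcases i with (i | i) | i <;> rfl
    rw [this] at ht
    exact ht
  · rintro ⟨y, hy⟩
    obtain ⟨t, ht⟩ := (hV M hc hM _).mp hy
    refine ⟨Sum.elim y t, ?_⟩
    rw [hS']
    have : (Sum.elim x (Sum.elim y t)) ∘
        (Sum.elim (Sum.map id Sum.inl) (fun j => Sum.inr (Sum.inr j))) =
        Sum.elim (Sum.elim x y) t := by
      funext i
      rcases i with (i | i) | i <;> rfl
    rw [this]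
    exact ht

theorem Ax.IsL1.sum [Finite ι] {F G : ∀ (M : Type) [AddCommGroup M] [Module R M], (ι → M) → Prop}
    (hF : X.IsL1 F) (hG : X.IsL1 G) :
    X.IsL1 (fun M _ _ x => ∃ y : ι → M, F M y ∧ G M (x - y)) := by
  have h1 : X.IsL1 (ι := ι ⊕ ι) (fun M _ _ z => F M (z ∘ Sum.inr)) := hF.comap Sum.inr
  have h2 : X.IsL1 (ι := ι ⊕ ι) (fun M _ _ z => G M (fun i => z (Sum.inl i) - z (Sum.inr i))) := by
    refine (hG.subst (fun i : ι => Finsupp.single (Sum.inl i) (1 : R) -
      Finsupp.single (Sum.inr i) 1)).congr (fun M _ _ _ _ x => ?_)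
    simp [map_sub]
  exact (h1.and h2).ex.congr (fun M _ _ _ _ x => Iff.rfl)

/-- finite conjunctions of level-one families -/
theorem isL1_forall {A : Type} [Finite A]
    {F : A → ∀ (M : Type) [AddCommGroup M] [Module R M], (ι → M) → Prop}
    (hF : ∀ a, X.IsL1 (F a)) : X.IsL1 (fun M _ _ x => ∀ a, F a M x) := by
  classical
  cases nonempty_fintype A
  suffices H : ∀ s : Finset A, X.IsL1 (fun M _ _ x => ∀ a ∈ s, F a M x) from
    (H Finset.univ).congr (fun M _ _ _ _ x => by simp)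
  intro s
  induction s using Finset.induction_on with
  | empty => exact (isL1_pp isPP_true).congr (fun M _ _ _ _ x => by simp)
  | insert a s ha ih => exact ((hF a).and ih).congr (fun M _ _ _ _ x => by simp)

/-! ### Concrete renaming and substitution of formulas -/

/-- renaming of variables -/
noncomputable def ren (f : κ → ι) (φ : PP R κ) : PP R ι :=
  φ.map (Finsupp.mapDomain (Sum.map f id))

theorem sat_ren (f : κ → ι) (φ : PP R κ) (x : ι → M) : Sat (ren f φ) M x ↔ Sat φ M (x ∘ f) := by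
  unfold Sat ren
  refine exists_congr fun y => ?_
  have h1 : ∀ e : (κ ⊕ ℕ) →₀ R, Finsupp.linearCombination R (Sum.elim x y)
      (Finsupp.mapDomain (Sum.map f id) e) =
      Finsupp.linearCombination R (Sum.elim (x ∘ f) y) e := by
    intro e
    rw [Finsupp.linearCombination_mapDomain]
    congr 2
    funext i
    cases i <;> rfl
  constructor
  · intro h e he
    rw [← h1]
    exact h _ (List.mem_map_of_mem he)
  · intro h e' he'
    obtain ⟨e, he, rfl⟩ := List.mem_map.mp he'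
    rw [h1]
    exact h e he

theorem re_ren (f : κ → ι) (S : Set (PP R κ)) (x : ι → M) :
    Re (ren f '' S) M x ↔ Re S M (x ∘ f) := by
  constructor
  · intro h φ hφ
    exact (sat_ren f φ x).mp (h _ (mem_image_of_mem _ hφ))
  · rintro h _ ⟨φ, hφ, rfl⟩
    exact (sat_ren f φ x).mpr (h φ hφ)

/-- the formula `φ(0, t)` -/
noncomputable def zer (φ : PP R (ι ⊕ κ)) : PP R κ :=
  φ.map (Finsupp.linearCombination R (Sum.elim
    (Sum.elim (fun _ => 0) (fun k => Finsupp.single (Sum.inl k) 1))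
    (fun n => Finsupp.single (Sum.inr n) 1)))

theorem sat_zer (φ : PP R (ι ⊕ κ)) (t : κ → M) : Sat (zer φ) M t ↔ Sat φ M (Sum.elim 0 t) := by
  unfold Sat zer
  refine exists_congr fun y => ?_
  have h1 : ∀ e : ((ι ⊕ κ) ⊕ ℕ) →₀ R, Finsupp.linearCombination R (Sum.elim t y)
      (Finsupp.linearCombination R (Sum.elim
        (Sum.elim (fun _ => 0) (fun k => Finsupp.single (Sum.inl k) 1))
        (fun n => Finsupp.single (Sum.inr n) 1)) e) =
      Finsupp.linearCombination R (Sum.elim (Sum.elim 0 t) y) e := by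
    intro e
    rw [LinearMap.map_finsupp_linearCombination]
    congr 2
    funext i
    rcases i with (i | i) | i <;> simp
  constructor
  · intro h e he
    rw [← h1]
    exact h _ (List.mem_map_of_mem he)
  · intro h e' he'
    obtain ⟨e, he, rfl⟩ := List.mem_map.mp he'
    rw [h1]
    exact h e he

theorem re_zer (S : Set (PP R (ι ⊕ κ))) (t : κ → M) :
    Re (zer '' S) M t ↔ Re S M (Sum.elim 0 t) := by
  constructor
  · intro h φ hφ
    exact (sat_zer φ t).mp (h _ (mem_image_of_mem _ hφ))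
  · rintro h _ ⟨φ, hφ, rfl⟩
    exact (sat_zer φ t).mpr (h φ hφ)

/-- renaming of free variables in a level-one formula -/
noncomputable def ren1 (f : κ → ι) (V : L1 R κ) : L1 R ι :=
  ⟨V.1, ren (Sum.map f id) '' V.2⟩

theorem sat1_ren1 (f : κ → ι) (V : L1 R κ) (x : ι → M) :
    Sat1 (ren1 f V) M x ↔ Sat1 V M (x ∘ f) := by
  have key : ∀ t : Fin V.1 → M, Re (ren (Sum.map f id) '' V.2) M (Sum.elim x t) ↔
      Re V.2 M (Sum.elim (x ∘ f) t) := by
    intro t
    rw [re_ren]
    have : Sum.elim x t ∘ Sum.map f id = Sum.elim (x ∘ f) t := by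
      funext i
      cases i <;> rfl
    rw [this]
  exact exists_congr key

/-- a set of formulas as a level-one formula without bound variables -/
noncomputable def ofRe (S : Set (PP R ι)) : L1 R ι := ⟨0, ren Sum.inl '' S⟩

theorem sat1_ofRe (S : Set (PP R ι)) (x : ι → M) : Sat1 (ofRe S) M x ↔ Re S M x := by
  have key : ∀ t : Fin 0 → M, Re (ren (Sum.inl : ι → ι ⊕ Fin 0) '' S) M (Sum.elim x t) ↔
      Re S M x := by
    intro t
    rw [re_ren]
    rfl
  constructor
  · rintro ⟨t, ht⟩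
    exact (key t).mp ht
  · intro h
    exact ⟨Fin.elim0, (key Fin.elim0).mpr h⟩

/-- level-one types of equivalent tuples -/
theorem tp1_ren_iff (e : κ ≃ ι) (x : ι → M) (y : ι → N) :
    tp1 (R := R) M (x ∘ e) = tp1 N (y ∘ e) ↔ tp1 (R := R) M x = tp1 N y := by
  constructor
  · intro h
    ext V
    have h1 : ren1 e.symm V ∈ tp1 (R := R) M (x ∘ e) ↔ ren1 e.symm V ∈ tp1 N (y ∘ e) := by rw [h]
    have h2 : Sat1 (ren1 e.symm V) M (x ∘ e) ↔ Sat1 V M x := by
      rw [sat1_ren1]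
      have : (x ∘ e) ∘ e.symm = x := by
        funext i
        simp
      rw [this]
    have h3 : Sat1 (ren1 e.symm V) N (y ∘ e) ↔ Sat1 V N y := by
      rw [sat1_ren1]
      have : (y ∘ e) ∘ e.symm = y := by
        funext i
        simp
      rw [this]
    exact h2.symm.trans (h1.trans h3)
  · intro h
    ext V
    have h1 : ren1 e V ∈ tp1 (R := R) M x ↔ ren1 e V ∈ tp1 N y := by rw [h]
    exact (sat1_ren1 e V x).symm.trans (h1.trans (sat1_ren1 e V y))

/-- `Few` for arbitrary finite index sets -/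
theorem Ax.Few.few {B : Type} [AddCommGroup B] [Module R B] (h : X.Few B) (ι : Type) [Finite ι] :
    {τ : Set (L1 R ι) | ∃ N : Md R, Countable N ∧ X.In N ∧
      ∃ x : ι → N, tp1 N x = τ}.Countable := by
  cases nonempty_fintype ι
  let e := Fintype.equivFin ι
  refine ((h.few1 (Fintype.card ι)).image fun τ => {V : L1 R ι | ren1 e V ∈ τ}).mono ?_
  rintro τ ⟨N, hc, hN, x, rfl⟩
  refine ⟨_, ⟨N, hc, hN, x ∘ e.symm, rfl⟩, ?_⟩
  ext V
  show Sat1 (ren1 e V) N (x ∘ e.symm) ↔ Sat1 V N x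
  rw [sat1_ren1]
  have : (x ∘ e.symm) ∘ e = x := by
    funext i
    simp
  rw [this]

end Pool.Agent.MVC
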