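import Pool.Agent.MVC.St3

/-!
# Vaught's conjecture for modules: a countable atomic generic module (helper68)
-/

set_option autoImplicit false
set_option linter.unusedSectionVars false
set_option linter.unusedVariables false

namespace Pool.Agent.MVC

open Set Ax

/-- honest modules for one formula are atomic -/
private theorem bge_hon {R : Type} [Ring R] {X : Ax R} {ι : Type} [Countable ι] {φ : PP R ι}
    {N : Type} [AddCommGroup N] [Module R N] {g : ι → N} (h : X.Honest {φ} N g) :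
    X.Atomic N := by
  intro k b
  obtain ⟨θ, hθ, hgen⟩ := h.gen k b
  obtain ⟨β, hβ⟩ := (isPP_sat (R := R) φ).image (isPP_sat (R := R) θ)
  refine ⟨β, (hβ N b).1 ⟨g, h.sat φ rfl, hθ⟩, fun ψ hψ M _ _ hM y hy => ?_⟩
  obtain ⟨x, hx, hxy⟩ := (hβ M y).2 hy
  obtain ⟨s, hs, h1⟩ := hgen (ren Sum.inr ψ) (by
    rw [sat_ren]
    exact hψ)
  have h2 := h1 M hM x y (fun χ hχ => by
    have h3 : χ = φ := hs hχ
    rw [h3]
    exact hx) hxy
  rw [sat_ren] at h2
  exact h2

/-- finite sums in a direct sum of atomic modules -/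
private theorem bge_sum {R : Type} [Ring R] {X : Ax R} {A : Type} [DecidableEq A] (N : A → Md R)
    (hN : ∀ a, X.Atomic (N a)) {k : ℕ} (c : ∀ a, Fin k → N a) (F : Finset A) :
    ∃ β : PP R (Fin k),
      Sat β (Π₀ a, N a) (fun j => ∑ a ∈ F, DFinsupp.single a (c a j)) ∧
      ∀ ψ : PP R (Fin k), (∀ a, Sat ψ (N a) (c a)) → X.Le β ψ := by
  induction F using Finset.induction_on with
  | empty =>
    obtain ⟨β, hβ⟩ := isPP_zero (R := R) (ι := Fin k)
    refine ⟨β, (hβ _ _).1 ?_, fun ψ _ M _ _ hM x hx => ?_⟩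
    · funext j
      simp
    · rw [(hβ M x).2 hx]
      exact Sat.zero ψ
  | @insert a F ha ih =>
    obtain ⟨β, h1, h2⟩ := ih
    obtain ⟨β', h1', h2'⟩ := hN a k (c a)
    obtain ⟨γ, hγ⟩ := (isPP_sat (R := R) β').sum (isPP_sat (R := R) β)
    refine ⟨γ, (hγ _ _).1 ⟨fun j => DFinsupp.single a (c a j), ?_, ?_⟩,
      fun ψ hψ M _ _ hM x hx => ?_⟩
    · exact h1'.map (DFinsupp.lsingle (R := R) (M := fun a => (N a : Type)) a)
    · have h3 : ((fun j => ∑ a ∈ insert a F, DFinsupp.single a (c a j) : Fin k → Π₀ a, N a) -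
          fun j => DFinsupp.single a (c a j)) = fun j => ∑ a ∈ F, DFinsupp.single a (c a j) := by
        funext j
        rw [Pi.sub_apply, Finset.sum_insert ha, add_sub_cancel_left]
      rw [h3]
      exact h1
    · obtain ⟨y, hy, hy'⟩ := (hγ M x).2 hx
      have h3 := (h2' ψ (hψ a) M hM y hy).add (h2 ψ hψ M hM _ hy')
      rwa [add_sub_cancel] at h3

/-- direct sums of atomic modules are atomic -/
private theorem bge_atomic (h3 : St_SDS) {R : Type} [Ring R] {X : Ax R} {A : Type}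
    [DecidableEq A] (N : A → Md R) (hN : ∀ a, X.Atomic (N a)) : X.Atomic (Π₀ a, N a) := by
  intro k b
  have hfin : (⋃ j, {a | b j a ≠ 0}).Finite :=
    Set.finite_iUnion fun j => DFinsupp.finite_support (b j)
  obtain ⟨β, h1, h2⟩ := bge_sum (X := X) N hN (fun a j => b j a) hfin.toFinset
  have h4 : (fun j => ∑ a ∈ hfin.toFinset, DFinsupp.single a (b j a)) = b := by
    funext j
    ext a
    rw [DFinsupp.finsetSum_apply]
    rw [Finset.sum_eq_single a]
    · rw [DFinsupp.single_eq_same]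
    · intro a' _ ha'
      exact DFinsupp.single_eq_of_ne ha'.symm
    · intro ha
      rw [DFinsupp.single_eq_same]
      by_contra hne
      exact ha (hfin.mem_toFinset.2 (mem_iUnion.2 ⟨j, hne⟩))
  rw [h4] at h1
  exact ⟨β, h1, fun ψ hψ => h2 ψ ((h3 R (Fin k) A N ψ b).1 hψ)⟩

/-- [BGE] a countable atomic generic module -/
theorem thm_BGE (h1 : St_HEX) (h2 : St_HDS) (h3 : St_SDS) : St_BGE := by
  classical
  intro R _ _ X
  let A : Type := ((n : ℕ) × PP R (Fin n)) × ℕ
  choose N g hg using fun a : A => h1 R X (Fin a.1.1) {a.1.2}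
  have hB := h2 R X A (fun a => Fin a.1.1) (fun a => {a.1.2}) N g hg
  refine ⟨⟨Π₀ a, N a⟩, hB.ctbl, hB.mem, bge_atomic h3 N fun a => bge_hon (hg a), hB.mem, ?_⟩
  intro n φ ψ hle
  let a : ℕ → A := fun i => (⟨n, φ⟩, i)
  let x : ℕ → Fin n → Π₀ a, N a := fun i j => DFinsupp.single (a i) (g (a i) j)
  refine ⟨x, fun i => ?_, fun i i' hii hs => hle ?_⟩
  · have h4 : Sat φ (N (a i)) (g (a i)) := (hg (a i)).sat φ rfl
    exact h4.map (DFinsupp.lsingle (R := R) (M := fun a => (N a : Type)) (a i))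
  · have h4 := (h3 R (Fin n) A N ψ (x i - x i')).1 hs (a i)
    have h5 : (fun j => (x i - x i') j (a i)) = g (a i) := by
      funext j
      show (DFinsupp.single (a i) (g (a i) j) - DFinsupp.single (a i') (g (a i') j) :
        Π₀ a, N a) (a i) = g (a i) j
      rw [DFinsupp.sub_apply, DFinsupp.single_eq_same, DFinsupp.single_eq_of_ne, sub_zero]
      intro h6
      exact hii (congrArg Prod.snd h6)
    rw [h5] at h4
    obtain ⟨s, hs', h6⟩ := (hg (a i)).gen0 ψ h4
    intro M _ _ hM x hx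
    refine h6 M hM x fun χ hχ => ?_
    have h7 : χ = φ := hs' hχ
    rw [h7]
    exact hx

end Pool.Agent.MVC
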