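import Pool.Agent.MVC.St

/-!
# Vaught's conjecture for modules: the Baire category lemma (4.2)
-/

set_option autoImplicit false
set_option linter.unusedSectionVars false
set_option linter.unusedVariables false

namespace Pool.Agent.MVC

open Set Ax

section

variable {R : Type} [Ring R] {D : Sys R}

/-- the part of the image of `Y m` at stage `m + j` which lies in `M` -/
private def BPL_pj (D : Sys R) (σ : ℕ → ℕ) (m : ℕ) : ∀ j : ℕ, D.Y m →ₗ[R] D.M
  | 0 => 0
  | j + 1 => BPL_pj D σ m j + D.c (m + j) (σ (m + j)) ∘ₗ itr D.a m j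

private def BPL_pr (D : Sys R) (k : ℕ) (u : D.M) (v : D.Y k) : D.G k := ((u, v) : D.M × D.Y k)

private theorem BPL_itr (σ : ℕ → ℕ) (m : ℕ) (u : D.M) (v : D.Y m) : ∀ j : ℕ,
    itr (D.t σ) m j (BPL_pr D m u v) =
      BPL_pr D (m + j) (u + BPL_pj D σ m j v) (itr D.a m j v)
  | 0 => by
    show BPL_pr D m u v = BPL_pr D m (u + 0) v
    rw [add_zero]
  | j + 1 => by
    show D.t σ (m + j) (itr (D.t σ) m j (BPL_pr D m u v)) = _
    rw [BPL_itr σ m u v j]
    show BPL_pr D (m + j + 1) (u + BPL_pj D σ m j v + D.c (m + j) (σ (m + j)) (itr D.a m j v))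
      (D.a (m + j) (itr D.a m j v)) = BPL_pr D (m + (j + 1)) (u + (BPL_pj D σ m j v +
      D.c (m + j) (σ (m + j)) (itr D.a m j v))) (D.a (m + j) (itr D.a m j v))
    exact congrArg (fun z => BPL_pr D (m + j + 1) z (D.a (m + j) (itr D.a m j v)))
      (add_assoc _ _ _)

private theorem BPL_inM (Λ : D.Lim) (σ : ℕ → ℕ) (u : D.M) :
    ∀ k : ℕ, Λ.of σ k (BPL_pr D k u 0) = Λ.inM σ u
  | 0 => rfl
  | k + 1 => by
    have h1 : D.t σ k (BPL_pr D k u 0) = BPL_pr D (k + 1) (u + D.c k (σ k) 0) (D.a k 0) := rfl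
    rw [← BPL_inM Λ σ u k, ← (Λ.isColim σ).comp k, h1, map_zero, map_zero, add_zero]

/-- `pj` depends only on finitely many values -/
private theorem BPL_pj_congr (σ σ' : ℕ → ℕ) (m : ℕ) : ∀ j : ℕ, (∀ i < m + j, σ i = σ' i) →
    BPL_pj D σ m j = BPL_pj D σ' m j
  | 0, _ => rfl
  | j + 1, h => by
    show BPL_pj D σ m j + D.c (m + j) (σ (m + j)) ∘ₗ itr D.a m j =
      BPL_pj D σ' m j + D.c (m + j) (σ' (m + j)) ∘ₗ itr D.a m j
    rw [BPL_pj_congr σ σ' m j (fun i hi => h i (by omega)), h (m + j) (by omega)]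

/-- changing one value -/
private theorem BPL_pj_upd (σ : ℕ → ℕ) (m l c : ℕ) (h0 : σ (m + l) = 0) (v : D.Y m) :
    ∀ j : ℕ, BPL_pj D (Function.update σ (m + l) c) m j v =
      BPL_pj D σ m j v + (if l < j then D.c (m + l) c (itr D.a m l v) else 0)
  | 0 => by
    show (0 : D.M) = 0 + _
    rw [if_neg (Nat.not_lt_zero l), add_zero]
  | j + 1 => by
    show BPL_pj D (Function.update σ (m + l) c) m j v +
        D.c (m + j) (Function.update σ (m + l) c (m + j)) (itr D.a m j v) =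
      (BPL_pj D σ m j v + D.c (m + j) (σ (m + j)) (itr D.a m j v)) + _
    rw [BPL_pj_upd σ m l c h0 v j]
    by_cases hjl : j = l
    · subst hjl
      rw [if_neg (lt_irrefl _), if_pos (Nat.lt_succ_self _), Function.update_self, h0,
        D.c0, LinearMap.zero_apply]
    · have h1 : m + j ≠ m + l := by omega
      rw [Function.update_of_ne h1]
      by_cases hlj : l < j
      · rw [if_pos hlj, if_pos (Nat.lt_succ_of_lt hlj)]
        abel
      · rw [if_neg hlj, if_neg (by omega)]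
        abel

/-- the statement at stage `m + j`, projected to `M` -/
private def BPL_S (D : Sys R) {ι : Type} {k : ℕ} (φ : PP R (ι ⊕ Fin k)) (w : ι → D.M) (m : ℕ)
    (x : Fin k → D.G m) (σ : ℕ → ℕ) (j : ℕ) : Prop :=
  Sat φ D.M (Sum.elim w (fun i => (x i : D.M × D.Y m).1 +
    BPL_pj D σ m j (x i : D.M × D.Y m).2))

private theorem BPL_mono {ι : Type} {k : ℕ} (φ : PP R (ι ⊕ Fin k)) (m : ℕ)
    (X : ι ⊕ Fin k → D.G m) (σ : ℕ → ℕ) (j : ℕ)
    (h : Sat φ (D.G (m + j)) (fun i => itr (D.t σ) m j (X i))) : ∀ d : ℕ,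
    Sat φ (D.G (m + (j + d))) (fun i => itr (D.t σ) m (j + d) (X i))
  | 0 => h
  | d + 1 => (BPL_mono φ m X σ j h d).map (D.t σ (m + (j + d)))

private theorem BPL_proj {ι : Type} {k : ℕ} (φ : PP R (ι ⊕ Fin k)) (w : ι → D.M) (m : ℕ)
    (x : Fin k → D.G m) (σ : ℕ → ℕ) (j : ℕ)
    (h : Sat φ (D.G (m + j)) (fun i => itr (D.t σ) m j
      (Sum.elim (fun i => BPL_pr D m (w i) 0) x i))) : BPL_S D φ w m x σ j := by
  have h1 := h.map (LinearMap.fst R D.M (D.Y (m + j)))
  have h2 : (⇑(LinearMap.fst R D.M (D.Y (m + j))) ∘ fun i => itr (D.t σ) m j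
      (Sum.elim (fun i => BPL_pr D m (w i) 0) x i)) =
      Sum.elim w (fun i => (x i : D.M × D.Y m).1 +
        BPL_pj D σ m j (x i : D.M × D.Y m).2) := by
    funext i
    rcases i with i | i
    · show (itr (D.t σ) m j (BPL_pr D m (w i) 0) : D.M × D.Y (m + j)).1 = w i
      rw [BPL_itr]
      show w i + BPL_pj D σ m j 0 = w i
      rw [map_zero, add_zero]
    · show (itr (D.t σ) m j (BPL_pr D m (x i : D.M × D.Y m).1 (x i : D.M × D.Y m).2) :
        D.M × D.Y (m + j)).1 = _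
      rw [BPL_itr]
      rfl
  exact (congrArg (fun z : ι ⊕ Fin k → D.M => Sat φ D.M z) h2).mp h1

end

private theorem BPL_basic (U : Set (ℕ → ℕ)) (hU : IsOpen U) (s : ℕ → ℕ) (hs : s ∈ U) :
    ∃ m : ℕ, cyl s m ⊆ U := by
  obtain ⟨V, hV, hsV, hVU⟩ :=
    (PiNat.isTopologicalBasis_cylinders (fun _ : ℕ => ℕ)).exists_subset_of_mem_open hs hU
  obtain ⟨x, n, rfl⟩ := hV
  refine ⟨n, fun y hy => hVU ?_⟩
  rw [PiNat.mem_cylinder_iff] at hsV ⊢
  intro i hi
  have h1 : y i = s i := hy i hi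
  exact h1.trans (hsV i hi)

private theorem BPL_open (s : ℕ → ℕ) (m : ℕ) : IsOpen (cyl s m) :=
  PiNat.isOpen_cylinder (fun _ : ℕ => ℕ) s m

/-- BPL. -/
theorem thm_BPL (h : St_COS) (h2 : St_MSG) : St_BPL := by
  classical
  intro R _ _ D Λ hM hY ι _ V w hnm
  have hG : ∀ m, Countable (D.G m) := fun m => by
    have := hY m
    exact inferInstanceAs (Countable (D.M × D.Y m))
  -- one pair `(m, x)`
  have hex : ∃ (m : ℕ) (x : Fin V.1 → D.G m), ¬ IsMeagre {σ : ℕ → ℕ | Re V.2 (Λ.L σ)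
      (fun i => Λ.of σ m (Sum.elim (fun i => BPL_pr D m (w i) 0) x i))} := by
    by_contra hcon
    push Not at hcon
    apply hnm
    have h3 : IsMeagre (⋃ p : (m : ℕ) × (Fin V.1 → D.G m), {σ : ℕ → ℕ | Re V.2 (Λ.L σ)
        (fun i => Λ.of σ p.1 (Sum.elim (fun i => BPL_pr D p.1 (w i) 0) p.2 i))}) :=
      isMeagre_iUnion fun p => hcon p.1 p.2
    refine h3.mono ?_
    rintro σ ⟨t, ht⟩
    obtain ⟨m, x, hx⟩ := (h R D.G (D.t σ) (Λ.L σ) (Λ.of σ) (Λ.isColim σ)).2.1 (Fin V.1) t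
    refine mem_iUnion.mpr ⟨⟨m, x⟩, ?_⟩
    show Re V.2 (Λ.L σ) (fun i => Λ.of σ m (Sum.elim (fun i => BPL_pr D m (w i) 0) x i))
    have h4 : (fun i => Λ.of σ m (Sum.elim (fun i => BPL_pr D m (w i) 0) x i)) =
        Sum.elim (fun i => Λ.inM σ (w i)) t := by
      funext i
      rcases i with i | i
      · exact BPL_inM Λ σ (w i) m
      · exact hx i
    rw [h4]
    exact ht
  obtain ⟨m, x, hE⟩ := hex
  set E : Set (ℕ → ℕ) := {σ : ℕ → ℕ | Re V.2 (Λ.L σ)
      (fun i => Λ.of σ m (Sum.elim (fun i => BPL_pr D m (w i) 0) x i))} with hEdef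
  -- a cylinder in which `E` is dense
  have hcyl : ∃ (s : ℕ → ℕ) (d : ℕ), cyl s (m + d) ⊆ closure E := by
    have h3 : ¬ IsNowhereDense E := fun h4 => hE h4.isMeagre
    have h4 : (interior (closure E)).Nonempty := by
      rw [Set.nonempty_iff_ne_empty]
      exact h3
    obtain ⟨s, hs⟩ := h4
    obtain ⟨n, hn⟩ := BPL_basic _ isOpen_interior s hs
    refine ⟨s, n, fun y hy => interior_subset (hn fun i hi => hy i (by omega))⟩
  obtain ⟨s, d, hsd⟩ := hcyl
  have hdense : ∀ (τ : ℕ → ℕ) (n : ℕ), (∀ i < m + d, τ i = s i) →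
      ∃ σ ∈ E, ∀ i < n, σ i = τ i := by
    intro τ n hτ
    have h3 : τ ∈ closure E := hsd hτ
    obtain ⟨σ, hσ1, hσ2⟩ := mem_closure_iff.1 h3 (cyl τ n) (BPL_open τ n) (fun i _ => rfl)
    exact ⟨σ, hσ2, hσ1⟩
  -- stages
  have hstage : ∀ φ ∈ V.2, ∀ σ ∈ E, ∃ j, ∀ j' ≥ j, BPL_S D φ w m x σ j' := by
    intro φ hφ σ hσ
    obtain ⟨j, hj⟩ := ((h R D.G (D.t σ) (Λ.L σ) (Λ.of σ) (Λ.isColim σ)).1 (ι ⊕ Fin V.1) φ m
      (Sum.elim (fun i => BPL_pr D m (w i) 0) x)).1 (hσ φ hφ)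
    refine ⟨j, fun j' hj' => ?_⟩
    obtain ⟨e, rfl⟩ := Nat.exists_eq_add_of_le hj'
    exact BPL_proj φ w m x σ (j + e) (BPL_mono φ m _ σ j hj e)
  have hstage' : ∀ φ ∈ V.2, ∀ σ ∈ E, ∃ j, ∀ j' ≥ j, ∀ σ' : ℕ → ℕ, (∀ i < m + j, σ' i = σ i) →
      BPL_S D φ w m x σ' j' := by
    intro φ hφ σ hσ
    obtain ⟨j, hj⟩ := ((h R D.G (D.t σ) (Λ.L σ) (Λ.of σ) (Λ.isColim σ)).1 (ι ⊕ Fin V.1) φ m
      (Sum.elim (fun i => BPL_pr D m (w i) 0) x)).1 (hσ φ hφ)
    refine ⟨j, fun j' hj' σ' hσ' => ?_⟩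
    have h3 : Sat φ (D.G (m + j)) (fun i => itr (D.t σ') m j
        (Sum.elim (fun i => BPL_pr D m (w i) 0) x i)) := by
      have h4 : (fun i => itr (D.t σ') m j (Sum.elim (fun i => BPL_pr D m (w i) 0) x i)) =
          fun i => itr (D.t σ) m j (Sum.elim (fun i => BPL_pr D m (w i) 0) x i) := by
        funext i
        have h5 : ∀ y : D.G m, itr (D.t σ') m j y = itr (D.t σ) m j y := by
          intro y
          have h6 := BPL_itr (D := D) σ' m (y : D.M × D.Y m).1 (y : D.M × D.Y m).2 j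
          have h7 := BPL_itr (D := D) σ m (y : D.M × D.Y m).1 (y : D.M × D.Y m).2 j
          rw [BPL_pj_congr σ' σ m j hσ'] at h6
          exact h6.trans h7.symm
        exact h5 _
      rw [h4]
      exact hj
    obtain ⟨e, rfl⟩ := Nat.exists_eq_add_of_le hj'
    exact BPL_proj φ w m x σ' (j + e) (BPL_mono φ m _ σ' j h3 e)
  -- the differences
  have hstar : ∀ φ ∈ V.2, ∀ l ≥ d, ∀ c : ℕ, Sat φ D.M (Sum.elim (0 : ι → D.M)
      (fun i => D.c (m + l) c (itr D.a m l (x i : D.M × D.Y m).2))) := by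
    intro φ hφ l hl c
    obtain ⟨σ₁, hσ₁, h3⟩ := hdense (Function.update s (m + l) c) (m + l + 1) (by
      intro i hi
      rw [Function.update_of_ne (by omega)])
    obtain ⟨j₁, hj₁⟩ := hstage' φ hφ σ₁ hσ₁
    obtain ⟨σ₂, hσ₂, h4⟩ := hdense (Function.update σ₁ (m + l) 0) (max (m + j₁) (m + l + 1)) (by
      intro i hi
      rw [Function.update_of_ne (by omega), h3 i (by omega), Function.update_of_ne (by omega)])
    obtain ⟨j₂, hj₂⟩ := hstage φ hφ σ₂ hσ₂
    have h50 : σ₂ (m + l) = 0 := by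
      rw [h4 (m + l) (lt_of_lt_of_le (Nat.lt_succ_self _) (le_max_right _ _)),
        Function.update_self]
    have h51 : σ₁ (m + l) = c := by
      rw [h3 (m + l) (Nat.lt_succ_self _), Function.update_self]
    have h6 : ∀ i < m + j₁, Function.update σ₂ (m + l) c i = σ₁ i := by
      intro i hi
      by_cases hil : i = m + l
      · subst hil
        rw [Function.update_self, h51]
      · rw [Function.update_of_ne hil, h4 i (lt_of_lt_of_le hi (le_max_left _ _)),
          Function.update_of_ne hil]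
    set j := max (max j₁ j₂) (l + 1) with hj
    have h7 := hj₁ j (le_trans (le_max_left _ _) (le_max_left _ _)) _ h6
    have h8 := hj₂ j (le_trans (le_max_right _ _) (le_max_left _ _))
    have h9 := Sat.sub h7 h8
    have h10 : (Sum.elim w (fun i => (x i : D.M × D.Y m).1 +
        BPL_pj D (Function.update σ₂ (m + l) c) m j (x i : D.M × D.Y m).2) -
        Sum.elim w (fun i => (x i : D.M × D.Y m).1 + BPL_pj D σ₂ m j (x i : D.M × D.Y m).2)) =
        Sum.elim (0 : ι → D.M) (fun i => D.c (m + l) c (itr D.a m l (x i : D.M × D.Y m).2)) := by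
      funext i
      rcases i with i | i
      · show w i - w i = 0
        rw [sub_self]
      · show ((x i : D.M × D.Y m).1 +
          BPL_pj D (Function.update σ₂ (m + l) c) m j (x i : D.M × D.Y m).2) -
          ((x i : D.M × D.Y m).1 + BPL_pj D σ₂ m j (x i : D.M × D.Y m).2) = _
        rw [BPL_pj_upd σ₂ m l c h50, if_pos (lt_of_lt_of_le (Nat.lt_succ_self l) (le_max_right _ _))]
        show _ = D.c (m + l) c (itr D.a m l (x i : D.M × D.Y m).2)
        abel
    rw [h10] at h9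
    exact h9
  -- the end
  refine ⟨fun i => (x i : D.M × D.Y m).1 + BPL_pj D s m d (x i : D.M × D.Y m).2, ?_⟩
  intro φ hφ
  obtain ⟨σ, hσ, h3⟩ := hdense s (m + d) (fun i _ => rfl)
  obtain ⟨j₀, hj₀⟩ := hstage φ hφ σ hσ
  have h4 : ∀ e : ℕ, BPL_S D φ w m x σ (d + e) → BPL_S D φ w m x σ d := by
    intro e
    induction e with
    | zero => exact fun h5 => h5
    | succ e ih =>
      intro h5
      apply ih
      have h6 := Sat.sub h5 (hstar φ hφ (d + e) (Nat.le_add_right d e) (σ (m + (d + e))))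
      have h7 : (Sum.elim w (fun i => (x i : D.M × D.Y m).1 +
          BPL_pj D σ m (d + (e + 1)) (x i : D.M × D.Y m).2) - Sum.elim (0 : ι → D.M)
          (fun i => D.c (m + (d + e)) (σ (m + (d + e)))
            (itr D.a m (d + e) (x i : D.M × D.Y m).2))) =
          Sum.elim w (fun i => (x i : D.M × D.Y m).1 +
            BPL_pj D σ m (d + e) (x i : D.M × D.Y m).2) := by
        funext i
        rcases i with i | i
        · show w i - 0 = w i
          rw [sub_zero]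
        · show ((x i : D.M × D.Y m).1 + (BPL_pj D σ m (d + e) (x i : D.M × D.Y m).2 +
            D.c (m + (d + e)) (σ (m + (d + e))) (itr D.a m (d + e) (x i : D.M × D.Y m).2))) -
            D.c (m + (d + e)) (σ (m + (d + e))) (itr D.a m (d + e) (x i : D.M × D.Y m).2) =
            (x i : D.M × D.Y m).1 + BPL_pj D σ m (d + e) (x i : D.M × D.Y m).2
          abel
      rw [h7] at h6
      exact h6
  have h5 : BPL_S D φ w m x σ d := h4 j₀ (hj₀ (d + j₀) (Nat.le_add_left j₀ d))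
  have h6 : BPL_pj D σ m d = BPL_pj D s m d := BPL_pj_congr σ s m d h3
  unfold BPL_S at h5
  rw [h6] at h5
  exact h5

end Pool.Agent.MVC
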