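import Pool.Agent.MVC.St3

/-!
# Vaught's conjecture for modules: BQE, elimination of quantifiers for generic modules
-/

set_option autoImplicit false
set_option linter.unusedSectionVars false
set_option linter.unusedVariables false

namespace Pool.Agent.MVC

open Set Ax FirstOrder

section

variable {R : Type} [Ring R] {n : ℕ}

/-- conjunction -/
private theorem BQE_exAnd (φ ψ : PP R (Fin n)) : ∃ χ : PP R (Fin n),
    ∀ (M : Type) [AddCommGroup M] [Module R M] (x : Fin n → M),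
      Sat χ M x ↔ Sat φ M x ∧ Sat ψ M x := by
  obtain ⟨χ, hχ⟩ := (isPP_sat φ).and (isPP_sat ψ)
  exact ⟨χ, fun M _ _ x => (hχ M x).symm⟩

private noncomputable def BQE_and (φ ψ : PP R (Fin n)) : PP R (Fin n) :=
  (BQE_exAnd φ ψ).choose

private theorem BQE_and_iff (φ ψ : PP R (Fin n)) (M : Type) [AddCommGroup M] [Module R M]
    (x : Fin n → M) : Sat (BQE_and φ ψ) M x ↔ Sat φ M x ∧ Sat ψ M x :=
  (BQE_exAnd φ ψ).choose_spec M x

/-- quantifier over the last variable -/
private theorem BQE_exEx (φ : PP R (Fin (n + 1))) : ∃ χ : PP R (Fin n),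
    ∀ (M : Type) [AddCommGroup M] [Module R M] (x : Fin n → M),
      Sat χ M x ↔ ∃ y : M, Sat φ M (Fin.snoc (α := fun _ => M) x y) := by
  have h0 := ((isPP_sat φ).comap
    (Fin.snoc (α := fun _ => Fin n ⊕ Fin 1) Sum.inl (Sum.inr 0))).ex
  obtain ⟨χ, hχ⟩ := h0
  refine ⟨χ, fun M _ _ x => ?_⟩
  rw [← hχ]
  have h1 : ∀ y : Fin 1 → M, Sum.elim x y ∘
      (Fin.snoc (α := fun _ => Fin n ⊕ Fin 1) Sum.inl (Sum.inr 0)) =
      Fin.snoc (α := fun _ => M) x (y 0) := by
    intro y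
    funext i
    refine Fin.lastCases ?_ (fun j => ?_) i
    · simp
    · simp
  constructor
  · rintro ⟨y, hy⟩
    refine ⟨y 0, ?_⟩
    rw [← h1]
    exact hy
  · rintro ⟨y, hy⟩
    refine ⟨fun _ => y, ?_⟩
    rw [h1]
    exact hy

private noncomputable def BQE_ex (φ : PP R (Fin (n + 1))) : PP R (Fin n) :=
  (BQE_exEx φ).choose

private theorem BQE_ex_iff (φ : PP R (Fin (n + 1))) (M : Type) [AddCommGroup M] [Module R M]
    (x : Fin n → M) :
    Sat (BQE_ex φ) M x ↔ ∃ y : M, Sat φ M (Fin.snoc (α := fun _ => M) x y) :=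
  (BQE_exEx φ).choose_spec M x

/-- the section over zero -/
private theorem BQE_exZero (φ : PP R (Fin (n + 1))) : ∃ χ : PP R (Fin 1),
    ∀ (M : Type) [AddCommGroup M] [Module R M] (w : Fin 1 → M),
      Sat χ M w ↔ Sat φ M (Fin.snoc (α := fun _ => M) 0 (w 0)) := by
  obtain ⟨χ, hχ⟩ := (isPP_sat φ).subst
    (Fin.snoc (α := fun _ => Fin 1 →₀ R) 0 (Finsupp.single 0 1))
  refine ⟨χ, fun M _ _ w => ?_⟩
  rw [← hχ]
  show Sat φ M (fun i => Finsupp.linearCombination R w
    (Fin.snoc (α := fun _ => Fin 1 →₀ R) 0 (Finsupp.single 0 1) i)) ↔ _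
  refine iff_of_eq ?_
  congr 1
  funext i
  refine Fin.lastCases ?_ (fun j => ?_) i
  · simp
  · simp

private noncomputable def BQE_zero (φ : PP R (Fin (n + 1))) : PP R (Fin 1) :=
  (BQE_exZero φ).choose

private theorem BQE_zero_iff (φ : PP R (Fin (n + 1))) (M : Type) [AddCommGroup M] [Module R M]
    (w : Fin 1 → M) :
    Sat (BQE_zero φ) M w ↔ Sat φ M (Fin.snoc (α := fun _ => M) 0 (w 0)) :=
  (BQE_exZero φ).choose_spec M w

private theorem BQE_snoc_sub {M : Type} [AddCommGroup M] (x x' : Fin n → M) (y y' : M) :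
    Fin.snoc (α := fun _ => M) x y - Fin.snoc (α := fun _ => M) x' y' =
      Fin.snoc (α := fun _ => M) (x - x') (y - y') := by
  funext i
  refine Fin.lastCases ?_ (fun j => ?_) i
  · simp
  · simp

private theorem BQE_snoc_add {M : Type} [AddCommGroup M] (x x' : Fin n → M) (y y' : M) :
    Fin.snoc (α := fun _ => M) x y + Fin.snoc (α := fun _ => M) x' y' =
      Fin.snoc (α := fun _ => M) (x + x') (y + y') := by
  funext i
  refine Fin.lastCases ?_ (fun j => ?_) i
  · simp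
  · simp

private theorem BQE_snoc_zero {M : Type} [AddCommGroup M] :
    Fin.snoc (α := fun _ => M) (0 : Fin n → M) (0 : M) = 0 := by
  funext i
  refine Fin.lastCases ?_ (fun j => ?_) i
  · simp
  · simp

private theorem BQE_snoc_neg {M : Type} [AddCommGroup M] (x : Fin n → M) (y : M) :
    -(Fin.snoc (α := fun _ => M) x y) = Fin.snoc (α := fun _ => M) (-x) (-y) := by
  funext i
  refine Fin.lastCases ?_ (fun j => ?_) i
  · simp
  · simp

/-- the group `φ(0, M)` -/
private def BQE_grp (φ : PP R (Fin (n + 1))) (M : Type) [AddCommGroup M] [Module R M] :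
    AddSubgroup M where
  carrier := {a | Sat φ M (Fin.snoc (α := fun _ => M) 0 a)}
  add_mem' := by
    intro a b ha hb
    have h1 := Sat.add ha hb
    rw [BQE_snoc_add, add_zero] at h1
    exact h1
  zero_mem' := by
    show Sat φ M (Fin.snoc (α := fun _ => M) 0 0)
    rw [BQE_snoc_zero]
    exact Sat.zero φ
  neg_mem' := by
    intro a ha
    have h1 := Sat.neg ha
    rw [BQE_snoc_neg, neg_zero] at h1
    exact h1

/-- The main step: elimination of one quantifier, with the lemma of B. H. Neumann. -/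
private theorem BQE_core (X : Ax R) (φ : PP R (Fin (n + 1))) (l : List (PP R (Fin (n + 1))))
    (M : Type) [AddCommGroup M] [Module R M] (hM : X.Generic M) (x : Fin n → M) :
    (∃ y : M, Sat φ M (Fin.snoc (α := fun _ => M) x y) ∧
      ∀ ψ ∈ l, ¬ Sat ψ M (Fin.snoc (α := fun _ => M) x y)) ↔
    (∃ y : M, Sat φ M (Fin.snoc (α := fun _ => M) x y)) ∧
      ∀ ψ ∈ l, X.Le (BQE_zero φ) (BQE_zero ψ) →
        ¬ ∃ y : M, Sat φ M (Fin.snoc (α := fun _ => M) x y) ∧
          Sat ψ M (Fin.snoc (α := fun _ => M) x y) := by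
  classical
  constructor
  · rintro ⟨y, hy, hyl⟩
    refine ⟨⟨y, hy⟩, ?_⟩
    rintro ψ hψ hle ⟨y', hy', hy''⟩
    refine hyl ψ hψ ?_
    have h1 := hy.sub hy'
    rw [BQE_snoc_sub, sub_self] at h1
    have h2 : Sat (BQE_zero φ) M (fun _ : Fin 1 => y - y') := (BQE_zero_iff φ M _).mpr h1
    have h3 := (BQE_zero_iff ψ M _).mp (hle M hM.1 _ h2)
    have h4 := hy''.add h3
    rw [BQE_snoc_add, add_zero, add_sub_cancel] at h4
    exact h4
  · rintro ⟨⟨y₀, hy₀⟩, hl⟩
    by_contra hcon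
    have hcov : ∀ y : M, Sat φ M (Fin.snoc (α := fun _ => M) x y) →
        ∃ ψ ∈ l, Sat ψ M (Fin.snoc (α := fun _ => M) x y) := by
      intro y hy
      by_contra h
      exact hcon ⟨y, hy, fun ψ hψ hs => h ⟨ψ, hψ, hs⟩⟩
    have hex : ∀ ψ : PP R (Fin (n + 1)), ∃ y : M, Sat φ M (Fin.snoc (α := fun _ => M) x y) ∧
        ((∃ y' : M, Sat φ M (Fin.snoc (α := fun _ => M) x y') ∧
          Sat ψ M (Fin.snoc (α := fun _ => M) x y')) →
            Sat ψ M (Fin.snoc (α := fun _ => M) x y)) := by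
      intro ψ
      by_cases h : ∃ y' : M, Sat φ M (Fin.snoc (α := fun _ => M) x y') ∧
          Sat ψ M (Fin.snoc (α := fun _ => M) x y')
      · obtain ⟨y', h1, h2⟩ := h
        exact ⟨y', h1, fun _ => h2⟩
      · exact ⟨y₀, hy₀, fun h' => absurd h' h⟩
    choose yy hyy1 hyy2 using hex
    have hg : ∀ ψ, yy ψ - y₀ ∈ BQE_grp φ M := by
      intro ψ
      have h1 := (hyy1 ψ).sub hy₀
      rw [BQE_snoc_sub, sub_self] at h1
      exact h1
    let s : Finset (PP R (Fin (n + 1))) := (l.filter fun ψ =>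
      ∃ y' : M, Sat φ M (Fin.snoc (α := fun _ => M) x y') ∧
          Sat ψ M (Fin.snoc (α := fun _ => M) x y')).toFinset
    have hs : ∀ ψ, ψ ∈ s ↔ ψ ∈ l ∧ ∃ y' : M, Sat φ M (Fin.snoc (α := fun _ => M) x y') ∧
          Sat ψ M (Fin.snoc (α := fun _ => M) x y') := by
      intro ψ
      simp [s]
    obtain ⟨ψ, hψ, hfin⟩ := AddSubgroup.exists_finiteIndex_of_leftCoset_cover
      (G := BQE_grp φ M) (H := fun ψ => (BQE_grp ψ M).addSubgroupOf (BQE_grp φ M))
      (g := fun ψ => ⟨yy ψ - y₀, hg ψ⟩) (s := s) (by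
        rw [Set.eq_univ_iff_forall]
        rintro ⟨a, ha⟩
        have h1 : Sat φ M (Fin.snoc (α := fun _ => M) x (y₀ + a)) := by
          have h2 := hy₀.add ha
          rw [BQE_snoc_add, add_zero] at h2
          exact h2
        obtain ⟨ψ, hψ, hψa⟩ := hcov _ h1
        have h3 : ∃ y' : M, Sat φ M (Fin.snoc (α := fun _ => M) x y') ∧
          Sat ψ M (Fin.snoc (α := fun _ => M) x y') := ⟨y₀ + a, h1, hψa⟩
        rw [Set.mem_iUnion₂]
        refine ⟨ψ, (hs ψ).mpr ⟨hψ, h3⟩, ?_⟩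
        rw [mem_leftAddCoset_iff]
        show (-(yy ψ - y₀) + a) ∈ BQE_grp ψ M
        have h4 := hψa.sub (hyy2 ψ h3)
        rw [BQE_snoc_sub, sub_self] at h4
        have h5 : -(yy ψ - y₀) + a = y₀ + a - yy ψ := by abel
        rw [h5]
        exact h4)
    obtain ⟨hψl, hψe⟩ := (hs ψ).mp hψ
    have hnle : ¬ X.Le (BQE_zero φ) (BQE_zero ψ) := fun h => hl ψ hψl h hψe
    obtain ⟨w, hw1, hw2⟩ := hM.2 1 _ _ hnle
    have hfin' : Finite (BQE_grp φ M ⧸ (BQE_grp ψ M).addSubgroupOf (BQE_grp φ M)) :=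
      AddSubgroup.finite_quotient_of_finiteIndex
    refine not_injective_infinite_finite (fun i : ℕ =>
      (QuotientAddGroup.mk (⟨w i 0, (BQE_zero_iff φ M _).mp (hw1 i)⟩ : BQE_grp φ M) :
        BQE_grp φ M ⧸ (BQE_grp ψ M).addSubgroupOf (BQE_grp φ M))) ?_
    intro i j hij
    by_contra hne
    refine hw2 j i (fun h => hne h.symm) ?_
    rw [BQE_zero_iff]
    have h1 := QuotientAddGroup.eq.mp hij
    have h2 : -(w i 0) + w j 0 ∈ BQE_grp ψ M := h1
    have h3 : -(w i 0) + w j 0 = (w j - w i) 0 := by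
      rw [Pi.sub_apply]
      abel
    rw [h3] at h2
    exact h2

/-- Boolean combinations of positive primitive relations, uniformly in all generic modules -/
private def BQE_B (X : Ax R)
    (F : ∀ (M : Type) [AddCommGroup M] [Module R M], (Fin n → M) → Prop) : Prop :=
  ∃ L : List (PP R (Fin n) × List (PP R (Fin n))),
    ∀ (M : Type) [AddCommGroup M] [Module R M], X.Generic M → ∀ x : Fin n → M,
      F M x ↔ ∃ c ∈ L, Sat c.1 M x ∧ ∀ ψ ∈ c.2, ¬ Sat ψ M x

variable {X : Ax R}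

private theorem BQE_B.congr {F G : ∀ (M : Type) [AddCommGroup M] [Module R M], (Fin n → M) → Prop}
    (hF : BQE_B X F) (h : ∀ (M : Type) [AddCommGroup M] [Module R M], X.Generic M →
      ∀ x : Fin n → M, G M x ↔ F M x) : BQE_B X G := by
  obtain ⟨L, hL⟩ := hF
  exact ⟨L, fun M _ _ hM x => (h M hM x).trans (hL M hM x)⟩

private theorem BQE_B_pp {F : ∀ (M : Type) [AddCommGroup M] [Module R M], (Fin n → M) → Prop}
    (hF : IsPP F) : BQE_B X F := by
  obtain ⟨φ, hφ⟩ := hF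
  refine ⟨[(φ, [])], fun M _ _ hM x => ?_⟩
  rw [hφ]
  simp

private theorem BQE_B_false : BQE_B (n := n) X (fun M _ _ x => False) :=
  ⟨[], fun M _ _ hM x => by simp⟩

private theorem BQE_B_true : BQE_B (n := n) X (fun M _ _ x => True) := BQE_B_pp isPP_true

private theorem BQE_B.or {F G : ∀ (M : Type) [AddCommGroup M] [Module R M], (Fin n → M) → Prop}
    (hF : BQE_B X F) (hG : BQE_B X G) : BQE_B X (fun M _ _ x => F M x ∨ G M x) := by
  obtain ⟨L, hL⟩ := hF
  obtain ⟨L', hL'⟩ := hG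
  refine ⟨L ++ L', fun M _ _ hM x => (or_congr (hL M hM x) (hL' M hM x)).trans ?_⟩
  constructor
  · rintro (⟨c, hc, h⟩ | ⟨c, hc, h⟩)
    · exact ⟨c, List.mem_append_left _ hc, h⟩
    · exact ⟨c, List.mem_append_right _ hc, h⟩
  · rintro ⟨c, hc, h⟩
    rcases List.mem_append.mp hc with hc | hc
    · exact Or.inl ⟨c, hc, h⟩
    · exact Or.inr ⟨c, hc, h⟩

private theorem BQE_B.and {F G : ∀ (M : Type) [AddCommGroup M] [Module R M], (Fin n → M) → Prop}
    (hF : BQE_B X F) (hG : BQE_B X G) : BQE_B X (fun M _ _ x => F M x ∧ G M x) := by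
  obtain ⟨L, hL⟩ := hF
  obtain ⟨L', hL'⟩ := hG
  refine ⟨L.flatMap fun c => L'.map fun d => (BQE_and c.1 d.1, c.2 ++ d.2),
    fun M _ _ hM x => (and_congr (hL M hM x) (hL' M hM x)).trans ?_⟩
  constructor
  · rintro ⟨⟨c, hc, h1, h2⟩, ⟨d, hd, h3, h4⟩⟩
    refine ⟨(BQE_and c.1 d.1, c.2 ++ d.2), ?_, (BQE_and_iff c.1 d.1 M x).mpr ⟨h1, h3⟩, ?_⟩
    · rw [List.mem_flatMap]
      exact ⟨c, hc, List.mem_map.mpr ⟨d, hd, rfl⟩⟩
    · intro ψ hψ
      rcases List.mem_append.mp hψ with hψ | hψ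
      · exact h2 ψ hψ
      · exact h4 ψ hψ
  · rintro ⟨e, he, h1, h2⟩
    rw [List.mem_flatMap] at he
    obtain ⟨c, hc, he⟩ := he
    obtain ⟨d, hd, rfl⟩ := List.mem_map.mp he
    have h3 := (BQE_and_iff c.1 d.1 M x).mp h1
    exact ⟨⟨c, hc, h3.1, fun ψ hψ => h2 ψ (List.mem_append_left _ hψ)⟩,
      ⟨d, hd, h3.2, fun ψ hψ => h2 ψ (List.mem_append_right _ hψ)⟩⟩

private theorem BQE_B_conj (c : PP R (Fin n) × List (PP R (Fin n))) :
    BQE_B X (fun M _ _ x => Sat c.1 M x ∧ ∀ ψ ∈ c.2, ¬ Sat ψ M x) :=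
  ⟨[c], fun M _ _ hM x => by simp⟩

private theorem BQE_B_disj (L : List (PP R (Fin n))) :
    BQE_B X (fun M _ _ x => ∃ ψ ∈ L, Sat ψ M x) := by
  induction L with
  | nil => exact BQE_B_false.congr fun M _ _ hM x => by simp
  | cons ψ L ih => exact ((BQE_B_pp (isPP_sat ψ)).or ih).congr fun M _ _ hM x => by simp

private theorem BQE_B_notPP (φ : PP R (Fin n)) : BQE_B X (fun M _ _ x => ¬ Sat φ M x) := by
  obtain ⟨τ, hτ⟩ := isPP_true (R := R) (ι := Fin n)
  refine ⟨[(τ, [φ])], fun M _ _ hM x => ?_⟩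
  have h1 := (hτ M x).mp trivial
  simp [h1]

private theorem BQE_B.not {F : ∀ (M : Type) [AddCommGroup M] [Module R M], (Fin n → M) → Prop}
    (hF : BQE_B X F) : BQE_B X (fun M _ _ x => ¬ F M x) := by
  obtain ⟨L, hL⟩ := hF
  have h1 : BQE_B X (fun M _ _ x => ¬ ∃ c ∈ L, Sat c.1 M x ∧ ∀ ψ ∈ c.2, ¬ Sat ψ M x) := by
    clear hL
    induction L with
    | nil => exact BQE_B_true.congr fun M _ _ hM x => by simp
    | cons c L ih =>
      refine (((BQE_B_notPP c.1).or (BQE_B_disj c.2)).and ih).congr fun M _ _ hM x => ?_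
      constructor
      · intro h
        refine ⟨?_, fun ⟨d, hd, h'⟩ => h ⟨d, List.mem_cons_of_mem c hd, h'⟩⟩
        by_contra h2
        rw [not_or, not_not] at h2
        exact h ⟨c, List.mem_cons_self, h2.1, fun ψ hψ hs => h2.2 ⟨ψ, hψ, hs⟩⟩
      · rintro ⟨h2, h3⟩ ⟨d, hd, h4, h5⟩
        rcases List.mem_cons.mp hd with rfl | hd
        · rcases h2 with h2 | ⟨ψ, hψ, hs⟩
          · exact h2 h4
          · exact h5 ψ hψ hs
        · exact h3 ⟨d, hd, h4, h5⟩
  exact h1.congr fun M _ _ hM x => not_congr (hL M hM x)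

/-- elimination of one quantifier -/
private theorem BQE_B.ex
    {F : ∀ (M : Type) [AddCommGroup M] [Module R M], (Fin (n + 1) → M) → Prop}
    (hF : BQE_B X F) :
    BQE_B X (fun M _ _ (x : Fin n → M) => ∃ y : M, F M (Fin.snoc (α := fun _ => M) x y)) := by
  classical
  obtain ⟨L, hL⟩ := hF
  have h1 : BQE_B X (fun M _ _ (x : Fin n → M) => ∃ y : M, ∃ c ∈ L,
      Sat c.1 M (Fin.snoc (α := fun _ => M) x y) ∧
        ∀ ψ ∈ c.2, ¬ Sat ψ M (Fin.snoc (α := fun _ => M) x y)) := by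
    clear hL
    induction L with
    | nil => exact BQE_B_false.congr fun M _ _ hM x => by simp
    | cons c L ih =>
      refine ((BQE_B_conj (BQE_ex c.1, (c.2.filter fun ψ =>
        X.Le (BQE_zero c.1) (BQE_zero ψ)).map fun ψ => BQE_ex (BQE_and c.1 ψ))).or ih).congr
        fun M _ _ hM x => ?_
      have h2 := BQE_core X c.1 c.2 M hM x
      have h3 : (∃ y : M, ∃ d ∈ c :: L, Sat d.1 M (Fin.snoc (α := fun _ => M) x y) ∧
          ∀ ψ ∈ d.2, ¬ Sat ψ M (Fin.snoc (α := fun _ => M) x y)) ↔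
          (∃ y : M, Sat c.1 M (Fin.snoc (α := fun _ => M) x y) ∧
            ∀ ψ ∈ c.2, ¬ Sat ψ M (Fin.snoc (α := fun _ => M) x y)) ∨
          (∃ y : M, ∃ d ∈ L, Sat d.1 M (Fin.snoc (α := fun _ => M) x y) ∧
          ∀ ψ ∈ d.2, ¬ Sat ψ M (Fin.snoc (α := fun _ => M) x y)) := by
        constructor
        · rintro ⟨y, d, hd, h⟩
          rcases List.mem_cons.mp hd with rfl | hd
          · exact Or.inl ⟨y, h⟩
          · exact Or.inr ⟨y, d, hd, h⟩
        · rintro (⟨y, h⟩ | ⟨y, d, hd, h⟩)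
          · exact ⟨y, c, List.mem_cons_self, h⟩
          · exact ⟨y, d, List.mem_cons_of_mem c hd, h⟩
      rw [h3, h2]
      refine or_congr (and_congr (BQE_ex_iff c.1 M x).symm ?_) Iff.rfl
      constructor
      · intro h ψ hψ
        obtain ⟨ψ', hψ', rfl⟩ := List.mem_map.mp hψ
        obtain ⟨h4, h5⟩ := List.mem_filter.mp hψ'
        rw [BQE_ex_iff]
        rintro ⟨y, hy⟩
        exact h ψ' h4 (of_decide_eq_true h5) ⟨y, (BQE_and_iff _ _ M _).mp hy⟩
      · rintro h ψ hψ hle ⟨y, hy⟩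
        refine h (BQE_ex (BQE_and c.1 ψ)) (List.mem_map.mpr ⟨ψ, List.mem_filter.mpr
          ⟨hψ, decide_eq_true hle⟩, rfl⟩) ?_
        rw [BQE_ex_iff]
        exact ⟨y, (BQE_and_iff _ _ M _).mpr hy⟩
  refine h1.congr fun M _ _ hM x => exists_congr fun y => hL M hM _

/-- terms are linear combinations of variables -/
private theorem BQE_term (t : (LMod R).Term (Empty ⊕ Fin n)) : ∃ e : Fin n →₀ R,
    ∀ (M : Type) [AddCommGroup M] [Module R M] (x : Fin n → M),
      @FirstOrder.Language.Term.realize (LMod R) M (modStr R M) _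
        (Sum.elim (Empty.elim : Empty → M) x) t = Finsupp.linearCombination R x e := by
  induction t with
  | var a =>
    rcases a with a | i
    · exact a.elim
    · refine ⟨Finsupp.single i 1, fun M _ _ x => ?_⟩
      rw [Finsupp.linearCombination_single, one_smul]
      rfl
  | func f ts ih =>
    choose e he using ih
    cases f with
    | zero =>
      refine ⟨0, fun M _ _ x => ?_⟩
      rw [map_zero]
      rfl
    | smul r =>
      refine ⟨r • e 0, fun M _ _ x => ?_⟩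
      rw [map_smul, ← he 0]
      rfl
    | add =>
      refine ⟨e 0 + e 1, fun M _ _ x => ?_⟩
      rw [map_add, ← he 0, ← he 1]
      rfl

/-- elimination of quantifiers -/
private theorem BQE_main : ∀ {n : ℕ} (φ : (LMod R).BoundedFormula Empty n),
    BQE_B X (fun M _ _ (x : Fin n → M) =>
      @FirstOrder.Language.BoundedFormula.Realize (LMod R) M (modStr R M) Empty n φ
        (Empty.elim : Empty → M) x) := by
  intro n φ
  induction φ with
  | falsum => exact BQE_B_false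
  | equal t₁ t₂ =>
    obtain ⟨e₁, h₁⟩ := BQE_term t₁
    obtain ⟨e₂, h₂⟩ := BQE_term t₂
    refine (BQE_B_pp (isPP_lin (e₁ - e₂))).congr fun M _ _ hM x => ?_
    rw [map_sub, sub_eq_zero, ← h₁, ← h₂]
    rfl
  | rel r ts => exact r.elim
  | imp φ₁ φ₂ ih₁ ih₂ =>
    refine (ih₁.not.or ih₂).congr fun M _ _ hM x => ?_
    exact imp_iff_not_or
  | all φ ih =>
    refine ih.not.ex.not.congr fun M _ _ hM x => ?_
    rw [not_exists]
    simp only [not_not]
    rfl

end

/-- BQE. -/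
theorem thm_BQE : St_BQE := by
  intro R _ X M N hM hN T hT
  refine @FirstOrder.Language.Theory.Model.mk (LMod R) N (modStr R N) T fun φ hφ => ?_
  have h1 := hT.realize_of_mem φ hφ
  obtain ⟨L, hL⟩ := BQE_main (X := X) φ
  have key : ∀ (K : Type) [AddCommGroup K] [Module R K], X.Generic K →
      (@FirstOrder.Language.BoundedFormula.Realize (LMod R) K (modStr R K) Empty 0 φ
        (Empty.elim : Empty → K) (0 : Fin 0 → K) ↔ ∃ c ∈ L, ∀ ψ ∈ c.2, False) := by
    intro K _ _ hK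
    refine (hL K hK 0).trans ?_
    refine exists_congr fun c => and_congr Iff.rfl ?_
    constructor
    · rintro ⟨-, h⟩ ψ hψ
      exact h ψ hψ (Sat.zero ψ)
    · intro h
      exact ⟨Sat.zero c.1, fun ψ hψ => absurd (h ψ hψ) id⟩
  have h2 : ∀ (K : Type) [AddCommGroup K] [Module R K],
      @FirstOrder.Language.Sentence.Realize (LMod R) K (modStr R K) φ ↔
      @FirstOrder.Language.BoundedFormula.Realize (LMod R) K (modStr R K) Empty 0 φ
        (Empty.elim : Empty → K) (0 : Fin 0 → K) := by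
    intro K _ _
    unfold FirstOrder.Language.Sentence.Realize FirstOrder.Language.Formula.Realize
    rw [Subsingleton.elim (default : Empty → K) Empty.elim,
      Subsingleton.elim (default : Fin 0 → K) 0]
  exact (h2 N).mpr ((key N hN).mpr ((key M hM).mp ((h2 M).mp h1)))

end Pool.Agent.MVC
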