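import Pool.Agent.MVC.St

/-!
# Vaught's conjecture for modules: colimits of sequences (helper44)
-/

set_option autoImplicit false
set_option linter.unusedSectionVars false
set_option linter.unusedVariables false

namespace Pool.Agent.MVC

open Set Ax

section col

variable {R : Type} [Ring R] {G : ℕ → Md R} (t : ∀ k, G k →ₗ[R] G (k + 1))

/-- the map of stage `k` into stage `j` (zero for `j < k`) -/
private noncomputable def csq (k : ℕ) : ∀ j : ℕ, G k →ₗ[R] G j
  | 0 => if h : k = 0 then h ▸ LinearMap.id else 0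
  | j + 1 => if h : k = j + 1 then h ▸ LinearMap.id else t j ∘ₗ csq k j

private theorem csq_self (k : ℕ) (x : G k) : csq t k k x = x := by
  cases k with
  | zero =>
    unfold csq
    rw [dif_pos rfl]
    rfl
  | succ k =>
    unfold csq
    rw [dif_pos rfl]
    rfl

private theorem csq_succ {k j : ℕ} (h : k ≤ j) (x : G k) :
    csq t k (j + 1) x = t j (csq t k j x) := by
  have h1 : csq t k (j + 1) = if h : k = j + 1 then h ▸ LinearMap.id else t j ∘ₗ csq t k j := by
    conv_lhs => unfold csq
  rw [h1, dif_neg (by omega)]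
  rfl

private theorem csq_add (k j : ℕ) (x : G k) : csq t k (k + j) x = itr t k j x := by
  induction j with
  | zero =>
    have h1 : csq t k (k + 0) x = x := csq_self t k x
    rw [h1]
    rfl
  | succ j ih =>
    have h1 : csq t k (k + (j + 1)) x = t (k + j) (csq t k (k + j) x) :=
      csq_succ t (Nat.le_add_right k j) x
    rw [h1, ih]
    rfl

private theorem csq_trans {k l m : ℕ} (h1 : k ≤ l) (h2 : l ≤ m) (x : G k) :
    csq t l m (csq t k l x) = csq t k m x := by
  induction m, h2 using Nat.le_induction with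
  | base => exact csq_self t l _
  | succ m hm ih =>
    rw [csq_succ t hm, ih, csq_succ t (h1.trans hm)]

private theorem csq_step {k m : ℕ} (h : k + 1 ≤ m) (x : G k) :
    csq t (k + 1) m (t k x) = csq t k m x := by
  have h1 : csq t k (k + 1) x = t k x := by
    rw [csq_succ t (le_refl k), csq_self]
  rw [← h1]
  exact csq_trans t (Nat.le_succ k) h x

variable (G) in
/-- the sequences which are eventually zero -/
private def czero : Submodule R (∀ k, G k) where
  carrier := {x | ∃ N, ∀ k, N ≤ k → x k = 0}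
  zero_mem' := ⟨0, fun _ _ => rfl⟩
  add_mem' := by
    rintro x y ⟨N, hN⟩ ⟨N', hN'⟩
    refine ⟨max N N', fun k hk => ?_⟩
    have h1 : (x + y) k = x k + y k := rfl
    rw [h1, hN k (le_trans (le_max_left _ _) hk), hN' k (le_trans (le_max_right _ _) hk), add_zero]
  smul_mem' := by
    rintro r x ⟨N, hN⟩
    refine ⟨N, fun k hk => ?_⟩
    have h1 : (r • x) k = r • x k := rfl
    rw [h1, hN k hk, smul_zero]

/-- the sequences which are eventually coherent -/
private def ccoh : Submodule R (∀ k, G k) where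
  carrier := {x | ∃ N, ∀ k, N ≤ k → x (k + 1) = t k (x k)}
  zero_mem' := ⟨0, fun k _ => (map_zero (t k)).symm⟩
  add_mem' := by
    rintro x y ⟨N, hN⟩ ⟨N', hN'⟩
    refine ⟨max N N', fun k hk => ?_⟩
    have h1 : (x + y) (k + 1) = x (k + 1) + y (k + 1) := rfl
    have h2 : (x + y) k = x k + y k := rfl
    rw [h1, h2, hN k (le_trans (le_max_left _ _) hk), hN' k (le_trans (le_max_right _ _) hk),
      map_add]
  smul_mem' := by
    rintro r x ⟨N, hN⟩
    refine ⟨N, fun k hk => ?_⟩
    have h1 : (r • x) (k + 1) = r • x (k + 1) := rfl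
    have h2 : (r • x) k = r • x k := rfl
    rw [h1, h2, hN k hk, map_smul]

private noncomputable def cseq (k : ℕ) : G k →ₗ[R] ccoh t where
  toFun x := ⟨fun j => csq t k j x, k, fun j hj => csq_succ t hj x⟩
  map_add' x y := by
    apply Subtype.ext
    funext j
    exact map_add (csq t k j) x y
  map_smul' r x := by
    apply Subtype.ext
    funext j
    exact map_smul (csq t k j) r x

/-- the colimit -/
private noncomputable def clim : Md R := ⟨ccoh t ⧸ (czero G).comap (ccoh t).subtype⟩

private noncomputable def cof (k : ℕ) : G k →ₗ[R] clim t :=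
  (Submodule.mkQ ((czero G).comap (ccoh t).subtype)) ∘ₗ cseq t k

private theorem cof_eq_iff (k l : ℕ) (x : G k) (y : G l) :
    cof t k x = cof t l y ↔ ∃ N, ∀ j, N ≤ j → csq t k j x = csq t l j y := by
  have h1 : cof t k x = cof t l y ↔
      cseq t k x - cseq t l y ∈ (czero G).comap (ccoh t).subtype :=
    Submodule.Quotient.eq _
  rw [h1]
  constructor
  · rintro ⟨N, hN⟩
    refine ⟨N, fun j hj => ?_⟩
    have h2 : csq t k j x - csq t l j y = 0 := hN j hj
    exact sub_eq_zero.1 h2
  · rintro ⟨N, hN⟩
    refine ⟨N, fun j hj => ?_⟩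
    show csq t k j x - csq t l j y = 0
    rw [hN j hj, sub_self]

theorem thm_COL : St_COL := by
  intro R _ G t
  refine ⟨clim t, cof t, ?_, ?_, ?_⟩
  · intro k x
    rw [cof_eq_iff]
    exact ⟨k + 1, fun j hj => csq_step t hj x⟩
  · intro z
    obtain ⟨⟨x, N, hN⟩, rfl⟩ := Submodule.Quotient.mk_surjective _ z
    refine ⟨N, x N, ?_⟩
    have h1 : cof t N (x N) = Submodule.Quotient.mk ⟨x, N, hN⟩ ↔
        cseq t N (x N) - ⟨x, N, hN⟩ ∈ (czero G).comap (ccoh t).subtype :=
      Submodule.Quotient.eq _
    rw [h1]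
    refine ⟨N, fun j hj => ?_⟩
    show csq t N j (x N) - x j = 0
    rw [sub_eq_zero]
    induction j, hj using Nat.le_induction with
    | base => exact csq_self t N _
    | succ j hj ih => rw [csq_succ t hj, ih, hN j hj]
  · intro k x hx
    have h1 : cof t k x = cof t k 0 := by rw [hx, map_zero]
    rw [cof_eq_iff] at h1
    obtain ⟨N, hN⟩ := h1
    refine ⟨N, ?_⟩
    rw [← csq_add, hN (k + N) (Nat.le_add_left N k), map_zero]

section cos

variable {t} {L : Md R} {of : ∀ k, G k →ₗ[R] L} (hL : IsColim t L of)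

include hL

private theorem of_csq {k l : ℕ} (h : k ≤ l) (x : G k) : of l (csq t k l x) = of k x := by
  induction l, h using Nat.le_induction with
  | base => rw [csq_self]
  | succ l hl ih => rw [csq_succ t hl, hL.comp, ih]

private theorem cos_zero {k : ℕ} {x : G k} (h : of k x = 0) :
    ∃ l, k ≤ l ∧ ∀ m, l ≤ m → csq t k m x = 0 := by
  obtain ⟨j, hj⟩ := hL.eq0 k x h
  refine ⟨k + j, Nat.le_add_right k j, fun m hm => ?_⟩
  rw [← csq_trans t (Nat.le_add_right k j) hm, csq_add, hj, map_zero]

/-- finite families lift to every sufficiently late stage -/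
private theorem cos_lift {A : Type} [Finite A] (z : A → L) (k : ℕ) :
    ∃ l, k ≤ l ∧ ∃ x : A → G l, ∀ a, of l (x a) = z a := by
  have h1 : ∀ a, ∃ p : (k : ℕ) × G k, of p.1 p.2 = z a := by
    intro a
    obtain ⟨k, x, h⟩ := hL.surj (z a)
    exact ⟨⟨k, x⟩, h⟩
  choose p hp using h1
  have h2 : ∃ l, k ≤ l ∧ ∀ a, (p a).1 ≤ l := by
    obtain ⟨b, hb⟩ := (Set.finite_range (fun a => (p a).1)).bddAbove
    exact ⟨max k b, le_max_left _ _, fun a => le_trans (hb ⟨a, rfl⟩) (le_max_right _ _)⟩
  obtain ⟨l, hkl, hl⟩ := h2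
  refine ⟨l, hkl, fun a => csq t (p a).1 l (p a).2, fun a => ?_⟩
  rw [of_csq hL (hl a), hp]

private theorem cos_list {A : Type} (k : ℕ) (l : List A) (x : A → G k)
    (h : ∀ a ∈ l, of k (x a) = 0) : ∃ m, k ≤ m ∧ ∀ a ∈ l, csq t k m (x a) = 0 := by
  have h1 : ∃ m, k ≤ m ∧ ∀ m', m ≤ m' → ∀ a ∈ l, csq t k m' (x a) = 0 := by
    induction l with
    | nil => exact ⟨k, le_refl k, fun m' _ a ha => absurd ha (by simp)⟩
    | cons b l ih =>
      obtain ⟨m, hm, hm'⟩ := ih (fun a ha => h a (List.mem_cons_of_mem b ha))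
      obtain ⟨q, hq, hq'⟩ := cos_zero hL (h b List.mem_cons_self)
      refine ⟨max m q, le_trans hm (le_max_left _ _), fun m' hm1 a ha => ?_⟩
      rcases List.mem_cons.1 ha with rfl | ha
      · exact hq' m' (le_trans (le_max_right _ _) hm1)
      · exact hm' m' (le_trans (le_max_left _ _) hm1) a ha
  obtain ⟨m, hm, hm'⟩ := h1
  exact ⟨m, hm, hm' m (le_refl m)⟩

private theorem cos_sat {ι : Type} (φ : PP R ι) (k : ℕ) (x : ι → G k) :
    Sat φ L (fun i => of k (x i)) ↔ ∃ j, Sat φ (G (k + j)) (fun i => itr t k j (x i)) := by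
  classical
  constructor
  · rintro ⟨y, hy⟩
    -- a bound for the bound variables
    have hB : ∃ B : ℕ, ∀ e ∈ φ, ∀ n, Sum.inr n ∈ e.support → n < B := by
      have h0 : ∀ l : PP R ι, ∃ B : ℕ, ∀ e ∈ l, ∀ n, Sum.inr n ∈ e.support → n < B := by
        intro l
        induction l with
        | nil => exact ⟨0, fun e he => absurd he (by simp)⟩
        | cons a l ih =>
          obtain ⟨B, hB⟩ := ih
          obtain ⟨C, hC⟩ : ∃ C : ℕ, ∀ n, Sum.inr n ∈ a.support → n < C := by
            refine ⟨(a.support.sup (fun s => Sum.elim (fun _ => 0) (fun n => n + 1) s)), ?_⟩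
            intro n hn
            have h1 := Finset.le_sup (f := fun s : ι ⊕ ℕ => Sum.elim (fun _ => 0)
              (fun n => n + 1) s) hn
            have h2 : n + 1 ≤ a.support.sup (fun s => Sum.elim (fun _ => 0) (fun n => n + 1) s) := h1
            omega
          refine ⟨max B C, fun e he n hn => ?_⟩
          rcases List.mem_cons.1 he with rfl | he
          · exact lt_of_lt_of_le (hC n hn) (le_max_right _ _)
          · exact lt_of_lt_of_le (hB e he n hn) (le_max_left _ _)
      exact h0 φ
    obtain ⟨B, hB⟩ := hB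
    obtain ⟨l, hkl, y', hy'⟩ := cos_lift hL (fun n : Fin B => y n) k
    let w : ℕ → G l := fun n => if h : n < B then y' ⟨n, h⟩ else 0
    have hw : ∀ n, n < B → of l (w n) = y n := by
      intro n hn
      have h1 : w n = y' ⟨n, hn⟩ := dif_pos hn
      rw [h1]
      exact hy' ⟨n, hn⟩
    have h1 : ∀ e ∈ φ, of l (Finsupp.linearCombination R
        (Sum.elim (fun i => csq t k l (x i)) w) e) = 0 := by
      intro e he
      have h2 := hy e he
      rw [← h2, Finsupp.linearCombination_apply, Finsupp.linearCombination_apply, Finsupp.sum,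
        Finsupp.sum, map_sum]
      refine Finset.sum_congr rfl ?_
      intro s hs
      rw [map_smul]
      congr 1
      rcases s with i | n
      · exact of_csq hL hkl (x i)
      · exact hw n (hB e he n hs)
    obtain ⟨m, hlm, hm⟩ := cos_list hL l φ (fun e => Finsupp.linearCombination R
        (Sum.elim (fun i => csq t k l (x i)) w) e) h1
    have hsat : Sat φ (G m) (fun i => csq t k m (x i)) := by
      refine ⟨fun n => csq t l m (w n), fun e he => ?_⟩
      have h3 : csq t l m (Finsupp.linearCombination R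
        (Sum.elim (fun i => csq t k l (x i)) w) e) = 0 := hm e he
      rw [← h3, Finsupp.linearCombination_apply, Finsupp.linearCombination_apply, Finsupp.sum,
        Finsupp.sum, map_sum]
      refine Finset.sum_congr rfl ?_
      intro s hs
      rw [map_smul]
      congr 1
      rcases s with i | n
      · exact (csq_trans t hkl hlm (x i)).symm
      · rfl
    obtain ⟨j, rfl⟩ := Nat.exists_eq_add_of_le (hkl.trans hlm)
    refine ⟨j, ?_⟩
    have h4 : (fun i => itr t k j (x i)) = fun i => csq t k (k + j) (x i) := by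
      funext i
      rw [csq_add]
    rw [h4]
    exact hsat
  · rintro ⟨j, hj⟩
    have h1 := hj.map (of (k + j))
    have h2 : (of (k + j)) ∘ (fun i => itr t k j (x i)) = fun i => of k (x i) := by
      funext i
      show of (k + j) (itr t k j (x i)) = of k (x i)
      rw [← csq_add, of_csq hL (Nat.le_add_right k j)]
    rw [h2] at h1
    exact h1

end cos

theorem thm_COS : St_COS := by
  intro R _ G t L of hL
  refine ⟨fun ι _ φ k x => cos_sat hL φ k x, ?_, ?_, ?_⟩
  · intro ι _ z
    obtain ⟨l, _, x, hx⟩ := cos_lift hL z 0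
    exact ⟨l, x, hx⟩
  · intro X hX a ha z hz
    obtain ⟨k, _, x, hx⟩ := cos_lift hL z 0
    have hz' : z = fun i => of k (x i) := by
      funext i
      rw [hx i]
    rw [hz'] at hz ⊢
    obtain ⟨j, hj⟩ := (cos_sat hL a.2.1 k x).1 hz
    exact (cos_sat hL a.2.2 k x).2 ⟨j, hX (k + j) a ha _ hj⟩
  · intro hc
    have h1 : Function.Surjective (fun p : (k : ℕ) × G k => of p.1 p.2) := by
      intro z
      obtain ⟨k, x, h⟩ := hL.surj z
      exact ⟨⟨k, x⟩, h⟩
    exact h1.countable

end col

end Pool.Agent.MVC
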