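import Pool.Agent.MVC.St
import Pool.Agent.MVC.Api1

/-!
# Vaught's conjecture for modules: DCC, the descending chain condition (4.4)
-/

set_option autoImplicit false
set_option linter.unusedSectionVars false
set_option linter.unusedVariables false

namespace Pool.Agent.MVC

open Set Ax

section

variable {R : Type} [Ring R]

private theorem DCC_open (s : ℕ → ℕ) (m : ℕ) : IsOpen (cyl s m) := by
  have h1 : cyl s m = ⋂ i ∈ Finset.range m, (fun σ : ℕ → ℕ => σ i) ⁻¹' {s i} := by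
    ext σ
    simp [cyl]
  rw [h1]
  exact isOpen_biInter_finset fun i _ => (isOpen_discrete _).preimage (continuous_apply i)

private theorem DCC_enum {N Q : Md R} [Countable Q] {k : ℕ} (y : Fin k → N) :
    ∃ c : ℕ → (N →ₗ[R] Q), c 0 = 0 ∧ ∀ f : N →ₗ[R] Q, ∃ e, ∀ i, c e (y i) = f (y i) := by
  classical
  obtain ⟨v, hv⟩ := exists_surjective_nat (Fin k → Q)
  refine ⟨fun e => Nat.casesOn e 0 fun e => if h : ∃ f : N →ₗ[R] Q, ∀ i, f (y i) = v e i
    then h.choose else 0, rfl, fun f => ?_⟩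
  obtain ⟨e, he⟩ := hv fun i => f (y i)
  have h : ∃ f : N →ₗ[R] Q, ∀ i, f (y i) = v e i := ⟨f, fun i => by rw [he]⟩
  refine ⟨e + 1, fun i => ?_⟩
  show (if h : ∃ f : N →ₗ[R] Q, ∀ i, f (y i) = v e i then h.choose else 0) (y i) = f (y i)
  rw [dif_pos h, h.choose_spec i, he]

end

/-- DCC. -/
theorem thm_DCC (h1 : St_COL) (h2 : St_MSG) (h3 : St_BPL) (h4 : St_PIG) (h5 : St_EX0)
    (h6 : St_NUP) (h7 : St_EXT) : St_DCC := by
  classical
  intro R _ _ X B hF n S N g a m T Q q hN hQ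
  have hQc : Countable Q := hQ.ctbl
  have hNc : ∀ k, Countable (N k) := fun k => (hN k).ctbl
  choose c c0 hc using fun k => DCC_enum (R := R) (N := N k) (Q := Q)
    (fun i : Fin (n 0) => cmp a k (g 0 i))
  let D : Sys R := ⟨Q, N, a, c, c0⟩
  choose L of hL using fun σ : ℕ → ℕ => h1 R D.G (D.t σ)
  let Λ : D.Lim := ⟨L, of, hL⟩
  obtain ⟨E, s, m', hE1, hE2⟩ := h4 R X B hF D Λ hQc hNc hQ.mem (fun k => (hN k).mem)
    (Fin m) (Fin (n 0)) q (g 0)
  obtain ⟨hM1, hM2, hM3, hM4⟩ := h2 R D Λ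
  refine ⟨m', fun j hj f => ?_⟩
  obtain ⟨e, he⟩ := hc j f
  -- the three cylinders
  let sq : ℕ → ℕ → ℕ := fun l i => if i < m' then s i else if i = j then l else 0
  have hsq1 : ∀ l, cyl (sq l) (j + 1) ⊆ cyl s m' := by
    intro l σ hσ i hi
    rw [hσ i (by omega)]
    show (if i < m' then s i else if i = j then l else 0) = s i
    rw [if_pos hi]
  have hsq2 : ∀ l, ¬ IsMeagre (E ∩ cyl (sq l) (j + 1)) := fun l =>
    hE2 _ (DCC_open _ _) ⟨sq l, fun i _ => rfl⟩ (hsq1 l)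
  have hsq3 : ∀ l, sq l j = l := by
    intro l
    show (if j < m' then s j else if j = j then l else 0) = l
    rw [if_neg (by omega), if_pos rfl]
  -- the value of z_j
  let h : N 0 →ₗ[R] Q := D.z (sq 0) j
  have hz : ∀ l, ∀ σ ∈ cyl (sq l) (j + 1), D.z σ j = h := by
    intro l σ hσ
    refine hM2 σ (sq 0) j fun i hi => ?_
    rw [hσ i (by omega)]
    show (if i < m' then s i else if i = j then l else 0) =
      (if i < m' then s i else if i = j then 0 else 0)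
    rw [if_neg (show ¬ i = j by omega), if_neg (show ¬ i = j by omega)]
  have hzs : ∀ l, ∀ σ ∈ cyl (sq l) (j + 1), ∀ i, Λ.inY σ 0 (g 0 i) =
      Λ.inM σ (h (g 0 i)) + Λ.inM σ (c j l (cmp a j (g 0 i))) +
        Λ.inY σ (j + 1) (cmp a (j + 1) (g 0 i)) := by
    intro l σ hσ i
    rw [hM1 σ (j + 1) (g 0 i)]
    have h8 : D.z σ (j + 1) = D.z σ j + D.c j (σ j) ∘ₗ cmp D.a j := rfl
    have h9 : σ j = l := by rw [hσ j (by omega), hsq3]
    rw [h8, hz l σ hσ, h9, LinearMap.add_apply, map_add]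
    rfl
  -- the formula θ
  obtain ⟨θ, hθ1, hθ2⟩ := hQ.gen (n 0) (fun i => h (g 0 i))
  have hθ0 : ∀ ψ ∈ S 0, X.Le (zer θ) ψ := by
    intro ψ hψ M _ _ hM y hy
    rw [sat_zer] at hy
    have h8 : Sat ψ Q (h ∘ g 0) := ((hN 0).sat ψ hψ).map h
    have h9 : Sat (ren Sum.inr ψ) Q (Sum.elim q fun i => h (g 0 i)) := by
      rw [sat_ren]
      exact h8
    obtain ⟨t, ht, h10⟩ := hθ2 _ h9
    have h11 := h10 M hM 0 y (fun φ _ => Sat.zero φ) hy
    rw [sat_ren] at h11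
    exact h11
  -- the level-one group D
  obtain ⟨θ', hθ'1, hθ'2⟩ := (hN (j + 1)).gen (n 0) (fun i => cmp a (j + 1) (g 0 i))
  have hD0 : IsL0 (R := R) (ι := Fin (n 0)) (fun M _ _ x => ∃ t : Fin (n (j + 1)) → M,
      Re (S (j + 1)) M t ∧ Sat θ' M (Sum.elim t x)) := by
    have h8 : IsL0 (R := R) (ι := Fin (n 0) ⊕ Fin (n (j + 1)))
        (fun M _ _ z => Re (S (j + 1)) M (z ∘ Sum.inr)) := (isL0_re (S (j + 1))).comap Sum.inr
    have h9 : IsL0 (R := R) (ι := Fin (n 0) ⊕ Fin (n (j + 1)))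
        (fun M _ _ z => Sat θ' M (z ∘ Sum.elim Sum.inr Sum.inl)) :=
      ((isPP_sat θ').comap (Sum.elim Sum.inr Sum.inl)).isL0
    refine (h8.and h9).ex.congr fun M _ _ x => exists_congr fun t => ?_
    refine and_congr Iff.rfl (iff_of_eq ?_)
    congr 1
    funext i
    cases i <;> rfl
  obtain ⟨V, hV⟩ := hD0
  have hA0 : IsL0 (R := R) (ι := Fin m ⊕ Fin (n 0)) (fun M _ _ x => ∃ w : Fin (n 0) → M,
      Sat θ M (Sum.elim (x ∘ Sum.inl) w) ∧ Sat1 V M (fun i => x (Sum.inr i) - w i)) := by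
    have h8 : IsL0 (R := R) (ι := (Fin m ⊕ Fin (n 0)) ⊕ Fin (n 0))
        (fun M _ _ z => Sat θ M (z ∘ Sum.elim (fun i => Sum.inl (Sum.inl i)) Sum.inr)) :=
      ((isPP_sat θ).comap (Sum.elim (fun i => Sum.inl (Sum.inl i)) Sum.inr)).isL0
    have h9 : IsL0 (R := R) (ι := (Fin m ⊕ Fin (n 0)) ⊕ Fin (n 0))
        (fun M _ _ z => Sat1 V M (fun i => z (Sum.inl (Sum.inr i)) - z (Sum.inr i))) := by
      refine ((isL0_sat1 V).subst (fun i : Fin (n 0) =>
        Finsupp.single (Sum.inl (Sum.inr i)) (1 : R) - Finsupp.single (Sum.inr i) 1)).congr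
        (fun M _ _ x => ?_)
      simp [map_sub]
    refine (h8.and h9).ex.congr fun M _ _ x => exists_congr fun t => ?_
    refine and_congr (iff_of_eq ?_) Iff.rfl
    congr 1
    funext i
    cases i <;> rfl
  obtain ⟨A, hA⟩ := hA0
  have hG0 : IsL0 (R := R) (ι := Fin (n 0)) (fun M _ _ x => ∃ w : Fin (n 0) → M,
      Sat θ M (Sum.elim 0 w) ∧ Sat1 V M (x - w)) := by
    have h8 : IsL0 (R := R) (ι := Fin (n 0)) (fun M _ _ w => Sat θ M (Sum.elim 0 w)) :=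
      (isPP_sat (zer θ)).isL0.congr fun M _ _ w => sat_zer θ w
    exact h8.sum (isL0_sat1 V)
  obtain ⟨G, hG⟩ := hG0
  -- the group D contains the images of y_{j+1}
  have hVY : ∀ σ, Sat1 V (Λ.L σ) (fun i => Λ.inY σ (j + 1) (cmp a (j + 1) (g 0 i))) := by
    intro σ
    rw [← hV]
    refine ⟨Λ.inY σ (j + 1) ∘ g (j + 1), ((hN (j + 1)).sat).map (Λ.inY σ (j + 1)), ?_⟩
    have h8 := hθ'1.map (Λ.inY σ (j + 1))
    rw [Sum.comp_elim] at h8
    exact h8
  -- the formula A holds on E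
  have hE3 : ∀ σ ∈ E, Sat1 A (Λ.L σ)
      (Sum.elim (fun i => Λ.inM σ (q i)) (fun i => Λ.inY σ 0 (g 0 i))) := by
    obtain ⟨σ₀, hσ₀E, hσ₀⟩ : (E ∩ cyl (sq 0) (j + 1)).Nonempty := by
      rw [Set.nonempty_iff_ne_empty]
      intro h0
      exact hsq2 0 (by rw [h0]; exact IsMeagre.empty)
    have h8 : Sat1 A (Λ.L σ₀)
        (Sum.elim (fun i => Λ.inM σ₀ (q i)) (fun i => Λ.inY σ₀ 0 (g 0 i))) := by
      rw [← hA]
      refine ⟨fun i => Λ.inM σ₀ (h (g 0 i)), ?_, ?_⟩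
      · have h9 := hθ1.map (Λ.inM σ₀)
        rw [Sum.comp_elim] at h9
        exact h9
      · have h9 : (fun i => (Sum.elim (fun i => Λ.inM σ₀ (q i))
            (fun i => Λ.inY σ₀ 0 (g 0 i)) : Fin m ⊕ Fin (n 0) → Λ.L σ₀) (Sum.inr i) -
              Λ.inM σ₀ (h (g 0 i))) =
            fun i => Λ.inY σ₀ (j + 1) (cmp a (j + 1) (g 0 i)) := by
          funext i
          rw [Sum.elim_inr, hzs 0 σ₀ hσ₀ i, c0, LinearMap.zero_apply, map_zero, add_zero,
            add_sub_cancel_left]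
        rw [h9]
        exact hVY σ₀
    intro σ hσ
    have h9 := hE1 σ₀ hσ₀E σ hσ
    have h10 : A ∈ tp1 (R := R) (Λ.L σ₀)
        (Sum.elim (fun i => Λ.inM σ₀ (q i)) (fun i => Λ.inY σ₀ 0 (g 0 i))) := h8
    rw [h9] at h10
    exact h10
  -- the formula G holds on E for the sequences with the value e at j
  have hE4 : ∀ σ ∈ E ∩ cyl (sq e) (j + 1), Sat1 G (Λ.L σ)
      (fun i => Λ.inM σ (c j e (cmp a j (g 0 i)))) := by
    rintro σ ⟨hσE, hσ⟩
    have h8 := hE3 σ hσE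
    rw [← hA] at h8
    obtain ⟨w, hw1, hw2⟩ := h8
    rw [← hG]
    refine ⟨w - fun i => Λ.inM σ (h (g 0 i)), ?_, ?_⟩
    · have h9 := hθ1.map (Λ.inM σ)
      rw [Sum.comp_elim] at h9
      have h10 := hw1.sub h9
      rw [← elim_sub] at h10
      have h11 : ((Sum.elim (fun i => Λ.inM σ (q i)) (fun i => Λ.inY σ 0 (g 0 i)) :
          Fin m ⊕ Fin (n 0) → Λ.L σ) ∘ Sum.inl) - (Λ.inM σ ∘ q) = 0 := by
        funext i
        show Λ.inM σ (q i) - Λ.inM σ (q i) = 0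
        exact sub_self _
      rw [h11] at h10
      exact h10
    · have h9 := hw2.sub (hVY σ)
      have h10 : ((fun i => Λ.inM σ (c j e (cmp a j (g 0 i)))) -
          (w - fun i => Λ.inM σ (h (g 0 i)))) =
          ((fun i => (Sum.elim (fun i => Λ.inM σ (q i)) (fun i => Λ.inY σ 0 (g 0 i)) :
          Fin m ⊕ Fin (n 0) → Λ.L σ) (Sum.inr i) - w i) -
            fun i => Λ.inY σ (j + 1) (cmp a (j + 1) (g 0 i))) := by
        funext i
        simp only [Pi.sub_apply, Sum.elim_inr]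
        rw [hzs e σ hσ i]
        abel
      rw [h10]
      exact h9
  -- transfer to Q
  have hQG : Sat1 G Q (fun i => c j e (cmp a j (g 0 i))) := by
    refine h3 R D Λ hQc hNc (Fin (n 0)) G (fun i => c j e (cmp a j (g 0 i))) fun h0 => ?_
    exact hsq2 e (IsMeagre.mono hE4 h0)
  rw [← hG] at hQG
  obtain ⟨u, hu1, hu2⟩ := hQG
  rw [← hV] at hu2
  obtain ⟨t, ht1, ht2⟩ := hu2
  obtain ⟨f', hf'1, hf'2⟩ := h7 R X (Fin (n (j + 1))) (S (j + 1)) (N (j + 1)) Q (g (j + 1)) t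
    (n 0) (fun i => cmp a (j + 1) (g 0 i)) _ θ' (hN (j + 1)) ⟨hθ'1, hθ'2⟩ hQ.mem ht1 ht2
  refine ⟨f', ?_⟩
  refine h6 R X (Fin (n 0)) (S 0) (N 0) Q (g 0) _ (hN 0) ⟨zer θ, hθ0, ?_⟩
  rw [sat_zer]
  have h8 : ((f ∘ₗ cmp a j - f' ∘ₗ cmp a (j + 1)) ∘ g 0 : Fin (n 0) → Q) = u := by
    funext i
    have h9 := hf'2 i
    show f (cmp a j (g 0 i)) - f' (cmp a (j + 1) (g 0 i)) = u i
    rw [h9, ← he i]
    show _ - (_ - u i) = u i
    exact sub_sub_cancel _ _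
  rw [h8]
  exact hu1

end Pool.Agent.MVC
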