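import Pool.Agent.MVC.H31_St2

/-!
# MVC: the chain condition for the endomorphisms modulo null maps; decomposition into local modules
-/

set_option autoImplicit false
set_option linter.unusedVariables false

namespace Pool.Agent.MVC

open Set Ax

/-- 5.3 (a) -/
theorem thm_DCQ : St_DCQ := by
  intro hDCC R _ _ X B hB C f
  choose a ha using fun i => qm_surjective (X := X) (N := C.N) (f i)
  let w : ℕ → Module.End R C.N := fun j => cmp (G := fun _ => C.N) a j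
  have key : ∀ j, prs f j = qm X C.N (w j) := by
    intro j
    induction j with
    | zero => exact (map_one (qm X C.N)).symm
    | succ j ih =>
      have h1 : w (j + 1) = a j * w j := rfl
      rw [h1, map_mul, ha, ← ih]
      rfl
  obtain ⟨j₀, hj⟩ := hDCC R X B hB (fun _ => C.n) (fun _ => C.S) (fun _ => C.N) (fun _ => C.g)
    a C.n C.S C.N C.g (fun _ => C.hon) C.hon
  obtain ⟨c', hc'⟩ : ∃ c' : Module.End R C.N, X.Eqv (w j₀) (c' * w (j₀ + 1)) :=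
    hj j₀ le_rfl LinearMap.id
  refine ⟨j₀, qm X C.N c', ?_⟩
  rw [key, key, ← map_mul]
  exact qm_eq.2 hc'

/-- a left inverse of `ι v ρ` in the corner of `ι ρ` gives a left inverse of `v` -/
private theorem DEC_inv {R : Type} [Ring R] {X : Ax R} {N A : Type} [AddCommGroup N] [Module R N]
    [AddCommGroup A] [Module R A] {ρ : N →ₗ[R] A} {ι : A →ₗ[R] N}
    (h : X.Eqv (ρ ∘ₗ ι) LinearMap.id) (v : A →ₗ[R] A) (y : EndQ X N)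
    (hy : y * qm X N (ι ∘ₗ v ∘ₗ ρ) = qm X N (ι ∘ₗ ρ)) :
    ∃ g : A →ₗ[R] A, X.Eqv (g ∘ₗ v) LinearMap.id := by
  obtain ⟨z, rfl⟩ := qm_surjective (X := X) (N := N) y
  rw [← map_mul] at hy
  have h1 : X.Eqv (z ∘ₗ (ι ∘ₗ v ∘ₗ ρ)) (ι ∘ₗ ρ) := qm_eq.1 hy
  have h2 : X.Eqv (ρ ∘ₗ (z ∘ₗ (ι ∘ₗ v ∘ₗ ρ)) ∘ₗ ι) (ρ ∘ₗ (ι ∘ₗ ρ) ∘ₗ ι) :=
    Eqv.comp (Eqv.comp (Eqv.refl ι) h1) (Eqv.refl ρ)
  have h3' : X.Eqv ((ρ ∘ₗ ι) ∘ₗ (ρ ∘ₗ ι)) (LinearMap.id ∘ₗ LinearMap.id) := Eqv.comp h h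
  have h6 : (ρ ∘ₗ ι) ∘ₗ (ρ ∘ₗ ι) = ρ ∘ₗ (ι ∘ₗ ρ) ∘ₗ ι := rfl
  rw [LinearMap.comp_id, h6] at h3'
  have h4 : X.Eqv ((ρ ∘ₗ z ∘ₗ ι ∘ₗ v) ∘ₗ (ρ ∘ₗ ι)) ((ρ ∘ₗ z ∘ₗ ι ∘ₗ v) ∘ₗ LinearMap.id) :=
    Eqv.comp h (Eqv.refl _)
  rw [LinearMap.comp_id] at h4
  have h5 : (ρ ∘ₗ z ∘ₗ ι ∘ₗ v) ∘ₗ (ρ ∘ₗ ι) = ρ ∘ₗ (z ∘ₗ (ι ∘ₗ v ∘ₗ ρ)) ∘ₗ ι := rfl
  rw [h5] at h4
  exact ⟨ρ ∘ₗ z ∘ₗ ι, Eqv.trans (Eqv.symm h4) (Eqv.trans h2 h3')⟩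

/-- 5.3 (b) -/
theorem thm_DEC : St_DEC := by
  intro hS hR R _ _ X C hD
  obtain ⟨m, e, he, hloc⟩ := hR (EndQ X C.N) hD
  choose f hf using fun i => qm_surjective (X := X) (N := C.N) (e i)
  have hff : ∀ i, X.Eqv (f i ∘ₗ f i) (f i) := by
    intro i
    have h1 : qm X C.N (f i * f i) = qm X C.N (f i) := by
      rw [map_mul, hf]
      exact he.idem i
    exact qm_eq.1 h1
  choose A ρ ι h1 h2 using fun i => hS R X C (f i) (hff i)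
  have h3 : ∀ i, qm X C.N (ι i ∘ₗ ρ i) = e i := by
    intro i
    rw [← hf]
    exact qm_eq.2 (h1 i)
  refine ⟨m, A, ρ, ι, ?_, h2, ?_⟩
  · intro i u
    have h4 : ∀ v : (A i).N →ₗ[R] (A i).N, qm X C.N (ι i ∘ₗ v ∘ₗ ρ i) =
        e i * qm X C.N (ι i ∘ₗ v ∘ₗ ρ i) * e i := by
      intro v
      have h5 : X.Eqv (ι i ∘ₗ (((ρ i ∘ₗ ι i) ∘ₗ v) ∘ₗ (ρ i ∘ₗ ι i)) ∘ₗ ρ i)
          (ι i ∘ₗ ((LinearMap.id ∘ₗ v) ∘ₗ LinearMap.id) ∘ₗ ρ i) :=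
        Eqv.comp (Eqv.comp (Eqv.refl _) (Eqv.comp (h2 i) (Eqv.comp (Eqv.refl v) (h2 i))))
          (Eqv.refl _)
      rw [LinearMap.id_comp, LinearMap.comp_id] at h5
      have h6 : qm X C.N (ι i ∘ₗ (((ρ i ∘ₗ ι i) ∘ₗ v) ∘ₗ (ρ i ∘ₗ ι i)) ∘ₗ ρ i) =
          qm X C.N (ι i ∘ₗ v ∘ₗ ρ i) := qm_eq.2 h5
      have h7 : (ι i ∘ₗ (((ρ i ∘ₗ ι i) ∘ₗ v) ∘ₗ (ρ i ∘ₗ ι i)) ∘ₗ ρ i : Module.End R C.N) =
          (ι i ∘ₗ ρ i) * (ι i ∘ₗ v ∘ₗ ρ i) * (ι i ∘ₗ ρ i) := rfl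
      rw [← h3 i, ← map_mul, ← map_mul, ← h7, h6]
    rcases hloc i _ (h4 u) with ⟨y, -, -, hy⟩ | ⟨y, -, -, hy⟩
    · left
      rw [← h3 i] at hy
      exact DEC_inv (h2 i) u y hy
    · right
      rw [← h3 i, ← map_sub] at hy
      refine DEC_inv (h2 i) (LinearMap.id - u) y ?_
      rw [← hy]
      congr 2
      ext x
      simp
  · have h8 : qm X C.N (∑ i, ι i ∘ₗ ρ i) = ∑ i, qm X C.N (ι i ∘ₗ ρ i) := map_sum _ _ _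
    rw [Finset.sum_congr rfl fun i _ => h3 i, he.complete, ← map_one (qm X C.N)] at h8
    exact qm_eq.1 h8

end Pool.Agent.MVC
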