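import Pool.Agent.MVC.St2

/-!
# Vaught's conjecture for modules: 6.2, the elements `δ_V(a)`
-/

set_option autoImplicit false
set_option linter.unusedSectionVars false
set_option linter.unusedVariables false

namespace Pool.Agent.MVC

open Set Ax

private theorem del_cst {R : Type} [Ring R] (M : Md R) (m : M) :
    MI.cst M m = MI.mk M (fun _ => m) := rfl

private theorem del_sh_cst {R : Type} [Ring R] (M : Md R) (m : M) :
    MI.sh M (MI.cst M m) = MI.cst M m := rfl

private theorem del_sub {R : Type} [Ring R] {A B : Type} {M : Type} [AddCommGroup M] [Module R M]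
    {V : Set (PP R (A ⊕ B))} {a : A → M} {s t : B → M} (hs : Re V M (Sum.elim a s))
    (ht : Re V M (Sum.elim a t)) : Re (zer '' V) M (s - t) := by
  rw [re_zer]
  have h1 := hs.sub ht
  rw [← elim_sub, sub_self] at h1
  exact h1

private theorem del_sub0 {R : Type} [Ring R] {A B : Type} {M : Type} [AddCommGroup M] [Module R M]
    {V : Set (PP R (A ⊕ B))} {a : A → M} {s t : B → M} (hs : Re V M (Sum.elim a s))
    (ht : Re (zer '' V) M t) : Re V M (Sum.elim a (s - t)) := by
  rw [re_zer] at ht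
  have h1 := hs.sub ht
  rw [← elim_sub, sub_zero] at h1
  exact h1

private theorem del_sh {R : Type} [Ring R] {A B : Type} {M : Md R} {V : Set (PP R (A ⊕ B))}
    {a : A → M} {T : B → MI M} (hT : Re V (MI M) (Sum.elim (fun i => MI.cst M (a i)) T)) :
    Re V (MI M) (Sum.elim (fun i => MI.cst M (a i)) (fun i => MI.sh M (T i))) := by
  have h1 := hT.map (MI.sh M)
  rw [Sum.comp_elim] at h1
  exact h1

private theorem del_down (h1 : St_MIS) {R : Type} [Ring R] {A B : Type} [Finite A] [Finite B]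
    {M : Md R} {V : Set (PP R (A ⊕ B))} {a : A → M} {t : B → M}
    (h : Re V (MI M) (Sum.elim (fun i => MI.cst M (a i)) (fun i => MI.cst M (t i)))) :
    Re V M (Sum.elim a t) := by
  intro φ hφ
  have h2 := h φ hφ
  have h3 : (Sum.elim (fun i => MI.cst M (a i)) (fun i => MI.cst M (t i)) : A ⊕ B → MI M) =
      fun i => MI.mk M ((fun (i : A ⊕ B) (_ : ℕ) => Sum.elim a t i) i) := by
    funext i
    rcases i with i | i
    · rfl
    · rfl
  rw [h3] at h2
  obtain ⟨n, hn⟩ := ((h1 R M).1 (A ⊕ B) φ (fun i _ => Sum.elim a t i)).1 h2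
  exact hn n le_rfl

private theorem del_up (h1 : St_MIS) {R : Type} [Ring R] {A B : Type} [Finite A] [Finite B]
    {M : Md R} {V : Set (PP R (A ⊕ B))} {a : A → M} {t : B → M} (h : Re V M (Sum.elim a t)) :
    Re V (MI M) (Sum.elim (fun i => MI.cst M (a i)) (fun i => MI.cst M (t i))) := by
  have h2 := h.map (MI.cst M)
  rw [Sum.comp_elim] at h2
  exact h2

/-- 6.2 existence, uniqueness and vanishing of `δ_V(a)` -/
theorem thm_DEL (h1 : St_MIS) (h2 : St_MIK) (h3 : St_MIT) (h4 : St_EX0) (h5 : St_EXZ) :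
    St_DEL := by
  intro R _ _ X n k S V N M g a hOv hN hM ha
  have hMI : X.In (MI M) := (h1 R M).2 X hM
  refine ⟨?_, ?_, ?_⟩
  · obtain ⟨T, hT, -⟩ := h3 R M (Fin n) (Fin k) V a (by
      intro s hs
      obtain ⟨s', hs', h⟩ := hOv.2 s hs
      exact h M hM a (fun φ hφ => ha φ (hs' hφ)))
    obtain ⟨f, hf⟩ := h4 R X (Fin k) (zer '' V) N (MI M) g
      ((fun i => MI.sh M (MI.mk M (T i))) - (fun i => MI.mk M (T i))) hN hMI
      (del_sub (del_sh hT) hT)
    exact ⟨X.exMk N M f, fun i => MI.mk M (T i), f, hT, fun i => hf i, rfl⟩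
  · rintro e e' ⟨T, f, hT, hf, rfl⟩ ⟨T', f', hT', hf', rfl⟩
    rw [← sub_eq_zero, ← map_sub]
    refine (h5 R X k (zer '' V) N M g (f - f') hN hM).2 ⟨T - T', del_sub hT hT', fun i => ?_⟩
    rw [LinearMap.sub_apply, hf i, hf' i, Pi.sub_apply, map_sub]
    abel
  · rintro e ⟨T, f, hT, hf, rfl⟩
    rw [h5 R X k (zer '' V) N M g f hN hM]
    constructor
    · rintro ⟨y, hy, hfy⟩
      have h6 : ∀ i, ∃ m : M, T i - y i = MI.cst M m := by
        intro i
        refine ((h2 R M).2 (T i - y i)).1 ?_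
        have h7 := hf i
        rw [hfy i] at h7
        rw [map_sub]
        have h8 : MI.sh M (T i) = MI.sh M (y i) - y i + T i := by
          rw [h7]
          abel
        rw [h8]
        abel
      choose t ht using h6
      have h9 : Re V (MI M) (Sum.elim (fun i => MI.cst M (a i)) (T - y)) := del_sub0 hT hy
      have h10 : (T - y) = fun i => MI.cst M (t i) := funext ht
      rw [h10] at h9
      exact ⟨t, del_down h1 h9⟩
    · rintro ⟨t, ht⟩
      refine ⟨T - fun i => MI.cst M (t i), del_sub hT (del_up h1 ht), fun i => ?_⟩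
      rw [hf i, Pi.sub_apply, map_sub, del_sh_cst]
      abel

end Pool.Agent.MVC
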