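import Pool.Agent.MVC.St2

/-!
# MVC [DRE]: restriction of the differences (6.3) (helper28)
-/

set_option autoImplicit false

namespace Pool.Agent.MVC

open Set Ax

private theorem DRE_re {R : Type} [Ring R] (X : Ax R) {n k k' : ℕ}
    {V : Set (PP R (Fin n ⊕ Fin k))} {V' : Set (PP R (Fin n ⊕ Fin k'))} {f : Fin k → Fin k'}
    (h : ∀ φ ∈ V, X.Ent V' (ren (Sum.map id f) φ)) (M : Type) [AddCommGroup M] [Module R M]
    (hM : X.In M) (a : Fin n → M) (T : Fin k' → M) (hT : Re V' M (Sum.elim a T)) :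
    Re V M (Sum.elim a (T ∘ f)) := by
  intro φ hφ
  have h1 := (h φ hφ).sat hM hT
  rw [sat_ren] at h1
  have h2 : Sum.elim a T ∘ Sum.map id f = Sum.elim a (T ∘ f) := by
    funext i
    rcases i with i | i <;> rfl
  rwa [h2] at h1

theorem thm_DRE (h1 : St_EX0) (h2 : St_MIS) : St_DRE := by
  intro R _ _ X n k k' V V' N N' g g' f hN hN' hV
  have h3 : Re V' N' (Sum.elim 0 g') := (re_zer V' g').1 hN'.sat
  have h4 : Re (zer '' V) N' (g' ∘ f) := (re_zer V (g' ∘ f)).2 (DRE_re X hV N' hN'.mem 0 g' h3)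
  obtain ⟨ρ, hρ⟩ := h1 R X (Fin k) (zer '' V) N N' g (g' ∘ f) hN hN'.mem h4
  refine ⟨ρ, hρ, ?_⟩
  intro M hM a e' he'
  obtain ⟨T, F, hT, hF, rfl⟩ := he'
  refine ⟨T ∘ f, F ∘ₗ ρ, DRE_re X hV (MI M) ((h2 R M).2 X hM) _ T hT, fun i => ?_, ?_⟩
  · show F (ρ (g i)) = _
    rw [hρ i]
    exact hF (f i)
  · exact exMap_mk X ρ M F

end Pool.Agent.MVC
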