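import Pool.Agent.MVC.St2

/-!
# MVC [END]: the stable endomorphism ring of a compact module satisfies the descending chain
condition for principal left ideals (helper28)
-/

set_option autoImplicit false

namespace Pool.Agent.MVC

open Set Ax

private theorem END_prs {R : Type} [Ring R] (X : Ax R) (N : Md R) (a : ℕ → (N →ₗ[R] N))
    (f : ℕ → X.Q N) (h : ∀ k, f k = Ideal.Quotient.mk (X.nullIdeal N) (a k)) (j : ℕ) :
    prs f j = Ideal.Quotient.mk (X.nullIdeal N) (cmp (G := fun _ => N) a j) := by
  induction j with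
  | zero => rfl
  | succ j ih =>
    show f j * prs f j = _
    rw [ih, h j, ← map_mul]
    rfl

theorem thm_END (h : St_DCC) : St_END := by
  intro R _ _ X B hB n S N g hN f
  choose a ha using fun k => Ideal.Quotient.mk_surjective (f k)
  obtain ⟨j, hj⟩ := h R X B hB (fun _ => n) (fun _ => S) (fun _ => N) (fun _ => g) a n S N g
    (fun _ => hN) hN
  obtain ⟨c, hc⟩ := hj j le_rfl LinearMap.id
  refine ⟨j, Ideal.Quotient.mk (X.nullIdeal N) c, ?_⟩
  rw [END_prs X N a f (fun k => (ha k).symm) j, END_prs X N a f (fun k => (ha k).symm) (j + 1),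
    ← map_mul]
  refine Ideal.Quotient.eq.2 ?_
  have h1 : X.Null (LinearMap.id ∘ₗ cmp (G := fun _ => N) a j -
    c ∘ₗ cmp (G := fun _ => N) a (j + 1)) := hc
  rw [LinearMap.id_comp] at h1
  exact h1

end Pool.Agent.MVC
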