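import Pool.Agent.MVC.St

/-!
# Modules: extension of maps from honest modules (helper22)
-/

set_option autoImplicit false

namespace Pool.Agent.MVC

open Set Ax

private theorem EXT_seq {M : Type} [Nonempty M] (P : ℕ → (ℕ → M) → Prop)
    (hloc : ∀ n w w', (∀ i < n, w i = w' i) → P n w → P n w') (n₀ : ℕ) (w₀ : ℕ → M)
    (h0 : P n₀ w₀) (hs : ∀ n w, P n w → ∃ v, P (n + 1) (Function.update w n v)) :
    ∃ W : ℕ → M, (∀ i < n₀, W i = w₀ i) ∧ ∀ n, P (n₀ + n) W := by
  choose! v hv using hs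
  let q : ℕ → ℕ → M := fun m => Nat.rec w₀ (fun m w => Function.update w (n₀ + m) (v (n₀ + m) w)) m
  have q0 : q 0 = w₀ := rfl
  have qs : ∀ m, q (m + 1) = Function.update (q m) (n₀ + m) (v (n₀ + m) (q m)) := fun m => rfl
  have hP : ∀ m, P (n₀ + m) (q m) := by
    intro m
    induction m with
    | zero => exact h0
    | succ m ih =>
      rw [qs]
      exact hv (n₀ + m) (q m) ih
  have hq : ∀ m l i, i < n₀ + m → q (m + l) i = q m i := by
    intro m l
    induction l with
    | zero => intro i _; rfl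
    | succ l ih =>
      intro i hi
      rw [← ih i hi, ← add_assoc, qs, Function.update_of_ne (by omega)]
  refine ⟨fun i => q (i + 1) i, fun i hi => ?_, fun n => ?_⟩
  · show q (i + 1) i = w₀ i
    have h1 := hq 0 (i + 1) i (by omega)
    rwa [Nat.zero_add, q0] at h1
  · refine hloc _ _ _ (fun i hi => ?_) (hP n)
    show q n i = q (i + 1) i
    have h1 := hq n (i + 1) i (by omega)
    have h2 := hq (i + 1) n i (by omega)
    rw [← h1, ← h2, add_comm]

theorem thm_EXT : St_EXT := by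
  intro R _ _ X ι _ S N M g a k b c θ hN hθ hM ha hc
  have := hN.ctbl
  obtain ⟨e, he⟩ := exists_surjective_nat N
  -- enumeration which starts with `b`
  obtain ⟨z, hz⟩ : ∃ z : ℕ → N, z = fun j => if h : j < k then b ⟨j, h⟩ else e (j - k) := ⟨_, rfl⟩
  have hzb : ∀ j : Fin k, z j = b j := by
    intro j
    rw [hz]
    simp
  have hzs : Function.Surjective z := by
    intro x
    obtain ⟨i, rfl⟩ := he x
    refine ⟨k + i, ?_⟩
    rw [hz]
    simp
  let P : ℕ → (ℕ → M) → Prop := fun n w => ∃ θ : PP R (ι ⊕ Fin n),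
    X.Gen S N g (fun i : Fin n => z i) θ ∧ Sat θ M (Sum.elim a (fun i : Fin n => w i))
  obtain ⟨w₀, hw₀⟩ : ∃ w₀ : ℕ → M, w₀ = fun j => if h : j < k then c ⟨j, h⟩ else 0 := ⟨_, rfl⟩
  have hwc : ∀ j : Fin k, w₀ j = c j := by
    intro j
    rw [hw₀]
    simp
  obtain ⟨W, hW0, hW⟩ := EXT_seq P
    (by
      rintro n w w' h ⟨θ, h1, h2⟩
      refine ⟨θ, h1, ?_⟩
      have h3 : (fun i : Fin n => w' i) = fun i : Fin n => w i := funext fun i => (h i i.2).symm
      rw [h3]
      exact h2) k w₀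
    (by
      refine ⟨θ, ?_, ?_⟩
      · rw [show (fun i : Fin k => z i) = b from funext hzb]
        exact hθ
      · rw [show (fun i : Fin k => w₀ i) = c from funext hwc]
        exact hc)
    (by
      rintro n w ⟨θ₁, h1, h2⟩
      obtain ⟨θ', h3, h4⟩ := hN.gen (n + 1) (fun i : Fin (n + 1) => z i)
      let r : ι ⊕ Fin (n + 1) → (ι ⊕ Fin n) ⊕ Unit :=
        Sum.elim (fun i => Sum.inl (Sum.inl i))
          (fun j => if h : (j : ℕ) < n then Sum.inl (Sum.inr ⟨j, h⟩) else Sum.inr ())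
      have hr : ∀ (K : Type) (x : ι → K) (u : ℕ → K) (y : Unit → K),
          Sum.elim (Sum.elim x (fun i : Fin n => u i)) y ∘ r =
            Sum.elim x (fun i : Fin (n + 1) => Function.update u n (y ()) i) := by
        intro K x u y
        funext i
        rcases i with i | j
        · rfl
        · by_cases h : (j : ℕ) < n
          · simp only [r, Function.comp, Sum.elim_inr, dif_pos h, Sum.elim_inl]
            rw [Function.update_of_ne (by omega)]
          · have hj : (j : ℕ) = n := by omega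
            simp only [r, Function.comp, Sum.elim_inr, dif_neg h]
            rw [hj, Function.update_self]
      obtain ⟨ψ, hψ⟩ := ((isPP_sat θ').comap r).ex
      have h5 : Sat ψ N (Sum.elim g (fun i : Fin n => z i)) := by
        rw [← hψ]
        refine ⟨fun _ => z n, ?_⟩
        rw [hr, Function.update_eq_self]
        exact h3
      obtain ⟨s, hs1, hs2⟩ := h1.2 ψ h5
      have h6 := hs2 M hM a (fun i : Fin n => w i) (fun φ hφ => ha φ (hs1 hφ)) h2
      rw [← hψ] at h6
      obtain ⟨y, hy⟩ := h6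
      rw [hr] at hy
      exact ⟨y (), θ', ⟨h3, h4⟩, hy⟩)
  -- linear relations are preserved
  have key : ∀ (r₁ r₂ : R) (p q s : ι ⊕ ℕ),
      r₁ • Sum.elim g z p + r₂ • Sum.elim g z q = Sum.elim g z s →
      r₁ • Sum.elim a W p + r₂ • Sum.elim a W q = Sum.elim a W s := by
    intro r₁ r₂ p q s h
    let ix : ι ⊕ ℕ → ℕ := Sum.elim (fun _ => 0) id
    obtain ⟨n, hn⟩ : ∃ n, n = k + (ix p + ix q + ix s + 1) := ⟨_, rfl⟩
    have hn0 : 0 < n := by omega
    let lf : ι ⊕ ℕ → ι ⊕ Fin n :=
      Sum.map id (fun j => if h : j < n then ⟨j, h⟩ else ⟨0, hn0⟩)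
    have hlf : ∀ (K : Type) (x : ι → K) (u : ℕ → K) (t : ι ⊕ ℕ), ix t < n →
        Sum.elim x (fun i : Fin n => u i) (lf t) = Sum.elim x u t := by
      intro K x u t ht
      rcases t with i | j
      · rfl
      · have hj : j < n := ht
        simp [lf, hj]
    obtain ⟨ψ, hψ⟩ := isPP_lin (R := R)
      (Finsupp.single (lf p) r₁ + Finsupp.single (lf q) r₂ - Finsupp.single (lf s) 1)
    have hψ' : ∀ (K : Type) [AddCommGroup K] [Module R K] (x : ι → K) (u : ℕ → K),
        Sat ψ K (Sum.elim x (fun i : Fin n => u i)) ↔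
          r₁ • Sum.elim x u p + r₂ • Sum.elim x u q = Sum.elim x u s := by
      intro K _ _ x u
      refine (hψ K _).symm.trans ?_
      show Finsupp.linearCombination R _ _ = 0 ↔ _
      rw [map_sub, map_add, Finsupp.linearCombination_single,
        Finsupp.linearCombination_single, Finsupp.linearCombination_single, one_smul,
        hlf K x u p (by omega), hlf K x u q (by omega), hlf K x u s (by omega), sub_eq_zero]
    have hPn : P n W := hn ▸ hW (ix p + ix q + ix s + 1)
    obtain ⟨θ', h1, h2⟩ := hPn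
    have h3 : Sat ψ N (Sum.elim g (fun i : Fin n => z i)) := (hψ' N g z).2 h
    obtain ⟨s', hs1, hs2⟩ := h1.2 ψ h3
    exact (hψ' M a W).1 (hs2 M hM a _ (fun φ hφ => ha φ (hs1 hφ)) h2)
  choose ix hix using hzs
  have hwd : ∀ j, W (ix (z j)) = W j := by
    intro j
    have := key 1 0 (Sum.inr j) (Sum.inr j) (Sum.inr (ix (z j))) (by simp [hix])
    simpa using this.symm
  refine ⟨{ toFun := fun x => W (ix x), map_add' := fun x y => ?_, map_smul' := fun r x => ?_ },
    fun i => ?_, fun j => ?_⟩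
  · have := key 1 1 (Sum.inr (ix x)) (Sum.inr (ix y)) (Sum.inr (ix (x + y))) (by simp [hix])
    simpa using this.symm
  · have := key r 0 (Sum.inr (ix x)) (Sum.inr (ix x)) (Sum.inr (ix (r • x))) (by simp [hix])
    simpa using this.symm
  · have := key 1 0 (Sum.inr (ix (g i))) (Sum.inr (ix (g i))) (Sum.inl i) (by simp [hix])
    simpa using this
  · show W (ix (b j)) = c j
    rw [← hzb, hwd, hW0 j j.2, hwc]

theorem thm_EX0 : St_EX0 := by
  intro R _ _ X ι _ S N M g a hN hM ha
  obtain ⟨θ, h1, h2⟩ := hN.gen 0 Fin.elim0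
  have h3 : Sat θ M (Sum.elim a (Fin.elim0 : Fin 0 → M)) := by
    obtain ⟨ψ, hψ⟩ := (isPP_sat θ).comap (Sum.elim id Fin.elim0 : ι ⊕ Fin 0 → ι)
    have h4 : ∀ (K : Type) (x : ι → K), x ∘ (Sum.elim id Fin.elim0 : ι ⊕ Fin 0 → ι) =
        Sum.elim x (Fin.elim0 : Fin 0 → K) := by
      intro K x
      funext i
      rcases i with i | i
      · rfl
      · exact i.elim0
    have h5 : Sat ψ N g := by
      refine (hψ N g).1 ?_
      show Sat θ N (g ∘ _)
      rw [h4]
      exact h1
    have h6 : Sat θ M (a ∘ (Sum.elim id Fin.elim0 : ι ⊕ Fin 0 → ι)) :=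
      (hψ M a).2 (Ent.sat (hN.gen0 ψ h5) hM ha)
    rw [h4] at h6
    exact h6
  obtain ⟨f, hf, -⟩ := thm_EXT R X ι S N M g a 0 Fin.elim0 Fin.elim0 θ hN ⟨h1, h2⟩ hM ha h3
  exact ⟨f, hf⟩

end Pool.Agent.MVC
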