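import Pool.Agent.MVC.St2

/-!
# When a map represents zero in `e_q(M)`
-/

set_option autoImplicit false
set_option linter.unusedSectionVars false
set_option linter.unusedVariables false

namespace Pool.Agent.MVC

open Set Ax

/-- a tuple of the reduced power which satisfies a formula is a difference `sh y - y`, where `y`
satisfies the formula -/
private theorem exists_diff (h1 : St_MIS) {R : Type} [Ring R] (M : Md R) {k : ℕ}
    (χ : PP R (Fin k)) (z : Fin k → MI M) (hz : Sat χ (MI M) z) :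
    ∃ y : Fin k → MI M, Sat χ (MI M) y ∧ ∀ i, MI.sh M (y i) - y i = z i := by
  choose s hs using fun i => MI.mk_surj M (z i)
  have hzs : z = fun i => MI.mk M (s i) := by
    funext i
    exact (hs i).symm
  rw [hzs] at hz
  obtain ⟨n, hn⟩ := ((h1 R M).1 (Fin k) χ s).mp hz
  refine ⟨fun i => MI.mk M (fun m => ∑ l ∈ Finset.Ico n m, s i l), ?_, fun i => ?_⟩
  · refine ((h1 R M).1 (Fin k) χ _).mpr ⟨n, fun m hm => ?_⟩
    induction m, hm using Nat.le_induction with
    | base =>
      have h2 : (fun i => ∑ l ∈ Finset.Ico n n, s i l) = (0 : Fin k → M) := by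
        funext i
        simp
      rw [h2]
      exact Sat.zero χ
    | succ m hm ih =>
      have h2 : (fun i => ∑ l ∈ Finset.Ico n (m + 1), s i l) =
          (fun i => ∑ l ∈ Finset.Ico n m, s i l) + (fun i => s i m) := by
        funext i
        rw [Finset.sum_Ico_succ_top hm]
        rfl
      rw [h2]
      exact ih.add (hn m hm)
  · rw [MI.sh_mk, ← map_sub, ← hs i, MI.mk_eq]
    refine ⟨n, fun m hm => ?_⟩
    rw [Pi.sub_apply]
    show (∑ l ∈ Finset.Ico n (m + 1), s i l) - (∑ l ∈ Finset.Ico n m, s i l) = s i m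
    rw [Finset.sum_Ico_succ_top hm, add_sub_cancel_left]

theorem thm_EXZ (h1 : St_MIS) (h2 : St_MIK) (h3 : St_EX0) (h4 : St_NUZ) : St_EXZ := by
  intro R _ _ X k S N M g f hN hM
  have hMI : X.In (MI M) := (h1 R M).2 X hM
  rw [exMk_eq_zero]
  constructor
  · rintro ⟨h, u, hu, rfl⟩
    obtain ⟨χ, hχ1, hχ2⟩ := hu k g
    obtain ⟨y, hy1, hy2⟩ := exists_diff h1 M χ (u ∘ g) hχ2
    refine ⟨h ∘ g + y, (hN.sat.map h).add fun φ hφ => hχ1 φ (hN.sat φ hφ) (MI M) hMI y hy1,
      fun i => ?_⟩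
    have h5 : u (g i) = MI.sh M (y i) - y i := (hy2 i).symm
    show MI.sh M (h (g i)) - h (g i) + u (g i) = MI.sh M (h (g i) + y i) - (h (g i) + y i)
    rw [h5, map_add]
    abel
  · rintro ⟨y, hy1, hy2⟩
    obtain ⟨h, hh⟩ := h3 R X (Fin k) S N (MI M) g y hN hMI hy1
    refine ⟨h, f - (MI.sh M ∘ₗ h - h), ?_, by abel⟩
    refine h4 R X (Fin k) S N (MI M) g _ hN fun i => ?_
    show f (g i) - (MI.sh M (h (g i)) - h (g i)) = 0
    rw [hh, hy2, sub_self]

end Pool.Agent.MVC
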