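import Pool.Agent.MVC.H31_St2

/-!
# Finite type: in each sequence of honest modules one is a retract of a finite product of others
-/

set_option autoImplicit false
set_option linter.unusedSectionVars false
set_option linter.unusedVariables false

namespace Pool.Agent.MVC

open Set Ax

/-- finite tuples of a direct sum lie in finite partial sums -/
private theorem FIN_loc {R : Type} [Ring R] (N : ℕ → Md R) (S : Set ℕ) {ι : Type} [Finite ι]
    (x : ι → Π₀ i : S, N i.1) : ∃ F : Finset ℕ, (∀ i ∈ F, i ∈ S) ∧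
      ∃ (P : (Π₀ i : S, N i.1) →ₗ[R] (∀ i : F, N i.1))
        (J : (∀ i : F, N i.1) →ₗ[R] (Π₀ i : S, N i.1)), ∀ i, J (P (x i)) = x i := by
  classical
  cases nonempty_fintype ι
  let T : Finset S := Finset.univ.biUnion fun i => (x i).support
  let F : Finset ℕ := T.image Subtype.val
  have hF : ∀ i ∈ F, i ∈ S := by
    intro i hi
    obtain ⟨j, hj, rfl⟩ := Finset.mem_image.1 hi
    exact j.2
  refine ⟨F, hF, LinearMap.pi fun i : F => DFinsupp.lapply (⟨i.1, hF i.1 i.2⟩ : S),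
    ∑ i : F, (DFinsupp.lsingle (⟨i.1, hF i.1 i.2⟩ : S)) ∘ₗ LinearMap.proj i, fun a => ?_⟩
  refine DFinsupp.ext fun j => ?_
  rw [LinearMap.sum_apply, DFinsupp.finsetSum_apply]
  simp only [LinearMap.comp_apply, LinearMap.proj_apply, LinearMap.pi_apply,
    DFinsupp.lapply_apply, DFinsupp.lsingle_apply]
  by_cases hj : j.1 ∈ F
  · rw [Finset.sum_eq_single (⟨j.1, hj⟩ : F)]
    · exact DFinsupp.single_eq_same
    · intro i _ hi
      refine DFinsupp.single_eq_of_ne ?_
      intro h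
      exact hi (Subtype.ext (congrArg Subtype.val h).symm)
    · intro h
      exact absurd (Finset.mem_univ _) h
  · rw [Finset.sum_eq_zero]
    · symm
      by_contra h
      refine hj (Finset.mem_image.2 ⟨j, ?_, rfl⟩)
      exact Finset.mem_biUnion.2 ⟨a, Finset.mem_univ _, DFinsupp.mem_support_iff.2 h⟩
    · intro i _
      refine DFinsupp.single_eq_of_ne ?_
      intro h
      refine hj ?_
      have h1 : i.1 = j.1 := (congrArg Subtype.val h).symm
      rw [← h1]
      exact i.2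

/-- a countable direct sum of members of the class -/
private theorem FIN_in {R : Type} [Ring R] (X : Ax R) (N : ℕ → Md R) (hN : ∀ i, X.In (N i))
    (S : Set ℕ) : X.In (Π₀ i : S, N i.1) := by
  intro a ha x hx
  obtain ⟨F, hF, P, J, hPJ⟩ := FIN_loc N S x
  have h1 : X.In (∀ i : F, N i.1) := In.pi fun i => hN i.1
  have h2 := (h1 a ha _ (hx.map P)).map J
  have h3 : J ∘ (P ∘ x) = x := funext fun i => hPJ i
  rwa [h3] at h2

/-- level-one types in a module with two maps -/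
private theorem FIN_tp {R : Type} [Ring R] {ι M N : Type} [AddCommGroup M] [Module R M]
    [AddCommGroup N] [Module R N] (x : ι → M) (y : ι → N) (u : M →ₗ[R] N) (v : N →ₗ[R] M)
    (hu : ∀ i, u (x i) = y i) (hv : ∀ i, v (y i) = x i) : tp1 (R := R) M x = tp1 N y := by
  ext V
  constructor
  · intro h
    have h1 : Sat1 V N (u ∘ x) := Sat1.map h u
    have h2 : u ∘ x = y := funext hu
    rw [h2] at h1
    exact h1
  · intro h
    have h1 : Sat1 V M (v ∘ y) := Sat1.map h v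
    have h2 : v ∘ y = x := funext hv
    rw [h2] at h1
    exact h1

/-- The main step: a tuple with the same level-one type in `B × C`, `C` honest, gives a retraction. -/
private theorem FIN_ret {R : Type} [Ring R] [Countable R] (X : Ax R) (B : Md R)
    (hB : X.Atomic B) (hEX : St_EX0) (hNUP : St_NUP) (A C : Hon X) (b : Fin A.n → B)
    (c : Fin A.n → C.N)
    (h : ∀ V : L1 R (Fin A.n), Sat1 V (B × C.N) (fun i => (b i, c i)) → Sat1 V A.N A.g)
    (hb : Re A.S B b) (hc : Re A.S C.N c) :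
    ∃ (f : A.N →ₗ[R] C.N) (k : C.N →ₗ[R] A.N), X.Eqv (k ∘ₗ f) LinearMap.id := by
  obtain ⟨β, hβ, hβ'⟩ := hB A.n b
  obtain ⟨θ, hθ, hθ'⟩ := C.hon.gen A.n c
  -- the level-one formula
  have hV : IsL0 (R := R) (fun M _ _ (x : Fin A.n → M) => ∃ z : Fin A.n ⊕ Fin C.n → M,
      Sat β M (z ∘ Sum.inl) ∧ Re C.S M (z ∘ Sum.inr) ∧
        Sat θ M (Sum.elim (z ∘ Sum.inr) (x - z ∘ Sum.inl))) := by
    have h1 : IsL0 (R := R) (ι := Fin A.n ⊕ (Fin A.n ⊕ Fin C.n)) (fun M _ _ w =>
        Sat β M (w ∘ fun i => Sum.inr (Sum.inl i))) := ((isPP_sat β).isL0).comap _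
    have h2 : IsL0 (R := R) (ι := Fin A.n ⊕ (Fin A.n ⊕ Fin C.n)) (fun M _ _ w =>
        Re C.S M (w ∘ fun i => Sum.inr (Sum.inr i))) := (isL0_re C.S).comap _
    have h3 : IsL0 (R := R) (ι := Fin A.n ⊕ (Fin A.n ⊕ Fin C.n)) (fun M _ _ w =>
        Sat θ M (Sum.elim (fun i => w (Sum.inr (Sum.inr i)))
          (fun i => w (Sum.inl i) - w (Sum.inr (Sum.inl i))))) := by
      refine (((isPP_sat θ).isL0).subst (Sum.elim
        (fun i => Finsupp.single (Sum.inr (Sum.inr i)) (1 : R))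
        (fun i => Finsupp.single (Sum.inl i) (1 : R) -
          Finsupp.single (Sum.inr (Sum.inl i)) (1 : R)))).congr fun M _ _ w => ?_
      refine iff_of_eq ?_
      congr 1
      funext i
      cases i <;> simp
    refine (h1.and (h2.and h3)).ex.congr fun M _ _ x => ?_
    exact Iff.rfl
  have h1 : Sat1 hV.fm (B × C.N) (fun i => (b i, c i)) := by
    refine hV.fm_iff.2 ⟨Sum.elim (fun i => (b i, 0)) (fun i => (0, C.g i)), ?_, ?_, ?_⟩
    · exact sat_prod.2 ⟨hβ, Sat.zero β⟩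
    · exact re_prod.2 ⟨Re.zero C.S, C.hon.sat⟩
    · refine sat_prod.2 ⟨?_, ?_⟩
      · have h2 : (fun i => ((Sum.elim ((Sum.elim (fun i => ((b i, 0) : B × C.N))
            (fun i => (0, C.g i))) ∘ Sum.inr) ((fun i => ((b i, c i) : B × C.N)) -
              (Sum.elim (fun i => ((b i, 0) : B × C.N)) (fun i => (0, C.g i))) ∘ Sum.inl) :
                Fin C.n ⊕ Fin A.n → B × C.N) i).1) = 0 := by
          funext i
          cases i <;> simp
        rw [h2]
        exact Sat.zero θ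
      · have h2 : (fun i => ((Sum.elim ((Sum.elim (fun i => ((b i, 0) : B × C.N))
            (fun i => (0, C.g i))) ∘ Sum.inr) ((fun i => ((b i, c i) : B × C.N)) -
              (Sum.elim (fun i => ((b i, 0) : B × C.N)) (fun i => (0, C.g i))) ∘ Sum.inl) :
                Fin C.n ⊕ Fin A.n → B × C.N) i).2) = Sum.elim C.g c := by
          funext i
          cases i <;> simp
        rw [h2]
        exact hθ
  obtain ⟨z, hz1, hz2, hz3⟩ := hV.fm_iff.1 (h _ h1)
  obtain ⟨k, hk⟩ := hEX R X (Fin C.n) C.S C.N A.N C.g (z ∘ Sum.inr) C.hon A.hon.mem hz2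
  obtain ⟨f, hf⟩ := hEX R X (Fin A.n) A.S A.N C.N A.g c A.hon C.hon.mem hc
  refine ⟨f, k, ?_⟩
  refine hNUP R X (Fin A.n) A.S A.N A.N A.g (k ∘ₗ f - LinearMap.id) A.hon ?_
  -- the difference of the two solutions of `θ`
  have h2 : Sat θ A.N (Sum.elim (z ∘ Sum.inr) (k ∘ c)) := by
    have h3 := hθ.map k
    rw [Sum.comp_elim] at h3
    have h4 : k ∘ C.g = z ∘ Sum.inr := funext hk
    rwa [h4] at h3
  have h3 : Sat θ A.N (Sum.elim 0 ((k ∘ c) - (A.g - z ∘ Sum.inl))) := by
    have h4 := h2.sub hz3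
    rw [← elim_sub, sub_self] at h4
    exact h4
  have h4 : X.P A.S A.N ((k ∘ c) - (A.g - z ∘ Sum.inl)) := by
    refine ⟨zer θ, fun ψ hψ => ?_, (sat_zer θ _).2 h3⟩
    obtain ⟨s, hs, hs'⟩ := hθ' (ren Sum.inr ψ) ((sat_ren Sum.inr ψ _).2 (by
      rw [Sum.elim_comp_inr]
      exact hc ψ hψ))
    intro K _ _ hK y hy
    have h5 := hs' K hK 0 y (fun φ _ => Sat.zero φ) ((sat_zer θ y).1 hy)
    rw [sat_ren, Sum.elim_comp_inr] at h5
    exact h5
  have h5 : X.P A.S A.N (z ∘ Sum.inl) := ⟨β, fun ψ hψ => hβ' ψ (hb ψ hψ), hz1⟩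
  have h6 := P.sub h4 h5
  have h7 : (k ∘ c) - (A.g - z ∘ Sum.inl) - z ∘ Sum.inl =
      (k ∘ₗ f - (LinearMap.id : A.N →ₗ[R] A.N)) ∘ A.g := by
    funext i
    simp only [hf, Pi.sub_apply, Function.comp_apply, LinearMap.sub_apply, LinearMap.comp_apply,
      LinearMap.id_apply]
    abel
  rw [h7] at h6
  exact h6

theorem thm_FIN : St_FIN := by
  intro hREI hHPR hHPI hEX hNUP R _ _ X B hFew Z
  by_contra hno
  have hB := hFew.mem
  have hBc := hFew.ctbl
  have hMc : ∀ S : Set ℕ, Countable (B × Π₀ i : S, (Z i.1).N) := by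
    intro S
    have : ∀ i : S, Countable (Z i.1).N := fun i => (Z i.1).hon.ctbl
    infer_instance
  have hMc' : ∀ S : Set ℕ, Countable (Π₀ i : S, (Z i.1).N) := by
    intro S
    have : ∀ i : S, Countable (Z i.1).N := fun i => (Z i.1).hon.ctbl
    infer_instance
  have hMX : ∀ S : Set ℕ, X.In (Π₀ i : S, (Z i.1).N) := fun S =>
    FIN_in X (fun i => (Z i).N) (fun i => (Z i).hon.mem) S
  have key : ∀ (S : Set ℕ) (k : ℕ),
      (⟨(Z k).n, tp1 (R := R) (Z k).N (Z k).g⟩ : (n : ℕ) × Set (L1 R (Fin n))) ∈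
        real1 (R := R) (B × Π₀ i : S, (Z i.1).N) ↔ k ∈ S := by
    classical
    intro S k
    constructor
    · rintro ⟨y, hy⟩
      by_contra hk
      change tp1 (R := R) (B × Π₀ i : S, (Z i.1).N) y = tp1 (R := R) (Z k).N (Z k).g at hy
      obtain ⟨F, hF, P, J, hPJ⟩ := FIN_loc (fun i => (Z i).N) S fun i => (y i).2
      obtain ⟨C, ⟨e⟩⟩ := hHPI hREI hHPR R X (Fintype.card F)
        (fun i => Z ((Fintype.equivFin F).symm i).1)
      let e' : (∀ i : Fin (Fintype.card F), (Z ((Fintype.equivFin F).symm i).1).N) ≃ₗ[R]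
          (∀ i : F, (Z i.1).N) :=
        LinearEquiv.piCongrLeft R (fun i : F => ((Z i.1).N : Type)) (Fintype.equivFin F).symm
      let E : C.N ≃ₗ[R] (∀ i : F, (Z i.1).N) := e.trans e'
      refine hno ⟨k, F, fun h => hk (hF k h), ?_⟩
      have hS : Re (Z k).S (B × Π₀ i : S, (Z i.1).N) y := by
        have h1 : ofRe (Z k).S ∈ tp1 (R := R) (Z k).N (Z k).g := (sat1_ofRe _ _).2 (Z k).hon.sat
        rw [← hy] at h1
        exact (sat1_ofRe _ _).1 h1
      have hb : Re (Z k).S B fun i => (y i).1 := hS.map (LinearMap.fst R B _)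
      have hc : Re (Z k).S C.N fun i => E.symm (P (y i).2) :=
        hS.map ((E.symm : (∀ i : F, (Z i.1).N) →ₗ[R] C.N) ∘ₗ P ∘ₗ LinearMap.snd R B _)
      obtain ⟨f, g, hfg⟩ := FIN_ret X B hFew.atomic hEX hNUP (Z k) C (fun i => (y i).1)
        (fun i => E.symm (P (y i).2)) (fun V hV => by
          have h1 := hV.map ((LinearMap.id : B →ₗ[R] B).prodMap (J ∘ₗ (E : C.N →ₗ[R] (∀ i : F, (Z i.1).N))))
          have h2 : (((LinearMap.id : B →ₗ[R] B).prodMap (J ∘ₗ (E : C.N →ₗ[R] (∀ i : F, (Z i.1).N)))) ∘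
              fun i => ((y i).1, E.symm (P (y i).2))) = y := by
            funext i
            refine Prod.ext rfl ?_
            show J (E (E.symm (P (y i).2))) = (y i).2
            rw [LinearEquiv.apply_symm_apply]
            exact hPJ i
          rw [h2] at h1
          have h3 : V ∈ tp1 (R := R) (B × Π₀ i : S, (Z i.1).N) y := h1
          rw [hy] at h3
          exact h3) hb hc
      refine ⟨(E : C.N →ₗ[R] (∀ i : F, (Z i.1).N)) ∘ₗ f, g ∘ₗ (E.symm : (∀ i : F, (Z i.1).N) →ₗ[R] C.N), ?_⟩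
      have h1 : (g ∘ₗ (E.symm : (∀ i : F, (Z i.1).N) →ₗ[R] C.N)) ∘ₗ ((E : C.N →ₗ[R] (∀ i : F, (Z i.1).N)) ∘ₗ f) = g ∘ₗ f := by
        ext x
        simp
      rw [h1]
      exact hfg
    · intro hk
      refine ⟨fun j => (0, DFinsupp.single (⟨k, hk⟩ : S) ((Z k).g j)), ?_⟩
      refine FIN_tp _ _ (DFinsupp.lapply (⟨k, hk⟩ : S) ∘ₗ LinearMap.snd R B _)
        (LinearMap.inr R B _ ∘ₗ
          (DFinsupp.lsingle (M := fun i : S => ((Z i.1).N : Type)) (⟨k, hk⟩ : S))) (fun i => ?_) (fun i => ?_)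
      · exact DFinsupp.single_eq_same
      · rfl
  -- injection of the sets of numbers
  let φ : Set ℕ → {Θ : Set ((n : ℕ) × Set (L1 R (Fin n))) | ∃ N : Md R, Countable N ∧ X.In N ∧
      real1 (B × N) = Θ} := fun S => ⟨real1 (R := R) (B × Π₀ i : S, (Z i.1).N),
    ⟨⟨Π₀ i : S, (Z i.1).N⟩, hMc' S, hMX S, rfl⟩⟩
  have hφ : Function.Injective φ := by
    intro S T h
    ext k
    have h1 : real1 (R := R) (B × Π₀ i : S, (Z i.1).N) = real1 (R := R) (B × Π₀ i : T, (Z i.1).N) :=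
      congrArg Subtype.val h
    rw [← key S k, ← key T k, h1]
  have := hFew.few2.to_subtype
  have : Countable (Set ℕ) := hφ.countable
  obtain ⟨f, hf⟩ := exists_surjective_nat (Set ℕ)
  exact Function.cantor_surjective f hf

end Pool.Agent.MVC
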