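import Pool.Agent.MVC.H31_St2

/-!
# Vaught's conjecture for modules: a generator (module GEN, helper25)
-/

set_option autoImplicit false
set_option linter.unusedSectionVars false
set_option linter.unusedVariables false

namespace Pool.Agent.MVC

open Set Ax

section

variable {R : Type} [Ring R] {X : Ax R}
variable {M N K : Type} [AddCommGroup M] [Module R M] [AddCommGroup N] [Module R N]
  [AddCommGroup K] [Module R K]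

private theorem GEN_sum {ι : Type} (s : Finset ι) {u v : ι → M →ₗ[R] N}
    (h : ∀ i ∈ s, X.Eqv (u i) (v i)) : X.Eqv (∑ i ∈ s, u i) (∑ i ∈ s, v i) := by
  classical
  induction s using Finset.induction_on with
  | empty =>
    rw [Finset.sum_empty, Finset.sum_empty]
    exact Eqv.refl _
  | insert i s hi ih =>
    rw [Finset.sum_insert hi, Finset.sum_insert hi]
    exact Eqv.add (h i (Finset.mem_insert_self i s))
      (ih fun j hj => h j (Finset.mem_insert_of_mem hj))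

private theorem GEN_zero {u : M →ₗ[R] N} : X.Eqv u 0 ↔ X.Null u := by
  unfold Ax.Eqv
  rw [sub_zero]

private theorem GEN_triv (h : X.Null (LinearMap.id : M →ₗ[R] M)) : X.Retr M N := by
  refine ⟨0, 0, ?_⟩
  rw [LinearMap.comp_zero]
  exact (GEN_zero.2 h).symm

private theorem GEN_trans (h : X.Retr M N) (h' : X.Retr N K) : X.Retr M K := by
  obtain ⟨a, b, h1⟩ := h
  obtain ⟨c, d, h2⟩ := h'
  refine ⟨c ∘ₗ a, b ∘ₗ d, ?_⟩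
  have h3 : X.Eqv (b ∘ₗ (d ∘ₗ c) ∘ₗ a) (b ∘ₗ LinearMap.id ∘ₗ a) :=
    Eqv.comp (Eqv.comp (Eqv.refl a) h2) (Eqv.refl b)
  exact Eqv.trans h3 h1

/-- left invertible sums in a local ring -/
private theorem GEN_loc (hA : ∀ f : M →ₗ[R] M, (∃ g : M →ₗ[R] M, X.Eqv (g ∘ₗ f) LinearMap.id) ∨
    ∃ g : M →ₗ[R] M, X.Eqv (g ∘ₗ (LinearMap.id - f)) LinearMap.id)
    (hn : ¬ X.Null (LinearMap.id : M →ₗ[R] M)) {ι : Type} (a : ι → M →ₗ[R] M) (s : Finset ι) :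
    ∀ g : M →ₗ[R] M, X.Eqv (g ∘ₗ ∑ i ∈ s, a i) LinearMap.id →
      ∃ i ∈ s, ∃ g : M →ₗ[R] M, X.Eqv (g ∘ₗ a i) LinearMap.id := by
  classical
  induction s using Finset.induction_on with
  | empty =>
    intro g hg
    rw [Finset.sum_empty, LinearMap.comp_zero] at hg
    exact absurd (GEN_zero.1 hg.symm) hn
  | insert i s hi ih =>
    intro g hg
    rw [Finset.sum_insert hi, LinearMap.comp_add] at hg
    rcases hA (g ∘ₗ a i) with ⟨g', hg'⟩ | ⟨g', hg'⟩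
    · exact ⟨i, Finset.mem_insert_self i s, g' ∘ₗ g, hg'⟩
    · have h1 : X.Eqv (LinearMap.id - g ∘ₗ a i) (g ∘ₗ ∑ i ∈ s, a i) := by
        have h2 : X.Eqv (g ∘ₗ a i + g ∘ₗ ∑ i ∈ s, a i + -(g ∘ₗ a i))
            (LinearMap.id + -(g ∘ₗ a i)) := Eqv.add hg (Eqv.refl _)
        have h3 : g ∘ₗ a i + g ∘ₗ ∑ i ∈ s, a i + -(g ∘ₗ a i) = g ∘ₗ ∑ i ∈ s, a i := by abel
        rw [h3, ← sub_eq_add_neg] at h2
        exact h2.symm
      have h4 : X.Eqv (g' ∘ₗ (g ∘ₗ ∑ i ∈ s, a i)) (g' ∘ₗ (LinearMap.id - g ∘ₗ a i)) :=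
        Eqv.comp h1.symm (Eqv.refl g')
      have h6 : X.Eqv (g' ∘ₗ (g ∘ₗ ∑ i ∈ s, a i)) LinearMap.id := Eqv.trans h4 hg'
      rw [← LinearMap.comp_assoc] at h6
      obtain ⟨j, hj, g'', h5⟩ := ih (g' ∘ₗ g) h6
      exact ⟨j, Finset.mem_insert_of_mem hj, g'', h5⟩

/-- a local object which is a retract of a finite product is a retract of a factor -/
private theorem GEN_fac (hA : ∀ f : M →ₗ[R] M, (∃ g : M →ₗ[R] M, X.Eqv (g ∘ₗ f) LinearMap.id) ∨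
    ∃ g : M →ₗ[R] M, X.Eqv (g ∘ₗ (LinearMap.id - f)) LinearMap.id)
    (hn : ¬ X.Null (LinearMap.id : M →ₗ[R] M)) {ι : Type} [Fintype ι] (Q : ι → Type)
    [∀ i, AddCommGroup (Q i)] [∀ i, Module R (Q i)] (h : X.Retr M (∀ i, Q i)) :
    ∃ i, X.Retr M (Q i) := by
  classical
  obtain ⟨α, β, h1⟩ := h
  have h2 : β ∘ₗ α = ∑ i ∈ (Finset.univ : Finset ι),
      (β ∘ₗ LinearMap.single R Q i) ∘ₗ (LinearMap.proj i ∘ₗ α) := by
    ext x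
    rw [LinearMap.sum_apply]
    show β (α x) = ∑ i, β (Pi.single i (α x i))
    rw [← map_sum, Finset.univ_sum_single]
  rw [h2] at h1
  obtain ⟨i, -, g, h3⟩ := GEN_loc hA hn
    (fun i => (β ∘ₗ LinearMap.single R Q i) ∘ₗ (LinearMap.proj i ∘ₗ α)) Finset.univ
    LinearMap.id h1
  exact ⟨i, LinearMap.proj i ∘ₗ α, g ∘ₗ β ∘ₗ LinearMap.single R Q i, h3⟩

/-- retracts between local objects go both ways -/
private theorem GEN_sym (hn : ¬ X.Null (LinearMap.id : M →ₗ[R] M))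
    (hB : ∀ f : N →ₗ[R] N, (∃ g : N →ₗ[R] N, X.Eqv (g ∘ₗ f) LinearMap.id) ∨
      ∃ g : N →ₗ[R] N, X.Eqv (g ∘ₗ (LinearMap.id - f)) LinearMap.id)
    (h : X.Retr M N) : X.Retr N M := by
  obtain ⟨α, β, h1⟩ := h
  have h2 : X.Eqv ((α ∘ₗ β) ∘ₗ (α ∘ₗ β)) (α ∘ₗ β) := by
    have h3 : X.Eqv (α ∘ₗ (β ∘ₗ α) ∘ₗ β) (α ∘ₗ LinearMap.id ∘ₗ β) :=
      Eqv.comp (Eqv.comp (Eqv.refl β) h1) (Eqv.refl α)
    exact h3
  rcases hB (α ∘ₗ β) with ⟨g, hg⟩ | ⟨g, hg⟩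
  · refine ⟨β, α, ?_⟩
    have h4 : X.Eqv ((g ∘ₗ (α ∘ₗ β)) ∘ₗ (α ∘ₗ β)) (LinearMap.id ∘ₗ (α ∘ₗ β)) :=
      Eqv.comp (Eqv.refl _) hg
    have h5 : X.Eqv (g ∘ₗ ((α ∘ₗ β) ∘ₗ (α ∘ₗ β))) (g ∘ₗ (α ∘ₗ β)) := Eqv.comp h2 (Eqv.refl g)
    exact Eqv.trans (Eqv.trans h4.symm h5) hg
  · exfalso
    apply hn
    have h4 : X.Eqv ((LinearMap.id - α ∘ₗ β) ∘ₗ (α ∘ₗ β)) 0 := by
      rw [LinearMap.sub_comp, LinearMap.id_comp]
      have h5 : X.Eqv (-((α ∘ₗ β) ∘ₗ (α ∘ₗ β)) + α ∘ₗ β)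
          (-((α ∘ₗ β) ∘ₗ (α ∘ₗ β)) + (α ∘ₗ β) ∘ₗ (α ∘ₗ β)) := Eqv.add (Eqv.refl _) h2.symm
      rw [neg_add_cancel, neg_add_eq_sub] at h5
      exact h5
    have h6 : X.Eqv (α ∘ₗ β) 0 := by
      have h7 : X.Eqv ((g ∘ₗ (LinearMap.id - α ∘ₗ β)) ∘ₗ (α ∘ₗ β)) (LinearMap.id ∘ₗ (α ∘ₗ β)) :=
        Eqv.comp (Eqv.refl _) hg
      have h8 : X.Eqv (g ∘ₗ ((LinearMap.id - α ∘ₗ β) ∘ₗ (α ∘ₗ β))) (g ∘ₗ (0 : N →ₗ[R] N)) :=
        Eqv.comp h4 (Eqv.refl g)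
      rw [LinearMap.comp_zero] at h8
      exact Eqv.trans h7.symm h8
    have h9 : X.Eqv (β ∘ₗ (α ∘ₗ β) ∘ₗ α) (β ∘ₗ (0 : N →ₗ[R] N) ∘ₗ α) :=
      Eqv.comp (Eqv.comp (Eqv.refl α) h6) (Eqv.refl β)
    rw [LinearMap.zero_comp, LinearMap.comp_zero] at h9
    have h10 : X.Eqv ((β ∘ₗ α) ∘ₗ (β ∘ₗ α)) (LinearMap.id ∘ₗ LinearMap.id) := Eqv.comp h1 h1
    exact GEN_zero.1 (Eqv.trans h10.symm h9)

/-- a factor of a product is a retract -/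
private theorem GEN_pi {ι : Type} (Q : ι → Type)
    [∀ i, AddCommGroup (Q i)] [∀ i, Module R (Q i)] (e : M ≃ₗ[R] ∀ i, Q i) (j : ι) :
    X.Retr (Q j) M := by
  classical
  refine ⟨e.symm.toLinearMap ∘ₗ LinearMap.single R Q j, LinearMap.proj j ∘ₗ e.toLinearMap, ?_⟩
  have h4 : (LinearMap.proj j ∘ₗ e.toLinearMap) ∘ₗ (e.symm.toLinearMap ∘ₗ
      LinearMap.single R Q j) = LinearMap.id := by
    ext y
    show e (e.symm (Pi.single j y)) j = y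
    rw [LinearEquiv.apply_symm_apply, Pi.single_eq_same]
  rw [h4]
  exact Eqv.refl _

private theorem GEN_sumc {ι : Type} [Fintype ι] (u : ι → N →ₗ[R] K) (a : M →ₗ[R] N) :
    (∑ i, u i) ∘ₗ a = ∑ i, u i ∘ₗ a := by
  apply LinearMap.ext
  intro x
  rw [LinearMap.comp_apply, LinearMap.sum_apply, LinearMap.sum_apply]
  apply Finset.sum_congr rfl
  intro i _
  rw [LinearMap.comp_apply]

/-- a sum of retracts of `N` is a retract of a power of `N` -/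
private theorem GEN_pow {m : ℕ} (Q : Fin m → Type)
    [∀ i, AddCommGroup (Q i)] [∀ i, Module R (Q i)] (ρ : ∀ i, M →ₗ[R] Q i) (ι : ∀ i, Q i →ₗ[R] M)
    (hsum : X.Eqv (∑ i, ι i ∘ₗ ρ i) LinearMap.id) (α : ∀ i, Q i →ₗ[R] N) (β : ∀ i, N →ₗ[R] Q i)
    (h : ∀ i, X.Eqv (β i ∘ₗ α i) LinearMap.id) : X.Retr M (Fin m → N) := by
  have h1 : ∀ i, X.Eqv ((ι i ∘ₗ β i ∘ₗ (LinearMap.proj i : (Fin m → N) →ₗ[R] N)) ∘ₗ
      (LinearMap.pi fun i => α i ∘ₗ ρ i)) (ι i ∘ₗ ρ i) := by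
    intro i
    have h2 : (ι i ∘ₗ β i ∘ₗ (LinearMap.proj i : (Fin m → N) →ₗ[R] N)) ∘ₗ
        (LinearMap.pi fun i => α i ∘ₗ ρ i) = ι i ∘ₗ ((β i ∘ₗ α i) ∘ₗ ρ i) := by
      apply LinearMap.ext
      intro x
      rfl
    rw [h2]
    have h3 : X.Eqv (ι i ∘ₗ ((β i ∘ₗ α i) ∘ₗ ρ i)) (ι i ∘ₗ (LinearMap.id ∘ₗ ρ i)) :=
      Eqv.comp (Eqv.comp (Eqv.refl (ρ i)) (h i)) (Eqv.refl (ι i))
    rw [LinearMap.id_comp] at h3
    exact h3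
  refine ⟨LinearMap.pi fun i => α i ∘ₗ ρ i,
    ∑ i, ι i ∘ₗ β i ∘ₗ (LinearMap.proj i : (Fin m → N) →ₗ[R] N), ?_⟩
  rw [GEN_sumc]
  exact Eqv.trans (GEN_sum Finset.univ fun i _ => h1 i) hsum

end

/-- finitely many local modules -/
private theorem GEN_fin {R : Type} [Ring R] (X : Ax R)
    (hfin : ∀ Z : ℕ → Hon X, ∃ (k : ℕ) (F : Finset ℕ), k ∉ F ∧ X.Retr (Z k).N (∀ i : F, (Z i).N)) :
    ∃ s : Finset (Hon X), ∀ y : Hon X,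
      (Loc y ∧ ¬ X.Null (LinearMap.id : y.N →ₗ[R] y.N)) → ∃ x ∈ s, X.Retr y.N x.N := by
  classical
  by_contra hcon
  push Not at hcon
  obtain ⟨f, hf, hr⟩ := exists_seq_of_forall_finset_exists
    (fun y : Hon X => Loc y ∧ ¬ X.Null (LinearMap.id : y.N →ₗ[R] y.N))
    (fun x y => ¬ X.Retr y.N x.N) (fun s _ => hcon s)
  obtain ⟨k, F, hk, hR⟩ := hfin f
  obtain ⟨i, hi⟩ := GEN_fac (X := X) (M := (f k).N) (hf k).1 (hf k).2
    (fun i : F => ((f i).N : Type)) hR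
  have hik : (i : ℕ) ≠ k := fun h => hk (h ▸ i.2)
  rcases Nat.lt_or_gt_of_ne hik with h | h
  · exact hr i k h hi
  · exact hr k i h (GEN_sym (hf k).2 (hf i).1 hi)

/-- [GEN] -/
theorem thm_GEN : St_GEN := by
  intro hPI R _ _ X hfin hdec
  classical
  obtain ⟨s, hs⟩ := GEN_fin X hfin
  obtain ⟨Y, ⟨e⟩⟩ := hPI R X s.card (fun j => (s.equivFin.symm j).1)
  have h2 : ∀ x ∈ s, X.Retr x.N Y.N := by
    intro x hx
    have h5 : X.Retr ((s.equivFin.symm (s.equivFin ⟨x, hx⟩)).1).N Y.N :=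
      GEN_pi (X := X) (M := Y.N) (fun j => ((s.equivFin.symm j).1.N : Type)) e
        (s.equivFin ⟨x, hx⟩)
    rw [Equiv.symm_apply_apply] at h5
    exact h5
  have h3 : ∀ y : Hon X, Loc y → X.Retr y.N Y.N := by
    intro y hy
    by_cases hn : X.Null (LinearMap.id : y.N →ₗ[R] y.N)
    · exact GEN_triv hn
    · obtain ⟨x, hx, h⟩ := hs y ⟨hy, hn⟩
      exact GEN_trans h (h2 x hx)
  refine ⟨Y, fun C => ?_⟩
  obtain ⟨m, A, ρ, ι, hA, hρι, hsum⟩ := hdec C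
  choose α β hαβ using fun i => h3 (A i) (hA i)
  exact ⟨m, GEN_pow (X := X) (M := C.N) (N := Y.N) (fun i => ((A i).N : Type)) ρ ι hsum α β hαβ⟩

end Pool.Agent.MVC
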