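import Pool.Agent.MVC.St

/-!
# Vaught's conjecture for modules: direct sums of honest modules are honest
-/

set_option autoImplicit false
set_option linter.unusedSectionVars false
set_option linter.unusedVariables false

namespace Pool.Agent.MVC

open Set Ax

section

variable {R : Type} [Ring R] {α β : Type}

/-- only finitely many free variables occur in a formula -/
private theorem HDS_supp (φ : PP R α) : ∃ F : Finset α, ∀ e ∈ φ, ∀ i, Sum.inl i ∈ e.support →
    i ∈ F := by
  classical
  refine ⟨(φ.toFinset.biUnion Finsupp.support).preimage Sum.inl (Sum.inl_injective.injOn),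
    fun e he i hi => ?_⟩
  rw [Finset.mem_preimage, Finset.mem_biUnion]
  exact ⟨e, List.mem_toFinset.mpr he, hi⟩

/-- satisfaction depends only on the variables which occur -/
private theorem HDS_congr (φ : PP R α) : ∃ F : Finset α, ∀ (K : Type) [AddCommGroup K]
    [Module R K] (x x' : α → K), (∀ i ∈ F, x i = x' i) → Sat φ K x → Sat φ K x' := by
  obtain ⟨F, hF⟩ := HDS_supp φ
  refine ⟨F, fun K _ _ x x' hx hs => ?_⟩
  obtain ⟨y, hy⟩ := hs
  refine ⟨y, fun e he => ?_⟩
  rw [← hy e he, Finsupp.linearCombination_apply, Finsupp.linearCombination_apply]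
  refine Finset.sum_congr rfl fun s hs => ?_
  rcases s with i | n
  · show e _ • x' i = e _ • x i
    rw [hx i (hF e he i hs)]
  · rfl

/-- renaming of variables, some of them replaced by zero -/
private theorem HDS_sub (ψ : PP R α) (f : α → Option β) : ∃ ψ' : PP R β,
    ∀ (K : Type) [AddCommGroup K] [Module R K] (x : β → K),
      Sat ψ' K x ↔ Sat ψ K (fun a => (f a).elim 0 x) := by
  obtain ⟨ψ', h⟩ := (isPP_sat ψ).subst fun a => (f a).elim (0 : β →₀ R) fun b => Finsupp.single b 1
  refine ⟨ψ', fun K _ _ x => (h K x).symm.trans (iff_of_eq ?_)⟩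
  show Sat ψ K _ = Sat ψ K _
  congr 1
  funext a
  cases f a with
  | none => simp
  | some b => simp

/-- finite sums of solutions -/
private theorem HDS_sum {A : Type} (φ : PP R α) (K : Type) [AddCommGroup K] [Module R K]
    (F : Finset A) (x : A → α → K) (h : ∀ a ∈ F, Sat φ K (x a)) : Sat φ K (∑ a ∈ F, x a) :=
  (satGroup φ K).sum_mem h

end

theorem thm_SDS : St_SDS := by
  classical
  intro R _ ι A _ N φ x
  constructor
  · intro h a
    exact h.map (DFinsupp.lapply a)
  · intro h
    obtain ⟨F, hF⟩ := HDS_supp φ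
    choose y hy using h
    let U : Finset A := F.biUnion fun i => (x i).support
    let z : ℕ → Π₀ a, N a := fun n => DFinsupp.mk U fun a => y a n
    refine ⟨z, fun e he => ?_⟩
    refine DFinsupp.ext fun a => ?_
    have h1 := LinearMap.map_finsupp_linearCombination
      (DFinsupp.lapply (R := R) (M := fun a => (N a).car) a) (g := Sum.elim x z) (l := e)
    refine h1.trans ?_
    rw [DFinsupp.zero_apply]
    by_cases ha : a ∈ U
    · have h2 : ((DFinsupp.lapply (R := R) (M := fun a => (N a).car) a) ∘ (Sum.elim x z)) =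
          Sum.elim (fun i => x i a) (y a) := by
        funext i
        rcases i with i | n
        · rfl
        · show z n a = y a n
          rw [DFinsupp.mk_apply, dif_pos ha]
      rw [h2]
      exact hy a e he
    · rw [Finsupp.linearCombination_apply]
      refine Finset.sum_eq_zero fun s hs => ?_
      rcases s with i | n
      · show e _ • x i a = 0
        have h3 : x i a = 0 := by
          by_contra h3
          exact ha (Finset.mem_biUnion.mpr ⟨i, hF e he i hs, DFinsupp.mem_support_iff.mpr h3⟩)
        rw [h3, smul_zero]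
      · show e _ • z n a = 0
        rw [DFinsupp.mk_apply, dif_neg ha, smul_zero]

section

variable {R : Type} [Ring R] {A : Type} [DecidableEq A] {ι : A → Type} {k : ℕ}

/-- the formula `∃ u, ⋀ θ_a(x_a, u_a) ∧ z = ∑ u_a` -/
private theorem HDS_theta (θ : ∀ a, PP R (ι a ⊕ Fin k)) (U : Finset A) :
    ∃ Θ : PP R ((Σ a, ι a) ⊕ Fin k), ∀ (K : Type) [AddCommGroup K] [Module R K]
      (x : (Σ a, ι a) → K) (z : Fin k → K), Sat Θ K (Sum.elim x z) ↔ ∃ u : A → Fin k → K,
        (∀ a ∈ U, Sat (θ a) K (Sum.elim (fun i => x ⟨a, i⟩) (u a))) ∧ z = ∑ a ∈ U, u a := by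
  induction U using Finset.induction_on with
  | empty =>
    obtain ⟨Θ, hΘ⟩ := (isPP_zero (R := R) (ι := Fin k)).comap (Sum.inr : Fin k → (Σ a, ι a) ⊕ Fin k)
    refine ⟨Θ, fun K _ _ x z => (hΘ K _).symm.trans ?_⟩
    constructor
    · intro h
      exact ⟨0, fun a ha => absurd ha (Finset.notMem_empty a), by
        rw [Finset.sum_empty]
        exact h⟩
    · rintro ⟨u, -, h⟩
      rw [Finset.sum_empty] at h
      exact h
  | insert a U ha ih =>
    obtain ⟨Θ, hΘ⟩ := ih
    have h1 : IsPP (R := R) (ι := ((Σ a, ι a) ⊕ Fin k) ⊕ Fin k) (fun K _ _ w =>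
        Sat (θ a) K (w ∘ Sum.elim (fun i => Sum.inl (Sum.inl ⟨a, i⟩)) Sum.inr)) :=
      (isPP_sat (θ a)).comap _
    have h2 : IsPP (R := R) (ι := ((Σ a, ι a) ⊕ Fin k) ⊕ Fin k) (fun K _ _ w =>
        Sat Θ K (Sum.elim (fun b => w (Sum.inl (Sum.inl b)))
          (fun i => w (Sum.inl (Sum.inr i)) - w (Sum.inr i)))) := by
      refine ((isPP_sat Θ).subst (ι := ((Σ a, ι a) ⊕ Fin k) ⊕ Fin k) (Sum.elim
        (fun b => Finsupp.single (Sum.inl (Sum.inl b)) (1 : R))
        (fun i => Finsupp.single (Sum.inl (Sum.inr i)) (1 : R) -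
          Finsupp.single (Sum.inr i) 1))).congr fun K _ _ w => iff_of_eq ?_
      congr 1
      funext c
      rcases c with b | i
      · simp
      · simp [map_sub]
    obtain ⟨Θ', hΘ'⟩ := (h1.and h2).ex
    refine ⟨Θ', fun K _ _ x z => (hΘ' K _).symm.trans ?_⟩
    constructor
    · rintro ⟨v, h3, h4⟩
      have h4' : Sat Θ K (Sum.elim x (z - v)) := h4
      obtain ⟨u, h5, h6⟩ := (hΘ K x (z - v)).mp h4'
      refine ⟨Function.update u a v, fun c hc => ?_, ?_⟩
      · by_cases hca : c = a
        · subst hca
          rw [Function.update_self]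
          refine (iff_of_eq ?_).mp h3
          congr 1
          funext j
          rcases j with j | j <;> rfl
        · rw [Function.update_of_ne hca]
          exact h5 c (Finset.mem_of_mem_insert_of_ne hc hca)
      · rw [Finset.sum_insert ha, Function.update_self]
        have h7 : ∑ c ∈ U, Function.update u a v c = ∑ c ∈ U, u c := by
          refine Finset.sum_congr rfl fun c hc => ?_
          have hca : c ≠ a := by
            rintro rfl
            exact ha hc
          rw [Function.update_of_ne hca]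
        rw [h7, ← h6]
        abel
    · rintro ⟨u, h3, h4⟩
      refine ⟨u a, ?_, ?_⟩
      · refine (iff_of_eq ?_).mp (h3 a (Finset.mem_insert_self a U))
        congr 1
        funext j
        rcases j with j | j <;> rfl
      · show Sat Θ K (Sum.elim x (z - u a))
        rw [hΘ]
        refine ⟨u, fun c hc => h3 c (Finset.mem_insert_of_mem hc), ?_⟩
        rw [h4, Finset.sum_insert ha]
        abel

end

theorem thm_HDS : St_HDS := by
  classical
  intro R _ _ X A _ _ ι _ S N g hN
  let sg : ∀ a, N a →ₗ[R] Π₀ a, N a := fun a => DFinsupp.lsingle (M := fun a => (N a).car) a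
  have sg1 : ∀ a (y : N a), sg a y a = y := fun a y =>
    DFinsupp.single_eq_same (β := fun a => (N a).car)
  have sg2 : ∀ a c (y : N a), c ≠ a → sg a y c = 0 := fun a c y h =>
    DFinsupp.single_eq_of_ne (β := fun a => (N a).car) h
  set G : (Σ a, ι a) → Π₀ a, N a := fun p => sg p.1 (g p.1 p.2) with hG
  have G1 : ∀ a i, G ⟨a, i⟩ a = g a i := fun a i => sg1 a _
  have G2 : ∀ a (p : Σ a, ι a), p.1 ≠ a → G p a = 0 := fun a p hp => sg2 p.1 a _ (Ne.symm hp)
  -- the finite sets of premises
  have fin : ∀ (F : Finset A) (s : ∀ a, Finset (PP R (ι a))), (∀ a, ↑(s a) ⊆ S a) →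
      (↑(F.biUnion fun a => (s a).image (ren (Sigma.mk a))) : Set (PP R (Σ a, ι a))) ⊆
        ⋃ a, ren (Sigma.mk a) '' S a := by
    intro F s hs φ hφ
    rw [Finset.mem_coe, Finset.mem_biUnion] at hφ
    obtain ⟨a, -, hφ⟩ := hφ
    obtain ⟨φ', h1, rfl⟩ := Finset.mem_image.mp hφ
    exact mem_iUnion.mpr ⟨a, mem_image_of_mem _ (hs a h1)⟩
  have fin1 : ∀ (F : Finset A) (s : ∀ a, Finset (PP R (ι a))) (K : Type) [AddCommGroup K]
      [Module R K] (x : (Σ a, ι a) → K),
      (∀ φ ∈ F.biUnion fun a => (s a).image (ren (Sigma.mk a)), Sat φ K x) →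
      ∀ a ∈ F, ∀ φ ∈ s a, Sat φ K (x ∘ Sigma.mk a) := by
    intro F s K _ _ x hx a ha φ hφ
    exact (sat_ren _ _ _).mp (hx _ (Finset.mem_biUnion.mpr ⟨a, ha, Finset.mem_image_of_mem _ hφ⟩))
  refine ⟨?_, ?_, ?_, ?_, ?_⟩
  · intro c hc x hx
    rw [thm_SDS] at hx ⊢
    exact fun a => (hN a).mem c hc _ (hx a)
  · have := fun a => (hN a).ctbl
    infer_instance
  · intro φ hφ
    obtain ⟨a, ha⟩ := mem_iUnion.mp hφ
    obtain ⟨φ', h1, rfl⟩ := ha
    rw [sat_ren]
    exact ((hN a).sat φ' h1).map (sg a)
  · intro ψ hψ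
    rw [thm_SDS] at hψ
    obtain ⟨F₀, hF₀⟩ := HDS_congr ψ
    let F : Finset A := F₀.image Sigma.fst
    let f : ∀ a, (Σ a, ι a) → Option (ι a) := fun a p =>
      if h : p.1 = a then some (h ▸ p.2) else none
    have f1 : ∀ a i, f a ⟨a, i⟩ = some i := fun a i => by
      show (if h : a = a then some (h ▸ i) else none) = some i
      rw [dif_pos rfl]
    have f2 : ∀ a (p : Σ a, ι a), p.1 ≠ a → f a p = none := fun a p hp => by
      show (if h : p.1 = a then some (h ▸ p.2) else none) = none
      rw [dif_neg hp]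
    choose ψ' hψ' using fun a => HDS_sub ψ (f a)
    choose s hs hs' using fun a => (hN a).gen0 (ψ' a) (by
      rw [hψ']
      refine (iff_of_eq ?_).mp (hψ a)
      congr 1
      funext p
      by_cases hp : p.1 = a
      · obtain ⟨b, i⟩ := p
        subst hp
        rw [f1]
        exact G1 b i
      · rw [f2 a p hp]
        exact G2 a p hp)
    refine ⟨_, fin F s hs, fun K _ _ hK x hx => ?_⟩
    have h1 := fin1 F s K x hx
    have h2 : ∀ a ∈ F, Sat ψ K (fun p => (f a p).elim 0 (x ∘ Sigma.mk a)) := fun a ha =>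
      (hψ' a K _).mp (hs' a K hK _ (h1 a ha))
    refine hF₀ K _ x (fun p hp => ?_) (HDS_sum ψ K F _ h2)
    rw [Finset.sum_apply, Finset.sum_eq_single p.1]
    · obtain ⟨b, i⟩ := p
      show (f b ⟨b, i⟩).elim 0 (x ∘ Sigma.mk b) = _
      rw [f1]
      rfl
    · intro a _ ha
      show (f a p).elim 0 (x ∘ Sigma.mk a) = 0
      rw [f2 a p (Ne.symm ha)]
      rfl
    · intro h
      exact absurd (Finset.mem_image_of_mem Sigma.fst hp) h
  · intro k b
    let U : Finset A := Finset.univ.biUnion fun i => (b i).support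
    have hU : ∀ a, a ∉ U → ∀ i, b i a = 0 := by
      intro a ha i
      by_contra h
      exact ha (Finset.mem_biUnion.mpr ⟨i, Finset.mem_univ i, DFinsupp.mem_support_iff.mpr h⟩)
    choose θ h1 h1' using fun a => (hN a).gen k (fun i => b i a)
    obtain ⟨Θ, hΘ⟩ := HDS_theta θ U
    refine ⟨Θ, ?_, fun ψ hψ => ?_⟩
    · rw [hΘ]
      refine ⟨fun a i => sg a (b i a), fun a ha => ?_, ?_⟩
      · refine (iff_of_eq ?_).mp ((h1 a).map (sg a))
        congr 1
        funext j
        rcases j with j | j <;> rfl
      · funext i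
        rw [Finset.sum_apply]
        refine DFinsupp.ext fun a => ?_
        rw [DFinsupp.finsetSum_apply]
        by_cases ha : a ∈ U
        · rw [Finset.sum_eq_single a]
          · exact (sg1 a _).symm
          · intro c _ hc
            exact sg2 c a _ (Ne.symm hc)
          · intro h
            exact absurd ha h
        · rw [hU a ha i]
          symm
          refine Finset.sum_eq_zero fun c hc => ?_
          have hca : c ≠ a := by
            rintro rfl
            exact ha hc
          exact sg2 c a _ (Ne.symm hca)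
    · rw [thm_SDS] at hψ
      obtain ⟨F₀, hF₀⟩ := HDS_congr ψ
      let F : Finset A := (F₀.biUnion fun j => Sum.elim (fun p : Σ a, ι a => {p.1})
        (fun _ => (∅ : Finset A)) j) ∪ U
      let f : ∀ a, (Σ a, ι a) ⊕ Fin k → Option (ι a ⊕ Fin k) := fun a =>
        Sum.elim (fun p => if h : p.1 = a then some (Sum.inl (h ▸ p.2)) else none)
          (fun j => some (Sum.inr j))
      have f1 : ∀ a i, f a (Sum.inl ⟨a, i⟩) = some (Sum.inl i) := fun a i => by
        show (if h : a = a then some (Sum.inl (h ▸ i)) else none) = some (Sum.inl i)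
        rw [dif_pos rfl]
      have f2 : ∀ a (p : Σ a, ι a), p.1 ≠ a → f a (Sum.inl p) = none := fun a p hp => by
        show (if h : p.1 = a then some (Sum.inl (h ▸ p.2)) else none) = none
        rw [dif_neg hp]
      choose ψ' hψ' using fun a => HDS_sub ψ (f a)
      have hψa : ∀ a, Sat (ψ' a) (N a) (Sum.elim (g a) (fun i => b i a)) := by
        intro a
        rw [hψ']
        refine (iff_of_eq ?_).mp (hψ a)
        congr 1
        funext p
        rcases p with p | j
        · by_cases hp : p.1 = a
          · obtain ⟨c, i⟩ := p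
            subst hp
            rw [f1]
            exact G1 c i
          · rw [f2 a p hp]
            exact G2 a p hp
        · rfl
      have h2 : ∀ a, ∃ s : Finset (PP R (ι a)), ↑s ⊆ S a ∧
          ∀ (K : Type) [AddCommGroup K] [Module R K], X.In K → ∀ (x : ι a → K) (u : Fin k → K),
            (∀ φ ∈ s, Sat φ K x) → (a ∈ U → Sat (θ a) K (Sum.elim x u)) → (a ∉ U → u = 0) →
            Sat (ψ' a) K (Sum.elim x u) := by
        intro a
        by_cases ha : a ∈ U
        · obtain ⟨s, hs, hs'⟩ := h1' a (ψ' a) (hψa a)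
          exact ⟨s, hs, fun K _ _ hK x u hx hu _ => hs' K hK x u hx (hu ha)⟩
        · obtain ⟨φ, hφ⟩ := HDS_sub (ψ' a) (Sum.elim some (fun _ => none) : ι a ⊕ Fin k →
            Option (ι a))
          have hφ' : ∀ (K : Type) [AddCommGroup K] [Module R K] (x : ι a → K),
              Sat φ K x ↔ Sat (ψ' a) K (Sum.elim x 0) := by
            intro K _ _ x
            refine (hφ K x).trans (iff_of_eq ?_)
            congr 1
            funext j
            rcases j with j | j <;> rfl
          obtain ⟨s, hs, hs'⟩ := (hN a).gen0 φ (by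
            rw [hφ']
            refine (iff_of_eq ?_).mp (hψa a)
            congr 1
            funext j
            rcases j with j | j
            · rfl
            · exact hU a ha j)
          refine ⟨s, hs, fun K _ _ hK x u hx _ hu => ?_⟩
          rw [hu ha, ← hφ']
          exact hs' K hK x hx
      choose s hs hs' using h2
      refine ⟨_, fin F s hs, fun K _ _ hK x z hx hz => ?_⟩
      have h3 := fin1 F s K x hx
      obtain ⟨u, hu, hzu⟩ := (hΘ K x z).mp hz
      let u' : A → Fin k → K := fun a => if a ∈ U then u a else 0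
      have u1 : ∀ a, a ∈ U → u' a = u a := fun a ha => if_pos ha
      have u2 : ∀ a, a ∉ U → u' a = 0 := fun a ha => if_neg ha
      have h4 : ∀ a ∈ F, Sat ψ K (fun p => (f a p).elim 0 (Sum.elim (x ∘ Sigma.mk a) (u' a))) :=
        fun a ha => (hψ' a K _).mp (hs' a K hK _ _ (h3 a ha) (fun h => by
          rw [u1 a h]
          exact hu a h) (u2 a))
      refine hF₀ K _ (Sum.elim x z) (fun p hp => ?_) (HDS_sum ψ K F _ h4)
      rw [Finset.sum_apply]
      rcases p with p | j
      · have hpF : p.1 ∈ F := Finset.mem_union_left _ (Finset.mem_biUnion.mpr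
          ⟨Sum.inl p, hp, Finset.mem_singleton_self p.1⟩)
        rw [Finset.sum_eq_single p.1]
        · obtain ⟨c, i⟩ := p
          rw [f1]
          rfl
        · intro a _ ha
          rw [f2 a p (Ne.symm ha)]
          rfl
        · intro h
          exact absurd hpF h
      · show ∑ a ∈ F, u' a j = z j
        have hUF : U ⊆ F := Finset.subset_union_right
        rw [← Finset.sum_subset hUF (fun a _ ha => by
          rw [u2 a ha]
          rfl), hzu, Finset.sum_apply]
        exact Finset.sum_congr rfl fun a ha => by rw [u1 a ha]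

end Pool.Agent.MVC
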