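import Pool.Agent.MVC.H31_St2

/-!
# Vaught's conjecture for modules: reindexing and finite products of honest modules
-/

set_option autoImplicit false
set_option linter.unusedSectionVars false
set_option linter.unusedVariables false

namespace Pool.Agent.MVC

open Set Ax

theorem thm_REI : St_REI := by
  classical
  intro R _ X ι κ e S N g h
  have fin : ∀ s : Finset (PP R ι), ↑s ⊆ S →
      (↑(s.image (ren e)) : Set (PP R κ)) ⊆ ren e '' S := by
    intro s hs φ hφ
    rw [Finset.coe_image] at hφ
    exact image_mono hs hφ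
  have fin1 : ∀ (s : Finset (PP R ι)) (K : Type) [AddCommGroup K] [Module R K] (x : κ → K),
      (∀ φ ∈ s.image (ren e), Sat φ K x) → ∀ φ ∈ s, Sat φ K (x ∘ e) := by
    intro s K _ _ x hx φ hφ
    exact (sat_ren _ _ _).mp (hx _ (Finset.mem_image_of_mem _ hφ))
  have e1 : ∀ (K : Type) (x : ι → K), (x ∘ e.symm) ∘ e = x := by
    intro K x
    funext i
    simp
  have e2 : ∀ (K : Type) (x : κ → K), (x ∘ e) ∘ e.symm = x := by
    intro K x
    funext i
    simp
  refine ⟨h.mem, h.ctbl, ?_, ?_, ?_⟩
  · rw [re_ren, e1]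
    exact h.sat
  · intro ψ hψ
    obtain ⟨s, hs, hs'⟩ := h.gen0 (ren e.symm ψ) ((sat_ren _ _ _).mpr hψ)
    refine ⟨_, fin s hs, fun K _ _ hK x hx => ?_⟩
    have h1 := (sat_ren _ _ _).mp (hs' K hK _ (fin1 s K x hx))
    rwa [e2] at h1
  · intro k b
    obtain ⟨θ, h1, h2⟩ := h.gen k b
    refine ⟨ren (Sum.map e id) θ, ?_, fun ψ hψ => ?_⟩
    · rw [sat_ren]
      refine (iff_of_eq ?_).mp h1
      congr 1
      funext a
      rcases a with a | a
      · simp
      · simp
    · obtain ⟨s, hs, hs'⟩ := h2 (ren (Sum.map e.symm id) ψ) (by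
        rw [sat_ren]
        refine (iff_of_eq ?_).mp hψ
        congr 1
        funext a
        rcases a with a | a
        · simp
        · simp)
      refine ⟨_, fin s hs, fun K _ _ hK x y hx hy => ?_⟩
      rw [sat_ren] at hy
      have h3 := hs' K hK (x ∘ e) y (fin1 s K x hx) (by
        refine (iff_of_eq ?_).mp hy
        congr 1
        funext a
        rcases a with a | a
        · simp
        · simp)
      rw [sat_ren] at h3
      refine (iff_of_eq ?_).mp h3
      congr 1
      funext a
      rcases a with a | a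
      · simp
      · simp

/-- the trivial module -/
private theorem HPI_zero {R : Type} [Ring R] (X : Ax R) :
    X.Honest (∅ : Set (PP R (Fin 0))) PUnit.{1} (fun _ => PUnit.unit) := by
  refine ⟨In.punit, inferInstance, fun φ hφ => absurd hφ (notMem_empty φ), ?_, ?_⟩
  · intro ψ _
    refine ⟨∅, by simp, fun M _ _ _ x _ => ?_⟩
    have : x = 0 := by
      funext i
      exact i.elim0
    rw [this]
    exact Sat.zero _
  · intro k b
    obtain ⟨θ, hθ⟩ := isPP_zero (R := R) (ι := Fin 0 ⊕ Fin k)
    refine ⟨θ, ?_, fun ψ _ => ⟨∅, by simp, fun M _ _ _ x y _ h => ?_⟩⟩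
    · rw [← hθ]
      funext i
      rfl
    · rw [← hθ] at h
      rw [h]
      exact Sat.zero _

theorem thm_HPI : St_HPI := by
  intro hR hP R _ _ X r
  induction r with
  | zero =>
    intro A
    refine ⟨⟨0, ∅, ⟨PUnit.{1}⟩, fun _ => PUnit.unit, HPI_zero X⟩, ⟨?_⟩⟩
    exact
      { toFun := fun _ i => i.elim0
        map_add' := fun _ _ => by
          funext i
          exact i.elim0
        map_smul' := fun _ _ => by
          funext i
          exact i.elim0
        invFun := fun _ => PUnit.unit
        left_inv := fun _ => rfl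
        right_inv := fun _ => by
          funext i
          exact i.elim0 }
  | succ r ih =>
    intro A
    obtain ⟨C, ⟨e⟩⟩ := ih (fun i => A i.succ)
    have h1 := hP R X (Fin (A 0).n) (Fin C.n) (A 0).S C.S (A 0).N C.N (A 0).g C.g (A 0).hon C.hon
    have h2 := hR R X _ _ finSumFinEquiv _ ⟨(A 0).N × C.N⟩ _ h1
    refine ⟨⟨(A 0).n + C.n, _, ⟨(A 0).N × C.N⟩, _, h2⟩, ⟨?_⟩⟩
    exact (LinearEquiv.prodCongr (LinearEquiv.refl R (A 0).N) e).trans
      (Fin.consLinearEquiv R (fun i => ((A i).N : Type)))

end Pool.Agent.MVC
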