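import Pool.Agent.MVC.St

/-!
# Vaught's conjecture for modules: products of two honest modules are honest
-/

set_option autoImplicit false
set_option linter.unusedSectionVars false
set_option linter.unusedVariables false

namespace Pool.Agent.MVC

open Set Ax

section

variable {R : Type} [Ring R] {α β γ : Type}

/-- renaming of variables, some of them replaced by zero -/
private theorem HPR_sub (ψ : PP R α) (f : α → Option β) : ∃ ψ' : PP R β,
    ∀ (K : Type) [AddCommGroup K] [Module R K] (x : β → K),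
      Sat ψ' K x ↔ Sat ψ K (fun a => (f a).elim 0 x) := by
  obtain ⟨ψ', h⟩ := (isPP_sat ψ).subst fun a => (f a).elim (0 : β →₀ R) fun b => Finsupp.single b 1
  refine ⟨ψ', fun K _ _ x => (h K x).symm.trans (iff_of_eq ?_)⟩
  show Sat ψ K _ = Sat ψ K _
  congr 1
  funext a
  cases f a with
  | none => simp
  | some b => simp

/-- the formula `∃ u, θ₁(x, u) ∧ θ₂(y, z - u)` -/
private theorem HPR_theta {k : ℕ} (θ₁ : PP R (α ⊕ Fin k)) (θ₂ : PP R (β ⊕ Fin k)) :
    ∃ θ : PP R ((α ⊕ β) ⊕ Fin k), ∀ (K : Type) [AddCommGroup K] [Module R K] (x : α ⊕ β → K)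
      (z : Fin k → K), Sat θ K (Sum.elim x z) ↔ ∃ u : Fin k → K,
        Sat θ₁ K (Sum.elim (x ∘ Sum.inl) u) ∧ Sat θ₂ K (Sum.elim (x ∘ Sum.inr) (z - u)) := by
  have h1 : IsPP (R := R) (ι := ((α ⊕ β) ⊕ Fin k) ⊕ Fin k) (fun K _ _ w =>
      Sat θ₁ K (w ∘ Sum.elim (fun a => Sum.inl (Sum.inl (Sum.inl a))) Sum.inr)) :=
    (isPP_sat θ₁).comap _
  have h2 : IsPP (R := R) (ι := ((α ⊕ β) ⊕ Fin k) ⊕ Fin k) (fun K _ _ w =>
      Sat θ₂ K (Sum.elim (fun b => w (Sum.inl (Sum.inl (Sum.inr b))))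
        (fun i => w (Sum.inl (Sum.inr i)) - w (Sum.inr i)))) := by
    refine ((isPP_sat θ₂).subst (ι := ((α ⊕ β) ⊕ Fin k) ⊕ Fin k) (Sum.elim
      (fun b => Finsupp.single (Sum.inl (Sum.inl (Sum.inr b))) (1 : R))
      (fun i => Finsupp.single (Sum.inl (Sum.inr i)) (1 : R) -
        Finsupp.single (Sum.inr i) 1))).congr fun K _ _ w => iff_of_eq ?_
    congr 1
    funext a
    rcases a with b | i
    · simp
    · simp [map_sub]
  obtain ⟨θ, hθ⟩ := (h1.and h2).ex
  refine ⟨θ, fun K _ _ x z => (hθ K _).symm.trans (exists_congr fun u => and_congr ?_ ?_)⟩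
  · refine iff_of_eq ?_
    congr 1
    funext a
    rcases a with a | i <;> rfl
  · exact Iff.rfl

end

theorem thm_HPR : St_HPR := by
  classical
  intro R _ _ X ι κ _ _ S T N M g h hN hM
  set G : ι ⊕ κ → N × M := Sum.elim (fun i => (g i, 0)) (fun j => (0, h j)) with hG
  -- the finite sets of premises
  have fin : ∀ (s : Finset (PP R ι)) (t : Finset (PP R κ)), ↑s ⊆ S → ↑t ⊆ T →
      (↑(s.image (ren Sum.inl) ∪ t.image (ren Sum.inr)) : Set (PP R (ι ⊕ κ))) ⊆
        ren Sum.inl '' S ∪ ren Sum.inr '' T := by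
    intro s t hs ht φ hφ
    rw [Finset.coe_union, Finset.coe_image, Finset.coe_image] at hφ
    rcases hφ with hφ | hφ
    · exact Or.inl (image_mono hs hφ)
    · exact Or.inr (image_mono ht hφ)
  have fin1 : ∀ (s : Finset (PP R ι)) (t : Finset (PP R κ)) (K : Type) [AddCommGroup K]
      [Module R K] (x : ι ⊕ κ → K),
      (∀ φ ∈ s.image (ren Sum.inl) ∪ t.image (ren Sum.inr), Sat φ K x) →
      (∀ φ ∈ s, Sat φ K (x ∘ Sum.inl)) ∧ ∀ φ ∈ t, Sat φ K (x ∘ Sum.inr) := by
    intro s t K _ _ x hx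
    constructor
    · intro φ hφ
      exact (sat_ren _ _ _).mp (hx _ (Finset.mem_union_left _ (Finset.mem_image_of_mem _ hφ)))
    · intro φ hφ
      exact (sat_ren _ _ _).mp (hx _ (Finset.mem_union_right _ (Finset.mem_image_of_mem _ hφ)))
  refine ⟨In.prod hN.mem hM.mem, ?_, ?_, ?_, ?_⟩
  · have := hN.ctbl
    have := hM.ctbl
    infer_instance
  · rw [re_union, re_ren, re_ren, re_prod, re_prod]
    exact ⟨⟨hN.sat, Re.zero S⟩, ⟨Re.zero T, hM.sat⟩⟩
  · intro ψ hψ
    rw [sat_prod] at hψ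
    obtain ⟨ψ₁, h1⟩ := HPR_sub ψ (Sum.elim some (fun _ => none) : ι ⊕ κ → Option ι)
    obtain ⟨ψ₂, h2⟩ := HPR_sub ψ (Sum.elim (fun _ => none) some : ι ⊕ κ → Option κ)
    obtain ⟨s, hs, hs'⟩ := hN.gen0 ψ₁ (by
      rw [h1]
      refine (iff_of_eq ?_).mp hψ.1
      congr 1
      funext a
      rcases a with a | a <;> rfl)
    obtain ⟨t, ht, ht'⟩ := hM.gen0 ψ₂ (by
      rw [h2]
      refine (iff_of_eq ?_).mp hψ.2
      congr 1
      funext a
      rcases a with a | a <;> rfl)
    refine ⟨_, fin s t hs ht, fun K _ _ hK x hx => ?_⟩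
    obtain ⟨h3, h4⟩ := fin1 s t K x hx
    have h5 := (h1 K _).mp (hs' K hK _ h3)
    have h6 := (h2 K _).mp (ht' K hK _ h4)
    refine (iff_of_eq ?_).mp (h5.add h6)
    congr 1
    funext a
    rcases a with a | a
    · simp
    · simp
  · intro k b
    obtain ⟨θ₁, h1, h1'⟩ := hN.gen k (fun i => (b i).1)
    obtain ⟨θ₂, h2, h2'⟩ := hM.gen k (fun i => (b i).2)
    obtain ⟨θ, hθ⟩ := HPR_theta θ₁ θ₂
    refine ⟨θ, ?_, fun ψ hψ => ?_⟩
    · rw [hθ]
      refine ⟨fun i => ((b i).1, 0), ?_, ?_⟩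
      · rw [sat_prod]
        constructor
        · refine (iff_of_eq ?_).mp h1
          congr 1
          funext a
          rcases a with a | a <;> rfl
        · refine (iff_of_eq ?_).mp (Sat.zero (M := M) θ₁)
          congr 1
          funext a
          rcases a with a | a <;> rfl
      · rw [sat_prod]
        constructor
        · refine (iff_of_eq ?_).mp (Sat.zero (M := N) θ₂)
          congr 1
          funext a
          rcases a with a | a
          · rfl
          · show (0 : N) = (b a).1 - (b a).1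
            rw [sub_self]
        · refine (iff_of_eq ?_).mp h2
          congr 1
          funext a
          rcases a with a | a
          · rfl
          · show (b a).2 = (b a).2 - 0
            rw [sub_zero]
    · rw [sat_prod] at hψ
      obtain ⟨ψ₁, h3⟩ := HPR_sub ψ (Sum.elim (Sum.elim (fun i => some (Sum.inl i)) (fun _ => none))
        (fun i => some (Sum.inr i)) : (ι ⊕ κ) ⊕ Fin k → Option (ι ⊕ Fin k))
      obtain ⟨ψ₂, h4⟩ := HPR_sub ψ (Sum.elim (Sum.elim (fun _ => none) (fun i => some (Sum.inl i)))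
        (fun i => some (Sum.inr i)) : (ι ⊕ κ) ⊕ Fin k → Option (κ ⊕ Fin k))
      obtain ⟨s, hs, hs'⟩ := h1' ψ₁ (by
        rw [h3]
        refine (iff_of_eq ?_).mp hψ.1
        congr 1
        funext a
        rcases a with (a | a) | a <;> rfl)
      obtain ⟨t, ht, ht'⟩ := h2' ψ₂ (by
        rw [h4]
        refine (iff_of_eq ?_).mp hψ.2
        congr 1
        funext a
        rcases a with (a | a) | a <;> rfl)
      refine ⟨_, fin s t hs ht, fun K _ _ hK x y hx hy => ?_⟩
      obtain ⟨h5, h6⟩ := fin1 s t K x hx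
      obtain ⟨u, hu1, hu2⟩ := (hθ K x y).mp hy
      have h7 := (h3 K _).mp (hs' K hK _ _ h5 hu1)
      have h8 := (h4 K _).mp (ht' K hK _ _ h6 hu2)
      refine (iff_of_eq ?_).mp (h7.add h8)
      congr 1
      funext a
      rcases a with (a | a) | a
      · simp
      · simp
      · simp

end Pool.Agent.MVC
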