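import Pool.Agent.MVC.H31_St

/-!
# Independent families of elements which are dependent over a tuple have bounded size
-/

set_option autoImplicit false
set_option linter.unusedVariables false

namespace Pool.Agent.MVC.H31

open Set

section

variable {R : Type} [Ring R] (X : Ax R)

private theorem BND_all {ι : Type} {m : ℕ} (V : Fin m → L1 R ι) :
    IsL0 (R := R) (fun M _ _ (x : ι → M) => ∀ i, Sat1 (V i) M x) := by
  refine (isL0_forall_lt (fun k => if h : k < m then V ⟨k, h⟩ else ⟨0, ∅⟩) m).congr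
    fun M _ _ x => ?_
  constructor
  · intro h i
    have h1 := h i.1 i.2
    rw [dif_pos i.2] at h1
    exact h1
  · intro h k hk
    rw [dif_pos hk]
    exact h ⟨k, hk⟩

private theorem BND_zl {ι κ : Type} (σ : L1 R (ι ⊕ κ)) :
    IsL0 (R := R) (fun M _ _ (w : κ → M) => Sat1 σ M (Sum.elim (0 : ι → M) w)) := by
  refine ((isL0_sat1 σ).subst (ι := κ) (Sum.elim (fun _ => 0)
    (fun k => Finsupp.single k (1 : R)))).congr fun M _ _ w => ?_
  refine iff_of_eq ?_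
  congr 1
  funext i
  cases i <;> simp

private theorem BND_zr {ι κ : Type} {m : ℕ} (j : Fin m) (σ : L1 R (ι ⊕ κ)) :
    IsL0 (R := R) (fun M _ _ (z : Fin m × ι → M) =>
      Sat1 σ M (Sum.elim (fun i => z (j, i)) (0 : κ → M))) := by
  refine ((isL0_sat1 σ).subst (ι := Fin m × ι) (Sum.elim (fun i => Finsupp.single (j, i) (1 : R))
    (fun _ => 0))).congr fun M _ _ w => ?_
  refine iff_of_eq ?_
  congr 1
  funext i
  cases i <;> simp

private theorem BND_im {ι κ : Type} [Finite κ] {m : ℕ} (σ : Fin m → L1 R (ι ⊕ κ)) (Hc : L1 R κ) :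
    IsL0 (R := R) (fun M _ _ (z : Fin m × ι → M) => ∃ w : κ → M, Sat1 Hc M w ∧
      ∀ j, Sat1 (σ j) M (Sum.elim (fun i => z (j, i)) w)) := by
  have h1 : IsL0 (R := R) (ι := (Fin m × ι) ⊕ κ) (fun M _ _ z => Sat1 Hc M (z ∘ Sum.inr)) :=
    (isL0_sat1 Hc).comap Sum.inr
  have h2 : ∀ j : Fin m, IsL0 (R := R) (ι := (Fin m × ι) ⊕ κ) (fun M _ _ z =>
      Sat1 (σ j) M (z ∘ Sum.map (fun i => (j, i)) id)) := fun j => (isL0_sat1 (σ j)).comap _
  have h3 : IsL0 (R := R) (ι := (Fin m × ι) ⊕ κ) (fun M _ _ z => ∀ j,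
      Sat1 (σ j) M (z ∘ Sum.map (fun i => (j, i)) id)) := by
    refine (BND_all (fun j => (h2 j).fm)).congr fun M _ _ z => ?_
    exact forall_congr' fun j => (h2 j).fm_iff
  refine (h1.and h3).ex.congr fun M _ _ z => ?_
  refine exists_congr fun w => and_congr Iff.rfl (forall_congr' fun j => iff_of_eq ?_)
  congr 1
  funext i
  cases i <;> rfl

private theorem BND_sub {ι κ : Type} {N : Type} [AddCommGroup N] [Module R N] {σ : L1 R (ι ⊕ κ)}
    {u u' : ι → N} {w w' : κ → N} (h : Sat1 σ N (Sum.elim u w)) (h' : Sat1 σ N (Sum.elim u' w')) :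
    Sat1 σ N (Sum.elim (u - u') (w - w')) := by
  have h1 := h.sub h'
  have h2 : Sum.elim u w - Sum.elim u' w' = Sum.elim (u - u') (w - w') := by
    funext i
    cases i <;> rfl
  rwa [h2] at h1

private theorem BND_add {ι κ : Type} {N : Type} [AddCommGroup N] [Module R N] {σ : L1 R (ι ⊕ κ)}
    {u u' : ι → N} {w w' : κ → N} (h : Sat1 σ N (Sum.elim u w)) (h' : Sat1 σ N (Sum.elim u' w')) :
    Sat1 σ N (Sum.elim (u + u') (w + w')) := by
  have h1 := h.add h'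
  have h2 : Sum.elim u w + Sum.elim u' w' = Sum.elim (u + u') (w + w') := by
    funext i
    cases i <;> rfl
  rwa [h2] at h1

theorem thm_BND : StBND X := by
  intro hDEP ι κ _ _ H ψ Hc θ hd hn M _ _ hM hX c hc
  obtain ⟨n, hn⟩ := hn
  refine ⟨n, fun m x hx hdep => ?_⟩
  have hσ := fun i => hDEP ι κ H ψ Hc θ hd M hM hX (x i) c hc (hx.1 i) (hdep i)
  choose σ h1 h2 h3 using hσ
  have hW : ∀ j : Fin m, IsL0 (R := R) (fun N _ _ (w : κ → N) =>
      Sat1 Hc N w ∧ Sat1 (σ j) N (Sum.elim (0 : ι → N) w)) := fun j =>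
    (isL0_sat1 Hc).and (BND_zl (σ j))
  -- elements of `ψ`
  have hψ : ∀ (j : Fin m) (N : Type) [AddCommGroup N] [Module R N], Countable N → X.In N →
      ∀ p : ι → N, Sat1 ψ N p → Sat1 (σ j) N (Sum.elim p (0 : κ → N)) := by
    intro j N _ _ hN hXN p hp
    exact (h1 j N hN hXN p 0).2.1 hp (Sat1.zero θ)
  refine hn m (fun k => if h : k < m then (hW ⟨k, h⟩).fm else Hc) ?_ ?_ ?_
  · intro j hj N _ _ hN hXN w hw
    rw [dif_pos hj] at hw
    exact ((hW ⟨j, hj⟩).fm_iff.1 hw).1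
  · intro j hj hle
    rw [dif_pos hj] at hle
    refine h3 ⟨j, hj⟩ ?_
    have hc0 : Sat1 (σ ⟨j, hj⟩) M (Sum.elim (0 : ι → M) c) :=
      ((hW ⟨j, hj⟩).fm_iff.1 (hle M hM hX c hc.1)).2
    have hx0 := BND_sub (h2 ⟨j, hj⟩) hc0
    rw [sub_zero, sub_self] at hx0
    intro N _ _ hN hXN u hu
    obtain ⟨p, hp, hK⟩ := hx.2 (BND_zr (⟨j, hj⟩ : Fin m) (σ ⟨j, hj⟩)).fm
      ((BND_zr (⟨j, hj⟩ : Fin m) (σ ⟨j, hj⟩)).fm_iff.2 hx0) N hN hXN (fun _ => u) (fun _ => hu)
    have hK' : Sat1 (σ ⟨j, hj⟩) N (Sum.elim (u - p ⟨j, hj⟩) (0 : κ → N)) :=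
      (BND_zr (⟨j, hj⟩ : Fin m) (σ ⟨j, hj⟩)).fm_iff.1 hK
    have h := BND_add hK' (hψ ⟨j, hj⟩ N hN hXN _ (hp ⟨j, hj⟩))
    rwa [sub_add_cancel, add_zero] at h
  · intro j hj N _ _ hN hXN w hw
    obtain ⟨u, hu⟩ := (h1 ⟨j, hj⟩ N hN hXN 0 w).2.2 hw
    have huH : Sat1 H N u := ((h1 ⟨j, hj⟩ N hN hXN u w).1 hu).1
    obtain ⟨p, hp, hK⟩ := hx.2 (BND_im σ Hc).fm ((BND_im σ Hc).fm_iff.2 ⟨c, hc.1, h2⟩) N hN hXN
      (Function.update 0 (⟨j, hj⟩ : Fin m) u) (fun i => by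
        rcases eq_or_ne i ⟨j, hj⟩ with rfl | hi
        · rw [Function.update_self]
          exact huH
        · rw [Function.update_of_ne hi]
          exact Sat1.zero H)
    obtain ⟨y, hy, hyσ⟩ := (BND_im σ Hc).fm_iff.1 hK
    have hyσ' : ∀ i : Fin m, Sat1 (σ i) N
        (Sum.elim ((Function.update 0 (⟨j, hj⟩ : Fin m) u : Fin m → ι → N) i) y) := by
      intro i
      have h : Sat1 (σ i) N (Sum.elim
          ((Function.update 0 (⟨j, hj⟩ : Fin m) u : Fin m → ι → N) i - p i) y) := hyσ i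
      have h' := BND_add h (hψ i N hN hXN _ (hp i))
      rwa [sub_add_cancel, add_zero] at h'
    refine ⟨y, ?_, hy, fun i hi => ?_⟩
    · rw [dif_pos hj]
      refine (hW ⟨j, hj⟩).fm_iff.2 ⟨hw.sub hy, ?_⟩
      have h := hyσ' ⟨j, hj⟩
      rw [Function.update_self] at h
      have h' := BND_sub hu h
      rwa [sub_self] at h'
    · have him : i < m := hi.trans hj
      rw [dif_pos him]
      refine (hW ⟨i, him⟩).fm_iff.2 ⟨hy, ?_⟩
      have h := hyσ' ⟨i, him⟩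
      rw [Function.update_of_ne (by
        intro h0
        exact hi.ne (congrArg Fin.val h0))] at h
      exact h

end

end Pool.Agent.MVC.H31
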