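import Pool.Agent.MVC.H31_St

/-!
# MVC: module DEP (helper42)
-/

set_option autoImplicit false

namespace Pool.Agent.MVC.H31

open Set

variable {R : Type} [Ring R] {X : Ax R}

theorem thm_DEP : StDEP X := by
  intro ι κ _ _ H ψ Hc θ hD M _ _ hMc hM x c hc hx hI
  obtain ⟨hψH, _, _, hθ⟩ := hD
  unfold IOv at hI
  push Not at hI
  obtain ⟨K, hK, N₀, i1, i2, hNc, hN, u₀, w₀, hu₀, hw₀, hno⟩ := hI
  have hσ : IsL0 (R := R) (fun M _ _ (z : ι ⊕ κ → M) => ∃ y : ι ⊕ κ → M,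
      (Sat1 K M y ∧ Sat1 H M (y ∘ Sum.inl) ∧ Sat1 Hc M (y ∘ Sum.inr)) ∧
      (Sat1 ψ M ((z - y) ∘ Sum.inl) ∧ Sat1 θ M ((z - y) ∘ Sum.inr))) :=
    IsL0.sum ((isL0_sat1 K).and (((isL0_sat1 H).comap Sum.inl).and ((isL0_sat1 Hc).comap Sum.inr)))
      (((isL0_sat1 ψ).comap Sum.inl).and ((isL0_sat1 θ).comap Sum.inr))
  have e0 : ∀ (P : Type) [AddCommGroup P], Sum.elim (0 : ι → P) (0 : κ → P) = 0 := by
    intro P _
    funext i
    cases i <;> rfl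
  have hxc : Sat1 hσ.fm M (Sum.elim x c) := by
    rw [hσ.fm_iff]
    refine ⟨Sum.elim x c, ⟨hK, hx, hc.1⟩, ?_, ?_⟩
    · rw [sub_self]
      exact Sat1.zero ψ
    · rw [sub_self]
      exact Sat1.zero θ
  -- part 1
  have h1a : ∀ (N : Type) [AddCommGroup N] [Module R N], Countable N → X.In N →
      ∀ (u : ι → N) (w : κ → N), Sat1 hσ.fm N (Sum.elim u w) → Sat1 H N u ∧ Sat1 Hc N w := by
    intro N _ _ hNc hN u w h
    rw [hσ.fm_iff] at h
    obtain ⟨y, ⟨_, h2, h3⟩, h4, h5⟩ := h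
    refine ⟨?_, ?_⟩
    · have h6 := h2.add (hψH N hNc hN _ h4)
      have e : y ∘ Sum.inl + (Sum.elim u w - y) ∘ Sum.inl = u := by
        funext i
        simp
      rwa [e] at h6
    · have h6 := h3.add (hθ N hNc hN _ h5)
      have e : y ∘ Sum.inr + (Sum.elim u w - y) ∘ Sum.inr = w := by
        funext i
        simp
      rwa [e] at h6
  have h1b : ∀ (N : Type) [AddCommGroup N] [Module R N],
      ∀ (u : ι → N) (w : κ → N), Sat1 ψ N u → Sat1 θ N w → Sat1 hσ.fm N (Sum.elim u w) := by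
    intro N _ _ u w hu hw
    rw [hσ.fm_iff]
    refine ⟨0, ⟨Sat1.zero K, Sat1.zero H, Sat1.zero Hc⟩, ?_, ?_⟩
    · rw [sub_zero, Sum.elim_comp_inl]
      exact hu
    · rw [sub_zero, Sum.elim_comp_inr]
      exact hw
  have h1c : ∀ (N : Type) [AddCommGroup N] [Module R N], Countable N → X.In N →
      ∀ w : κ → N, Sat1 Hc N w → ∃ u' : ι → N, Sat1 hσ.fm N (Sum.elim u' w) := by
    intro N _ _ hNc hN w hw
    have hK2 : IsL0 (R := R) (fun M _ _ (w : κ → M) => ∃ u : ι → M,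
        Sat1 hσ.fm M (Sum.elim w u ∘ Sum.elim Sum.inr Sum.inl)) :=
      IsL0.ex ((isL0_sat1 hσ.fm).comap (Sum.elim Sum.inr Sum.inl))
    have e : ∀ (P : Type) (w : κ → P) (u : ι → P),
        Sum.elim w u ∘ (Sum.elim Sum.inr Sum.inl : ι ⊕ κ → κ ⊕ ι) = Sum.elim u w := by
      intro P w u
      funext i
      cases i <;> rfl
    have h2 : Sat1 hK2.fm M c := by
      rw [hK2.fm_iff]
      refine ⟨x, ?_⟩
      rw [e]
      exact hxc
    obtain ⟨y, hy, hy'⟩ := hc.2 hK2.fm h2 N hNc hN w hw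
    rw [hK2.fm_iff] at hy
    obtain ⟨u, hu⟩ := hy
    rw [e] at hu
    refine ⟨u, ?_⟩
    have h3 := hu.add (h1b N 0 (w - y) (Sat1.zero ψ) hy')
    rw [← elim_add, add_zero, add_sub_cancel] at h3
    exact h3
  refine ⟨hσ.fm, ?_, hxc, ?_⟩
  · intro N _ _ hNc hN u w
    exact ⟨h1a N hNc hN u w, h1b N u w, h1c N hNc hN w⟩
  · intro hall
    obtain ⟨u', hu'⟩ := h1c N₀ hNc hN w₀ hw₀
    have h2 := (h1a N₀ hNc hN u' w₀ hu').1
    have h3 := hall N₀ hNc hN (u₀ - u') (hu₀.sub h2)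
    have h4 := hu'.add h3
    rw [← elim_add, add_zero, add_sub_cancel] at h4
    rw [hσ.fm_iff] at h4
    obtain ⟨y, ⟨h5, _, _⟩, h6, h7⟩ := h4
    refine hno _ _ h6 h7 ?_
    have e : Sum.elim (u₀ - (Sum.elim u₀ w₀ - y) ∘ Sum.inl) (w₀ - (Sum.elim u₀ w₀ - y) ∘ Sum.inr) =
        y := by
      funext i
      cases i <;> simp
    rw [e]
    exact h5

end Pool.Agent.MVC.H31
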