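import Pool.Agent.MVC.H31_St

/-!
Hollow quotients in modular lattices without infinite coindependent sequences (helper18).
-/

set_option autoImplicit false
set_option linter.unusedVariables false

namespace Pool.Agent.MVC.H31

theorem thm_HLW : StHLW := by
  intro L _ _ _ hW c hc
  by_contra hcon
  have hstep : ∀ h : {h : L // c ≤ h ∧ h ≠ ⊤}, ∃ p : L × L, h.1 ≤ p.1 ∧ h.1 ≤ p.2 ∧
      p.1 ⊔ p.2 = ⊤ ∧ p.1 ≠ ⊤ ∧ p.2 ≠ ⊤ := by
    rintro ⟨h, h1, h2⟩
    by_contra hno
    refine hcon ⟨h, h1, h2, fun a b ha hb hab => ?_⟩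
    by_contra hor
    rw [not_or] at hor
    exact hno ⟨(a, b), ha, hb, hab, hor.1, hor.2⟩
  choose f hf1 hf2 hf3 hf4 hf5 using hstep
  let b : ℕ → {h : L // c ≤ h ∧ h ≠ ⊤} := fun n => Nat.rec ⟨c, le_rfl, hc⟩
    (fun _ h => ⟨(f h).2, h.2.1.trans (hf2 h), hf5 h⟩) n
  have hb : ∀ j, (b (j + 1)).1 = (f (b j)).2 := fun j => rfl
  let W : ℕ → L := fun j => (f (b j)).1
  have hV : ∀ j, (Finset.range j).inf W ⊔ (b j).1 = ⊤ := by
    intro j
    induction j with
    | zero =>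
      rw [Finset.range_zero, Finset.inf_empty]
      exact top_sup_eq _
    | succ j ih =>
      rw [Finset.range_add_one, Finset.inf_insert]
      have h1 : W j ⊓ (Finset.range j).inf W ⊔ (b j).1 = W j := by
        rw [sup_comm, inf_comm, ← sup_inf_assoc_of_le _ (hf1 (b j)), sup_comm, ih, top_inf_eq]
      have h2 : (b j).1 ≤ (b (j + 1)).1 := hf2 (b j)
      rw [← sup_eq_right.2 h2, ← sup_assoc, h1]
      exact hf3 (b j)
  refine hW ⟨W, fun j => hf4 (b j), fun j => ?_⟩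
  apply top_le_iff.1
  rw [← hV j]
  exact sup_le le_sup_right ((hf1 (b j)).trans le_sup_left)

end Pool.Agent.MVC.H31
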