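import Pool.Agent.MVC.Api1

/-!
# Vaught's conjecture for modules: statements of the homogeneity block (helper31)

All statements are `Prop`s `StXXX`; each is proved in its own file by a theorem `thm_XXX` which takes
the statements it uses as hypotheses. Proofs are in the docstrings. `H ≤ K` is `X.Le1 H K`, all
modules are countable members of the class `X`, all index types of tuples are finite.

Tools: `Api.lean`, `Api1.lean` (every relation written with `∧`, `∃ finite tuple`, sums, linear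
substitutions, `∀ i < n` of level-one relations is level one: build `IsL0` and take `.fm`).
-/

set_option autoImplicit false
set_option linter.unusedVariables false

namespace Pool.Agent.MVC.H31

open Set

section

variable {R : Type} [Ring R] (X : Ax R)

/-- `D ≤ A + B` -/
def LeSum {ι : Type} (D A B : L1 R ι) : Prop :=
  ∀ (M : Type) [AddCommGroup M] [Module R M], Countable M → X.In M → ∀ x : ι → M, Sat1 D M x →
    ∃ y : ι → M, Sat1 A M y ∧ Sat1 B M (x - y)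

/-- (T1') there is no infinite sequence `W j < D` with `W j + (W 0 ∧ ... ∧ W (j-1)) = D`. -/
def T1' : Prop :=
  ∀ (ι : Type) [Finite ι] (D : L1 R ι) (W : ℕ → L1 R ι), (∀ j, X.Le1 (W j) D) →
    (∀ j, ¬ X.Le1 D (W j)) →
    ¬ ∀ (j : ℕ) (M : Type) [AddCommGroup M] [Module R M], Countable M → X.In M →
      ∀ x : ι → M, Sat1 D M x →
        ∃ y : ι → M, Sat1 (W j) M (x - y) ∧ Sat1 D M y ∧ ∀ i < j, Sat1 (W i) M y

/-- (UML) every finite tuple is exact for some level-one formula. -/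
def UML : Prop :=
  ∀ (M : Type) [AddCommGroup M] [Module R M], Countable M → X.In M →
    ∀ (ι : Type) [Finite ι] (a : ι → M), ∃ V : L1 R ι, X.Exact V M a

/-- `[ψ, H]` is hollow: if `α, β` are between `ψ` and `H` and `H ≤ α + β`, then `H ≤ α` or `H ≤ β`. -/
def Hollow {ι : Type} (ψ H : L1 R ι) : Prop :=
  ∀ α β : L1 R ι, X.Le1 ψ α → X.Le1 α H → X.Le1 ψ β → X.Le1 β H → LeSum X H α β →
    X.Le1 H α ∨ X.Le1 H β

/-- Pure lattice theory (1): in a modular lattice with `⊤` and without infinite coindependent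
sequence, each `c ≠ ⊤` is below some `h ≠ ⊤` such that `[h, ⊤]` is hollow.

Proof. Otherwise `b₀ := c`; as `[b_j, ⊤]` is not hollow there are `b_j ≤ a_j, b_{j+1} < ⊤` with
`a_j ⊔ b_{j+1} = ⊤`. Put `W j := a_j`, `V j := W 0 ⊓ ... ⊓ W (j-1)`. By induction
`V j ⊔ b_j = ⊤`: `a_j = a_j ⊓ (V j ⊔ b_j) = (a_j ⊓ V j) ⊔ b_j` (modular, `b_j ≤ a_j`), so
`V (j+1) ⊔ b_{j+1} ≥ V (j+1) ⊔ b_j ⊔ b_{j+1} = a_j ⊔ b_{j+1} = ⊤`. Since `b_j ≤ a_j = W j`:
`W j ⊔ V j = ⊤` for all `j`. Contradiction. -/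
def StHLW : Prop :=
  ∀ (L : Type) [Lattice L] [IsModularLattice L] [OrderTop L],
    (¬ ∃ W : ℕ → L, (∀ j, W j ≠ ⊤) ∧ ∀ j, W j ⊔ (Finset.range j).inf W = ⊤) →
    ∀ c : L, c ≠ ⊤ → ∃ h : L, c ≤ h ∧ h ≠ ⊤ ∧ ∀ a b : L, h ≤ a → h ≤ b → a ⊔ b = ⊤ → a = ⊤ ∨ b = ⊤

/-- Pure lattice theory (2), Goldie: under the same hypothesis the finite coindependent families have
bounded size.

Proof (dually, in a modular lattice with `⊥`; `Disjoint`, nonzero = `≠ ⊥`). Uniform: nonzero and any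
two nonzero elements below it meet. By (1) each nonzero element contains a uniform one. Choose
greedily uniform `u_1, u_2, ..` with `u_{k+1}` disjoint from `u_1 ⊔ .. ⊔ u_k`; this must stop: then
`E = u_1 ⊔ .. ⊔ u_n` meets every nonzero element.
Lemma: if `Y` meets every `u_i`, then `Y` meets every nonzero `z ≤ u_1 ⊔ .. ⊔ u_k` (induction on `k`).
`A = u_1 ⊔ .. ⊔ u_{k-1}`. If `z` meets `A`: induction. Else `z' = (z ⊔ A) ⊓ u_k ≠ ⊥` (modular law:
`z ⊔ A = A ⊔ z'`), `w := z' ⊓ (Y ⊓ u_k) ≠ ⊥`, `w ≤ Y`, `w ≤ z ⊔ A`. `z₁ := (A ⊔ w) ⊓ z ≠ ⊥` (else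
`A ⊔ w = A`). `a₁ := (z₁ ⊔ w) ⊓ A`. If `a₁ = ⊥` then `z₁ ≤ w ≤ Y`. Else `a₂ := a₁ ⊓ Y ≠ ⊥` by
induction, `z₂ := (a₂ ⊔ w) ⊓ z₁ ≠ ⊥` (`a₂ ⊔ w = w ⊔ z₂`), `z₂ ≤ Y ⊓ z`.
Steinitz: let `x_1, .., x_m` be independent nonzero. For `k = 0, .., m` there is a set `I_k` of `k`
indices such that `{u_i : i ∈ I_k} ∪ {x_{k+1}, .., x_m}` is independent: `Y` := join of all of them
except `x_{k+1}` does not meet `x_{k+1}`, so it does not meet some `u_i` (Lemma, as `E` meets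
everything); add `i`. So `m ≤ n`. (Independence of a finite set does not depend on the order.) -/
def StGLD : Prop :=
  ∀ (L : Type) [Lattice L] [IsModularLattice L] [OrderTop L],
    (¬ ∃ W : ℕ → L, (∀ j, W j ≠ ⊤) ∧ ∀ j, W j ⊔ (Finset.range j).inf W = ⊤) →
    ∃ n : ℕ, ∀ (m : ℕ) (W : ℕ → L), (∀ j < m, W j ≠ ⊤) →
      (∀ j < m, W j ⊔ (Finset.range j).inf W = ⊤) → m ≤ n

/-- Hollow quotients exist (level one form of `StHLW`).

Proof from `T1'` and `StHLW`. The level-one formulas `≤ H`, modulo mutual `Le1`, form a modular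
lattice `L` with top `H` (join = sum, meet = conjunction; e.g. use `Antisymmetrization` of the
subtype, or work directly). `T1'` says that there is no infinite coindependent sequence. -/
def StHOL : Prop :=
  T1' X → StHLW → ∀ (ι : Type) [Finite ι] (ψ H : L1 R ι), X.Le1 ψ H → ¬ X.Le1 H ψ →
    ∃ ψ' : L1 R ι, X.Le1 ψ ψ' ∧ X.Le1 ψ' H ∧ ¬ X.Le1 H ψ' ∧ Hollow X ψ' H

/-- Level one form of `StGLD`: the finite coindependent families below `H` have bounded size.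
The proof uses the same lattice as `StHOL`. -/
def StGDM : Prop :=
  T1' X → StGLD → ∀ (ι : Type) [Finite ι] (H : L1 R ι), ∃ n : ℕ, ∀ (m : ℕ) (W : ℕ → L1 R ι),
    (∀ j < m, X.Le1 (W j) H) → (∀ j < m, ¬ X.Le1 H (W j)) →
    (∀ j < m, ∀ (M : Type) [AddCommGroup M] [Module R M], Countable M → X.In M →
      ∀ x : ι → M, Sat1 H M x →
        ∃ y : ι → M, Sat1 (W j) M (x - y) ∧ Sat1 H M y ∧ ∀ i < j, Sat1 (W i) M y) → m ≤ n

/-- A product of superfluous formulas is superfluous: if `[ψ, H]` is hollow, `ψ ≤ ψ' i < H` and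
`H ^ m ≤ L + ∏ ψ' i`, then `H ^ m ≤ L + ψ ^ m`.

Proof. Replace `ψ' i` by `ψ` one index after the other (induction on the number of replaced indices,
or on a Finset of indices). Let `L'' := L + (ψ on the replaced indices and on i, ψ' on the others)`.
`α := {u ∈ H : (0,..,u at i,..,0) ∈ L''}`, `ψ ≤ α ≤ H`. For `u ∈ H`: the tuple with `u` at `i` lies in
`L + ∏ (old)`, so it is `l + (.., v at i, ..)` with `v ∈ ψ' i`, hence `(0,..,u - v,..,0) ∈ L''` and
`u - v ∈ α`. So `H ≤ α + ψ' i` (make it `α + (ψ' i)` with `α, ψ' i` between `ψ` and `H`), hollowness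
gives `H ≤ α`. So the tuples with one nonzero entry `v ∈ ψ' i` at `i` are in `L''`, and
`H ^ m ≤ L''`. -/
def StSUP : Prop :=
  ∀ (ι : Type) [Finite ι] (ψ H : L1 R ι), X.Le1 ψ H → Hollow X ψ H →
    ∀ (m : ℕ) (ψ' : Fin m → L1 R ι), (∀ i, X.Le1 ψ (ψ' i)) → (∀ i, X.Le1 (ψ' i) H) →
    (∀ i, ¬ X.Le1 H (ψ' i)) → ∀ L : L1 R (Fin m × ι),
    (∀ (M : Type) [AddCommGroup M] [Module R M], Countable M → X.In M →
      ∀ u : Fin m → ι → M, (∀ i, Sat1 H M (u i)) → ∃ p : Fin m → ι → M, (∀ i, Sat1 (ψ' i) M (p i)) ∧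
        Sat1 L M (fun a => u a.1 a.2 - p a.1 a.2)) →
    ∀ (M : Type) [AddCommGroup M] [Module R M], Countable M → X.In M →
      ∀ u : Fin m → ι → M, (∀ i, Sat1 H M (u i)) → ∃ p : Fin m → ι → M, (∀ i, Sat1 ψ M (p i)) ∧
        Sat1 L M (fun a => u a.1 a.2 - p a.1 a.2)

/-- `c` is generic modulo `θ` in `H`: `c ∈ H` and `H ≤ K + θ` for every `K ∋ c`. -/
def Gen {κ : Type} (H θ : L1 R κ) (M : Type) [AddCommGroup M] [Module R M] (c : κ → M) : Prop :=
  Sat1 H M c ∧ ∀ K : L1 R κ, Sat1 K M c → LeSum X H K θ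

/-- `x` (in `H`, modulo `ψ`) is independent over `c` (in `Hc`, modulo `θ`):
`H × Hc ≤ K + ψ × θ` for every `K ∋ (x, c)`. -/
def IOv {ι κ : Type} (H ψ : L1 R ι) (Hc θ : L1 R κ) (M : Type) [AddCommGroup M] [Module R M]
    (x : ι → M) (c : κ → M) : Prop :=
  ∀ K : L1 R (ι ⊕ κ), Sat1 K M (Sum.elim x c) → ∀ (N : Type) [AddCommGroup N] [Module R N],
    Countable N → X.In N → ∀ (u : ι → N) (w : κ → N), Sat1 H N u → Sat1 Hc N w →
      ∃ (p : ι → N) (t : κ → N), Sat1 ψ N p ∧ Sat1 θ N t ∧ Sat1 K N (Sum.elim (u - p) (w - t))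

/-- `(x i)` is an independent family (in `H`, modulo `ψ`): `H ^ m ≤ K + ψ ^ m` for every `K ∋ x`. -/
def IFam {ι : Type} (H ψ : L1 R ι) (m : ℕ) (M : Type) [AddCommGroup M] [Module R M]
    (x : Fin m → ι → M) : Prop :=
  (∀ i, Sat1 H M (x i)) ∧ ∀ K : L1 R (Fin m × ι), Sat1 K M (fun a => x a.1 a.2) →
    ∀ (N : Type) [AddCommGroup N] [Module R N], Countable N → X.In N →
      ∀ u : Fin m → ι → N, (∀ i, Sat1 H N (u i)) → ∃ p : Fin m → ι → N, (∀ i, Sat1 ψ N (p i)) ∧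
        Sat1 K N (fun a => u a.1 a.2 - p a.1 a.2)

/-- The data of the block: `ψ < H` hollow, `θ ≤ Hc`. -/
structure Dat {ι κ : Type} (H ψ : L1 R ι) (Hc θ : L1 R κ) : Prop where
  le : X.Le1 ψ H
  lt : ¬ X.Le1 H ψ
  hol : Hollow X ψ H
  le' : X.Le1 θ Hc

/-- Dependence in explicit form. If `c` is generic modulo `θ` in `Hc` and `x ∈ H` is not independent
over `c`, then there is `σ` (level one, on `ι ⊕ κ`) with
1. `σ ≤ H × Hc`, `ψ × θ ≤ σ`, `(x, c) ∈ σ`;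
2. for each `w ∈ Hc` there is `u` with `(u, w) ∈ σ`;
3. `ψ' := {u : (u, 0) ∈ σ}` is not `≥ H` (here: there are a module and `u ∈ H` with `(u, 0) ∉ σ`).

Proof. Let `K ∋ (x, c)` with not `H × Hc ≤ K + ψ × θ`, `σ := ((K + ψ × θ) ∧ (H × Hc))` [or
`(K ∧ (H × Hc)) + ψ × θ`]. (2): `{w : ∃ u, (u, w) ∈ σ}` contains `c` and `θ`, so it contains
`Hc ≤ (this) + θ`. (3): if `H × 0 ≤ σ`, then with (2) `H × Hc ≤ σ`: for `(u, w)` take `(u₀, w) ∈ σ`,
`(u - u₀, 0) ∈ σ`. Contradiction to the choice of `K`. -/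
def StDEP : Prop :=
  ∀ (ι κ : Type) [Finite ι] [Finite κ] (H ψ : L1 R ι) (Hc θ : L1 R κ), Dat X H ψ Hc θ →
    ∀ (M : Type) [AddCommGroup M] [Module R M], Countable M → X.In M →
    ∀ (x : ι → M) (c : κ → M), Gen X Hc θ M c → Sat1 H M x → ¬ IOv X H ψ Hc θ M x c →
    ∃ σ : L1 R (ι ⊕ κ),
      (∀ (N : Type) [AddCommGroup N] [Module R N], Countable N → X.In N →
        ∀ (u : ι → N) (w : κ → N), (Sat1 σ N (Sum.elim u w) → Sat1 H N u ∧ Sat1 Hc N w) ∧
          (Sat1 ψ N u → Sat1 θ N w → Sat1 σ N (Sum.elim u w)) ∧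
          (Sat1 Hc N w → ∃ u' : ι → N, Sat1 σ N (Sum.elim u' w))) ∧
      Sat1 σ M (Sum.elim x c) ∧
      ¬ ∀ (N : Type) [AddCommGroup N] [Module R N], Countable N → X.In N →
        ∀ u : ι → N, Sat1 H N u → Sat1 σ N (Sum.elim u 0)

/-- (6.3) The independent families whose members are all dependent over `c` have bounded size.

Proof. `σ i` from `StDEP` for `x i`. `W i := {w ∈ Hc : (0, w) ∈ σ i}`. `W i` is not `≥ Hc`: otherwise
`(0, c) ∈ σ i`, `(x i, 0) ∈ σ i`, so `x i ∈ ψ' i := {u : (u, 0) ∈ σ i}`, and `IFam` (with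
`K := {ū : ū i ∈ ψ' i}`) gives `H ≤ ψ' i + ψ ≤ ψ' i`, contradiction. `Im := {ū : ∃ w ∈ Hc, ∀ i,
(ū i, w) ∈ σ i}` contains `x` (`w = c`) and `ψ ^ m` (`w = 0`), so `IFam` gives `H ^ m ≤ Im`.
Coindependence: `w ∈ Hc`, `(u, w) ∈ σ j`; the family with `u` at `j` and `0` elsewhere is in `Im`: there
is `y ∈ Hc` with `(0, y) ∈ σ i` (`i ≠ j`), `(u, y) ∈ σ j`; so `(0, w - y) ∈ σ j`. `StGDM` (conclusion
for `Hc`) bounds `m`. (Extend `W` to `ℕ` arbitrarily.) -/
def StBND : Prop :=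
  StDEP X → ∀ (ι κ : Type) [Finite ι] [Finite κ] (H ψ : L1 R ι) (Hc θ : L1 R κ),
    Dat X H ψ Hc θ →
    (∃ n : ℕ, ∀ (m : ℕ) (W : ℕ → L1 R κ),
      (∀ j < m, X.Le1 (W j) Hc) → (∀ j < m, ¬ X.Le1 Hc (W j)) →
      (∀ j < m, ∀ (M : Type) [AddCommGroup M] [Module R M], Countable M → X.In M →
        ∀ x : κ → M, Sat1 Hc M x →
          ∃ y : κ → M, Sat1 (W j) M (x - y) ∧ Sat1 Hc M y ∧ ∀ i < j, Sat1 (W i) M y) → m ≤ n) →
    ∀ (M : Type) [AddCommGroup M] [Module R M], Countable M → X.In M →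
    ∀ c : κ → M, Gen X Hc θ M c → ∃ n : ℕ, ∀ (m : ℕ) (x : Fin m → ι → M), IFam X H ψ m M x →
      (∀ i, ¬ IOv X H ψ Hc θ M (x i) c) → m ≤ n

/-- (6.4) If the members of the independent family `x` are dependent over `c` and `y ∈ H` is
independent over `c`, then `(x, y)` is an independent family.

Proof. `σ i`, `ψ' i`, `Im` (`H ^ m ≤ Im`) as in `StBND`. Let `K ∋ (x, y)` and
`L := (K ∧ H ^ (m+1)) + (∏ ψ' i × ψ)`. `L' := {(u, w) : u ∈ H ∧ ∃ ū, (ū, u) ∈ L ∧ ∀ i, (ū i, w) ∈ σ i}`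
contains `(y, c)` and `ψ × θ`; so `IOv` for `y` gives `H × Hc ≤ L'`. For `(ū⁰, u) ∈ H ^ (m+1)` take
`w ∈ Hc` with `(ū⁰ i, w) ∈ σ i` (`H ^ m ≤ Im`) and `ū` with `(ū, u) ∈ L`, `(ū i, w) ∈ σ i`; then
`ū i - ū⁰ i ∈ ψ' i`, so `(ū⁰, u) ∈ L`. So `H ^ (m+1) ≤ K + (∏ ψ' i × ψ)`, and `StSUP` (with the family
`ψ' 0, .., ψ' (m-1), ψ`; `ψ` itself is not `≥ H`) gives `H ^ (m+1) ≤ K + ψ ^ (m+1)`. -/
def StADJ : Prop :=
  StDEP X → StSUP X → ∀ (ι κ : Type) [Finite ι] [Finite κ] (H ψ : L1 R ι) (Hc θ : L1 R κ),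
    Dat X H ψ Hc θ → ∀ (M : Type) [AddCommGroup M] [Module R M], Countable M → X.In M →
    ∀ c : κ → M, Gen X Hc θ M c → ∀ (m : ℕ) (x : Fin m → ι → M), IFam X H ψ m M x →
      (∀ i, ¬ IOv X H ψ Hc θ M (x i) c) → ∀ y : ι → M, Sat1 H M y → IOv X H ψ Hc θ M y c →
        IFam X H ψ (m + 1) M (Fin.snoc (α := fun _ => ι → M) x y)

/-- (6.5) If `c` and `c'` are both generic modulo `θ` in `Hc`, then an independent family whose members
are dependent over `c'` gives one of the same size whose members are dependent over `c`.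

Proof. `σ i`, `ψ' i` from `StDEP` for `(x i, c')`. `Θ := {(ū, w) : ∀ i, (ū i, w) ∈ σ i}`.
`{w : ∃ ū, (ū, w) ∈ Θ}` contains `c'` and `θ`, so `Hc` (`Gen` for `c'`), so `c`: take `x'` with
`(x', c) ∈ Θ`. Dependent over `c`: `K := σ i ∋ (x' i, c)`; if `H × Hc ≤ σ i + ψ × θ = σ i` then
`H × 0 ≤ σ i`, contradiction to (3) of `StDEP`. Independent family: let `K ∋ x'`,
`L := K + ∏ ψ' i`. `L' := {w : ∃ ū ∈ L, (ū, w) ∈ Θ}` contains `c` and `θ`, so `Hc` (`Gen` for `c`), so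
`c'`: there is `ū ∈ L` with `(ū i, c') ∈ σ i`, so `ū i - x i ∈ ψ' i`, `x ∈ L`. `IFam` for `x` gives
`H ^ m ≤ L + ψ ^ m = L = K + ∏ ψ' i`, and `StSUP` gives `H ^ m ≤ K + ψ ^ m`. -/
def StTRF : Prop :=
  StDEP X → StSUP X → ∀ (ι κ : Type) [Finite ι] [Finite κ] (H ψ : L1 R ι) (Hc θ : L1 R κ),
    Dat X H ψ Hc θ → ∀ (M : Type) [AddCommGroup M] [Module R M], Countable M → X.In M →
    ∀ c c' : κ → M, Gen X Hc θ M c → Gen X Hc θ M c' →
    ∀ (m : ℕ) (x : Fin m → ι → M), IFam X H ψ m M x → (∀ i, ¬ IOv X H ψ Hc θ M (x i) c') →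
      ∃ x' : Fin m → ι → M, IFam X H ψ m M x' ∧ ∀ i, ¬ IOv X H ψ Hc θ M (x' i) c

/-- (6.6) If `c` and `c'` are both generic modulo `θ` in `Hc` and some `x ∈ H` is independent over `c`,
then some `x' ∈ H` is independent over `c'`.

Proof. Let `m` be the maximal size of an independent family with members dependent over `c` (`StBND`),
`x_1, .., x_m` one of them. By `StADJ` `(x_1, .., x_m, x)` is an independent family. If all elements of
`H` are dependent over `c'`, its members are dependent over `c'`, and `StTRF` gives a family of size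
`m + 1` with members dependent over `c`: contradiction. -/
def StCNT : Prop :=
  T1' X → StGLD → StGDM X → StDEP X → StSUP X → StBND X → StADJ X → StTRF X →
  ∀ (ι κ : Type) [Finite ι] [Finite κ] (H ψ : L1 R ι) (Hc θ : L1 R κ),
    Dat X H ψ Hc θ → ∀ (M : Type) [AddCommGroup M] [Module R M], Countable M → X.In M →
    ∀ c c' : κ → M, Gen X Hc θ M c → Gen X Hc θ M c' →
    (∃ x : ι → M, Sat1 H M x ∧ IOv X H ψ Hc θ M x c) →
      ∃ x' : ι → M, Sat1 H M x' ∧ IOv X H ψ Hc θ M x' c'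

/-- The conclusion of `StCNT` (as a hypothesis of the following statements). -/
def CntP : Prop :=
  ∀ (ι κ : Type) [Finite ι] [Finite κ] (H ψ : L1 R ι) (Hc θ : L1 R κ),
    Dat X H ψ Hc θ → ∀ (M : Type) [AddCommGroup M] [Module R M], Countable M → X.In M →
    ∀ c c' : κ → M, Gen X Hc θ M c → Gen X Hc θ M c' →
    (∃ x : ι → M, Sat1 H M x ∧ IOv X H ψ Hc θ M x c) →
      ∃ x' : ι → M, Sat1 H M x' ∧ IOv X H ψ Hc θ M x' c'

/-- The conclusion of `StHOL` (as a hypothesis of the following statements). -/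
def HolP : Prop :=
  ∀ (ι : Type) [Finite ι] (ψ H : L1 R ι), X.Le1 ψ H → ¬ X.Le1 H ψ →
    ∃ ψ' : L1 R ι, X.Le1 ψ ψ' ∧ X.Le1 ψ' H ∧ ¬ X.Le1 H ψ' ∧ Hollow X ψ' H

/-- (EX) Generic elements lift: if `c` is exact for `H`, `θ ≤ H` and `c'` is generic modulo `θ` in `H`,
then some `c' + t`, `t ∈ θ`, is exact for `H`.

Proof. Suppose not. States: `(θ', c₁)` with `θ' ≤ θ`, `c₁ - c' ∈ θ`, `c₁` generic modulo `θ'` in `H`.
Start with `(θ, c')`. Step: `θ'` is not superfluous in `H` (otherwise `H ≤ K + θ'` implies `H ≤ K` for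
all `K ∋ c₁`, `K ≤ H`, and `c₁` is exact for `H`; for general `K` use `K ∧ H`), so there is `α ≤ H`, not
`H ≤ α`, `H ≤ α + θ'`, and by `HolP` a hollow `ψ < H`, `H ≤ ψ + θ'`. `c` (as an element of `H`) is
independent over `c` modulo `θ'`: for `K ∋ (c, c)`, `{v : (v, v) ∈ K} ≥ H` as `c` is exact; for
`u, w ∈ H` write `u - w = p - t` with `p ∈ ψ`, `t ∈ θ'` (`H ≤ ψ + θ'`), then `v := u - p = w - t ∈ H`, so
`(u - p, w - t) ∈ K`. `c` is generic modulo `θ'` in `H`. By `CntP` (`ι = κ`, `Hc = H`) there is `x' ∈ H`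
independent over `c₁`. `x' - c₁ ∈ H ≤ ψ + θ'`: choose `t ∈ θ'` with `x' - (c₁ + t) ∈ ψ`, `c₂ := c₁ + t`,
`θ'' := θ' ∧ ψ`. `c₂` is generic modulo `θ''` in `H`: for `K ∋ c₂`,
`L' := {(u, w) : ∃ v ∈ K, u - v ∈ ψ, w - v ∈ θ'}` contains `(x', c₁)` and `ψ × θ'`, so `IOv` gives
`H × H ≤ L'`; for `h ∈ H`, `(h, h) ∈ L'` gives `v ∈ K` with `h - v ∈ ψ ∧ θ'`. Infinitely many steps give
`ψ_0, ψ_1, ..` with `H ≤ ψ_j + θ_j`, `θ_j ≤ ψ_i` for `i < j`: contradiction to `T1'`. -/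
def StEX : Prop :=
  T1' X → HolP X → CntP X → ∀ (M : Type) [AddCommGroup M] [Module R M], Countable M → X.In M →
    ∀ (ι : Type) [Finite ι] (H θ : L1 R ι), X.Le1 θ H → ∀ c c' : ι → M, X.Exact H M c →
      Gen X H θ M c' → ∃ t : ι → M, Sat1 θ M t ∧ X.Exact H M (c' + t)

/-- The conclusion of `StEX`. -/
def ExP : Prop :=
  ∀ (M : Type) [AddCommGroup M] [Module R M], Countable M → X.In M →
    ∀ (ι : Type) [Finite ι] (H θ : L1 R ι), X.Le1 θ H → ∀ c c' : ι → M, X.Exact H M c →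
      Gen X H θ M c' → ∃ t : ι → M, Sat1 θ M t ∧ X.Exact H M (c' + t)

/-- (H) If `a` is exact for `D ≥ ∃ y, E(x, y)`.. precisely `D` is `∃ y, E`, and `(a₁, b₁)` is exact for
`E` in the same module, then there is `b` such that `(a, b)` is exact for `E`.

Proof. `b₀` with `E(a, b₀)` (`a ∈ D`), `θ := {(0, y) ∈ E}`. `(a, b₀)` is generic modulo `θ` in `E`: for
`K ∋ (a, b₀)`, `{u : ∃ w', (u, w') ∈ K ∧ E}` contains `a`, so `D` (exact); for `(u, w) ∈ E` take such `w'`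
and `y := (0, w - w') ∈ θ`, `(u, w) - y = (u, w') ∈ K`. `ExP` with `c := (a₁, b₁)`, `c' := (a, b₀)`. -/
def HP : Prop :=
  ∀ (M : Type) [AddCommGroup M] [Module R M], Countable M → X.In M →
    ∀ (ι κ : Type) [Finite ι] [Finite κ] (D : L1 R ι) (E : L1 R (ι ⊕ κ)),
      (∀ (N : Type) [AddCommGroup N] [Module R N], Countable N → X.In N → ∀ x : ι → N,
        Sat1 D N x ↔ ∃ y : κ → N, Sat1 E N (Sum.elim x y)) →
      ∀ a : ι → M, X.Exact D M a → ∀ (a₁ : ι → M) (b₁ : κ → M), X.Exact E M (Sum.elim a₁ b₁) →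
        ∃ b : κ → M, X.Exact E M (Sum.elim a b)

/-- see `HP` -/
def StH : Prop := ExP X → HP X

/-- Countable modules of the class with the same exact level-one formulas are isomorphic.

Proof. Back and forth with finite tuples `a : Fin n → M`, `b : Fin n → N` exact for the same `D`. Given
`d ∈ M` let `E` be exact for `(a, d)` (`UML`); `D` and `∃ y, E` are equivalent on the class: `a` satisfies
`∃ y, E`, so `D ≤ ∃ y, E`; and `(a, d)` satisfies `D(x)`, so `E(x, y) ≤ D(x)`. By hypothesis (transported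
to `Fin (n+1)`) `E` has an exact tuple `(b₁, e₁)` in `N`, and `HP` gives `e` with `(b, e)` exact for `E`.
The union of the finite partial maps is a linear isomorphism: exact tuples for the same formula have
the same pp-type (`φ(a)` iff `D ≤ φ` iff `φ(b)`), in particular satisfy the same linear equations. -/
def StEND : Prop :=
  UML X → HP X → ∀ (M : Type) [AddCommGroup M] [Module R M], Countable M → X.In M →
    ∀ (N : Type) [AddCommGroup N] [Module R N], Countable N → X.In N →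
    (∀ (n : ℕ) (D : L1 R (Fin n)), (∃ x : Fin n → M, X.Exact D M x) ↔
      ∃ x : Fin n → N, X.Exact D N x) → Nonempty (M ≃ₗ[R] N)

end

end Pool.Agent.MVC.H31
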