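import Pool.Agent.MVC.St
import Pool.Agent.MVC.Api1

/-!
# Vaught's conjecture for modules: statements, splitting and finite type (helper31)

Sections 2, 5.1 and 5.3 of the paper. Proofs are in the docstrings. Every statement `St_XXX` is proved
in its own file by `thm_XXX`, which takes the statements it uses as hypotheses.
-/

set_option autoImplicit false
set_option linter.unusedSectionVars false
set_option linter.unusedVariables false

namespace Pool.Agent.MVC

open Set Ax

/-- honest modules, bundled -/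
structure Hon {R : Type} [Ring R] (X : Ax R) : Type 1 where
  n : ℕ
  S : Set (PP R (Fin n))
  N : Md R
  g : Fin n → N
  hon : X.Honest S N g

/-- Equality modulo null maps is a ring congruence on the endomorphisms. -/
def endCon {R : Type} [Ring R] (X : Ax R) (N : Type) [AddCommGroup N] [Module R N] :
    RingCon (Module.End R N) where
  r u v := X.Eqv u v
  iseqv := ⟨Eqv.refl, Eqv.symm, Eqv.trans⟩
  add' := fun h h' => Eqv.add h h'
  mul' := fun h h' => Eqv.comp h' h

/-- The ring of endomorphisms modulo null maps. -/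
abbrev EndQ {R : Type} [Ring R] (X : Ax R) (N : Type) [AddCommGroup N] [Module R N] : Type :=
  (endCon X N).Quotient

/-- the class of an endomorphism -/
def qm {R : Type} [Ring R] (X : Ax R) (N : Type) [AddCommGroup N] [Module R N] :
    Module.End R N →+* EndQ X N := (endCon X N).mk'

section

variable {R : Type} [Ring R] {X : Ax R} {N : Type} [AddCommGroup N] [Module R N]

theorem qm_surjective : Function.Surjective (qm X N) := (endCon X N).mk'_surjective

theorem qm_eq {u v : Module.End R N} : qm X N u = qm X N v ↔ X.Eqv u v :=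
  (endCon X N).eq

theorem qm_eq_zero {u : Module.End R N} : qm X N u = 0 ↔ X.Null u := by
  rw [← map_zero (qm X N), qm_eq]
  unfold Ax.Eqv
  rw [sub_zero]

end

/-! ### Reindexing and products -/

/-- Honest modules may be reindexed. -/
def St_REI : Prop := ∀ (R : Type) [Ring R] (X : Ax R) (ι κ : Type) (e : ι ≃ κ)
  (S : Set (PP R ι)) (N : Md R) (g : ι → N), X.Honest S N g →
  X.Honest (ren e '' S) N (g ∘ e.symm)

/-- Finite products of honest modules are honest (`St_HPR`, `St_REI`, induction on `r`;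
the trivial module for `r = 0`; use `St_REI` for `finSumFinEquiv` and note that honesty is invariant
under isomorphism of the module). -/
def St_HPI : Prop := St_REI → St_HPR → ∀ (R : Type) [Ring R] [Countable R] (X : Ax R) (r : ℕ)
  (A : Fin r → Hon X), ∃ C : Hon X, Nonempty (C.N ≃ₗ[R] ∀ i, (A i).N)

/-! ### Section 2: idempotents split -/

/-- 2. Idempotents split.

Proof. `b := C.g`, `c := f b`. `Null (f ∘ f - f)` for the tuple `b` gives `θ` with `θ ≤ ψ` for all
`ψ ∈ pp b` and `θ(f c - c)`. `S₁ := {χ + θ : χ ∈ pp(c)}` (a set of formulas which are sums), `(A, a)`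
honest for `S₁` (`St_HEX`). `ρ : C → A`, `b ↦ a` (`St_EX0`): for `φ ∈ C.S`, `φ ∈ pp(c)`, so
`a ∈ φ + θ ≤ φ`. `ι : A → C`, `a ↦ c`. `ι ρ` and `f` agree on `b`: `St_NUZ`. Let `χ₀` be the formula of
`c` over `b` (`Honest.gen`): `χ₀(b, c)`. Then `χ₀(c, f c)`, `θ(f c - c)`, so `c` satisfies
`ω(x) := ∃ y, χ₀(x, y) ∧ θ(y - x)`, so `a = w + t`, `ω(w)` with witness `y`, `θ(t)`. Also
`χ₀(a, ρ c)`. Subtract: `χ₀(t, ρ c - y)`. `Θ(z) := ∃ t, θ(t) ∧ χ₀(t, z)` is `≤` all of `pp(c)` (because
`θ ≤` all of `C.S`), so `Θ + θ ≤` all of `S₁`, and `ρ c - a = (ρ c - y) + (y - w) - t ∈ Θ + θ`. So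
`ρ ι - 1` sends `a` into `P S₁`: null by `St_NUP`. -/
def St_SPL : Prop := St_HEX → St_EX0 → St_NUZ → St_NUP → ∀ (R : Type) [Ring R] [Countable R]
  (X : Ax R) (C : Hon X) (f : C.N →ₗ[R] C.N), X.Eqv (f ∘ₗ f) f →
  ∃ (A : Hon X) (ρ : C.N →ₗ[R] A.N) (ι : A.N →ₗ[R] C.N),
    X.Eqv (ι ∘ₗ ρ) f ∧ X.Eqv (ρ ∘ₗ ι) LinearMap.id

/-! ### Section 5.1: finite type -/

/-- 5.1 In each sequence of honest modules one of them is a retract, modulo null maps, of a finite
product of others.

Proof. Suppose not. For `S ⊆ ℕ` let `M S := Π₀ i : S, N i`, `τ k := tp1 (N k) (g k)`. `M S` is a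
countable member of `X`. Claim: `k ∈ S` iff `(n k, τ k) ∈ real1 (B × M S)`; then `S ↦ real1 (B × M S)`
is injective, which contradicts `Few.few2`. If `k ∈ S`: the tuple `(0, single k (g k))`; `N k` is a
retract of `B × M S`, so the level-one type is `τ k` (`Sat1.map` both ways). Let `k ∉ S` and
`y = (b, y')`, `tp1 y = τ k`. `y'` lies in `N_F := ∏ i ∈ F, N i`, `F ⊆ S` finite (as `N_F` is a retract of
`M S`, `tp1` in `B × N_F` is the same). `y` satisfies `S k` (`ofRe`), so `b` and `y'` satisfy `S k`. `β`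
the principal formula of `b` (`atomic`): `β ≤` all of `S k`. `N_F` is honest for the family `g_F`
(`St_HPI`; any honest presentation `C` of `N_F`, with generators `C.g`); `θ` the formula of `y'` over
`C.g`. `V :=` all formulas which hold for `(y, (b, 0), (0, C.g))` in `B × N_F` (a level-one formula of `y`,
with bound variables for `b` and `C.g`). So `g k` satisfies it in `N k`: there are `b', t'` in `N k` with
`β(b')`, `t' ⊨ C.S`, `θ(t', g k - b')`. `h : N_F → N k`, `C.g ↦ t'`, `f : N k → N_F`, `g k ↦ y'`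
(`St_EX0`). `h y' - (g k - b')` satisfies `θ(0, .)`, which is `≤` all of `S k`; so `h f (g k) - g k =
h y' - (g k - b') - b'` is in `P (S k)`, and `h f - 1` is null (`St_NUP`). -/
def St_FIN : Prop := St_REI → St_HPR → St_HPI → St_EX0 → St_NUP → ∀ (R : Type) [Ring R] [Countable R]
  (X : Ax R) (B : Md R), X.Few B → ∀ Z : ℕ → Hon X,
  ∃ (k : ℕ) (F : Finset ℕ), k ∉ F ∧ X.Retr (Z k).N (∀ i : F, (Z i).N)

/-! ### Section 5.3: a generator -/

/-- 5.3 (a) The endomorphism ring modulo null maps of an honest module satisfies the chain condition.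

Proof. `St_DCC` with the constant sequence `N k = C.N`, `Q = C.N`: lift `f i` to endomorphisms `a i`
(`qm_surjective`); `prs f j = qm (cmp a j)`; take `c = id` and `j = j₀`. -/
def St_DCQ : Prop := St_DCC → ∀ (R : Type) [Ring R] [Countable R] (X : Ax R) (B : Md R), X.Few B →
  ∀ C : Hon X, DCCR (EndQ X C.N)

/-- the identity is local modulo null maps: for each endomorphism `f`, `f` or `1 - f` has a left
inverse modulo null maps -/
def Loc {R : Type} [Ring R] {X : Ax R} (A : Hon X) : Prop :=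
  ∀ f : A.N →ₗ[R] A.N, (∃ g : A.N →ₗ[R] A.N, X.Eqv (g ∘ₗ f) LinearMap.id) ∨
    ∃ g : A.N →ₗ[R] A.N, X.Eqv (g ∘ₗ (LinearMap.id - f)) LinearMap.id

/-- 5.3 (b) Each honest module is a finite sum of local ones, modulo null maps.

Proof. `St_RID` for `L = EndQ X C.N` (`DCCR` by hypothesis) gives complete orthogonal idempotents `e i`;
lift them to endomorphisms `f i` (`Eqv (f i ∘ f i) (f i)`, `Eqv (∑ f i) id`), split them (`St_SPL`):
`A i`, `ρ i`, `ι i`. Local: for `u : A i → A i` let `x := qm (ι i u ρ i) = e i x e i`. If `x y = e i`,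
`y x = e i`: `g := ρ i ŷ ι i` satisfies `g u = ρ ŷ ι u ≡ ρ ŷ ι u ρ ι ≡ ρ (e i) ι ≡ 1`; the same for
`e i - x = qm (ι i (1 - u) ρ i)`. -/
def St_DEC : Prop := (∀ (R : Type) [Ring R] [Countable R]
  (X : Ax R) (C : Hon X) (f : C.N →ₗ[R] C.N), X.Eqv (f ∘ₗ f) f →
  ∃ (A : Hon X) (ρ : C.N →ₗ[R] A.N) (ι : A.N →ₗ[R] C.N),
    X.Eqv (ι ∘ₗ ρ) f ∧ X.Eqv (ρ ∘ₗ ι) LinearMap.id) → St_RID →
  ∀ (R : Type) [Ring R] [Countable R] (X : Ax R) (C : Hon X), DCCR (EndQ X C.N) →
  ∃ (m : ℕ) (A : Fin m → Hon X) (ρ : ∀ i, C.N →ₗ[R] (A i).N) (ι : ∀ i, (A i).N →ₗ[R] C.N),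
    (∀ i, Loc (A i)) ∧ (∀ i, X.Eqv (ρ i ∘ₗ ι i) LinearMap.id) ∧
    X.Eqv (∑ i, ι i ∘ₗ ρ i) LinearMap.id

/-- 5.3 (c) There is an honest `Y` such that each honest module is a retract, modulo null maps, of a
power of `Y`.

Proof. If each local honest module has a null identity, then each honest module has a null identity (by
the decomposition) and `Y := ` any honest module (`r = 0`) works. Otherwise: claim: there are finitely many
local `Z 0, .., Z (s-1)` such that each local one is a retract of one of them. Otherwise choose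
recursively local `Z k` (`Z 0` with non-null identity) such that `Z k` is not a retract of `Z i` for
`i < k`. (`A` with null identity is a retract of everything.) By `finite type` there are `k ∉ F` with
`Z k` a retract of `∏ i ∈ F, Z i`: `1 ≡ ∑ i ∈ F, h i ∘ f i` on `Z k`. `Z k` is local with non-null
identity, so some `h i ∘ f i` (`i ∈ F`) has a left inverse [in a ring in which `x` or `1 - x` is left
invertible for each `x`, a finite sum which is `1` has a left invertible summand, if `1 ≠ 0`: induction;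
`x + y` left invertible, `g x + g y = 1`, so `g x` or `g y` is left invertible]. So `Z k` is a retract of
`Z i`, `i ≠ k`: `β α ≡ 1`, `α : Z k → Z i`. By the choice `i > k`. `e := α β` is idempotent modulo null maps;
`Z i` is local: `g e ≡ 1` gives `e ≡ 1` (`g e ≡ g e e ≡ e`), so `Z i` is a retract of `Z k`, contradiction;
`g (1 - e) ≡ 1` gives `e ≡ 0` and `1 ≡ β e α ≡ 0` on `Z k`, contradiction. `Y := ` honest presentation
of `∏ Z i` (`St_HPI`); each honest `C` is a retract of `∏ A i`, and of `Fin m → Y.N`. -/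
def St_GEN : Prop :=
  (∀ (R : Type) [Ring R] [Countable R] (X : Ax R) (r : ℕ)
    (A : Fin r → Hon X), ∃ C : Hon X, Nonempty (C.N ≃ₗ[R] ∀ i, (A i).N)) →
  ∀ (R : Type) [Ring R] [Countable R] (X : Ax R),
  (∀ Z : ℕ → Hon X, ∃ (k : ℕ) (F : Finset ℕ), k ∉ F ∧ X.Retr (Z k).N (∀ i : F, (Z i).N)) →
  (∀ C : Hon X, ∃ (m : ℕ) (A : Fin m → Hon X) (ρ : ∀ i, C.N →ₗ[R] (A i).N)
    (ι : ∀ i, (A i).N →ₗ[R] C.N), (∀ i, Loc (A i)) ∧ (∀ i, X.Eqv (ρ i ∘ₗ ι i) LinearMap.id) ∧
    X.Eqv (∑ i, ι i ∘ₗ ρ i) LinearMap.id) →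
  ∃ Y : Hon X, ∀ C : Hon X, ∃ r : ℕ, X.Retr C.N (Fin r → Y.N)

/-- The conclusion of the block: everything above together (proved by assembling). -/
def St_GNY : Prop := ∀ (R : Type) [Ring R] [Countable R] (X : Ax R) (B : Md R), X.Few B →
  (∀ C : Hon X, DCCR (EndQ X C.N)) ∧
  ∃ Y : Hon X, ∀ C : Hon X, ∃ r : ℕ, X.Retr C.N (Fin r → Y.N)

end Pool.Agent.MVC
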