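import Pool.Agent.MVC.St3
import Pool.Agent.MVC.H31_St
import Pool.Agent.MVC.H31_St2
import Pool.Agent.MVC.H31_HLW
import Pool.Agent.MVC.H31_LAT
import Pool.Agent.MVC.H31_SUP
import Pool.Agent.MVC.H31_DEP
import Pool.Agent.MVC.H31_BND
import Pool.Agent.MVC.H31_ADJ
import Pool.Agent.MVC.H31_TRF
import Pool.Agent.MVC.H31_EX
import Pool.Agent.MVC.H31_END

/-!
# Vaught's conjecture for modules: interface of the blocks
-/

set_option autoImplicit false
set_option linter.unusedSectionVars false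
set_option linter.unusedVariables false

namespace Pool.Agent.MVC

open Set Ax FirstOrder

theorem thm_FT (h : St_GNY) : St_FT := by
  intro R _ _ X B hB
  obtain ⟨-, Y, hY⟩ := h R X B hB
  exact ⟨Y.n, Y.S, Y.N, Y.g, Y.hon, fun m T Q q hQ => hY ⟨m, T, Q, q, hQ⟩⟩

section

variable {R : Type} [Ring R] [Countable R] {X : Ax R}

theorem IFC_T1 (h : St_TOP) (B : Md R) (hB : X.Few B) : H31.T1' X := by
  intro ι _ D W hle hnle hco
  obtain ⟨n, ⟨e⟩⟩ := Finite.exists_equiv_fin ι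
  refine h R X B hB n (ren1 e D) (fun i => ren1 e (W i)) ?_ ?_ ?_
  · intro i M _ _ hc hM x hx
    rw [sat1_ren1] at hx ⊢
    exact hle i M hc hM _ hx
  · intro i hi
    refine hnle i fun M _ _ hc hM x hx => ?_
    have h1 := hi M hc hM (x ∘ e.symm)
    rw [sat1_ren1, sat1_ren1] at h1
    have h2 : (x ∘ e.symm) ∘ e = x := by
      funext i
      simp
    rw [h2] at h1
    exact h1 hx
  · intro i M hc hM x hx
    rw [sat1_ren1] at hx
    obtain ⟨y, hy, hyD, hyW⟩ := hco i M hc hM _ hx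
    refine ⟨x - y ∘ e.symm, ?_, fun l hl => ?_⟩
    · rw [sat1_ren1]
      have h2 : (x - y ∘ e.symm) ∘ e = x ∘ e - y := by
        funext i
        simp
      rw [h2]
      exact hy
    · rw [sat1_ren1]
      have h2 : (x - (x - y ∘ e.symm)) ∘ e = y := by
        funext i
        simp
      rw [h2]
      exact hyW l hl

theorem IFC_exact {ι κ : Type} (e : κ ≃ ι) (V : L1 R κ) {M : Type} [AddCommGroup M]
    [Module R M] (x : ι → M) : X.Exact (ren1 e V) M x ↔ X.Exact V M (x ∘ e) := by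
  constructor
  · rintro ⟨h1, h2⟩
    refine ⟨(sat1_ren1 e V x).mp h1, fun W hW N _ _ hc hN y hy => ?_⟩
    have h3 := h2 (ren1 e W) ((sat1_ren1 e W x).mpr hW) N hc hN (y ∘ e.symm)
    rw [sat1_ren1, sat1_ren1] at h3
    have h4 : (y ∘ e.symm) ∘ e = y := by
      funext i
      simp
    rw [h4] at h3
    exact h3 hy
  · rintro ⟨h1, h2⟩
    refine ⟨(sat1_ren1 e V x).mpr h1, fun W hW N _ _ hc hN y hy => ?_⟩
    rw [sat1_ren1] at hy
    have h3 := h2 (ren1 e.symm W) (by
      rw [sat1_ren1]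
      have h4 : (x ∘ e) ∘ e.symm = x := by
        funext i
        simp
      rw [h4]
      exact hW) N hc hN (y ∘ e) hy
    rw [sat1_ren1] at h3
    have h4 : (y ∘ e) ∘ e.symm = y := by
      funext i
      simp
    rw [h4] at h3
    exact h3

theorem IFC_UML (h : St_UML) (B : Md R) (hB : X.Few B) : H31.UML X := by
  intro M _ _ hc hM ι _ a
  obtain ⟨n, ⟨e⟩⟩ := Finite.exists_equiv_fin ι
  obtain ⟨V, hV⟩ := h R X B hB ⟨M⟩ hc hM n (a ∘ e.symm)
  refine ⟨ren1 e.symm V, ?_⟩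
  rw [IFC_exact]
  exact hV

end

theorem thm_ISO (h1 : St_TOP) (h2 : St_UML) (hG : H31.StGLD)
    (hC : ∀ (R : Type) [Ring R] (X : Ax R), H31.StCNT X)
    (hH : ∀ (R : Type) [Ring R] (X : Ax R), H31.StH X) : St_ISO := by
  intro R _ _ X B hB M N hMc hNc hM hN hex
  have hT1 : H31.T1' X := IFC_T1 h1 B hB
  have hU : H31.UML X := IFC_UML h2 B hB
  have hHol : H31.HolP X := H31.thm_HOL hT1 H31.thm_HLW
  have hGDM : H31.StGDM X := H31.thm_GDM
  have hCnt : H31.CntP X := hC R X hT1 hG hGDM H31.thm_DEP (H31.thm_SUP X) (H31.thm_BND X) (H31.thm_ADJ X)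
    H31.thm_TRF
  have hEx : H31.ExP X := H31.thm_EX hT1 hHol hCnt
  exact H31.thm_END hU (hH R X hEx) M hMc hM N hNc hN hex

end Pool.Agent.MVC
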