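import Pool.Agent.MVC.St3

/-!
# Vaught's conjecture for modules: the final count
-/

set_option autoImplicit false
set_option linter.unusedSectionVars false
set_option linter.unusedVariables false

namespace Pool.Agent.MVC

open Set Ax FirstOrder Pool.Agent.Helper6.Str Pool.Agent.Helper5.DU

private theorem kct_ctblRel (R : Type) [Countable R] (n : ℕ) : Countable ((LR R).Relations n) := by
  show Countable (ModRel R n)
  let F : ModRel R n → Option (Option R) := fun x => match x with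
    | ModRel.zero => none
    | ModRel.smul r => some (some r)
    | ModRel.add => some none
  have hF : Function.Injective F := by
    intro a b h
    cases a with
    | zero =>
      cases b
      rfl
    | smul r =>
      cases b with
      | smul r' =>
        have h1 : some (some r) = some (some r') := h
        rw [Option.some.injEq, Option.some.injEq] at h1
        rw [h1]
    | add =>
      cases b
      rfl
  exact hF.countable

/-- isomorphic modules have isomorphic structures -/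
private theorem kct_equiv {R : Type} [Ring R] (M N : Md R) (e : M ≃ₗ[R] N) :
    Nonempty (@FirstOrder.Language.Equiv (LMod R) M N (modStr R M) (modStr R N)) := by
  let _ := modStr R M
  let _ := modStr R N
  refine ⟨{ toEquiv := e.toEquiv, map_fun' := ?_, map_rel' := ?_ }⟩
  · intro n f x
    exact match n, f, x with
      | _, ModFn.zero, x => map_zero e
      | _, ModFn.smul r, x => map_smul e r (x 0)
      | _, ModFn.add, x => map_add e (x 0) (x 1)
  · intro n r x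
    exact nomatch r

/-- properties of the module of a graph -/
private theorem kct_at (h4 : St_KIN) {R : Type} [Ring R] {n : ℕ}
    {P : ∀ (M : Type) [AddCommGroup M] [Module R M], (Fin n → M) → Prop}
    (hP : ∀ (M N : Type) [AddCommGroup M] [Module R M] [AddCommGroup N] [Module R N]
      (e : M ≃ₗ[R] N) (x : Fin n → M), P M x → P N (fun i => e (x i)))
    (g : AddCommGroup ℕ) (m : @Module R ℕ _ g.toAddCommMonoid) (v : Fin n → ℕ) :
    AtM (grph (@modStr R _ ℕ g m)) P v ↔ @P ℕ g m v := by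
  constructor
  · rintro ⟨g', m', h, h'⟩
    exact (h4 R n P hP).2.1 g' g m' m h.symm v h'
  · intro h
    exact ⟨g, m, rfl, h⟩

private theorem kct_sat1_inv {R : Type} [Ring R] {n : ℕ} (D : L1 R (Fin n)) :
    ∀ (M N : Type) [AddCommGroup M] [Module R M] [AddCommGroup N] [Module R N]
      (e : M ≃ₗ[R] N) (x : Fin n → M), Sat1 D M x → Sat1 D N (fun i => e (x i)) :=
  fun M N _ _ _ _ e x h => h.map (e : M →ₗ[R] N)

private theorem kct_exact_inv {R : Type} [Ring R] (X : Ax R) {n : ℕ} (D : L1 R (Fin n)) :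
    ∀ (M N : Type) [AddCommGroup M] [Module R M] [AddCommGroup N] [Module R N]
      (e : M ≃ₗ[R] N) (x : Fin n → M), X.Exact D M x → X.Exact D N (fun i => e (x i)) := by
  intro M N _ _ _ _ e x h
  refine ⟨kct_sat1_inv D M N e x h.1, fun W hW => h.2 W ?_⟩
  have h1 := kct_sat1_inv W N M e.symm _ hW
  have h2 : (fun i => e.symm (e (x i))) = x := by
    funext i
    exact e.symm_apply_apply (x i)
  rwa [h2] at h1

/-- the closure of a level-one formula -/
private def kctCl {R : Type} [Ring R] (X : Ax R) {n : ℕ} (D : L1 R (Fin n)) : L1 R (Fin n) :=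
  ⟨D.1, X.Cl D.2⟩

private theorem kct_cl_of {R : Type} [Ring R] {X : Ax R} {n : ℕ} {D : L1 R (Fin n)} {M : Type}
    [AddCommGroup M] [Module R M] {x : Fin n → M} (h : Sat1 (kctCl X D) M x) : Sat1 D M x := by
  obtain ⟨t, ht⟩ := h
  exact ⟨t, ht.mono (subset_cl D.2)⟩

private theorem kct_cl {R : Type} [Ring R] {X : Ax R} {n : ℕ} {D : L1 R (Fin n)} {M : Type}
    [AddCommGroup M] [Module R M] (hM : X.In M) {x : Fin n → M} :
    Sat1 (kctCl X D) M x ↔ Sat1 D M x := by
  constructor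
  · exact kct_cl_of
  · rintro ⟨t, ht⟩
    exact ⟨t, (re_cl hM).2 ht⟩

private theorem kct_exact_cl {R : Type} [Ring R] {X : Ax R} {n : ℕ} {D : L1 R (Fin n)} {M : Type}
    [AddCommGroup M] [Module R M] (hM : X.In M) {x : Fin n → M} :
    X.Exact (kctCl X D) M x ↔ X.Exact D M x := by
  constructor
  · rintro ⟨h, h'⟩
    refine ⟨(kct_cl hM).1 h, fun W hW N _ _ hN hXN y hy => ?_⟩
    exact h' W hW N hN hXN y ((kct_cl hXN).2 hy)
  · rintro ⟨h, h'⟩
    refine ⟨(kct_cl hM).2 h, fun W hW N _ _ hN hXN y hy => ?_⟩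
    exact h' W hW N hN hXN y ((kct_cl hXN).1 hy)

/-- exactness is decided by the closed formulas -/
private theorem kct_exact_iff {R : Type} [Ring R] {X : Ax R} {n : ℕ} {D : L1 R (Fin n)} {M : Type}
    [AddCommGroup M] [Module R M] (hM : X.In M) {x : Fin n → M} :
    X.Exact D M x ↔ Sat1 D M x ∧ ∀ W : L1 R (Fin n), X.Cl W.2 = W.2 → ¬ X.Le1 D W →
      ¬ Sat1 W M x := by
  constructor
  · rintro ⟨h, h'⟩
    exact ⟨h, fun W _ hW hx => hW (h' W hx)⟩
  · rintro ⟨h, h'⟩
    refine ⟨h, fun W hW => ?_⟩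
    have h1 : X.Le1 D (kctCl X W) := by
      by_contra hcon
      exact h' (kctCl X W) (cl_cl W.2) hcon ((kct_cl hM).2 hW)
    intro N _ _ hN hXN y hy
    exact kct_cl_of (h1 N hN hXN y hy)

/-- there are countably many closed sets of formulas -/
private theorem kct_ctbl (h5 : St_HEX) {R : Type} [Ring R] [Countable R] {X : Ax R} {B : Md R}
    (hF : X.Few B) (n k : ℕ) :
    {W : Set (PP R (Fin n ⊕ Fin k)) | X.Cl W = W}.Countable := by
  refine ((hF.few (Fin n ⊕ Fin k)).image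
    fun τ : Set (L1 R (Fin n ⊕ Fin k)) => {φ : PP R (Fin n ⊕ Fin k) | ofRe {φ} ∈ τ}).mono ?_
  intro W hW
  obtain ⟨N, g, hN⟩ := h5 R X (Fin n ⊕ Fin k) W
  refine ⟨tp1 N g, ⟨N, hN.ctbl, hN.mem, g, rfl⟩, ?_⟩
  ext φ
  have h1 : ofRe {φ} ∈ tp1 (R := R) N g ↔ Re {φ} N g := sat1_ofRe {φ} g
  have h2 : Re {φ} N g ↔ Sat φ N g :=
    ⟨fun h => h φ (mem_singleton φ), fun h ψ hψ => by
      rw [mem_singleton_iff] at hψ
      rw [hψ]
      exact h⟩
  show ofRe {φ} ∈ tp1 (R := R) N g ↔ φ ∈ W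
  rw [h1, h2]
  constructor
  · intro h
    have h3 : φ ∈ X.Cl W := hN.gen0 φ h
    rw [hW] at h3
    exact h3
  · intro h
    exact hN.sat φ h

private theorem kct_ctblJ (h5 : St_HEX) {R : Type} [Ring R] [Countable R] {X : Ax R} {B : Md R}
    (hF : X.Few B) : {p : (n : ℕ) × L1 R (Fin n) | X.Cl p.2.2 = p.2.2}.Countable := by
  have h1 : {p : (n : ℕ) × L1 R (Fin n) | X.Cl p.2.2 = p.2.2} ⊆
      ⋃ n : ℕ, ⋃ k : ℕ, (fun W : Set (PP R (Fin n ⊕ Fin k)) =>
        (⟨n, ⟨k, W⟩⟩ : (n : ℕ) × L1 R (Fin n))) '' {W | X.Cl W = W} := by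
    rintro ⟨n, k, W⟩ hW
    rw [mem_iUnion]
    refine ⟨n, ?_⟩
    rw [mem_iUnion]
    exact ⟨k, W, hW, rfl⟩
  refine Set.Countable.mono h1 (countable_iUnion fun n => countable_iUnion fun k => ?_)
  exact (kct_ctbl h5 hF n k).image _

private theorem kct_model {R : Type} {T : (LMod R).Theory} {M N : Type}
    [S₁ : (LMod R).Structure M] [S₂ : (LMod R).Structure N]
    (e : FirstOrder.Language.Equiv (LMod R) M N)
    (h : @FirstOrder.Language.Theory.Model (LMod R) M S₁ T) :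
    @FirstOrder.Language.Theory.Model (LMod R) N S₂ T :=
  FirstOrder.Language.StrongHomClass.theory_model e

/-- the class is closed under isomorphism -/
private theorem kct_kof {R : Type} (T : (LMod R).Theory) {S S' : (LR R).Structure ℕ} {e : ℕ ≃ ℕ}
    (he : RelIso S S' e) (hS : S ∈ Kof T) : S' ∈ Kof T := by
  obtain ⟨S₁, hS₁, rfl⟩ := hS
  refine ⟨@_root_.Equiv.inducedStructure (LMod R) ℕ ℕ S₁ e, ?_, ?_⟩
  · exact @kct_model R T ℕ ℕ S₁ (@_root_.Equiv.inducedStructure (LMod R) ℕ ℕ S₁ e)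
      (@_root_.Equiv.inducedStructureEquiv (LMod R) ℕ ℕ S₁ e) hS₁
  · apply FirstOrder.Language.Structure.ext
    · funext n f
      exact isEmptyElim f
    · funext n r v
      apply propext
      refine (he.symm n r v).trans ?_
      exact match n, r, v with
        | _, ModRel.zero, v => by
          show S₁.funMap (ModFn.zero : (LMod R).Functions 0) ![] = e.symm (v 0) ↔
            e (S₁.funMap (ModFn.zero : (LMod R).Functions 0) (e.symm ∘ ![])) = v 0
          rw [_root_.Equiv.eq_symm_apply]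
          have h1 : (e.symm ∘ ![] : Fin 0 → ℕ) = ![] := by
            funext i
            exact i.elim0
          rw [h1]
        | _, ModRel.smul r, v => by
          show S₁.funMap (ModFn.smul r : (LMod R).Functions 1) ![e.symm (v 0)] = e.symm (v 1) ↔
            e (S₁.funMap (ModFn.smul r : (LMod R).Functions 1) (e.symm ∘ ![v 0])) = v 1
          rw [_root_.Equiv.eq_symm_apply]
          have h1 : (e.symm ∘ ![v 0] : Fin 1 → ℕ) = ![e.symm (v 0)] := by
            funext i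
            fin_cases i
            rfl
          rw [h1]
        | _, ModRel.add, v => by
          show S₁.funMap (ModFn.add : (LMod R).Functions 2) ![e.symm (v 0), e.symm (v 1)] =
            e.symm (v 2) ↔
            e (S₁.funMap (ModFn.add : (LMod R).Functions 2) (e.symm ∘ ![v 0, v 1])) = v 2
          rw [_root_.Equiv.eq_symm_apply]
          have h1 : (e.symm ∘ ![v 0, v 1] : Fin 2 → ℕ) = ![e.symm (v 0), e.symm (v 1)] := by
            funext i
            fin_cases i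
            · rfl
            · rfl
          rw [h1]

/-- the property: there is an exact tuple -/
private def KctA {R : Type} [Ring R] (T : (LMod R).Theory) (X : Ax R) {n : ℕ}
    (D : L1 R (Fin n)) (S' : (LR R).Structure ℕ) : Prop :=
  S' ∈ Kof T ∧ ∃ x : Fin n → ℕ, AtM S' (fun M _ _ x => X.Exact D M x) x

private theorem kct_ctblN (h5 : St_HEX) {R : Type} [Ring R] [Countable R] {X : Ax R} {B : Md R}
    (hF : X.Few B) (n : ℕ) : {D : L1 R (Fin n) | X.Cl D.2 = D.2}.Countable := by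
  have h1 : {D : L1 R (Fin n) | X.Cl D.2 = D.2} ⊆
      ⋃ k : ℕ, (fun W : Set (PP R (Fin n ⊕ Fin k)) => (⟨k, W⟩ : L1 R (Fin n))) ''
        {W | X.Cl W = W} := by
    rintro ⟨k, W⟩ hW
    rw [mem_iUnion]
    exact ⟨k, W, hW, rfl⟩
  exact Set.Countable.mono h1 (countable_iUnion fun k => (kct_ctbl h5 hF n k).image _)

/-- the modules of the class on the natural numbers -/
private theorem kct_cls {R : Type} [Ring R] {T : (LMod R).Theory} {X : Ax R}
    (hT : ∀ S : (LMod R).Structure ℕ, @FirstOrder.Language.Theory.Model (LMod R) ℕ S T → IsMod S)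
    (hTX : ∀ (M : Type) [AddCommGroup M] [Module R M], Mods T M → X.In M)
    {S' : (LR R).Structure ℕ} (hS' : S' ∈ Kof T) :
    ∃ (g : AddCommGroup ℕ) (m : @Module R ℕ _ g.toAddCommMonoid),
      S' = grph (@modStr R _ ℕ g m) ∧ @FirstOrder.Language.Theory.Model (LMod R) ℕ
        (@modStr R _ ℕ g m) T ∧ @Ax.In R _ X ℕ g m := by
  obtain ⟨S, hS, rfl⟩ := hS'
  obtain ⟨g, m, rfl⟩ := hT S hS
  exact ⟨g, m, rfl, hS, @hTX ℕ g m hS⟩

private theorem kct_meas (h1 : St_KMS) (h3 : St_KME) (h4 : St_KIN) (h5 : St_HEX) {R : Type}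
    [Ring R] [Countable R] {T : (LMod R).Theory} {X : Ax R} {B : Md R} (hF : X.Few B)
    (hT : ∀ S : (LMod R).Structure ℕ, @FirstOrder.Language.Theory.Model (LMod R) ℕ S T → IsMod S)
    (hTX : ∀ (M : Type) [AddCommGroup M] [Module R M], Mods T M → X.In M) {n : ℕ}
    (D : L1 R (Fin n)) : MeasurableSet {c : Code (LR R) | KctA T X D (toStr c)} := by
  have hW : {W : L1 R (Fin n) | X.Cl W.2 = W.2 ∧ ¬ X.Le1 D W}.Countable :=
    (kct_ctblN h5 hF n).mono (fun W hW => hW.1)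
  have h6 : {c : Code (LR R) | KctA T X D (toStr c)} =
      ⋃ x : Fin n → ℕ, ({c : Code (LR R) | toStr c ∈ Kof T ∧
        AtM (toStr c) (fun M _ _ x => Sat1 D M x) x} ∩
        ⋂ W ∈ {W : L1 R (Fin n) | X.Cl W.2 = W.2 ∧ ¬ X.Le1 D W},
          {c : Code (LR R) | toStr c ∈ Kof T ∧
            AtM (toStr c) (fun M _ _ x => Sat1 W M x) x}ᶜ) := by
    ext c
    rw [mem_iUnion]
    constructor
    · rintro ⟨hc, x, hx⟩
      obtain ⟨g, m, hcg, -, hX⟩ := kct_cls hT hTX hc
      refine ⟨x, ?_⟩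
      have h7 : AtM (grph (@modStr R _ ℕ g m)) (fun M _ _ x => X.Exact D M x) x := by
        rw [← hcg]
        exact hx
      have h8 := (@kct_exact_iff R _ X n D ℕ g m hX x).1
        ((kct_at h4 (kct_exact_inv X D) g m x).1 h7)
      refine ⟨⟨hc, ?_⟩, ?_⟩
      · rw [hcg]
        exact (kct_at h4 (kct_sat1_inv D) g m x).2 h8.1
      · rw [mem_iInter₂]
        rintro W ⟨hW1, hW2⟩ ⟨-, h9⟩
        rw [hcg] at h9
        exact h8.2 W hW1 hW2 ((kct_at h4 (kct_sat1_inv W) g m x).1 h9)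
    · rintro ⟨x, ⟨hc, hx⟩, hx'⟩
      obtain ⟨g, m, hcg, -, hX⟩ := kct_cls hT hTX hc
      refine ⟨hc, x, ?_⟩
      rw [mem_iInter₂] at hx'
      rw [hcg] at hx ⊢
      refine (kct_at h4 (kct_exact_inv X D) g m x).2 ((@kct_exact_iff R _ X n D ℕ g m hX x).2
        ⟨(kct_at h4 (kct_sat1_inv D) g m x).1 hx, ?_⟩)
      intro W hW1 hW2 h9
      refine hx' W ⟨hW1, hW2⟩ ⟨hc, ?_⟩
      rw [hcg]
      exact (kct_at h4 (kct_sat1_inv W) g m x).2 h9
  rw [h6]
  exact MeasurableSet.iUnion fun x => (h3 R T hT n D x).inter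
    (MeasurableSet.biInter hW fun W _ => (h3 R T hT n W x).compl)

/-- The final count -/
theorem thm_KCT (h1 : St_KMS) (h2 : St_KPF) (h3 : St_KME) (h4 : St_KIN) (h5 : St_HEX) :
    St_KCT := by
  intro R _ _ T hT X B hF hTX hP iso
  have _ := kct_ctblRel R
  have hPK : ¬ PerfK (Kof T) := fun h => hP (h2 R T h)
  have hK := h1 R T
  have hJ : {p : (n : ℕ) × L1 R (Fin n) | X.Cl p.2.2 = p.2.2}.Countable := kct_ctblJ h5 hF
  have _ : Countable {p : (n : ℕ) × L1 R (Fin n) | X.Cl p.2.2 = p.2.2} := hJ.to_subtype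
  obtain ⟨ρ, hρ⟩ := ctbl_of_props hK hPK (n := 0)
    (ι := {p : (n : ℕ) × L1 R (Fin n) | X.Cl p.2.2 = p.2.2})
    (fun D S' _ => KctA T X D.1.2 S')
    (fun D v => kct_meas h1 h3 h4 h5 hF hT hTX D.1.2) (by
      rintro D S S' e v he ⟨h, x, hx⟩
      refine ⟨kct_kof T he h, e ∘ x, ?_⟩
      exact (h4 R D.1.1 _ (kct_exact_inv X D.1.2)).1 S S' e x he hx)
  have h6 : ∀ m : ℕ, ∃ S : (LMod R).Structure ℕ, (ρ m).1 ∈ Kof T →
      @FirstOrder.Language.Theory.Model (LMod R) ℕ S T ∧ (ρ m).1 = grph S := by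
    intro m
    by_cases h : (ρ m).1 ∈ Kof T
    · obtain ⟨S, hS, hS'⟩ := h
      exact ⟨S, fun _ => ⟨hS, hS'⟩⟩
    · refine ⟨⟨fun _ _ => 0, fun {n} r => nomatch r⟩, fun h' => absurd h' h⟩
  choose f hf using h6
  refine ⟨f, fun S hS => ?_⟩
  obtain ⟨m, hm, hm'⟩ := hρ (grph S) ⟨S, hS, rfl⟩ Fin.elim0
  refine ⟨m, ?_⟩
  obtain ⟨hS₂, hS₂'⟩ := hf m hm
  rw [hS₂'] at hm'
  obtain ⟨g₁, m₁, hS₁⟩ := hT S hS
  obtain ⟨g₂, m₂, hS₃⟩ := hT (f m) hS₂
  rw [hS₃] at hm' hS₂ ⊢
  rw [hS₁] at hm' hS ⊢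
  have hX₁ : @Ax.In R _ X ℕ g₁ m₁ := @hTX ℕ g₁ m₁ hS
  have hX₂ : @Ax.In R _ X ℕ g₂ m₂ := @hTX ℕ g₂ m₂ hS₂
  -- values of the properties
  have h7 : ∀ (g : AddCommGroup ℕ) (q : @Module R ℕ _ g.toAddCommMonoid),
      @FirstOrder.Language.Theory.Model (LMod R) ℕ (@modStr R _ ℕ g q) T →
      ∀ (n : ℕ) (D : L1 R (Fin n)), KctA T X (kctCl X D) (grph (@modStr R _ ℕ g q)) ↔
        ∃ x : Fin n → ℕ, @Ax.Exact R _ (Fin n) X D ℕ g q x := by
    intro g q hg n D
    have hX : @Ax.In R _ X ℕ g q := @hTX ℕ g q hg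
    constructor
    · rintro ⟨-, x, hx⟩
      refine ⟨x, ?_⟩
      exact (@kct_exact_cl R _ X n D ℕ g q hX x).1
        ((kct_at h4 (kct_exact_inv X (kctCl X D)) g q x).1 hx)
    · rintro ⟨x, hx⟩
      refine ⟨⟨_, hg, rfl⟩, x, ?_⟩
      exact (kct_at h4 (kct_exact_inv X (kctCl X D)) g q x).2
        ((@kct_exact_cl R _ X n D ℕ g q hX x).2 hx)
  obtain ⟨e⟩ := iso (@Md.mk R _ ℕ g₁ m₁) (@Md.mk R _ ℕ g₂ m₂) (inferInstanceAs (Countable ℕ))
    (inferInstanceAs (Countable ℕ)) hX₁ hX₂ (by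
      intro n D
      have h8 := hm' ⟨⟨n, kctCl X D⟩, cl_cl D.2⟩
      exact (h7 g₁ m₁ hS n D).symm.trans (h8.trans (h7 g₂ m₂ hS₂ n D)))
  exact kct_equiv (@Md.mk R _ ℕ g₁ m₁) (@Md.mk R _ ℕ g₂ m₂) e

end Pool.Agent.MVC
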