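import Pool.Agent.MVC.St3

/-!
# Vaught's conjecture for modules: few level-one types from not perfectly many models
-/

set_option autoImplicit false
set_option linter.unusedSectionVars false
set_option linter.unusedVariables false

namespace Pool.Agent.MVC

open Set Ax FirstOrder Pool.Agent.Helper6.Str Pool.Agent.Helper5.DU

/-! ### Invariance of the models of a theory -/

private def kfw_equiv {R : Type} [Ring R] {M N : Type} [AddCommGroup M] [Module R M]
    [AddCommGroup N] [Module R N] (e : M ≃ₗ[R] N) :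
    @FirstOrder.Language.Equiv (LMod R) M N (modStr R M) (modStr R N) :=
  @FirstOrder.Language.Equiv.mk (LMod R) M N (modStr R M) (modStr R N) e.toEquiv (by
    intro n f x
    cases f with
    | zero => exact map_zero e
    | smul r => exact map_smul e r (x 0)
    | add => exact map_add e (x 0) (x 1)) (by
    intro n r x
    exact nomatch r)

private theorem kfw_mods {R : Type} [Ring R] (T : (LMod R).Theory) {M N : Type}
    [AddCommGroup M] [Module R M] [AddCommGroup N] [Module R N] (e : M ≃ₗ[R] N)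
    (h : Mods T M) : Mods T N := by
  let i1 : (LMod R).Structure M := modStr R M
  let i2 : (LMod R).Structure N := modStr R N
  have h1 := FirstOrder.Language.StrongHomClass.elementarilyEquivalent (L := LMod R) (kfw_equiv e)
  have h2 : M ⊨ T := h
  exact h1.theory_model

private theorem kfw_ctblRel {R : Type} [Ring R] [Countable R] (n : ℕ) :
    Countable ((LR R).Relations n) := by
  change Countable (ModRel R n)
  refine Function.Injective.countable (f := fun r : ModRel R n =>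
    (match n, r with
      | _, ModRel.zero => Sum.inl true
      | _, ModRel.smul r => Sum.inr r
      | _, ModRel.add => Sum.inl false : Bool ⊕ R)) ?_
  intro r s h
  cases r <;> cases s <;> simp_all

section

variable {R : Type} [Ring R] [Countable R]

/-- a property of tuples of modules is invariant under isomorphisms -/
private def Inv {n : ℕ}
    (P : ∀ (M : Type) [AddCommGroup M] [Module R M], (Fin n → M) → Prop) : Prop :=
  ∀ (M N : Type) [AddCommGroup M] [Module R M] [AddCommGroup N] [Module R N] (e : M ≃ₗ[R] N)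
    (x : Fin n → M), P M x → P N (fun i => e (x i))

private theorem inv_iff {n : ℕ}
    {P : ∀ (M : Type) [AddCommGroup M] [Module R M], (Fin n → M) → Prop} (hP : Inv P)
    {M N : Type} [AddCommGroup M] [Module R M] [AddCommGroup N] [Module R N] (e : M ≃ₗ[R] N)
    (y : Fin n → M) : P N (fun i => e (y i)) ↔ P M y := by
  constructor
  · intro h
    have h' := hP N M e.symm _ h
    have h3 : (fun i => e.symm (e (y i))) = y := by
      funext i
      exact e.symm_apply_apply (y i)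
    rw [h3] at h'
    exact h'
  · intro h
    exact hP M N e _ h

private theorem inv_sat1 {n : ℕ} (V : L1 R (Fin n)) :
    Inv (fun (M : Type) [AddCommGroup M] [Module R M] (x : Fin n → M) => Sat1 V M x) := by
  intro M N _ _ _ _ e x h
  exact h.map (e : M →ₗ[R] N)

private theorem atM_iff (hKIN : St_KIN) {n : ℕ}
    {P : ∀ (M : Type) [AddCommGroup M] [Module R M], (Fin n → M) → Prop} (hP : Inv P)
    (g : AddCommGroup ℕ) (m : @Module R ℕ _ g.toAddCommMonoid) (v : Fin n → ℕ) :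
    AtM (grph (@modStr R _ ℕ g m)) P v ↔ @P ℕ g m v := by
  constructor
  · rintro ⟨g', m', h, hp⟩
    exact (hKIN R n P hP).2.1 g' g m' m h.symm v hp
  · intro h
    exact ⟨g, m, rfl, h⟩

/-- a structure in `Kof T` is the graph of a module which is a model -/
private theorem kof_iff (T : (LMod R).Theory)
    (hT : ∀ S : (LMod R).Structure ℕ, @FirstOrder.Language.Theory.Model (LMod R) ℕ S T → IsMod S)
    (S : (LR R).Structure ℕ) : S ∈ Kof T ↔
      ∃ (g : AddCommGroup ℕ) (m : @Module R ℕ _ g.toAddCommMonoid),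
        @Mods R _ T ℕ g m ∧ S = grph (@modStr R _ ℕ g m) := by
  constructor
  · rintro ⟨S₀, h1, rfl⟩
    obtain ⟨g, m, rfl⟩ := hT S₀ h1
    exact ⟨g, m, h1, rfl⟩
  · rintro ⟨g, m, h1, rfl⟩
    exact ⟨_, h1, rfl⟩

/-- the countability principle for the modules `B × N` -/
private theorem kfw_gen (h1 : St_KMS) (h2 : St_KPF) (h4 : St_KIN) (T : (LMod R).Theory)
    (hT : ∀ S : (LMod R).Structure ℕ, @FirstOrder.Language.Theory.Model (LMod R) ℕ S T → IsMod S)
    (X : Ax R) (B : Md R) (hBc : Countable B) (hBi : Infinite B)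
    (hBN : ∀ N : Md R, Countable N → X.In N → Mods T (B × N)) (hnp : ¬ PerfMod T)
    {n : ℕ} {J : Type} [Countable J]
    (P : J → ∀ (M : Type) [AddCommGroup M] [Module R M], (Fin n → M) → Prop)
    (hP : ∀ j, Inv (P j))
    (hm : ∀ j v, MeasurableSet {c : Code (LR R) | toStr c ∈ Kof T ∧
      AtM (toStr c) (P j) v}) :
    {Z : J → Prop | ∃ N : Md R, Countable N ∧ X.In N ∧ ∃ y : Fin n → B × N,
      Z = fun j => P j (B × N) y}.Countable := by
  have hRel : ∀ n, Countable ((LR R).Relations n) := kfw_ctblRel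
  have hPK : ¬ PerfK (Kof T) := fun h => hnp (h2 R T h)
  -- the properties together with membership in `Kof T`
  let Q : J → ∀ (M : Type) [AddCommGroup M] [Module R M], (Fin n → M) → Prop :=
    fun j M _ _ x => Mods T M ∧ P j M x
  have hQ : ∀ j, Inv (Q j) := fun j M N _ _ _ _ e x h => ⟨kfw_mods T e h.1, hP j M N e x h.2⟩
  have hQA : ∀ j (S : (LR R).Structure ℕ) v, AtM S (Q j) v ↔ S ∈ Kof T ∧ AtM S (P j) v := by
    intro j S v
    constructor
    · rintro ⟨g, m, rfl, h, h'⟩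
      exact ⟨(kof_iff T hT _).mpr ⟨g, m, h, rfl⟩, ⟨g, m, rfl, h'⟩⟩
    · rintro ⟨hS, h'⟩
      obtain ⟨g, m, hm, rfl⟩ := (kof_iff T hT S).mp hS
      rw [atM_iff h4 (hP j)] at h'
      exact ⟨g, m, rfl, hm, h'⟩
  obtain ⟨ρ, hρ⟩ := ctbl_of_props (L := LR R) (K := Kof T) (h1 R T) hPK (n := n)
    (fun j S v => AtM S (Q j) v) (by
      intro j v
      have : {c : Code (LR R) | AtM (toStr c) (Q j) v} =
          {c : Code (LR R) | toStr c ∈ Kof T ∧ AtM (toStr c) (P j) v} := by
        ext c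
        exact hQA j (toStr c) v
      rw [this]
      exact hm j v) (by
      intro j S S' e v he h
      exact (h4 R n (Q j) (hQ j)).1 S S' e v he h)
  refine (countable_range fun k : ℕ => fun j => AtM (ρ k).1 (Q j) (ρ k).2).mono ?_
  rintro Z ⟨N, hNc, hN, y, rfl⟩
  have hinf : Infinite (B × N) := Prod.infinite_of_left
  obtain ⟨g, m, e, hK⟩ := (h4 R 0 (fun _ _ _ _ => True)
    (fun _ _ _ _ _ _ _ _ _ => trivial)).2.2 (B × N) T (hBN N hNc hN)
  obtain ⟨k, -, hk⟩ := hρ _ hK (fun i => e (y i))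
  refine ⟨k, ?_⟩
  funext j
  refine propext ((hk j).symm.trans ?_)
  rw [hQA j, atM_iff h4 (hP j)]
  have h5 := @inv_iff R _ _ n (P j) (hP j) (B × N) ℕ _ _ g m e y
  exact ⟨fun h => h5.mp h.2, fun h => ⟨hK, h5.mpr h⟩⟩

/-- the closure of a level-one formula -/
private def cl1 (X : Ax R) {n : ℕ} (V : L1 R (Fin n)) : L1 R (Fin n) := ⟨V.1, X.Cl V.2⟩

private theorem sat1_cl1 {X : Ax R} {n : ℕ} (V : L1 R (Fin n)) {M : Type} [AddCommGroup M]
    [Module R M] (hM : X.In M) (x : Fin n → M) : Sat1 (cl1 X V) M x ↔ Sat1 V M x :=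
  exists_congr fun t => re_cl hM

private theorem sat1_zero_right {n : ℕ} (V : L1 R (Fin n)) {B N : Type} [AddCommGroup B]
    [Module R B] [AddCommGroup N] [Module R N] (x : Fin n → N) :
    Sat1 V (B × N) (fun i => ((0 : B), x i)) ↔ Sat1 V N x := by
  rw [sat1_prod]
  exact ⟨fun h => h.2, fun h => ⟨Sat1.zero V, h⟩⟩

end

theorem thm_KFW (h1 : St_KMS) (h2 : St_KPF) (h3 : St_KME) (h4 : St_KIN) (h5 : St_HEX) :
    St_KFW := by
  intro R _ _ T hT X B hB hBc hBi hBa hBN hnp
  have hmeas := h3 R T hT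
  have gen := @kfw_gen R _ _ h1 h2 h4 T hT X B hBc hBi hBN hnp
  -- (0) the types of tuples
  have c0 : ∀ n : ℕ, {p : Set (PP R (Fin n)) | ∃ N : Md R, Countable N ∧ X.In N ∧
      ∃ x : Fin n → N, p = pp N x}.Countable := by
    intro n
    have h := gen (n := n) (J := PP R (Fin n))
      (fun φ M _ _ x => Sat1 (ofRe {φ}) M x) (fun φ => inv_sat1 _) (fun φ v => hmeas n _ v)
    refine (h.image fun Z => {φ | Z φ}).mono ?_
    rintro p ⟨N, hNc, hN, x, rfl⟩
    refine ⟨_, ⟨N, hNc, hN, fun i => (0, x i), rfl⟩, ?_⟩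
    ext φ
    change Sat1 (ofRe {φ}) (B × N) (fun i => (0, x i)) ↔ Sat φ N x
    rw [sat1_zero_right, sat1_ofRe]
    exact ⟨fun h => h φ rfl, fun h ψ hψ => by
      rw [mem_singleton_iff.mp hψ]
      exact h⟩
  -- the closed sets of formulas
  have c1 : ∀ n k : ℕ, {S : Set (PP R (Fin n ⊕ Fin k)) | ∃ V, S = X.Cl V}.Countable := by
    intro n k
    let e : Fin (n + k) ≃ Fin n ⊕ Fin k := finSumFinEquiv.symm
    refine ((c0 (n + k)).image fun p => {φ | ren e.symm φ ∈ p}).mono ?_
    rintro S ⟨V, rfl⟩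
    obtain ⟨N, g, hg⟩ := h5 R X (Fin n ⊕ Fin k) V
    refine ⟨_, ⟨N, hg.ctbl, hg.mem, g ∘ e, rfl⟩, ?_⟩
    ext φ
    change Sat (ren e.symm φ) N (g ∘ e) ↔ X.Ent V φ
    rw [sat_ren]
    have h : (g ∘ e) ∘ e.symm = g := by
      funext i
      simp
    rw [h]
    exact ⟨hg.gen0 φ, fun h => Ent.sat h hg.mem hg.sat⟩
  -- the closed level-one formulas
  have c2 : ∀ n : ℕ, (range fun V : L1 R (Fin n) => cl1 X V).Countable := by
    intro n
    refine (countable_iUnion fun k : ℕ => (c1 n k).image fun S => (⟨k, S⟩ : L1 R (Fin n))).mono ?_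
    rintro _ ⟨V, rfl⟩
    exact mem_iUnion.mpr ⟨V.1, X.Cl V.2, ⟨V.2, rfl⟩, rfl⟩
  have c2' : ∀ n : ℕ, Countable (range fun V : L1 R (Fin n) => cl1 X V) := fun n =>
    (c2 n).to_subtype
  -- (1) the level-one types
  have c3 : ∀ n : ℕ, {τ : Set (L1 R (Fin n)) | ∃ N : Md R, Countable N ∧ X.In N ∧
      ∃ x : Fin n → N, tp1 N x = τ}.Countable := by
    intro n
    have h := gen (n := n) (J := range fun V : L1 R (Fin n) => cl1 X V)
      (fun W M _ _ x => Sat1 W.1 M x) (fun W => inv_sat1 _) (fun W v => hmeas n _ v)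
    refine (h.image fun Z => {V | Z ⟨cl1 X V, V, rfl⟩}).mono ?_
    rintro p ⟨N, hNc, hN, x, rfl⟩
    refine ⟨_, ⟨N, hNc, hN, fun i => (0, x i), rfl⟩, ?_⟩
    ext V
    change Sat1 (cl1 X V) (B × N) (fun i => (0, x i)) ↔ Sat1 V N x
    rw [sat1_zero_right, sat1_cl1 V hN]
  refine ⟨hB, hBc, hBa, c3, ?_⟩
  -- (2) the sets of realised level-one types
  let J : Set ((n : ℕ) × Set (L1 R (Fin n))) := {σ | ∃ N : Md R, Countable N ∧ X.In N ∧
    ∃ x : Fin σ.1 → N, tp1 N x = σ.2}
  have hJ : J.Countable := by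
    refine (countable_iUnion fun n : ℕ => (c3 n).image fun τ =>
      (⟨n, τ⟩ : (n : ℕ) × Set (L1 R (Fin n)))).mono ?_
    rintro ⟨n, τ⟩ h
    exact mem_iUnion.mpr ⟨n, τ, h, rfl⟩
  have hJ' : Countable J := hJ.to_subtype
  let P : J → ∀ (M : Type) [AddCommGroup M] [Module R M], (Fin 0 → M) → Prop :=
    fun σ M _ _ _ => ∃ x : Fin σ.1.1 → M, ∀ W : (range fun V : L1 R (Fin σ.1.1) => cl1 X V),
      Sat1 W.1 M x ↔ W.1 ∈ σ.1.2
  have hPinv : ∀ σ, Inv (P σ) := by
    rintro σ M N _ _ _ _ e v ⟨x, hx⟩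
    refine ⟨fun i => e (x i), fun W => Iff.trans ?_ (hx W)⟩
    constructor
    · intro h
      have h' := h.map (e.symm : N →ₗ[R] M)
      have h6 : (⇑(e.symm : N →ₗ[R] M)) ∘ (fun i => e (x i)) = x := by
        funext i
        exact e.symm_apply_apply (x i)
      rw [h6] at h'
      exact h'
    · intro h
      exact h.map (e : M →ₗ[R] N)
  have h := gen (n := 0) (J := J) P hPinv (by
    intro σ v
    have : {c : Code (LR R) | toStr c ∈ Kof T ∧ AtM (toStr c) (P σ) v} =
        {c : Code (LR R) | toStr c ∈ Kof T} ∩ ⋃ x : Fin σ.1.1 → ℕ,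
          ⋂ W : (range fun V : L1 R (Fin σ.1.1) => cl1 X V),
            {c : Code (LR R) | (toStr c ∈ Kof T ∧
              AtM (toStr c) (fun M _ _ x => Sat1 W.1 M x) x) ↔ W.1 ∈ σ.1.2} := by
      ext c
      simp only [mem_ofPred_eq, mem_inter_iff, mem_iInter, mem_iUnion]
      refine and_congr_right fun hc => ?_
      obtain ⟨g, m, hgm, hS⟩ := (kof_iff T hT _).mp hc
      rw [hS] at hc ⊢
      rw [atM_iff h4 (hPinv σ)]
      refine exists_congr fun x => forall_congr' fun W => ?_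
      rw [atM_iff h4 (inv_sat1 W.1)]
      exact iff_congr ⟨fun h => ⟨hc, h⟩, fun h => h.2⟩ Iff.rfl
    rw [this]
    refine (h1 R T).inter (MeasurableSet.iUnion fun x => MeasurableSet.iInter fun W => ?_)
    by_cases hW : W.1 ∈ σ.1.2
    · simp only [hW, iff_true]
      exact hmeas _ _ _
    · simp only [hW, iff_false]
      exact (hmeas _ _ _).compl)
  refine (h.image fun Z => {σ | ∃ hσ : σ ∈ J, Z ⟨σ, hσ⟩}).mono ?_
  rintro Θ ⟨N, hNc, hN, rfl⟩
  refine ⟨_, ⟨N, hNc, hN, fun i => i.elim0, rfl⟩, ?_⟩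
  have hBN' : X.In (B × N) := hB.prod hN
  ext σ
  constructor
  · rintro ⟨hσ, x, hx⟩
    refine ⟨x, ?_⟩
    have hσ' := hσ
    obtain ⟨N', -, hN', x', hx'⟩ := hσ'
    ext V
    change Sat1 V (B × N) x ↔ V ∈ σ.2
    rw [← sat1_cl1 V hBN', hx ⟨cl1 X V, V, rfl⟩]
    change cl1 X V ∈ σ.2 ↔ V ∈ σ.2
    rw [← hx']
    exact sat1_cl1 V hN' x'
  · rintro ⟨x, hx⟩
    refine ⟨⟨⟨B × N⟩, inferInstance, hBN', x, hx⟩, x, fun W => ?_⟩
    have h7 : W.1 ∈ tp1 (B × N) x ↔ W.1 ∈ σ.2 := by rw [hx]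
    exact h7

end Pool.Agent.MVC
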