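import Pool.Agent.MVC.St3

/-!
# Vaught's conjecture for modules, module KIN: transport of modules and of their graphs
-/

set_option autoImplicit false
set_option linter.unusedSectionVars false
set_option linter.unusedVariables false

namespace Pool.Agent.MVC

open Set Ax FirstOrder Pool.Agent.Helper6.Str Pool.Agent.Helper5.DU

section

variable {R : Type} [Ring R]

/-- transport of a module along a bijection -/
theorem KIN_tr {M N : Type} [AddCommGroup M] [Module R M] (e : M ≃ N) :
    ∃ (g : AddCommGroup N) (m : @Module R N _ g.toAddCommMonoid)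
      (l : @LinearEquiv R R _ _ (RingHom.id R) (RingHom.id R) _ _ M N _ g.toAddCommMonoid _ m),
      ∀ x, l x = e x := by
  let g : AddCommGroup N := e.symm.addCommGroup
  let m : Module R N := e.symm.module R
  refine ⟨g, m, (e.symm.linearEquiv R).symm, fun x => ?_⟩
  rfl

theorem KIN_zero {M : Type} [AddCommGroup M] [Module R M] (v : Fin 1 → M) :
    (grph (modStr R M)).RelMap (ModRel.zero : (LR R).Relations 1) v ↔ 0 = v 0 := Iff.rfl

theorem KIN_smul {M : Type} [AddCommGroup M] [Module R M] (r : R) (v : Fin 2 → M) :
    (grph (modStr R M)).RelMap (ModRel.smul r : (LR R).Relations 2) v ↔ r • v 0 = v 1 := Iff.rfl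

theorem KIN_add {M : Type} [AddCommGroup M] [Module R M] (v : Fin 3 → M) :
    (grph (modStr R M)).RelMap (ModRel.add : (LR R).Relations 3) v ↔ v 0 + v 1 = v 2 := Iff.rfl

/-- linear equivalences preserve the graphs -/
theorem KIN_rel {M N : Type} [AddCommGroup M] [Module R M] [AddCommGroup N] [Module R N]
    (l : M ≃ₗ[R] N) (e : M ≃ N) (he : ∀ x, l x = e x) :
    RelIso (grph (modStr R M)) (grph (modStr R N)) e := by
  intro n r v
  cases r with
  | zero =>
    have h1 : (grph (modStr R N)).RelMap (ModRel.zero : (LR R).Relations 1) (e ∘ v) ↔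
        0 = e (v 0) := Iff.rfl
    rw [h1, KIN_zero, ← he, ← map_zero l]
    exact l.injective.eq_iff.symm
  | smul r =>
    have h1 : (grph (modStr R N)).RelMap (ModRel.smul r : (LR R).Relations 2) (e ∘ v) ↔
        r • e (v 0) = e (v 1) := Iff.rfl
    rw [h1, KIN_smul, ← he, ← he, ← map_smul]
    exact l.injective.eq_iff.symm
  | add =>
    have h1 : (grph (modStr R N)).RelMap (ModRel.add : (LR R).Relations 3) (e ∘ v) ↔
        e (v 0) + e (v 1) = e (v 2) := Iff.rfl
    rw [h1, KIN_add, ← he, ← he, ← he, ← map_add]
    exact l.injective.eq_iff.symm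

/-- isomorphisms of the graphs are linear -/
theorem KIN_lin {M N : Type} [AddCommGroup M] [Module R M] [AddCommGroup N] [Module R N]
    (e : M ≃ N) (h : RelIso (grph (modStr R M)) (grph (modStr R N)) e) :
    ∃ l : M ≃ₗ[R] N, ∀ x, l x = e x := by
  have h1 : ∀ a b, e (a + b) = e a + e b := by
    intro a b
    have h2 := (h 3 (ModRel.add : (LR R).Relations 3) ![a, b, a + b]).1 rfl
    exact h2.symm
  have h2 : ∀ (r : R) a, e (r • a) = r • e a := by
    intro r a
    have h3 := (h 2 (ModRel.smul r : (LR R).Relations 2) ![a, r • a]).1 rfl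
    exact h3.symm
  exact ⟨{ e with map_add' := h1, map_smul' := h2 }, fun x => rfl⟩

/-- structures of the relational language which are isomorphic by the identity are equal -/
theorem KIN_ext {M : Type} {S S' : (LR R).Structure M} (h : RelIso S S' (Equiv.refl M)) :
    S = S' := by
  refine FirstOrder.Language.Structure.ext ?_ ?_
  · funext n f
    exact isEmptyElim (show Empty from f)
  · funext n r v
    exact propext (h n r v)

theorem KIN_relIso {M N : Type} [AddCommGroup M] [Module R M] [AddCommGroup N] [Module R N]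
    {S : (LR R).Structure N} (e : M ≃ N) (l : M ≃ₗ[R] N) (he : ∀ x, l x = e x)
    (h : RelIso (grph (modStr R M)) S e) : S = grph (modStr R N) := by
  refine KIN_ext ?_
  have h1 := h.symm.trans (KIN_rel l e he)
  rw [Equiv.symm_trans_self] at h1
  exact h1

/-- models are preserved by linear equivalences -/
theorem KIN_model {M N : Type} [AddCommGroup M] [Module R M] [AddCommGroup N] [Module R N]
    (l : M ≃ₗ[R] N) (T : (LMod R).Theory) (hT : Mods T M) : Mods T N := by
  let sM : (LMod R).Structure M := modStr R M
  let sN : (LMod R).Structure N := modStr R N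
  let E : M ≃[LMod R] N :=
    { l.toEquiv with
      map_fun' := by
        intro k f v
        cases f with
        | zero => exact map_zero l
        | smul r => exact map_smul l r (v 0)
        | add => exact map_add l (v 0) (v 1)
      map_rel' := by
        intro k r
        exact isEmptyElim (show Empty from r) }
  have : M ⊨ T := hT
  exact FirstOrder.Language.StrongHomClass.theory_model E

end

theorem thm_KIN : St_KIN := by
  intro R _ n P hP
  refine ⟨fun S S' e v hS hv => ?_, fun g g' m m' hg v hv => ?_, fun M _ _ _ _ T hT => ?_⟩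
  · obtain ⟨g, m, rfl, hP'⟩ := hv
    let := g
    let := m
    obtain ⟨g', m', l, hl⟩ := KIN_tr (R := R) e
    refine ⟨g', m', ?_, ?_⟩
    · let := g'
      let := m'
      exact @KIN_relIso R _ ℕ ℕ g m g' m' S' e l hl hS
    · have h1 := @hP ℕ ℕ g m g' m' l v hP'
      have h2 : (fun i => l (v i)) = e ∘ v := funext fun i => hl (v i)
      rw [h2] at h1
      exact h1
  · have h1 : RelIso (grph (@modStr R _ ℕ g m)) (grph (@modStr R _ ℕ g' m')) (Equiv.refl ℕ) := by
      rw [hg]
      exact Pool.Agent.Helper6.Str.RelIso.refl _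
    obtain ⟨l, hl⟩ := @KIN_lin R _ ℕ ℕ g m g' m' (Equiv.refl ℕ) h1
    have h2 := @hP ℕ ℕ g m g' m' l v hv
    have h3 : (fun i => l (v i)) = v := funext fun i => hl (v i)
    rw [h3] at h2
    exact h2
  · obtain ⟨e⟩ := nonempty_equiv_of_countable (α := M) (β := ℕ)
    obtain ⟨g', m', l, hl⟩ := KIN_tr (R := R) e
    exact ⟨g', m', l, @modStr R _ ℕ g' m', @KIN_model R _ M ℕ _ _ g' m' l T hT, rfl⟩

end Pool.Agent.MVC
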