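import Pool.Agent.MVC.St3

/-!
# [KME] Level-one properties of tuples are measurable
-/

set_option autoImplicit false
set_option linter.unusedSectionVars false
set_option linter.unusedVariables false

namespace Pool.Agent.MVC

open Set Ax FirstOrder Pool.Agent.Helper6.Str

section poly

variable {R : Type} [Ring R] {ι α : Type}

private def KME_Qz (M : Type) [AddCommGroup M] [Module R M] (d : M) : Prop := (0 : M) = d

private def KME_Qs (M : Type) [AddCommGroup M] [Module R M] (r : R) (a d : M) : Prop := r • a = d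

private def KME_Qa (M : Type) [AddCommGroup M] [Module R M] (a b d : M) : Prop := a + b = d

private def KME_Ql (M : Type) [AddCommGroup M] [Module R M] (e : α →₀ R) (w : α → M) (d : M) :
    Prop := Finsupp.linearCombination R w e = d

private theorem KME_ql_zero (M : Type) [AddCommGroup M] [Module R M] (w : α → M) (d : M) :
    KME_Ql (R := R) M 0 w d ↔ KME_Qz (R := R) M d := by
  unfold KME_Ql KME_Qz
  rw [map_zero]

private theorem KME_ql_add (M : Type) [AddCommGroup M] [Module R M] (a : α) (r : R) (f : α →₀ R)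
    (w : α → M) (d : M) :
    KME_Ql M (Finsupp.single a r + f) w d ↔
      ∃ p q : M, KME_Qs M r (w a) p ∧ KME_Ql M f w q ∧ KME_Qa (R := R) M p q d := by
  unfold KME_Ql KME_Qs KME_Qa
  rw [map_add, Finsupp.linearCombination_single]
  constructor
  · intro h
    exact ⟨_, _, rfl, rfl, h⟩
  · rintro ⟨p, q, h1, h2, h3⟩
    rw [h1, h2, h3]

private theorem KME_lc_zero (M : Type) [AddCommGroup M] [Module R M] (e : α →₀ R) (w : α → M) :
    Finsupp.linearCombination R w e = 0 ↔ ∃ d : M, KME_Qz (R := R) M d ∧ KME_Ql M e w d := by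
  unfold KME_Ql KME_Qz
  constructor
  · intro h
    exact ⟨0, rfl, h⟩
  · rintro ⟨d, h1, h2⟩
    rw [h2, h1]

private def KME_ext {M : Type} (N : ℕ) (z : Fin N → M) (d : M) : ℕ → M :=
  fun i => if h : i < N then z ⟨i, h⟩ else d

private theorem KME_bound (φ : PP R ι) :
    ∃ N : ℕ, ∀ e ∈ φ, ∀ i : ℕ, (Sum.inr i : ι ⊕ ℕ) ∈ e.support → i < N := by
  induction φ with
  | nil => exact ⟨0, fun e he => absurd he List.not_mem_nil⟩
  | cons e φ ih =>
    obtain ⟨N, hN⟩ := ih
    obtain ⟨K, hK⟩ := Finset.exists_nat_subset_range e.support.toRight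
    refine ⟨max N K, fun e' he' i hi => ?_⟩
    rcases List.mem_cons.1 he' with rfl | h
    · exact lt_of_lt_of_le (Finset.mem_range.1 (hK (Finset.mem_toRight.2 hi))) (le_max_right _ _)
    · exact lt_of_lt_of_le (hN e' h i hi) (le_max_left _ _)

private theorem KME_sat_iff (φ : PP R ι) (N : ℕ)
    (hN : ∀ e ∈ φ, ∀ i : ℕ, (Sum.inr i : ι ⊕ ℕ) ∈ e.support → i < N)
    (M : Type) [AddCommGroup M] [Module R M] (x : ι → M) (d0 : M) :
    Sat φ M x ↔ ∃ z : Fin N → M, ∀ e : {e // e ∈ φ}, ∃ d : M, KME_Qz (R := R) M d ∧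
      KME_Ql M e.1 (Sum.elim x (KME_ext N z d0)) d := by
  constructor
  · rintro ⟨y, hy⟩
    refine ⟨fun i => y i, fun e => ?_⟩
    rw [← KME_lc_zero, ← hy e.1 e.2, Finsupp.linearCombination_apply,
      Finsupp.linearCombination_apply]
    refine Finset.sum_congr rfl fun a ha => ?_
    rcases a with a | i
    · rfl
    · have hi := hN e.1 e.2 i ha
      show e.1 (Sum.inr i) • KME_ext N (fun i => y i) d0 i = e.1 (Sum.inr i) • y i
      unfold KME_ext
      rw [dif_pos hi]
  · rintro ⟨z, hz⟩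
    refine ⟨KME_ext N z d0, fun e he => ?_⟩
    exact (KME_lc_zero M e _).2 (hz ⟨e, he⟩)

private theorem KME_rel_zero (M : Type) [AddCommGroup M] [Module R M] (d : M) :
    (grph (modStr R M)).RelMap (ModRel.zero : (LR R).Relations 1) ![d] ↔ KME_Qz (R := R) M d :=
  Iff.rfl

private theorem KME_rel_smul (M : Type) [AddCommGroup M] [Module R M] (r : R) (a d : M) :
    (grph (modStr R M)).RelMap (ModRel.smul r : (LR R).Relations 2) ![a, d] ↔ KME_Qs M r a d :=
  Iff.rfl

private theorem KME_rel_add (M : Type) [AddCommGroup M] [Module R M] (a b d : M) :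
    (grph (modStr R M)).RelMap (ModRel.add : (LR R).Relations 3) ![a, b, d] ↔
      KME_Qa (R := R) M a b d :=
  Iff.rfl

end poly

section meas

variable {R : Type} [Ring R] {ι α : Type}

/-- properties of module structures on `ℕ` -/
private abbrev KME_Pr (R : Type) [Ring R] : Type :=
  ∀ (g : AddCommGroup ℕ), @Module R ℕ _ g.toAddCommMonoid → Prop

private def KME_S (T : (LMod R).Theory) (Q : KME_Pr R) : Set (Code (LR R)) :=
  {c | toStr c ∈ Kof T ∧ ∃ (g : AddCommGroup ℕ) (m : @Module R ℕ _ g.toAddCommMonoid),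
    toStr c = grph (@modStr R _ ℕ g m) ∧ Q g m}

private theorem KME_uniq {g g' : AddCommGroup ℕ} {m : @Module R ℕ _ g.toAddCommMonoid}
    {m' : @Module R ℕ _ g'.toAddCommMonoid}
    (h : grph (@modStr R _ ℕ g m) = grph (@modStr R _ ℕ g' m')) (Q : KME_Pr R) (hQ : Q g m) :
    Q g' m' := by
  have hadd : ∀ a b : ℕ, @HAdd.hAdd ℕ ℕ ℕ (@instHAdd ℕ g.toAddCommMonoid.toAddMonoid.toAddSemigroup.toAdd) a b =
      @HAdd.hAdd ℕ ℕ ℕ (@instHAdd ℕ g'.toAddCommMonoid.toAddMonoid.toAddSemigroup.toAdd) a b := by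
    intro a b
    have h1 : (grph (@modStr R _ ℕ g m)).RelMap (ModRel.add : (LR R).Relations 3)
        ![a, b, @HAdd.hAdd ℕ ℕ ℕ (@instHAdd ℕ g.toAddCommMonoid.toAddMonoid.toAddSemigroup.toAdd) a b] :=
      (@KME_rel_add R _ ℕ g m a b _).2 rfl
    rw [h] at h1
    exact ((@KME_rel_add R _ ℕ g' m' a b _).1 h1).symm
  have hg : g = g' := AddCommGroup.ext (funext fun a => funext fun b => hadd a b)
  subst hg
  have hm : m = m' := by
    refine @Module.ext' R _ ℕ g.toAddCommMonoid m m' fun r a => ?_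
    have h1 : (grph (@modStr R _ ℕ g m)).RelMap (ModRel.smul r : (LR R).Relations 2)
        ![a, @HSMul.hSMul R ℕ ℕ (@instHSMul R ℕ m.toDistribMulAction.toMulAction.toSMul) r a] :=
      (@KME_rel_smul R _ ℕ g m r a _).2 rfl
    rw [h] at h1
    exact ((@KME_rel_smul R _ ℕ g m' r a _).1 h1).symm
  subst hm
  exact hQ

private theorem KME_congr (T : (LMod R).Theory) {Q Q' : KME_Pr R} (h : ∀ g m, Q g m ↔ Q' g m) :
    KME_S T Q = KME_S T Q' := by
  have : Q = Q' := by
    funext g m
    exact propext (h g m)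
  rw [this]

private theorem KME_ex (T : (LMod R).Theory) {ι : Type} [Countable ι] (Q : ι → KME_Pr R)
    (h : ∀ i, MeasurableSet (KME_S T (Q i))) :
    MeasurableSet (KME_S T fun g m => ∃ i, Q i g m) := by
  have e : KME_S T (fun g m => ∃ i, Q i g m) = ⋃ i, KME_S T (Q i) := by
    ext c
    rw [mem_iUnion]
    constructor
    · rintro ⟨h1, g, m, h2, i, h3⟩
      exact ⟨i, h1, g, m, h2, h3⟩
    · rintro ⟨i, h1, g, m, h2, h3⟩
      exact ⟨h1, g, m, h2, i, h3⟩
  rw [e]
  exact MeasurableSet.iUnion h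

private theorem KME_all (T : (LMod R).Theory)
    (hT : ∀ S : (LMod R).Structure ℕ, @FirstOrder.Language.Theory.Model (LMod R) ℕ S T → IsMod S)
    (hG : MeasurableSet {c : Code (LR R) | toStr c ∈ Kof T})
    {ι : Type} [Countable ι] (Q : ι → KME_Pr R) (h : ∀ i, MeasurableSet (KME_S T (Q i))) :
    MeasurableSet (KME_S T fun g m => ∀ i, Q i g m) := by
  have e : KME_S T (fun g m => ∀ i, Q i g m) =
      {c : Code (LR R) | toStr c ∈ Kof T} ∩ ⋂ i, KME_S T (Q i) := by
    ext c
    constructor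
    · rintro ⟨h1, g, m, h2, h3⟩
      exact ⟨h1, mem_iInter.2 fun i => ⟨h1, g, m, h2, h3 i⟩⟩
    · rintro ⟨h1, h2⟩
      rw [mem_iInter] at h2
      obtain ⟨S, hS, hc⟩ := h1
      obtain ⟨g, m, rfl⟩ := hT S hS
      refine ⟨⟨_, hS, hc⟩, g, m, hc, fun i => ?_⟩
      obtain ⟨-, g', m', h3, h4⟩ := h2 i
      exact KME_uniq (h3.symm.trans hc) (Q i) h4
  rw [e]
  exact hG.inter (MeasurableSet.iInter h)

private theorem KME_and (T : (LMod R).Theory)
    (hT : ∀ S : (LMod R).Structure ℕ, @FirstOrder.Language.Theory.Model (LMod R) ℕ S T → IsMod S)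
    (hG : MeasurableSet {c : Code (LR R) | toStr c ∈ Kof T})
    {Q Q' : KME_Pr R} (h : MeasurableSet (KME_S T Q)) (h' : MeasurableSet (KME_S T Q')) :
    MeasurableSet (KME_S T fun g m => Q g m ∧ Q' g m) := by
  have h1 := KME_all T hT hG (fun b : Bool => fun g m => if b = true then Q g m else Q' g m)
    (fun b => by cases b <;> simpa using (by assumption))
  refine (KME_congr T fun g m => ?_) ▸ h1
  constructor
  · intro h
    exact ⟨by simpa using h true, by simpa using h false⟩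
  · rintro ⟨h1, h2⟩ b
    cases b
    · simpa using h2
    · simpa using h1

private theorem KME_rel (T : (LMod R).Theory)
    (hG : MeasurableSet {c : Code (LR R) | toStr c ∈ Kof T})
    (hT : ∀ S : (LMod R).Structure ℕ, @FirstOrder.Language.Theory.Model (LMod R) ℕ S T → IsMod S)
    {n : ℕ} (r : (LR R).Relations n) (v : Fin n → ℕ) :
    MeasurableSet (KME_S T fun g m => (grph (@modStr R _ ℕ g m)).RelMap r v) := by
  have e : KME_S T (fun g m => (grph (@modStr R _ ℕ g m)).RelMap r v) =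
      {c : Code (LR R) | toStr c ∈ Kof T} ∩ {c | c ⟨n, (r, v)⟩ = true} := by
    ext c
    constructor
    · rintro ⟨h1, g, m, h2, h3⟩
      refine ⟨h1, ?_⟩
      rw [← h2] at h3
      exact h3
    · rintro ⟨h1, h2⟩
      obtain ⟨S, hS, hc⟩ := h1
      obtain ⟨g, m, rfl⟩ := hT S hS
      refine ⟨⟨_, hS, hc⟩, g, m, hc, ?_⟩
      show (grph (@modStr R _ ℕ g m)).RelMap r v
      rw [← hc]
      exact h2
  rw [e]
  have h5 : Measurable (fun c : Code (LR R) => c ⟨n, (r, v)⟩) := measurable_pi_apply _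
  exact hG.inter (h5 (MeasurableSet.singleton true))

private theorem KME_lc (T : (LMod R).Theory)
    (hG : MeasurableSet {c : Code (LR R) | toStr c ∈ Kof T})
    (hT : ∀ S : (LMod R).Structure ℕ, @FirstOrder.Language.Theory.Model (LMod R) ℕ S T → IsMod S)
    (e : α →₀ R) (w : α → ℕ) : ∀ d : ℕ,
    MeasurableSet (KME_S T fun g m => @KME_Ql R _ α ℕ g m e w d) := by
  induction e using Finsupp.induction with
  | zero =>
    intro d
    rw [KME_congr T fun g m => (@KME_ql_zero R _ α ℕ g m w d).trans (@KME_rel_zero R _ ℕ g m d).symm]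
    exact KME_rel T hG hT _ _
  | single_add a r f ha hr ih =>
    intro d
    rw [KME_congr T fun g m => @KME_ql_add R _ α ℕ g m a r f w d]
    refine KME_ex T _ fun p => KME_ex T _ fun q => KME_and T hT hG ?_ (KME_and T hT hG (ih q) ?_)
    · rw [KME_congr T fun g m => (@KME_rel_smul R _ ℕ g m r (w a) p).symm]
      exact KME_rel T hG hT _ _
    · rw [KME_congr T fun g m => (@KME_rel_add R _ ℕ g m p q d).symm]
      exact KME_rel T hG hT _ _

private theorem KME_sat [Countable R] [Countable ι] (T : (LMod R).Theory)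
    (hG : MeasurableSet {c : Code (LR R) | toStr c ∈ Kof T})
    (hT : ∀ S : (LMod R).Structure ℕ, @FirstOrder.Language.Theory.Model (LMod R) ℕ S T → IsMod S)
    (φ : PP R ι) (x : ι → ℕ) :
    MeasurableSet (KME_S T fun g m => @Sat R _ ι φ ℕ g m x) := by
  obtain ⟨N, hN⟩ := KME_bound φ
  rw [KME_congr T fun g m => @KME_sat_iff R _ ι φ N hN ℕ g m x 0]
  refine KME_ex T _ fun z => KME_all T hT hG _ fun e => KME_ex T _ fun d =>
    KME_and T hT hG ?_ (KME_lc T hG hT _ _ d)
  rw [KME_congr T fun g m => (@KME_rel_zero R _ ℕ g m d).symm]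
  exact KME_rel T hG hT _ _

end meas

theorem thm_KME (h : St_KMS) : St_KME := by
  intro R _ _ T hT n V v
  have hG := h R T
  have h1 : ∀ (g : AddCommGroup ℕ) (m : @Module R ℕ _ g.toAddCommMonoid),
      @Sat1 R _ (Fin n) V ℕ g m v ↔ ∃ t : Fin V.1 → ℕ, ∀ φ : {φ // φ ∈ V.2},
        @Sat R _ (Fin n ⊕ Fin V.1) φ.1 ℕ g m (Sum.elim v t) := by
    intro g m
    exact exists_congr fun t => ⟨fun h φ => h φ.1 φ.2, fun h φ hφ => h ⟨φ, hφ⟩⟩
  show MeasurableSet (KME_S T fun g m => @Sat1 R _ (Fin n) V ℕ g m v)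
  rw [KME_congr T h1]
  exact KME_ex T _ fun t => KME_all T hT hG _ fun φ => KME_sat T hG hT _ _

end Pool.Agent.MVC
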