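import Pool.Agent.MVC.St3

/-!
# Measurability of the set of codes of models of a theory in the language of modules
-/

set_option autoImplicit false
set_option linter.unusedSectionVars false
set_option linter.unusedVariables false

namespace Pool.Agent.MVC

open Set Ax FirstOrder Pool.Agent.Helper6.Str Pool.Agent.Helper5.DU

private theorem meas_sInf {α : Type} [MeasurableSpace α] (P : α → ℕ → Prop)
    (hP : ∀ k, MeasurableSet {c | P c k}) : Measurable (fun c => sInf {k | P c k}) := by
  refine measurable_to_countable' fun m => ?_
  have h1 : (fun c => sInf {k | P c k}) ⁻¹' {m} =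
      ({c | P c m} ∩ ⋂ l : {l // l < m}, {c | P c l.1}ᶜ) ∪
        ({_c | m = 0} ∩ ⋂ l : ℕ, {c | P c l}ᶜ) := by
    ext c
    simp only [mem_preimage, mem_singleton_iff, mem_union, mem_inter_iff, mem_ofPred_eq,
      mem_iInter, mem_compl_iff]
    constructor
    · rintro rfl
      by_cases h : {k | P c k}.Nonempty
      · left
        exact ⟨Nat.sInf_mem h, fun l => Nat.notMem_of_lt_sInf l.2⟩
      · right
        rw [Set.not_nonempty_iff_eq_empty] at h
        refine ⟨by rw [h]; simp, fun l hl => ?_⟩
        have h2 : l ∈ {k | P c k} := hl
        rw [h] at h2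
        exact h2
    · rintro (⟨h1, h2⟩ | ⟨rfl, h⟩)
      · exact le_antisymm (Nat.sInf_le h1)
          (not_lt.mp fun h3 => h2 ⟨_, h3⟩ (Nat.sInf_mem (s := {k | P c k}) ⟨m, h1⟩))
      · have h2 : {k | P c k} = ∅ := by
          rw [Set.eq_empty_iff_forall_notMem]
          exact h
        rw [h2]
        simp
  rw [h1]
  exact ((hP m).inter (MeasurableSet.iInter fun l : {l // l < m} => (hP l.1).compl)).union
    ((MeasurableSet.const _).inter (MeasurableSet.iInter fun l => (hP l).compl))

/-- the functional structure of a code -/
@[instance_reducible]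
private noncomputable def SC {R : Type} (c : Code (LR R)) : (LMod R).Structure ℕ where
  funMap := fun {n} f => match n, f with
    | _, ModFn.zero => fun _ => sInf {k | (toStr c).RelMap (ModRel.zero : (LR R).Relations 1) ![k]}
    | _, ModFn.smul r => fun v =>
        sInf {k | (toStr c).RelMap (ModRel.smul r : (LR R).Relations 2) ![v 0, k]}
    | _, ModFn.add => fun v =>
        sInf {k | (toStr c).RelMap (ModRel.add : (LR R).Relations 3) ![v 0, v 1, k]}
  RelMap := fun {n} r => nomatch r

private theorem sInf_eq (m : ℕ) : sInf {k : ℕ | m = k} = m := by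
  have : {k : ℕ | m = k} = {m} := by
    ext k
    simp [eq_comm]
  rw [this, csInf_singleton]

private theorem sc_eq {R : Type} (c : Code (LR R)) (S : (LMod R).Structure ℕ)
    (h : toStr c = grph S) : SC c = S := by
  apply FirstOrder.Language.Structure.ext
  · funext n f
    funext v
    cases f with
    | zero =>
      show sInf {k | (toStr c).RelMap (ModRel.zero : (LR R).Relations 1) ![k]} = _
      rw [h]
      have h1 : v = ![] := Subsingleton.elim _ _
      rw [h1]
      exact sInf_eq _
    | smul r =>
      show sInf {k | (toStr c).RelMap (ModRel.smul r : (LR R).Relations 2) ![v 0, k]} = _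
      rw [h]
      have h1 : v = ![v 0] := by
        funext i
        fin_cases i
        rfl
      show sInf {k : ℕ | S.funMap (ModFn.smul r : (LMod R).Functions 1) ![v 0] = k} = _
      rw [sInf_eq, ← h1]
    | add =>
      show sInf {k | (toStr c).RelMap (ModRel.add : (LR R).Relations 3) ![v 0, v 1, k]} = _
      rw [h]
      have h1 : v = ![v 0, v 1] := by
        funext i
        fin_cases i <;> rfl
      show sInf {k : ℕ | S.funMap (ModFn.add : (LMod R).Functions 2) ![v 0, v 1] = k} = _
      rw [sInf_eq, ← h1]
  · funext n r
    exact nomatch r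

private def relCode {R : Type} : (n : ℕ) × ModRel R n → Option (Option R)
  | ⟨_, ModRel.zero⟩ => none
  | ⟨_, ModRel.smul r⟩ => some (some r)
  | ⟨_, ModRel.add⟩ => some none

private theorem countable_rel (R : Type) [Countable R] : Countable ((n : ℕ) × ModRel R n) := by
  refine Function.Injective.countable (f := relCode) ?_
  rintro ⟨_, _ | r | _⟩ ⟨_, _ | r' | _⟩ h <;> simp [relCode] at h ⊢
  exact h

private def fnCode {R : Type} : (n : ℕ) × ModFn R n → Option (Option R)
  | ⟨_, ModFn.zero⟩ => none
  | ⟨_, ModFn.smul r⟩ => some (some r)
  | ⟨_, ModFn.add⟩ => some none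

private theorem countable_fn (R : Type) [Countable R] : Countable ((n : ℕ) × ModFn R n) := by
  refine Function.Injective.countable (f := fnCode) ?_
  rintro ⟨_, _ | r | _⟩ ⟨_, _ | r' | _⟩ h <;> simp [fnCode] at h ⊢
  exact h

private theorem countable_rels (R : Type) [Countable R] (n : ℕ) :
    Countable ((LR R).Relations n) := by
  have h := countable_rel R
  exact Function.Injective.countable
    (f := fun r : ModRel R n => (⟨n, r⟩ : (n : ℕ) × ModRel R n)) fun r s h =>
      sigma_mk_injective h

private theorem countable_sym (R : Type) [Countable R] : Countable (LMod R).Symbols := by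
  have h := countable_fn R
  have h' : Countable ((n : ℕ) × (Empty : Type)) := inferInstance
  show Countable (((n : ℕ) × ModFn R n) ⊕ ((n : ℕ) × (Empty : Type)))
  infer_instance

/-- the operations are measurable -/
private theorem meas_fn {R : Type} [Countable R] {n : ℕ} (f : (LMod R).Functions n)
    (v : Fin n → ℕ) : Measurable fun c : Code (LR R) => (SC c).funMap f v := by
  have := countable_rels R
  cases f with
  | zero => exact meas_sInf _ fun k => measurableSet_relMap _ _
  | smul r => exact meas_sInf _ fun k => measurableSet_relMap _ _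
  | add => exact meas_sInf _ fun k => measurableSet_relMap _ _

private theorem meas_term {R : Type} [Countable R] {α : Type} (t : (LMod R).Term α) (v : α → ℕ) :
    Measurable fun c : Code (LR R) =>
      @FirstOrder.Language.Term.realize (LMod R) ℕ (SC c) α v t := by
  induction t with
  | var a => exact measurable_const
  | @func l f ts ih =>
    have h1 : Measurable fun c : Code (LR R) => (fun i =>
        @FirstOrder.Language.Term.realize (LMod R) ℕ (SC c) α v (ts i)) :=
      measurable_pi_iff.mpr ih
    have h2 : Measurable fun p : Code (LR R) × (Fin l → ℕ) => (SC p.1).funMap f p.2 :=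
      measurable_from_prod_countable_left fun w => meas_fn f w
    exact h2.comp (measurable_id.prodMk h1)

private theorem meas_realize {R : Type} [Countable R] {α : Type} {n : ℕ}
    (φ : (LMod R).BoundedFormula α n) (v : α → ℕ) (xs : Fin n → ℕ) :
    MeasurableSet {c : Code (LR R) |
      @FirstOrder.Language.BoundedFormula.Realize (LMod R) ℕ (SC c) α n φ v xs} := by
  induction φ with
  | falsum => exact MeasurableSet.const _
  | equal t₁ t₂ => exact measurableSet_eq_fun (meas_term t₁ _) (meas_term t₂ _)
  | rel r ts => exact nomatch r
  | imp f₁ f₂ ih₁ ih₂ =>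
    have h1 := ih₁ xs
    have h2 := ih₂ xs
    have : {c : Code (LR R) | @FirstOrder.Language.BoundedFormula.Realize (LMod R) ℕ (SC c) α _
        (f₁.imp f₂) v xs} =
        {c : Code (LR R) |
          @FirstOrder.Language.BoundedFormula.Realize (LMod R) ℕ (SC c) α _ f₁ v xs}ᶜ ∪
        {c : Code (LR R) |
          @FirstOrder.Language.BoundedFormula.Realize (LMod R) ℕ (SC c) α _ f₂ v xs} := by
      ext c
      simp only [mem_ofPred_eq, mem_union, mem_compl_iff,
        FirstOrder.Language.BoundedFormula.realize_imp]
      tauto
    rw [this]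
    exact h1.compl.union h2
  | all f ih =>
    have : {c : Code (LR R) | @FirstOrder.Language.BoundedFormula.Realize (LMod R) ℕ (SC c) α _
        f.all v xs} = ⋂ a : ℕ, {c : Code (LR R) |
        @FirstOrder.Language.BoundedFormula.Realize (LMod R) ℕ (SC c) α _ f v
          (Fin.snoc xs a)} := by
      ext c
      simp only [mem_ofPred_eq, mem_iInter, FirstOrder.Language.BoundedFormula.realize_all]
    rw [this]
    exact MeasurableSet.iInter fun a => ih _

private theorem meas_grph {R : Type} [Countable R] {n : ℕ} (r : (LR R).Relations n)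
    (v : Fin n → ℕ) : MeasurableSet {c : Code (LR R) | (grph (SC c)).RelMap r v} := by
  cases r with
  | zero => exact measurableSet_eq_fun (meas_fn ModFn.zero _) measurable_const
  | smul r => exact measurableSet_eq_fun (meas_fn (ModFn.smul r) _) measurable_const
  | add => exact measurableSet_eq_fun (meas_fn ModFn.add _) measurable_const

theorem thm_KMS : St_KMS := by
  intro R _ _ T
  have hrel := countable_rels R
  have hsym := countable_sym R
  have hsen : Countable (LMod R).Sentence := inferInstanceAs (Countable ((LMod R).Formula Empty))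
  have h1 : {c : Code (LR R) | toStr c ∈ Kof T} =
      (⋂ p : (n : ℕ) × ((LR R).Relations n × (Fin n → ℕ)),
        (({c : Code (LR R) | (toStr c).RelMap p.2.1 p.2.2} ∩
          {c : Code (LR R) | (grph (SC c)).RelMap p.2.1 p.2.2}) ∪
        ({c : Code (LR R) | (toStr c).RelMap p.2.1 p.2.2}ᶜ ∩
          {c : Code (LR R) | (grph (SC c)).RelMap p.2.1 p.2.2}ᶜ))) ∩
      ⋂ σ : T, {c : Code (LR R) |
        @FirstOrder.Language.Sentence.Realize (LMod R) ℕ (SC c) σ.1} := by
    ext c
    simp only [mem_ofPred_eq, mem_inter_iff, mem_iInter, mem_union, mem_compl_iff]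
    constructor
    · rintro ⟨S, hS, hc⟩
      have h2 := sc_eq c S hc
      constructor
      · intro p
        rw [h2, ← hc]
        tauto
      · intro σ
        rw [h2]
        exact (@FirstOrder.Language.Theory.model_iff (LMod R) ℕ S T).mp hS σ.1 σ.2
    · rintro ⟨h2, h3⟩
      refine ⟨SC c, (@FirstOrder.Language.Theory.model_iff (LMod R) ℕ (SC c) T).mpr
        fun σ hσ => h3 ⟨σ, hσ⟩, ?_⟩
      apply FirstOrder.Language.Structure.ext
      · funext n f
        exact isEmptyElim f
      · funext n r v
        apply propext
        have := h2 ⟨n, (r, v)⟩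
        simp only at this
        tauto
  rw [h1]
  refine MeasurableSet.inter (MeasurableSet.iInter fun p => ?_) (MeasurableSet.iInter fun σ => ?_)
  · have h2 := measurableSet_relMap p.2.1 p.2.2
    have h3 := meas_grph p.2.1 p.2.2
    exact (h2.inter h3).union (h2.compl.inter h3.compl)
  · exact meas_realize _ _ _

end Pool.Agent.MVC
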