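import Pool.Agent.MVC.St3

/-!
# Vaught's conjecture for modules: perfectly many graphs give perfectly many models
-/

set_option autoImplicit false
set_option linter.unusedSectionVars false
set_option linter.unusedVariables false

namespace Pool.Agent.MVC

open Set Ax FirstOrder Pool.Agent.Helper6.Str Pool.Agent.Helper5.DU

private theorem KPF_v1 (a : Fin 1 → ℕ) : ![a 0] = a := by
  funext i
  fin_cases i
  rfl

private theorem KPF_v2 (a : Fin 2 → ℕ) : ![a 0, a 1] = a := by
  funext i
  fin_cases i <;> rfl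

private theorem KPF_v0 (a : Fin 0 → ℕ) : ![] = a := by
  funext i
  exact i.elim0

private theorem KPF_iso {R : Type} (S S' : (LMod R).Structure ℕ)
    (e : @FirstOrder.Language.Equiv (LMod R) ℕ ℕ S S') :
    Pool.Agent.Helper6.Str.RelIso (grph S) (grph S')
      (@FirstOrder.Language.Equiv.toEquiv (LMod R) ℕ ℕ S S' e) := by
  intro n r v
  set e' := @FirstOrder.Language.Equiv.toEquiv (LMod R) ℕ ℕ S S' e with he'
  have hf : ∀ (k : ℕ) (F : (LMod R).Functions k) (a : Fin k → ℕ),
      e' (S.funMap F a) = S'.funMap F (e' ∘ a) := fun k F a => @FirstOrder.Language.Equiv.map_fun' (LMod R) ℕ ℕ S S' e k F a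
  cases r with
  | zero =>
    show S.funMap (ModFn.zero : (LMod R).Functions 0) ![] = v 0 ↔
      S'.funMap (ModFn.zero : (LMod R).Functions 0) ![] = e' (v 0)
    rw [← e'.apply_eq_iff_eq, hf]
    rw [← KPF_v0 (e' ∘ ![])]
  | smul r =>
    show S.funMap (ModFn.smul r : (LMod R).Functions 1) ![v 0] = v 1 ↔
      S'.funMap (ModFn.smul r : (LMod R).Functions 1) ![e' (v 0)] = e' (v 1)
    rw [← e'.apply_eq_iff_eq, hf]
    have : (e' ∘ ![v 0]) = ![e' (v 0)] := by
      funext i
      fin_cases i
      rfl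
    rw [this]
  | add =>
    show S.funMap (ModFn.add : (LMod R).Functions 2) ![v 0, v 1] = v 2 ↔
      S'.funMap (ModFn.add : (LMod R).Functions 2) ![e' (v 0), e' (v 1)] =
        e' (v 2)
    rw [← e'.apply_eq_iff_eq, hf]
    have : (e' ∘ ![v 0, v 1]) = ![e' (v 0), e' (v 1)] := by
      funext i
      fin_cases i <;> rfl
    rw [this]

theorem thm_KPF : St_KPF := by
  rintro R _ _ T ⟨f, h1, h2, h3⟩
  choose S hS hfS using h1
  refine ⟨S, hS, ?_, ?_⟩
  · rintro x y ⟨e⟩
    refine h2 x y ⟨@FirstOrder.Language.Equiv.toEquiv (LMod R) ℕ ℕ (S x) (S y) e, ?_⟩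
    rw [hfS x, hfS y]
    exact KPF_iso (S x) (S y) e
  · intro n F a b
    cases F with
    | zero =>
      have h := h3 1 (ModRel.zero : (LR R).Relations 1) ![b]
      refine (iff_of_eq ?_).mp h
      congr 1
      ext x
      rw [mem_ofPred_eq, mem_ofPred_eq, hfS x]
      show (S x).funMap (ModFn.zero : (LMod R).Functions 0) ![] = b ↔ _
      rw [KPF_v0 a]
    | smul r =>
      have h := h3 2 (ModRel.smul r : (LR R).Relations 2) ![a 0, b]
      refine (iff_of_eq ?_).mp h
      congr 1
      ext x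
      rw [mem_ofPred_eq, mem_ofPred_eq, hfS x]
      show (S x).funMap (ModFn.smul r : (LMod R).Functions 1) ![a 0] = b ↔ _
      rw [KPF_v1 a]
    | add =>
      have h := h3 3 (ModRel.add : (LR R).Relations 3) ![a 0, a 1, b]
      refine (iff_of_eq ?_).mp h
      congr 1
      ext x
      rw [mem_ofPred_eq, mem_ofPred_eq, hfS x]
      show (S x).funMap (ModFn.add : (LMod R).Functions 2) ![a 0, a 1] = b ↔ _
      rw [KPF_v2 a]

end Pool.Agent.MVC
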