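import Pool.Agent.MVC.St

/-!
# Level-one formulas and maps from the honest module
-/

set_option autoImplicit false

namespace Pool.Agent.MVC

theorem thm_L1N (h : St_EX0) : St_L1N := by
  intro R _ _ X ι _ V N M g x hN hM
  constructor
  · rintro ⟨t, ht⟩
    obtain ⟨f, hf⟩ := h R X (ι ⊕ Fin V.1) V.2 N M g (Sum.elim x t) hN hM ht
    exact ⟨f, fun i => hf (Sum.inl i)⟩
  · rintro ⟨f, hf⟩
    refine ⟨fun j => f (g (Sum.inr j)), ?_⟩
    have h1 : Re V.2 M (f ∘ g) := hN.sat.map f
    have h2 : (f ∘ g : ι ⊕ Fin V.1 → M) = Sum.elim x (fun j => f (g (Sum.inr j))) := by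
      funext i
      cases i with
      | inl i => exact hf i
      | inr j => rfl
    rw [h2] at h1
    exact h1

end Pool.Agent.MVC
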