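import Pool.Agent.MVC.St

/-!
# Vaught's conjecture for modules: the pigeonhole principle with Baire category (4.3)
-/

set_option autoImplicit false
set_option linter.unusedSectionVars false
set_option linter.unusedVariables false

namespace Pool.Agent.MVC

open Set Ax

private theorem PIG_basic (U : Set (ℕ → ℕ)) (hU : IsOpen U) (s : ℕ → ℕ) (hs : s ∈ U) :
    ∃ m : ℕ, cyl s m ⊆ U := by
  obtain ⟨V, hV, hsV, hVU⟩ :=
    (PiNat.isTopologicalBasis_cylinders (fun _ : ℕ => ℕ)).exists_subset_of_mem_open hs hU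
  obtain ⟨x, n, rfl⟩ := hV
  refine ⟨n, fun y hy => hVU ?_⟩
  rw [PiNat.mem_cylinder_iff] at hsV ⊢
  intro i hi
  have h1 : y i = s i := hy i hi
  exact h1.trans (hsV i hi)

private theorem PIG_open (s : ℕ → ℕ) (m : ℕ) : IsOpen (cyl s m) :=
  PiNat.isOpen_cylinder (fun _ : ℕ => ℕ) s m

/-- a set which is not meagre is not meagre in each open subset of some cylinder -/
private theorem PIG_loc (E : Set (ℕ → ℕ)) (hE : ¬ IsMeagre E) : ∃ (s : ℕ → ℕ) (m : ℕ),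
    ∀ U : Set (ℕ → ℕ), IsOpen U → U.Nonempty → U ⊆ cyl s m → ¬ IsMeagre (E ∩ U) := by
  classical
  let 𝒰 : Set (Set (ℕ → ℕ)) := {U | IsOpen U ∧ IsMeagre (E ∩ U)}
  obtain ⟨T, hTc, hTs, hTu⟩ := TopologicalSpace.isOpen_sUnion_countable 𝒰 fun U hU => hU.1
  have hmE : IsMeagre (E ∩ ⋃₀ T) := by
    rw [sUnion_eq_biUnion, inter_iUnion₂]
    exact isMeagre_biUnion hTc fun U hU => (hTs hU).2
  have hG : IsOpen (⋃₀ 𝒰) := isOpen_sUnion fun U hU => hU.1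
  have hnd : ¬ Dense (⋃₀ 𝒰) := by
    intro hd
    apply hE
    have h1 : IsMeagre (⋃₀ 𝒰)ᶜ := by
      have h2 : (⋃₀ 𝒰) ∈ residual (ℕ → ℕ) := residual_of_dense_open hG hd
      rw [IsMeagre, compl_compl]
      exact h2
    refine (hmE.union h1).mono fun x hx => ?_
    by_cases h : x ∈ ⋃₀ 𝒰
    · exact Or.inl ⟨hx, by rw [hTu]; exact h⟩
    · exact Or.inr h
  rw [dense_iff_inter_open] at hnd
  push Not at hnd
  obtain ⟨V, hV, ⟨s, hs⟩, hVe⟩ := hnd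
  obtain ⟨m, hm⟩ := PIG_basic V hV s hs
  refine ⟨s, m, fun U hU hUn hUs hUm => ?_⟩
  obtain ⟨x, hx⟩ := hUn
  have h1 : x ∈ V ∩ ⋃₀ 𝒰 := ⟨hm (hUs hx), mem_sUnion.mpr ⟨U, ⟨hU, hUm⟩, hx⟩⟩
  rw [hVe] at h1
  exact h1

theorem thm_PIG (h : St_MSG) : St_PIG := by
  intro R _ _ X B hB D Λ hM hY hXM hXY ι κ _ _ x y
  obtain ⟨-, -, h3, h4⟩ := h R D Λ
  let f : (ℕ → ℕ) → Set (L1 R (ι ⊕ κ)) := fun σ => tp1 (R := R) (Λ.L σ)
    (Sum.elim (fun i => Λ.inM σ (x i)) (fun j => Λ.inY σ 0 (y j)))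
  have hc := hB.few (ι ⊕ κ)
  have hf : ∀ σ, f σ ∈ {τ : Set (L1 R (ι ⊕ κ)) | ∃ N : Md R, Countable N ∧ X.In N ∧
      ∃ x : (ι ⊕ κ) → N, tp1 N x = τ} := fun σ =>
    ⟨Λ.L σ, h4 hM hY σ, h3 X hXM hXY σ, _, rfl⟩
  have hex : ∃ τ, ¬ IsMeagre (f ⁻¹' {τ}) := by
    by_contra hcon
    push Not at hcon
    have h1 : IsMeagre (univ : Set (ℕ → ℕ)) := by
      refine (isMeagre_biUnion hc fun τ _ => hcon τ).mono fun σ _ => ?_
      exact mem_iUnion₂.mpr ⟨f σ, hf σ, rfl⟩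
    exact not_isMeagre_of_isOpen isOpen_univ ⟨fun _ => 0, trivial⟩ h1
  obtain ⟨τ, hτ⟩ := hex
  obtain ⟨s, m, hsm⟩ := PIG_loc _ hτ
  refine ⟨f ⁻¹' {τ}, s, m, fun σ hσ σ' hσ' => ?_, hsm⟩
  have e1 : f σ = τ := hσ
  have e2 : f σ' = τ := hσ'
  exact e1.trans e2.symm

end Pool.Agent.MVC
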