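import Pool.Agent.MVC.St2

/-!
# Vaught's conjecture for modules: representation (6.4)

The type `V'(x, t₀, y)` is generated by the formulas
`∃ t e, V_0(x, t₀) ∧ V_m(x, t) ∧ θ(t - t₀, e) ∧ ζ_m(y - e)`.
-/

set_option autoImplicit false
set_option linter.unusedSectionVars false
set_option linter.unusedVariables false

namespace Pool.Agent.MVC

open Set Ax

private theorem rep_le {R : Type} [Ring R] {ι : Type} {X : Ax R} {φ : ℕ → PP R ι}
    (h : ∀ m, X.Le (φ (m + 1)) (φ m)) {a b : ℕ} (hab : a ≤ b) : X.Le (φ b) (φ a) := by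
  induction hab with
  | refl => exact Le.refl _
  | step _ ih => exact Le.trans (h _) ih

private theorem rep_fin {R : Type} [Ring R] {ι κ : Type} {X : Ax R} {V : Set (PP R (ι ⊕ κ))}
    {φ : ℕ → PP R (ι ⊕ κ)} (h : ∀ m, X.Le (φ (m + 1)) (φ m))
    (h' : ∀ ψ, X.Ent V ψ → ∃ m, X.Le (φ m) ψ) (s : Finset (PP R κ)) (hs : ↑s ⊆ zer '' V) :
    ∃ m, ∀ (M : Type) [AddCommGroup M] [Module R M], X.In M → ∀ t : κ → M,
      Sat (φ m) M (Sum.elim 0 t) → ∀ ψ ∈ s, Sat ψ M t := by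
  classical
  induction s using Finset.induction_on with
  | empty => exact ⟨0, fun M _ _ _ t _ ψ hψ => absurd hψ (Finset.notMem_empty ψ)⟩
  | insert ψ s hψ ih =>
    obtain ⟨m1, h1⟩ := ih (fun χ hχ => hs (Finset.mem_coe.mpr (Finset.mem_insert_of_mem hχ)))
    obtain ⟨ρ, hρ, hρ'⟩ := hs (Finset.mem_coe.mpr (Finset.mem_insert_self ψ s))
    obtain ⟨m2, h2⟩ := h' ρ (ent_of_mem hρ)
    refine ⟨max m1 m2, fun M _ _ hM t ht χ hχ => ?_⟩
    rcases Finset.mem_insert.mp hχ with h3 | hχ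
    · rw [h3, ← hρ', sat_zer]
      exact h2 M hM _ (rep_le h (le_max_right m1 m2) M hM _ ht)
    · exact h1 M hM t (rep_le h (le_max_left m1 m2) M hM _ ht) χ hχ

private theorem rep_chain {R : Type} [Ring R] [Countable R] {X : Ax R} {n k l : ℕ}
    {V : Set (PP R (Fin n ⊕ Fin k))} {N : Md R} {g : Fin k → N} {Z : Set (PP R (Fin l))}
    (hN : X.Honest (zer '' V) N g) (b : Fin l → N) (hb : Re Z N b) :
    ∃ (θ : PP R (Fin k ⊕ Fin l)) (A : ℕ → PP R (Fin n ⊕ Fin k)) (ζ : ℕ → PP R (Fin l)),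
      Sat θ N (Sum.elim g b) ∧
      (∀ m, X.Ent V (A m)) ∧ (∀ m, X.Le (A (m + 1)) (A m)) ∧
      (∀ ψ, X.Ent V ψ → ∃ m, X.Le (A m) ψ) ∧
      (∀ m, X.Ent Z (ζ m)) ∧ (∀ m, X.Le (ζ (m + 1)) (ζ m)) ∧
      (∀ ψ, X.Ent Z ψ → ∃ m, X.Le (ζ m) ψ) ∧
      (∀ (M : Type) [AddCommGroup M] [Module R M], X.In M → ∀ t : Fin k → M,
        Sat (A 0) M (Sum.elim 0 t) → ∃ y : Fin l → M, Sat θ M (Sum.elim t y)) ∧
      (∀ m, ∀ (M : Type) [AddCommGroup M] [Module R M], X.In M → ∀ (t : Fin k → M)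
        (y : Fin l → M), Sat (A m) M (Sum.elim 0 t) → Sat θ M (Sum.elim t y) → Sat (ζ m) M y) := by
  obtain ⟨φ, a1, a2, a3⟩ := exists_chain (X := X) V
  obtain ⟨ζ, b1, b2, b3⟩ := exists_chain (X := X) Z
  obtain ⟨θ, h1, h2⟩ := hN.gen l b
  obtain ⟨ρ, hρ⟩ := (isPP_sat (R := R) θ).ex
  obtain ⟨s0, hs0, h3⟩ := hN.gen0 ρ ((hρ N g).mp ⟨b, h1⟩)
  obtain ⟨m0, h4⟩ := rep_fin (X := X) a2 a3 s0 hs0
  have h5 : ∀ m, ∃ p, ∀ (M : Type) [AddCommGroup M] [Module R M], X.In M → ∀ (t : Fin k → M)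
      (y : Fin l → M), Sat (φ p) M (Sum.elim 0 t) → Sat θ M (Sum.elim t y) → Sat (ζ m) M y := by
    intro m
    have h6 : Sat (ren Sum.inr (ζ m)) N (Sum.elim g b) := by
      rw [sat_ren]
      exact Ent.sat (b1 m) hN.mem hb
    obtain ⟨s, hs, h7⟩ := h2 _ h6
    obtain ⟨p, hp⟩ := rep_fin (X := X) a2 a3 s hs
    refine ⟨p, fun M _ _ hM t y ht hy => ?_⟩
    have h8 := h7 M hM t y (hp M hM t ht) hy
    rw [sat_ren] at h8
    exact h8
  choose p hp using h5
  let q : ℕ → ℕ := fun m => m0 + m + ∑ i ∈ Finset.range (m + 1), p i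
  have q1 : ∀ m, q m ≤ q (m + 1) := by
    intro m
    show m0 + m + ∑ i ∈ Finset.range (m + 1), p i ≤
      m0 + (m + 1) + ∑ i ∈ Finset.range (m + 1 + 1), p i
    rw [Finset.sum_range_succ _ (m + 1)]
    omega
  have q2 : ∀ m, p m ≤ q m := by
    intro m
    show p m ≤ m0 + m + ∑ i ∈ Finset.range (m + 1), p i
    rw [Finset.sum_range_succ]
    omega
  have q3 : ∀ m, m ≤ q m := by
    intro m
    show m ≤ m0 + m + ∑ i ∈ Finset.range (m + 1), p i
    omega
  have q4 : m0 ≤ q 0 := by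
    show m0 ≤ m0 + 0 + ∑ i ∈ Finset.range (0 + 1), p i
    omega
  refine ⟨θ, fun m => φ (q m), ζ, h1, fun m => a1 _, fun m => rep_le a2 (q1 m), fun ψ hψ => ?_,
    b1, b2, b3, fun M _ _ hM t ht => ?_, fun m M _ _ hM t y ht hy => ?_⟩
  · obtain ⟨m, hm⟩ := a3 ψ hψ
    exact ⟨m, Le.trans (rep_le a2 (q3 m)) hm⟩
  · refine (hρ M t).mpr (h3 M hM t (h4 M hM t ?_))
    exact rep_le a2 q4 M hM _ ht
  · exact hp m M hM t y (rep_le a2 (q2 m) M hM _ ht) hy

/-- the relation `V'_m(x, t₀, y)` of 6.4 -/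
private def Q6 {R : Type} [Ring R] {n k l : ℕ} (A0 Am : PP R (Fin n ⊕ Fin k))
    (θ : PP R (Fin k ⊕ Fin l)) (ζ : PP R (Fin l)) (M : Type) [AddCommGroup M] [Module R M]
    (x : Fin n → M) (t0 : Fin k → M) (y : Fin l → M) : Prop :=
  Sat A0 M (Sum.elim x t0) ∧ ∃ (t : Fin k → M) (e : Fin l → M), Sat Am M (Sum.elim x t) ∧
    Sat θ M (Sum.elim (t - t0) e) ∧ Sat ζ M (y - e)

private theorem exists_q6 {R : Type} [Ring R] {n k l : ℕ} (A0 Am : PP R (Fin n ⊕ Fin k))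
    (θ : PP R (Fin k ⊕ Fin l)) (ζ : PP R (Fin l)) :
    ∃ F : PP R (Fin n ⊕ Fin (k + l)), ∀ (M : Type) [AddCommGroup M] [Module R M]
      (x : Fin n → M) (w : Fin (k + l) → M), Sat F M (Sum.elim x w) ↔
        Q6 A0 Am θ ζ M x (fun i => w (Fin.castAdd l i)) (fun j => w (Fin.natAdd k j)) := by
  have e1 := (isPP_sat (R := R) A0).comap (Sum.map id (Fin.castAdd l) :
    Fin n ⊕ Fin k → Fin n ⊕ Fin (k + l))
  have e2 := (isPP_sat (R := R) Am).comap (Sum.elim (fun i => Sum.inl (Sum.inl i))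
    (fun i => Sum.inr (Sum.inl i)) : Fin n ⊕ Fin k → (Fin n ⊕ Fin (k + l)) ⊕ (Fin k ⊕ Fin l))
  have e3 := (isPP_sat (R := R) θ).subst (Sum.elim
    (fun i => Finsupp.single (Sum.inr (Sum.inl i)) 1 -
      Finsupp.single (Sum.inl (Sum.inr (Fin.castAdd l i))) 1)
    (fun j => Finsupp.single (Sum.inr (Sum.inr j)) 1) :
      Fin k ⊕ Fin l → (((Fin n ⊕ Fin (k + l)) ⊕ (Fin k ⊕ Fin l)) →₀ R))
  have e4 := (isPP_sat (R := R) ζ).subst (fun j =>
    Finsupp.single (Sum.inl (Sum.inr (Fin.natAdd k j)) :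
      (Fin n ⊕ Fin (k + l)) ⊕ (Fin k ⊕ Fin l)) (1 : R) - Finsupp.single (Sum.inr (Sum.inr j)) 1)
  obtain ⟨F, hF⟩ := e1.and ((e2.and (e3.and e4)).ex)
  refine ⟨F, fun M _ _ x w => (hF M _).symm.trans ?_⟩
  unfold Q6
  refine and_congr (iff_of_eq ?_) ⟨?_, ?_⟩
  · congr 1
    funext i
    cases i <;> rfl
  · rintro ⟨z, h1, h2, h3⟩
    refine ⟨fun i => z (Sum.inl i), fun j => z (Sum.inr j), ?_, ?_, ?_⟩
    · refine (iff_of_eq ?_).mp h1
      congr 1
      funext i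
      cases i <;> rfl
    · refine (iff_of_eq ?_).mp h2
      congr 1
      funext i
      cases i <;> simp
    · refine (iff_of_eq ?_).mp h3
      congr 1
      funext i
      simp
  · rintro ⟨t, e, h1, h2, h3⟩
    refine ⟨Sum.elim t e, ?_, ?_, ?_⟩
    · refine (iff_of_eq ?_).mp h1
      congr 1
      funext i
      cases i <;> rfl
    · refine (iff_of_eq ?_).mp h2
      congr 1
      funext i
      cases i <;> simp
    · refine (iff_of_eq ?_).mp h3
      congr 1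
      funext i
      simp

/-- the relation `V_0(0, t) ∧ θ(-t, y)` -/
private theorem exists_chi6 {R : Type} [Ring R] {n k l : ℕ} (A0 : PP R (Fin n ⊕ Fin k))
    (θ : PP R (Fin k ⊕ Fin l)) :
    ∃ F : PP R (Fin (k + l)), ∀ (M : Type) [AddCommGroup M] [Module R M]
      (w : Fin (k + l) → M), Sat F M w ↔ (Sat A0 M (Sum.elim 0 (fun i => w (Fin.castAdd l i))) ∧
        Sat θ M (Sum.elim (-(fun i => w (Fin.castAdd l i))) (fun j => w (Fin.natAdd k j)))) := by
  have e1 := (isPP_sat (R := R) (zer A0)).comap (Fin.castAdd l)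
  have e3 := (isPP_sat (R := R) θ).subst (Sum.elim
    (fun i => - Finsupp.single (Fin.castAdd l i) 1)
    (fun j => Finsupp.single (Fin.natAdd k j) 1) : Fin k ⊕ Fin l → (Fin (k + l) →₀ R))
  obtain ⟨F, hF⟩ := e1.and e3
  refine ⟨F, fun M _ _ w => (hF M _).symm.trans ?_⟩
  refine and_congr ?_ (iff_of_eq ?_)
  · rw [sat_zer]
    rfl
  · congr 1
    funext i
    cases i <;> simp

private theorem rep_elim0 {M ι κ : Type} [AddCommGroup M] :
    (Sum.elim (0 : ι → M) (0 : κ → M)) = 0 := by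
  funext i
  cases i <;> rfl

/-- solutions up to the formulas `V_m(0, ·)` give one solution -/
private theorem rep_core {R : Type} [Ring R] {X : Ax R} {n k l : ℕ} {Z : Set (PP R (Fin l))}
    {θ : PP R (Fin k ⊕ Fin l)} {A : ℕ → PP R (Fin n ⊕ Fin k)} {ζ : ℕ → PP R (Fin l)}
    (a2 : ∀ m, X.Le (A (m + 1)) (A m)) (b3 : ∀ ψ, X.Ent Z ψ → ∃ m, X.Le (ζ m) ψ)
    (c1 : ∀ (M : Type) [AddCommGroup M] [Module R M], X.In M → ∀ t : Fin k → M,
      Sat (A 0) M (Sum.elim 0 t) → ∃ y : Fin l → M, Sat θ M (Sum.elim t y))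
    (c2 : ∀ m, ∀ (M : Type) [AddCommGroup M] [Module R M], X.In M → ∀ (t : Fin k → M)
      (y : Fin l → M), Sat (A m) M (Sum.elim 0 t) → Sat θ M (Sum.elim t y) → Sat (ζ m) M y)
    (M : Type) [AddCommGroup M] [Module R M] (hM : X.In M) (D : Fin k → M) (Y : Fin l → M)
    (h : ∀ m, ∃ (r : Fin k → M) (e : Fin l → M), Sat (A m) M (Sum.elim 0 r) ∧
      Sat θ M (Sum.elim (D + r) e) ∧ Sat (ζ m) M (Y - e)) :
    ∃ e : Fin l → M, Sat θ M (Sum.elim D e) ∧ Re Z M (Y - e) := by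
  have h1 : ∀ m, ∃ e : Fin l → M, Sat θ M (Sum.elim D e) ∧ Sat (ζ m) M (Y - e) := by
    intro m
    obtain ⟨r, e, h2, h3, h4⟩ := h m
    obtain ⟨q, hq⟩ := c1 M hM r (rep_le a2 (Nat.zero_le m) M hM _ h2)
    refine ⟨e - q, ?_, ?_⟩
    · have h5 := h3.sub hq
      rw [← elim_sub, add_sub_cancel_right] at h5
      exact h5
    · have h5 := h4.add (c2 m M hM r q h2 hq)
      have h6 : Y - e + q = Y - (e - q) := by abel
      rw [h6] at h5
      exact h5
  obtain ⟨e0, h2, h3⟩ := h1 0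
  refine ⟨e0, h2, fun ψ hψ => ?_⟩
  obtain ⟨m, hm⟩ := b3 ψ (ent_of_mem hψ)
  refine hm M hM _ ?_
  obtain ⟨e, h4, h5⟩ := h1 m
  have h6 := h4.sub h2
  rw [← elim_sub, sub_self] at h6
  have h7 := c2 m M hM 0 (e - e0) (by
    rw [rep_elim0]
    exact Sat.zero _) h6
  have h8 := h5.add h7
  have h9 : Y - e + (e - e0) = Y - e0 := by abel
  rw [h9] at h8
  exact h8

private theorem rep_over {R : Type} [Ring R] {X : Ax R} {n k l : ℕ} {S : Set (PP R (Fin n))}
    {V : Set (PP R (Fin n ⊕ Fin k))}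
    {θ : PP R (Fin k ⊕ Fin l)} {A : ℕ → PP R (Fin n ⊕ Fin k)} {ζ : ℕ → PP R (Fin l)}
    (hS : X.Over S V) (a1 : ∀ m, X.Ent V (A m))
    (a2 : ∀ m, X.Le (A (m + 1)) (A m)) (a3 : ∀ ψ, X.Ent V ψ → ∃ m, X.Le (A m) ψ)
    (b2 : ∀ m, X.Le (ζ (m + 1)) (ζ m)) (F : ℕ → PP R (Fin n ⊕ Fin (k + l)))
    (hF : ∀ m (M : Type) [AddCommGroup M] [Module R M] (x : Fin n → M) (w : Fin (k + l) → M),
      Sat (F m) M (Sum.elim x w) ↔ Q6 (A 0) (A m) θ (ζ m) M x (fun i => w (Fin.castAdd l i))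
        (fun j => w (Fin.natAdd k j))) : X.Over S (Set.range F) := by
  classical
  constructor
  · intro φ hφ
    obtain ⟨m, hm⟩ := a3 _ (hS.1 φ hφ)
    refine Ent.le (ent_of_mem (mem_range_self m)) ?_
    intro M _ _ hM z hz
    rw [← Sum.elim_comp_inl_inr z, hF] at hz
    obtain ⟨-, t, e, h1, -⟩ := hz
    have h2 := hm M hM _ h1
    rw [sat_ren] at h2 ⊢
    exact h2
  · intro s hs
    have f2 : ∀ m, X.Le (F (m + 1)) (F m) := by
      intro m M _ _ hM z hz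
      rw [← Sum.elim_comp_inl_inr z, hF] at hz ⊢
      obtain ⟨h0, t, e, h1, h2, h3⟩ := hz
      exact ⟨h0, t, e, a2 m M hM _ h1, h2, b2 m M hM _ h3⟩
    have h1 : ∃ b, ∀ φ ∈ s, X.Le (F b) φ := by
      induction s using Finset.induction_on with
      | empty => exact ⟨0, fun ψ hψ => absurd hψ (Finset.notMem_empty ψ)⟩
      | insert ψ s hψ ih =>
        obtain ⟨m1, h1⟩ := ih (fun χ hχ => hs (Finset.mem_coe.mpr (Finset.mem_insert_of_mem hχ)))
        obtain ⟨m2, h2⟩ := hs (Finset.mem_coe.mpr (Finset.mem_insert_self ψ s))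
        refine ⟨max m1 m2, fun χ hχ => ?_⟩
        rcases Finset.mem_insert.mp hχ with h3 | hχ
        · rw [h3, ← h2]
          exact rep_le f2 (le_max_right m1 m2)
        · exact Le.trans (rep_le f2 (le_max_left m1 m2)) (h1 χ hχ)
    obtain ⟨b, hb⟩ := h1
    obtain ⟨sV, hsV, h2⟩ := a1 b
    obtain ⟨s', hs', h3⟩ := hS.2 sV hsV
    refine ⟨s', hs', fun M _ _ hM x hx => ?_⟩
    obtain ⟨t, ht⟩ := h3 M hM x hx
    have h4 := h2 M hM _ ht
    refine ⟨Fin.append t 0, fun φ hφ => hb φ hφ M hM _ ?_⟩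
    rw [hF]
    have h5 : (fun i => Fin.append t (0 : Fin l → M) (Fin.castAdd l i)) = t := by
      funext i
      exact Fin.append_left _ _ _
    have h6 : (fun j => Fin.append t (0 : Fin l → M) (Fin.natAdd k j)) = 0 := by
      funext i
      exact Fin.append_right _ _ _
    rw [h5, h6]
    refine ⟨rep_le a2 (Nat.zero_le b) M hM _ h4, t, 0, h4, ?_, ?_⟩
    · rw [sub_self, rep_elim0]
      exact Sat.zero _
    · rw [sub_self]
      exact Sat.zero _

theorem thm_REP (h1 : St_HEX) (h2 : St_EX0) (h3 : St_EXT) (h4 : St_NUZ) (h5 : St_NUP)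
    (h6 : St_MIS) (h7 : St_MIT) (h8 : St_EXZ) : St_REP := by
  intro R _ _ X n k l S V N g Z Nz gz v hS hN hZ
  obtain ⟨θ, A, ζ, hθ, a1, a2, a3, b1, b2, b3, c1, c2⟩ :=
    rep_chain hN (v ∘ gz) (hZ.sat.map v)
  choose F hF using fun m => exists_q6 (A 0) (A m) θ (ζ m)
  obtain ⟨N', g', hN'⟩ := h1 R X (Fin (k + l)) (zer '' Set.range F)
  -- the principal part of `Z`
  have hP : ∀ (M : Type) [AddCommGroup M] [Module R M] (y : Fin l → M),
      Sat θ M (Sum.elim 0 y) → X.P Z M y := by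
    intro M _ _ y hy
    refine ⟨zer θ, fun ψ hψ K _ _ hK z hz => ?_, (sat_zer θ y).mpr hy⟩
    obtain ⟨m, hm⟩ := b3 ψ (ent_of_mem hψ)
    rw [sat_zer] at hz
    exact hm K hK z (c2 m K hK 0 z (by
      rw [rep_elim0]
      exact Sat.zero _) hz)
  -- the element `e₀` of `N'`
  have k1 : ∀ m, Q6 (A 0) (A m) θ (ζ m) N' 0 (fun i => g' (Fin.castAdd l i))
      (fun j => g' (Fin.natAdd k j)) := by
    intro m
    rw [← hF, ← sat_zer]
    exact hN'.sat _ (mem_image_of_mem _ (mem_range_self m))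
  obtain ⟨e0, k2, k3⟩ := rep_core a2 b3 c1 c2 N' hN'.mem (-(fun i => g' (Fin.castAdd l i)))
    (fun j => g' (Fin.natAdd k j)) (fun m => by
      obtain ⟨-, t, e, p1, p2, p3⟩ := k1 m
      refine ⟨t, e, p1, ?_, p3⟩
      rw [neg_add_eq_sub]
      exact p2)
  obtain ⟨i, hi⟩ := h2 R X (Fin l) Z Nz N' gz _ hZ hN'.mem k3
  -- the map `j`
  have k4 : Re (zer '' Set.range F) Nz (Fin.append (0 : Fin k → Nz) gz) := by
    rintro _ ⟨_, ⟨m, rfl⟩, rfl⟩
    rw [sat_zer, hF]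
    have p5 : (fun i => Fin.append (0 : Fin k → Nz) gz (Fin.castAdd l i)) = 0 := by
      funext i
      exact Fin.append_left _ _ _
    have p6 : (fun j => Fin.append (0 : Fin k → Nz) gz (Fin.natAdd k j)) = gz := by
      funext i
      exact Fin.append_right _ _ _
    rw [p5, p6]
    refine ⟨?_, 0, 0, ?_, ?_, ?_⟩
    · rw [rep_elim0]
      exact Sat.zero _
    · rw [rep_elim0]
      exact Sat.zero _
    · rw [sub_self, rep_elim0]
      exact Sat.zero _
    · rw [sub_zero]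
      exact Ent.sat (b1 m) hZ.mem hZ.sat
  obtain ⟨j, hj⟩ := h2 R X (Fin (k + l)) (zer '' Set.range F) N' Nz g' _ hN' hZ.mem k4
  have hj1 : ∀ c, j (g' (Fin.castAdd l c)) = 0 := fun c => by
    rw [hj, Fin.append_left]
    rfl
  have hj2 : ∀ c, j (g' (Fin.natAdd k c)) = gz c := fun c => by
    rw [hj, Fin.append_right]
  refine ⟨k + l, Set.range F, N', g', i, j, rep_over hS a1 a2 a3 b2 F (fun m => hF m), hN',
    ?_, ?_, ?_⟩
  · -- `j i = 1`
    refine h5 R X (Fin l) Z Nz Nz gz _ hZ (hP _ _ ?_)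
    have p1 := (k2.map j).neg
    refine (iff_of_eq ?_).mp p1
    congr 1
    funext c
    cases c with
    | inl c =>
      show -j (-g' (Fin.castAdd l c)) = 0
      rw [map_neg, hj1, neg_zero, neg_zero]
    | inr c =>
      show -j (e0 c) = j (i (gz c)) - gz c
      rw [hi]
      show -j (e0 c) = j (g' (Fin.natAdd k c) - e0 c) - gz c
      rw [map_sub, hj2]
      abel
  · -- `i j = 1`
    obtain ⟨χ, hχ⟩ := exists_chi6 (A 0) θ
    refine h5 R X (Fin (k + l)) (zer '' Set.range F) N' N' g' _ hN' ⟨χ, ?_, ?_⟩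
    · rintro _ ⟨_, ⟨m, rfl⟩, rfl⟩ K _ _ hK w hw
      rw [hχ] at hw
      rw [sat_zer, hF]
      refine ⟨hw.1, 0, fun j => w (Fin.natAdd k j), ?_, ?_, ?_⟩
      · rw [rep_elim0]
        exact Sat.zero _
      · rw [zero_sub]
        exact hw.2
      · rw [sub_self]
        exact Sat.zero _
    · rw [hχ]
      have p1 : (fun c => (⇑(i ∘ₗ j - (LinearMap.id : N' →ₗ[R] N')) ∘ g') (Fin.castAdd l c)) =
          -(fun c => g' (Fin.castAdd l c)) := by
        funext c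
        show i (j (g' (Fin.castAdd l c))) - g' (Fin.castAdd l c) = -g' (Fin.castAdd l c)
        rw [hj1, map_zero, zero_sub]
      have p2 : (fun c => (⇑(i ∘ₗ j - (LinearMap.id : N' →ₗ[R] N')) ∘ g') (Fin.natAdd k c)) =
          -e0 := by
        funext c
        show i (j (g' (Fin.natAdd k c))) - g' (Fin.natAdd k c) = -e0 c
        rw [hj2, hi]
        show (g' (Fin.natAdd k c) - e0 c) - g' (Fin.natAdd k c) = -e0 c
        abel
      rw [p1, p2]
      constructor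
      · have p3 := (k1 0).1.neg
        rw [← elim_neg, neg_zero] at p3
        exact p3
      · have p3 := k2.neg
        rw [← elim_neg] at p3
        exact p3
  · -- the two elements
    rintro M hM a ha e e' ⟨T, f, hT, hf, rfl⟩ ⟨T', f', hT', hf', rfl⟩
    have hMI := (h6 R M).2 X hM
    have q1 : ∀ m, Q6 (A 0) (A m) θ (ζ m) (MI M) (fun i => MI.cst M (a i))
        (fun i => T' (Fin.castAdd l i)) (fun j => T' (Fin.natAdd k j)) := by
      intro m
      rw [← hF]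
      exact hT' _ (mem_range_self m)
    obtain ⟨e1, q2, q3⟩ := rep_core a2 b3 c1 c2 (MI M) hMI (T - fun i => T' (Fin.castAdd l i))
      (fun j => T' (Fin.natAdd k j)) (fun m => by
        obtain ⟨-, t, e, p1, p2, p3⟩ := q1 m
        refine ⟨t - T, e, ?_, ?_, p3⟩
        · have p4 := p1.sub (Ent.sat (a1 m) hMI hT)
          rw [← elim_sub, sub_self] at p4
          exact p4
        · have p5 : (T - fun i => T' (Fin.castAdd l i)) + (t - T) =
              t - fun i => T' (Fin.castAdd l i) := by abel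
          rw [p5]
          exact p2)
    obtain ⟨h, hh⟩ := h2 R X (Fin l) Z Nz (MI M) gz _ hZ hMI q3.neg
    have q4 : X.Null (f ∘ₗ v - f' ∘ₗ i - (MI.sh M ∘ₗ h - h)) := by
      refine h5 R X (Fin l) Z Nz (MI M) gz _ hZ (hP _ _ ?_)
      have p1 := hθ.map f
      have p2 := k2.map f'
      have p3 := (q2.map (MI.sh M)).sub q2
      have p4 := (p1.add p2).sub p3
      refine (iff_of_eq ?_).mp p4
      congr 1
      funext c
      cases c with
      | inl c =>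
        show f (g c) + f' (-g' (Fin.castAdd l c)) -
          (MI.sh M (T c - T' (Fin.castAdd l c)) - (T c - T' (Fin.castAdd l c))) = 0
        rw [map_neg, hf, hf', map_sub]
        abel
      | inr c =>
        show f (v (gz c)) + f' (e0 c) - (MI.sh M (e1 c) - e1 c) =
          f (v (gz c)) - f' (i (gz c)) - (MI.sh M (h (gz c)) - h (gz c))
        rw [hi, hh]
        show f (v (gz c)) + f' (e0 c) - (MI.sh M (e1 c) - e1 c) =
          f (v (gz c)) - f' (g' (Fin.natAdd k c) - e0 c) -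
            (MI.sh M (-(T' (Fin.natAdd k c) - e1 c)) - -(T' (Fin.natAdd k c) - e1 c))
        rw [map_sub f', hf', map_neg, map_sub (MI.sh M)]
        abel
    rw [exMap_mk, exMap_mk, ← sub_eq_zero, ← map_sub, exMk_eq_zero]
    refine ⟨h, _, q4, ?_⟩
    abel

end Pool.Agent.MVC
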