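import Pool.Agent.MVC.St

/-!
# MVC: lifting of the idempotents along the nil radical, local corners
-/

set_option autoImplicit false

namespace Pool.Agent.MVC

private theorem RID_prs {L : Type} [Ring L] (x : L) (n : ℕ) : prs (fun _ => x) n = x ^ n := by
  induction n with
  | zero => rw [pow_zero]; rfl
  | succ n ih => rw [pow_succ', ← ih]; rfl

/-- in a corner a unit modulo nilpotent elements -/
private theorem RID_unit {L : Type} [Ring L] {e j : L} (he : e * e = e) (hj : IsNilpotent j)
    (hej : e * j = j) (hje : j * e = j) :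
    ∃ y, y = e * y * e ∧ (e - j) * y = e ∧ y * (e - j) = e := by
  obtain ⟨u, hu⟩ := hj.isUnit_one_sub
  have h1 : ((u⁻¹ : Lˣ) : L) * (1 - j) = 1 := by rw [← hu]; exact u.inv_mul
  have h2 : (1 - j) * ((u⁻¹ : Lˣ) : L) = 1 := by rw [← hu]; exact u.mul_inv
  have h3 : (e - j) = (1 - j) * e := by rw [sub_mul, one_mul, hje]
  have h4 : (e - j) = e * (1 - j) := by rw [mul_sub, mul_one, hej]
  have h5 : e * (e - j) = e - j := by rw [mul_sub, he, hej]
  have h6 : (e - j) * e = e - j := by rw [sub_mul, he, hje]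
  refine ⟨e * ((u⁻¹ : Lˣ) : L) * e, ?_, ?_, ?_⟩
  · have h7 : e * (e * ((u⁻¹ : Lˣ) : L) * e) * e = (e * e) * ((u⁻¹ : Lˣ) : L) * (e * e) := by
      simp only [mul_assoc]
    rw [h7, he]
  · calc (e - j) * (e * ((u⁻¹ : Lˣ) : L) * e)
        = ((e - j) * e) * ((u⁻¹ : Lˣ) : L) * e := by simp only [mul_assoc]
      _ = e * ((1 - j) * ((u⁻¹ : Lˣ) : L)) * e := by rw [h6, h4]; simp only [mul_assoc]
      _ = e := by rw [h2, mul_one, he]
  · calc (e * ((u⁻¹ : Lˣ) : L) * e) * (e - j)
        = e * ((u⁻¹ : Lˣ) : L) * (e * (e - j)) := by simp only [mul_assoc]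
      _ = e * (((u⁻¹ : Lˣ) : L) * (1 - j)) * e := by rw [h5, h3]; simp only [mul_assoc]
      _ = e := by rw [h1, mul_one, he]

/-- 5.2 (c) -/
theorem thm_RID (h1 : St_RTN) (h2 : St_RSS) : St_RID := by
  intro L _ hL
  have hnil : ∀ x ∈ Ring.jacobson L, IsNilpotent x := by
    intro x hx
    obtain ⟨n, hn⟩ := h1 L hL (fun _ => x) (fun _ => hx)
    exact ⟨n, by rw [← RID_prs, hn]⟩
  obtain ⟨-, m, e', he', hmin⟩ := h2 L hL
  have hker : ∀ x ∈ RingHom.ker (Ideal.Quotient.mk (Ring.jacobson L)), IsNilpotent x := by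
    intro x hx
    exact hnil x (Ideal.Quotient.eq_zero_iff_mem.1 hx)
  obtain ⟨e, he, hee⟩ := CompleteOrthogonalIdempotents.lift_of_isNilpotent_ker
    (Ideal.Quotient.mk (Ring.jacobson L)) hker he' (fun i => by
      obtain ⟨x, hx⟩ := Ideal.Quotient.mk_surjective (e' i)
      exact ⟨x, hx⟩)
  refine ⟨m, e, he, ?_⟩
  intro i x hx
  set π := Ideal.Quotient.mk (Ring.jacobson L) with hπ
  have hei : π (e i) = e' i := congrFun hee i
  have hid : e i * e i = e i := (he.idem i)
  have hid' : e' i * e' i = e' i := (he'.idem i)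
  -- left inverses
  have key : ∀ x : L, x = e i * x * e i → π x ≠ 0 → ∃ z, z = e i * z * e i ∧ z * x = e i := by
    intro x hx hx0
    have hxl : e i * x = x := by
      conv_lhs => rw [hx]
      rw [← mul_assoc, ← mul_assoc, hid, ← hx]
    have hxr : x * e i = x := by
      conv_lhs => rw [hx]
      rw [mul_assoc, hid, ← hx]
    obtain ⟨y', hy'⟩ := hmin i (π x) hx0 (by
      conv_lhs => rw [hx]
      rw [map_mul, map_mul, hei])
    obtain ⟨y, rfl⟩ := Ideal.Quotient.mk_surjective y'
    set j : L := e i - e i * y * x with hj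
    have hjJ : j ∈ Ring.jacobson L := by
      rw [← Ideal.Quotient.eq_zero_iff_mem]
      have h3 : π y * π x = e' i := hy'
      change π j = 0
      rw [hj, map_sub, map_mul, map_mul, mul_assoc, h3, hei, hid', sub_self]
    have hej : e i * j = j := by
      rw [hj, mul_sub, hid, ← mul_assoc, ← mul_assoc, hid]
    have hje : j * e i = j := by
      rw [hj, sub_mul, hid, mul_assoc, hxr]
    obtain ⟨w, hw, -, hw2⟩ := RID_unit hid (hnil j hjJ) hej hje
    have h4 : e i - j = e i * y * x := by rw [hj]; abel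
    rw [h4] at hw2
    refine ⟨w * (e i * y * e i), ?_, ?_⟩
    · conv_lhs => rw [hw]
      simp only [mul_assoc, hid]
      rw [← mul_assoc (e i) (e i), hid]
    · calc w * (e i * y * e i) * x = w * (e i * y * (e i * x)) := by simp only [mul_assoc]
        _ = e i := by rw [hxl]; exact hw2
  by_cases hx0 : π x = 0
  · right
    have hxl : e i * x = x := by
      conv_lhs => rw [hx]
      rw [← mul_assoc, ← mul_assoc, hid, ← hx]
    have hxr : x * e i = x := by
      conv_lhs => rw [hx]
      rw [mul_assoc, hid, ← hx]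
    exact RID_unit hid (hnil x (Ideal.Quotient.eq_zero_iff_mem.1 hx0)) hxl hxr
  · left
    obtain ⟨z, hz, hzx⟩ := key x hx hx0
    have hxl : e i * x = x := by
      conv_lhs => rw [hx]
      rw [← mul_assoc, ← mul_assoc, hid, ← hx]
    have hz0 : π z ≠ 0 := by
      intro h
      apply hx0
      have h5 : π (e i) = 0 := by rw [← hzx, map_mul, h, zero_mul]
      rw [← hxl, map_mul, h5, zero_mul]
    obtain ⟨w, hw, hwz⟩ := key z hz hz0
    have hwr : w * e i = w := by
      conv_lhs => rw [hw]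
      rw [mul_assoc, hid, ← hw]
    have h6 : w = x := by
      calc w = w * (z * x) := by rw [hzx, hwr]
        _ = w * z * x := by rw [mul_assoc]
        _ = x := by rw [hwz, hxl]
    exact ⟨z, hz, by rw [← h6]; exact hwz, hzx⟩

end Pool.Agent.MVC
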