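import Pool.Agent.MVC.St4

/-!
# Vaught's conjecture for modules: the final statement (proof)
-/

set_option autoImplicit false
set_option linter.unusedSectionVars false
set_option linter.unusedVariables false

namespace Pool.Agent.MVC

open Set Ax FirstOrder

theorem Ax.Generic.prod {R : Type} [Ring R] {X : Ax R} {B N : Type} [AddCommGroup B] [Module R B]
    [AddCommGroup N] [Module R N] (h : X.Generic B) (hN : X.In N) : X.Generic (B × N) := by
  refine ⟨Ax.In.prod h.1 hN, fun n φ ψ hle => ?_⟩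
  obtain ⟨x, hx, hx'⟩ := h.2 n φ ψ hle
  refine ⟨fun i j => (x i j, 0), fun i => ?_, fun i j hij hs => ?_⟩
  · rw [sat_prod]
    exact ⟨hx i, Sat.zero φ⟩
  · rw [sat_prod] at hs
    exact hx' i j hij hs.1

theorem subsingleton_of_le {R : Type} [Ring R] {X : Ax R}
    (h : ∀ (φ ψ : PP R (Fin 1)), X.Le φ ψ) {M : Type} [AddCommGroup M] [Module R M]
    (hM : X.In M) : Subsingleton M := by
  obtain ⟨ψ, hψ⟩ := isPP_zero (R := R) (ι := Fin 1)
  obtain ⟨φ, hφ⟩ := isPP_true (R := R) (ι := Fin 1)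
  refine ⟨fun a b => ?_⟩
  have := (hψ M (fun _ => a - b)).2 (h φ ψ M hM _ ((hφ M _).1 trivial))
  exact sub_eq_zero.1 (congrFun this 0)

theorem ctblMod_of_trivial {R : Type} [Ring R] {X : Ax R} (T : (LMod R).Theory) (hT : ModTh T)
    (hin : ∀ (M : Type) [AddCommGroup M] [Module R M], Mods T M → X.In M)
    (h : ∀ (φ ψ : PP R (Fin 1)), X.Le φ ψ) : CtblMod T := by
  refine ⟨fun _ => ⟨fun _ _ => 0, fun {n} r => nomatch r⟩, fun S hS => ?_⟩
  obtain ⟨g, m, rfl⟩ := hT ℕ S hS
  have := @subsingleton_of_le R _ X h ℕ g m (@hin ℕ g m hS)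
  exact absurd (Subsingleton.elim (0 : ℕ) 1) (by decide)

/-- the second clause with definable classes instead of summands -/
def St_RSK : Prop := ∀ (R : Type) [Ring R] [Countable R] (T : (LMod R).Theory), ModTh T →
  SumCl T → PerfMod T ∨ ∀ T' : (LMod R).Theory, ModTh T' →
    (∀ (M : Type) [AddCommGroup M] [Module R M], Mods T' M → (AxT T).In M) →
    CtblMod T' ∨ PerfMod T'

theorem thm_RSK (h1 : St_BGE) (h2 : St_BQE) (h3 : St_BCP) (h4 : St_KFW) (h5 : St_ISO)
    (h6 : St_KCT) : St_RSK := by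
  intro R _ _ T hT hS
  by_cases hp : PerfMod T
  · exact Or.inl hp
  right
  intro T' hT' hin
  by_cases hle : ∀ (φ ψ : PP R (Fin 1)), (AxT T).Le φ ψ
  · exact Or.inl (ctblMod_of_trivial T' hT' hin hle)
  obtain ⟨B, hBc, hBi, hBa, hBg⟩ := h1 R (AxT T)
  have hinf : Infinite B := by
    push Not at hle
    obtain ⟨φ, ψ, hle⟩ := hle
    obtain ⟨x, hx, hx'⟩ := hBg.2 1 φ ψ hle
    refine Infinite.of_injective (fun i => x i 0) (fun i j hij => ?_)
    by_contra hne
    refine hx' i j hne ?_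
    have : x i - x j = 0 := by
      funext k
      rw [Subsingleton.elim k 0]
      exact sub_eq_zero.2 hij
    rw [this]
    exact Sat.zero ψ
  have hm : ∃ M : Md R, Mods T M := by
    by_contra hno
    refine hle (fun φ ψ M _ _ hM x hx => ?_)
    refine hM ⟨1, φ, ψ⟩ ?_ x hx
    intro N _ _ hN
    exact absurd ⟨⟨N⟩, hN⟩ hno
  obtain ⟨M, hM, hg⟩ := h3 R T hT hS hm
  have few : (AxT T).Few B := h4 R T (fun S hS' => hT ℕ S hS') (AxT T) B hBi hBc hinf hBa
    (fun N hN hNi => h2 R (AxT T) M ⟨B × N⟩ hg (hBg.prod hNi) T hM) hp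
  by_cases hp' : PerfMod T'
  · exact Or.inr hp'
  · exact Or.inl (h6 R T' (fun S hS' => hT' ℕ S hS') (AxT T) B few hin hp' (h5 R (AxT T) B few))

theorem thm_RS2 (h : St_RSK) : St_RS2 := by
  intro R _ _ T hT hS
  rcases h R T hT hS with hp | key
  · exact Or.inl hp
  by_cases hp : PerfMod T
  · exact Or.inl hp
  right
  refine ⟨?_, fun T' hT' hsum => key T' hT' fun M _ _ hM => ?_⟩
  · refine (key T hT fun M _ _ hM a ha x hx => ha M hM x hx).resolve_right hp
  · obtain ⟨N, _, _, hMN⟩ := hsum M hM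
    intro a ha x hx
    have h := ha (M × N) hMN (fun j => (x j, 0)) (sat_prod.2 ⟨hx, Sat.zero _⟩)
    exact (sat_prod.1 h).1

end Pool.Agent.MVC
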