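import Pool.Agent.MVC.H31_St2

/-!
# Vaught's conjecture for modules: idempotents split modulo null maps
-/

set_option autoImplicit false
set_option linter.unusedSectionVars false
set_option linter.unusedVariables false

namespace Pool.Agent.MVC

open Set Ax

private theorem spl_re {R : Type} [Ring R] {X : Ax R} {n : ℕ} {M N : Type} [AddCommGroup M]
    [Module R M] [AddCommGroup N] [Module R N] (hM : X.In M) (θ : PP R (Fin n))
    (σ : PP R (Fin n) → PP R (Fin n))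
    (hσ : ∀ (χ : PP R (Fin n)) (M : Type) [AddCommGroup M] [Module R M] (x : Fin n → M),
      (∃ y : Fin n → M, Sat χ M y ∧ Sat θ M (x - y)) ↔ Sat (σ χ) M x)
    (φ : PP R (Fin n)) (hθ : X.Le θ φ) (a : Fin n → M) (ha : Sat (σ φ) M a) : Sat φ M a := by
  obtain ⟨y, hy, hy'⟩ := (hσ φ M a).mpr ha
  have h := hy.add (hθ M hM _ hy')
  rwa [add_sub_cancel] at h

theorem thm_SPL : St_SPL := by
  intro hHEX hEX0 hNUZ hNUP R _ _ X C f hf
  obtain ⟨θ, hθ, hθf⟩ := hf C.n C.g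
  let c : Fin C.n → C.N := f ∘ C.g
  have hfc : (⇑(f ∘ₗ f - f)) ∘ C.g = (f ∘ c) - c := by
    funext i
    rfl
  rw [hfc] at hθf
  -- sums with `θ`
  choose σ hσ using fun χ : PP R (Fin C.n) => (isPP_sat χ).sum (isPP_sat θ)
  have hCS : ∀ φ ∈ C.S, X.Le θ φ := fun φ hφ => hθ φ (C.hon.sat φ hφ)
  obtain ⟨A, a, hA⟩ := hHEX R X (Fin C.n) (σ '' pp C.N c)
  -- the map to `A`
  obtain ⟨ρ, hρ⟩ := hEX0 R X (Fin C.n) C.S C.N A C.g a C.hon hA.mem (by
    intro φ hφ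
    refine spl_re (N := A) hA.mem θ σ (fun χ M _ _ x => hσ χ M x) φ (hCS φ hφ) a ?_
    exact hA.sat _ ⟨φ, (C.hon.sat φ hφ).map f, rfl⟩)
  -- the map back
  obtain ⟨ι, hι⟩ := hEX0 R X (Fin C.n) (σ '' pp C.N c) A C.N a c hA C.hon.mem (by
    rintro _ ⟨χ, hχ, rfl⟩
    refine (hσ χ C.N c).mp ⟨c, hχ, ?_⟩
    rw [sub_self]
    exact Sat.zero θ)
  have hρg : ρ ∘ C.g = a := funext hρ
  refine ⟨⟨C.n, σ '' pp C.N c, A, a, hA⟩, ρ, ι, ?_, ?_⟩
  · refine hNUZ R X (Fin C.n) C.S C.N C.N C.g (ι ∘ₗ ρ - f) C.hon fun i => ?_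
    rw [LinearMap.sub_apply, LinearMap.comp_apply, hρ, hι]
    exact sub_self _
  · -- the formula of `c` over the generators
    obtain ⟨χ₀, hχ₀, hgen⟩ := C.hon.gen C.n c
    -- the relation `ω`
    have hω : IsPP (R := R) (ι := Fin C.n) (fun M _ _ x => ∃ y : Fin C.n → M,
        Sat χ₀ M (Sum.elim x y) ∧ Sat θ M (y - x)) := by
      have h1 : IsPP (R := R) (ι := Fin C.n ⊕ Fin C.n) (fun M _ _ z =>
          Sat θ M (fun i => z (Sum.inr i) - z (Sum.inl i))) := by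
        refine ((isPP_sat θ).subst (fun i : Fin C.n => Finsupp.single (Sum.inr i) (1 : R) -
          Finsupp.single (Sum.inl i) 1)).congr (fun M _ _ x => ?_)
        simp [map_sub]
      exact ((isPP_sat χ₀).and h1).ex.congr (fun M _ _ x => Iff.rfl)
    obtain ⟨ω, hω⟩ := hω
    have hωc : Sat ω C.N c := by
      refine (hω C.N c).mp ⟨f ∘ c, ?_, hθf⟩
      have h1 := hχ₀.map f
      rw [Sum.comp_elim] at h1
      exact h1
    obtain ⟨w, hw, hwt⟩ := (hσ ω A a).mpr (hA.sat _ ⟨ω, hωc, rfl⟩)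
    obtain ⟨y, hy, hyθ⟩ := (hω A w).mpr hw
    have hρc : Sat χ₀ A (Sum.elim a (ρ ∘ c)) := by
      have h1 := hχ₀.map ρ
      rw [Sum.comp_elim, hρg] at h1
      exact h1
    have hsub : Sat χ₀ A (Sum.elim (a - w) (ρ ∘ c - y)) := by
      rw [elim_sub]
      exact hρc.sub hy
    -- the relation `Θ`
    obtain ⟨Θ, hΘ⟩ := (isPP_sat θ).image (isPP_sat χ₀)
    have hΘle : ∀ χ ∈ pp C.N c, X.Le Θ χ := by
      intro χ hχ M _ _ hM z hz
      obtain ⟨t, ht, htz⟩ := (hΘ M z).mpr hz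
      obtain ⟨χ', hχ'⟩ := (isPP_sat χ).comap (Sum.inr : Fin C.n → Fin C.n ⊕ Fin C.n)
      obtain ⟨s, hs, h⟩ := hgen χ' ((hχ' C.N _).mp hχ)
      have h1 := h M hM t z (fun φ hφ => hCS φ (hs hφ) M hM t ht) htz
      exact (hχ' M _).mpr h1
    refine hNUP R X (Fin C.n) (σ '' pp C.N c) A A a (ρ ∘ₗ ι - LinearMap.id) hA ?_
    obtain ⟨Ξ, hΞ⟩ := (isPP_sat Θ).sum (isPP_sat θ)
    refine ⟨Ξ, ?_, ?_⟩
    · rintro _ ⟨χ, hχ, rfl⟩ M _ _ hM x hx
      obtain ⟨z, hz, hz'⟩ := (hΞ M x).mpr hx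
      exact (hσ χ M x).mp ⟨z, hΘle χ hχ M hM z hz, hz'⟩
    · refine (hΞ A _).mp ⟨ρ ∘ c - y, (hΘ A _).mp ⟨a - w, hwt, hsub⟩, ?_⟩
      have h1 : (⇑(ρ ∘ₗ ι - LinearMap.id : A.car →ₗ[R] A.car)) ∘ a - (ρ ∘ c - y) =
          (y - w) - (a - w) := by
        funext i
        simp only [Pi.sub_apply, Function.comp_apply, LinearMap.sub_apply, LinearMap.comp_apply,
          LinearMap.id_apply, hι]
        abel
      rw [h1]
      exact hyθ.sub hwt

end Pool.Agent.MVC
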