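import Pool.Agent.MVC.St

/-!
# Vaught's conjecture for modules: no infinite coindependent family (4.5 of the paper)
-/

set_option autoImplicit false
set_option linter.unusedSectionVars false
set_option linter.unusedVariables false

namespace Pool.Agent.MVC

open Set Ax

section TON

variable {R : Type} [Ring R] {n : ℕ} (S : Set (PP R (Fin n))) (W : ℕ → L1 R (Fin n))
variable {M : Type} [AddCommGroup M] [Module R M]

/-- the variables of stage `k` -/
private abbrev TIx (k : ℕ) : Type := Fin n ⊕ (i : Fin k) × Fin (W i.1).1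

/-- the formulas of stage `k` -/
private def TSet (k : ℕ) : Set (PP R (TIx W k)) :=
  ren Sum.inl '' S ∪ ⋃ i : Fin k,
    ren (Sum.elim Sum.inl (fun j => Sum.inr ⟨i, j⟩) : Fin n ⊕ Fin (W i.1).1 → TIx W k) '' (W i.1).2

private theorem re_TSet (k : ℕ) (x : TIx W k → M) : Re (TSet S W k) M x ↔
    Re S M (x ∘ Sum.inl) ∧ ∀ i : Fin k, Re (W i.1).2 M
      (Sum.elim (x ∘ Sum.inl) (fun j => x (Sum.inr ⟨i, j⟩))) := by
  have key : ∀ i : Fin k, (x ∘ (Sum.elim Sum.inl (fun j => Sum.inr ⟨i, j⟩) :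
      Fin n ⊕ Fin (W i.1).1 → TIx W k)) =
      Sum.elim (x ∘ Sum.inl) (fun j => x (Sum.inr ⟨i, j⟩)) := by
    intro i
    funext j
    cases j <;> rfl
  unfold TSet
  rw [re_union, re_ren]
  refine and_congr Iff.rfl ?_
  constructor
  · intro h i
    rw [← key, ← re_ren]
    exact fun φ hφ => h φ (mem_iUnion.2 ⟨i, hφ⟩)
  · intro h φ hφ
    obtain ⟨i, hi⟩ := mem_iUnion.1 hφ
    have h1 := h i
    rw [← key, ← re_ren] at h1
    exact h1 φ hi

private theorem isOpen_cyl (s : ℕ → ℕ) (m : ℕ) : IsOpen (cyl s m) := by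
  have h : cyl s m = Set.pi (Set.Iio m) (fun i => {s i}) := by
    ext σ
    rfl
  rw [h]
  exact isOpen_set_pi (Set.finite_Iio m) fun i _ => isOpen_discrete _

end TON

theorem thm_TON (h0 : St_HEX) (h1 : St_COL) (h2 : St_MSG) (h3 : St_BPL) (h4 : St_PIG)
    (h5 : St_EX0) : St_TON := by
  classical
  intro R _ _ X B hB n S N g W hN hle hnot hsum
  choose Y gY hY using fun k => h0 R X (TIx W k) (TSet S W k)
  let y : ∀ k, Fin n → Y k := fun k => gY k ∘ Sum.inl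
  have hyre : ∀ k, Re S (Y k) (y k) ∧ ∀ i : Fin k, Re (W i.1).2 (Y k)
      (Sum.elim (y k) (fun j => gY k (Sum.inr ⟨i, j⟩))) := fun k =>
    (re_TSet S W k (gY k)).1 (hY k).sat
  have hyW : ∀ k i, i < k → Sat1 (W i) (Y k) (y k) := fun k i hi =>
    ⟨fun j => gY k (Sum.inr ⟨⟨i, hi⟩, j⟩), (hyre k).2 ⟨i, hi⟩⟩
  -- the transition maps
  have ha : ∀ k, ∃ f : Y k →ₗ[R] Y (k + 1), ∀ i, f (y k i) = y (k + 1) i := by
    intro k
    let x : TIx W k → Y (k + 1) := Sum.elim (y (k + 1))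
      (fun p => gY (k + 1) (Sum.inr ⟨⟨p.1.1, Nat.lt_succ_of_lt p.1.2⟩, p.2⟩))
    have hx : Re (TSet S W k) (Y (k + 1)) x := by
      rw [re_TSet]
      refine ⟨(hyre (k + 1)).1, fun i => ?_⟩
      exact (hyre (k + 1)).2 ⟨i.1, Nat.lt_succ_of_lt i.2⟩
    obtain ⟨f, hf⟩ := h5 R X (TIx W k) (TSet S W k) (Y k) (Y (k + 1)) (gY k) x (hY k)
      (hY (k + 1)).mem hx
    exact ⟨f, fun i => hf (Sum.inl i)⟩
  choose a ha using ha
  -- the maps to `N`
  have hc : ∀ (k : ℕ) (d : Fin n → N), Re S N d ∧ (∀ i < k, Sat1 (W i) N d) →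
      ∃ f : Y k →ₗ[R] N, ∀ i, f (y k i) = d i := by
    rintro k d ⟨hd, hdW⟩
    choose t ht using fun i : Fin k => hdW i.1 i.2
    let x : TIx W k → N := Sum.elim d (fun p => t p.1 p.2)
    have hx : Re (TSet S W k) N x := by
      rw [re_TSet]
      exact ⟨hd, fun i => ht i⟩
    obtain ⟨f, hf⟩ := h5 R X (TIx W k) (TSet S W k) (Y k) N (gY k) x (hY k) hN.mem hx
    exact ⟨f, fun i => hf (Sum.inl i)⟩
  have hcc : ∀ k, ∃ c : ℕ → (Y k →ₗ[R] N), c 0 = 0 ∧ ∀ d : Fin n → N,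
      Re S N d ∧ (∀ i < k, Sat1 (W i) N d) → ∃ e, ∀ i, c e (y k i) = d i := by
    intro k
    have hct : Countable N := hN.ctbl
    obtain ⟨enum, henum⟩ := exists_surjective_nat (Fin n → N)
    refine ⟨fun e => Nat.casesOn e 0 (fun e =>
      if h : Re S N (enum e) ∧ ∀ i < k, Sat1 (W i) N (enum e) then (hc k _ h).choose else 0),
      rfl, fun d hd => ?_⟩
    obtain ⟨e, rfl⟩ := henum d
    refine ⟨e + 1, fun i => ?_⟩
    show (if h : Re S N (enum e) ∧ ∀ i < k, Sat1 (W i) N (enum e) then (hc k _ h).choose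
      else 0) (y k i) = enum e i
    rw [dif_pos hd]
    exact (hc k _ hd).choose_spec i
  choose c hc0 hc1 using hcc
  let D : Sys R := { M := N, Y := Y, a := a, c := c, c0 := hc0 }
  choose L of hcol using fun σ : ℕ → ℕ => h1 R D.G (D.t σ)
  let Λ : D.Lim := ⟨L, of, hcol⟩
  obtain ⟨E, s, m, hE, hcat⟩ := h4 R X B hB D Λ hN.ctbl (fun k => (hY k).ctbl) hN.mem
    (fun k => (hY k).mem) (Fin 0) (Fin n) Fin.elim0 (y 0)
  obtain ⟨hz, hzs, -, -⟩ := h2 R D Λ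
  -- the images of the generators
  have hcmp : ∀ k i, cmp D.a k (y 0 i) = y k i := by
    intro k
    induction k with
    | zero => exact fun i => rfl
    | succ k ih =>
      intro i
      show a k (cmp D.a k (y 0 i)) = y (k + 1) i
      rw [ih i]
      exact ha k i
  let z : Fin n → N := fun i => D.z s m (y 0 i)
  have hzS : Re S N z := ((hyre 0).1).map (D.z s m)
  obtain ⟨f, hf⟩ := h5 R X (Fin n) S N N g z hN hN.mem hzS
  obtain ⟨w, hw1, hw2, hw3⟩ := hsum m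
  -- `d = f w - z`, `w' = g - w`
  have hfg : (f ∘ g : Fin n → N) = z := funext hf
  have hfw1 : Sat1 (W m) N (f ∘ w) := hw1.map f
  have hfw : (f ∘ (g - w) : Fin n → N) = z - f ∘ w := by
    rw [← hfg]
    funext i
    simp
  have hfw2 : Re S N (z - f ∘ w) := by
    rw [← hfw]
    exact hw2.map f
  have hfw3 : ∀ l < m, Sat1 (W l) N (z - f ∘ w) := by
    intro l hl
    rw [← hfw]
    exact (hw3 l hl).map f
  have hd : Re S N (f ∘ w - z) ∧ ∀ l < m, Sat1 (W l) N (f ∘ w - z) := by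
    rw [← neg_sub]
    exact ⟨hfw2.neg, fun l hl => (hfw3 l hl).neg⟩
  have hd' : Re S N ((f ∘ w - z) + (g - w)) ∧ ∀ l < m, Sat1 (W l) N ((f ∘ w - z) + (g - w)) :=
    ⟨hd.1.add hw2, fun l hl => (hd.2 l hl).add (hw3 l hl)⟩
  obtain ⟨e₀, he₀⟩ := hc1 m _ hd
  obtain ⟨e₁, he₁⟩ := hc1 m _ hd'
  -- the element `z_σ` on a cylinder of length `m + 1`
  have key : ∀ (σ : ℕ → ℕ), σ ∈ cyl s m → ∀ d : Fin n → N, (∀ i, c m (σ m) (y m i) = d i) →
      (fun i => Λ.inY σ 0 (y 0 i)) = (Λ.inM σ ∘ (z + d)) + (Λ.inY σ (m + 1) ∘ y (m + 1)) := by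
    intro σ hσ d hd
    funext i
    have e1 := hz σ (m + 1) (y 0 i)
    have e2 : D.z σ (m + 1) (y 0 i) = D.z σ m (y 0 i) + D.c m (σ m) (cmp D.a m (y 0 i)) := rfl
    have e3 : D.z σ m = D.z s m := hzs σ s m hσ
    rw [e1, hcmp, e2, hcmp, e3]
    show Λ.inM σ (D.z s m (y 0 i) + c m (σ m) (y m i)) + _ = _
    rw [hd i]
    rfl
  have hyend : ∀ σ : ℕ → ℕ, Sat1 (W m) (Λ.L σ) (Λ.inY σ (m + 1) ∘ y (m + 1)) := fun σ =>
    (hyW (m + 1) m (Nat.lt_succ_self m)).map (Λ.inY σ (m + 1))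
  -- the cylinders
  have hUopen : ∀ e : ℕ, IsOpen (cyl (Function.update s m e) (m + 1)) := fun e => isOpen_cyl _ _
  have hUne : ∀ e : ℕ, (cyl (Function.update s m e) (m + 1)).Nonempty := fun e =>
    ⟨_, fun i _ => rfl⟩
  have hUsub : ∀ e : ℕ, cyl (Function.update s m e) (m + 1) ⊆ cyl s m := by
    intro e σ hσ i hi
    have := hσ i (Nat.lt_succ_of_lt hi)
    rwa [Function.update_of_ne hi.ne] at this
  have hUm : ∀ e : ℕ, ∀ σ ∈ cyl (Function.update s m e) (m + 1), σ m = e := by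
    intro e σ hσ
    have := hσ m (Nat.lt_succ_self m)
    rwa [Function.update_self] at this
  -- (1) `z_σ` is in `W m` for all `σ` in `E`
  have h6 : ∀ σ ∈ E, Sat1 (W m) (Λ.L σ) (fun i => Λ.inY σ 0 (y 0 i)) := by
    have hne : (E ∩ cyl (Function.update s m e₀) (m + 1)).Nonempty := by
      by_contra h
      rw [Set.not_nonempty_iff_eq_empty] at h
      apply hcat _ (hUopen e₀) (hUne e₀) (hUsub e₀)
      rw [h]
      exact IsMeagre.empty
    obtain ⟨σ₀, hσ₀, hσ₀'⟩ := hne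
    have h7 : Sat1 (W m) (Λ.L σ₀) (fun i => Λ.inY σ₀ 0 (y 0 i)) := by
      rw [key σ₀ (hUsub e₀ hσ₀') (f ∘ w - z) (fun i => by
        rw [hUm e₀ σ₀ hσ₀']
        exact he₀ i), add_sub_cancel]
      exact (hfw1.map (Λ.inM σ₀)).add (hyend σ₀)
    intro σ hσ
    have h8 := hE σ₀ hσ₀ σ hσ
    have h9 : ren1 Sum.inr (W m) ∈ tp1 (R := R) (Λ.L σ₀)
        (Sum.elim (fun i : Fin 0 => Λ.inM σ₀ (Fin.elim0 i)) (fun j => Λ.inY σ₀ 0 (y 0 j))) := by
      show Sat1 _ _ _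
      rw [sat1_ren1]
      exact h7
    rw [h8] at h9
    have h10 : Sat1 (ren1 Sum.inr (W m)) (Λ.L σ)
        (Sum.elim (fun i : Fin 0 => Λ.inM σ (Fin.elim0 i)) (fun j => Λ.inY σ 0 (y 0 j))) := h9
    rw [sat1_ren1] at h10
    exact h10
  -- (2) on the second cylinder `g` is in `W m`
  have h7 : ¬ IsMeagre {σ : ℕ → ℕ | Sat1 (W m) (Λ.L σ) (fun i => Λ.inM σ (g i))} := by
    intro hmeag
    apply hcat _ (hUopen e₁) (hUne e₁) (hUsub e₁)
    refine hmeag.mono ?_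
    rintro σ ⟨hσE, hσ⟩
    show Sat1 (W m) (Λ.L σ) (fun i => Λ.inM σ (g i))
    have h8 := h6 σ hσE
    have h9 := key σ (hUsub e₁ hσ) ((f ∘ w - z) + (g - w)) (fun i => by
      rw [hUm e₁ σ hσ]
      exact he₁ i)
    rw [← add_assoc, add_sub_cancel] at h9
    have h10 : (fun i => Λ.inM σ (g i)) = (fun i => Λ.inY σ 0 (y 0 i)) -
        (Λ.inM σ ∘ (f ∘ w) - Λ.inM σ ∘ w + (Λ.inY σ (m + 1) ∘ y (m + 1))) := by
      rw [h9]
      funext i
      simp only [Pi.sub_apply, Pi.add_apply, Function.comp_apply, map_add, map_sub]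
      abel
    rw [h10]
    exact h8.sub (((hfw1.map (Λ.inM σ)).sub (hw1.map (Λ.inM σ))).add (hyend σ))
  exact hnot m (h3 R D Λ hN.ctbl (fun k => (hY k).ctbl) (Fin n) (W m) g h7)

end Pool.Agent.MVC
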