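import Pool.Agent.MVC.Api1
import Pool.Agent.MVC.St

/-!
# Vaught's conjecture for modules, [TOP]: no infinite coindependent family of level-one subgroups
(helper82)
-/

set_option autoImplicit false
set_option linter.unusedVariables false

namespace Pool.Agent.MVC

open Set Ax

/-- [TOP] -/
theorem thm_TOP (h : St_TON) (h2 : St_HEX) (_h3 : St_L1N) (h4 : St_EX0) : St_TOP := by
  rintro R _ _ X B hF n ⟨m, V⟩ W hWD hDW hc
  obtain ⟨e, he⟩ : ∃ e : Fin n ⊕ Fin m ≃ Fin (n + m), e = finSumFinEquiv := ⟨_, rfl⟩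
  obtain ⟨N, g, hN⟩ := h2 R X (Fin (n + m)) (ren e '' V)
  have hS : ∀ (M : Type) [AddCommGroup M] [Module R M] (x : Fin (n + m) → M),
      Re (ren e '' V) M x ↔ Re V M (x ∘ e) := fun M _ _ x => re_ren e V x
  have hW' : ∀ i, IsL0 (R := R) (fun M _ _ (x : Fin (n + m) → M) =>
      Re (ren e '' V) M x ∧ Sat1 (W i) M (x ∘ (fun j : Fin n => e (Sum.inl j)))) := fun i =>
    (isL0_re (ren e '' V)).and ((isL0_sat1 (W i)).comap _)
  refine h R X B hF (n + m) (ren e '' V) N g (fun i => (hW' i).fm) hN ?_ ?_ ?_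
  · intro i M _ _ hcM hM x hx
    rw [sat1_ofRe]
    exact ((hW' i).fm_iff.1 hx).1
  · intro i hi
    have h5 := ((hW' i).fm_iff.1 hi).2
    refine hDW i ?_
    rintro M _ _ hcM hM x ⟨t, ht⟩
    have ha : Re (ren e '' V) M (Sum.elim x t ∘ e.symm) := by
      rw [hS]
      have : (Sum.elim x t ∘ e.symm) ∘ e = Sum.elim x t := by
        funext j
        simp
      rw [this]
      exact ht
    obtain ⟨f, hf⟩ := h4 R X (Fin (n + m)) (ren e '' V) N ⟨M⟩ g (Sum.elim x t ∘ e.symm) hN hM ha
    have h6 := h5.map f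
    have h7 : (f ∘ (g ∘ fun j : Fin n => e (Sum.inl j))) = x := by
      funext j
      show f (g (e (Sum.inl j))) = x j
      rw [hf]
      simp
    rw [h7] at h6
    exact h6
  · intro i
    have hg : Re V N (g ∘ e) := (hS N g).1 hN.sat
    obtain ⟨w, hw, hl⟩ := hc i N hN.ctbl hN.mem (g ∘ fun j : Fin n => e (Sum.inl j))
      ⟨fun j => g (e (Sum.inr j)), by
        have : Sum.elim (g ∘ fun j : Fin n => e (Sum.inl j)) (fun j => g (e (Sum.inr j))) =
            g ∘ e := by
          funext j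
          cases j <;> rfl
        rw [this]
        exact hg⟩
    obtain ⟨t, ht⟩ := hWD i N hN.ctbl hN.mem w hw
    have ht' : Re V N (Sum.elim w t) := ht
    have hrw : Re (ren e '' V) N (Sum.elim w t ∘ e.symm) := by
      rw [hS]
      have : (Sum.elim w t ∘ e.symm) ∘ e = Sum.elim w t := by
        funext j
        simp
      rw [this]
      exact ht'
    have hww : (Sum.elim w t ∘ e.symm) ∘ (fun j : Fin n => e (Sum.inl j)) = w := by
      funext j
      simp
    have hgw : (g - Sum.elim w t ∘ e.symm) ∘ (fun j : Fin n => e (Sum.inl j)) =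
        (g ∘ fun j : Fin n => e (Sum.inl j)) - w := by
      funext j
      simp
    refine ⟨Sum.elim w t ∘ e.symm, ?_, hN.sat.sub hrw, ?_⟩
    · refine (hW' i).fm_iff.2 ⟨hrw, ?_⟩
      rw [hww]
      exact hw
    · intro l hli
      refine (hW' l).fm_iff.2 ⟨hN.sat.sub hrw, ?_⟩
      rw [hgw]
      exact hl l hli

end Pool.Agent.MVC
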