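import Pool.Agent.MVC.St2

/-!
# Vaught's conjecture for modules: 7.1 (i)
-/

set_option autoImplicit false
set_option linter.unusedSectionVars false
set_option linter.unusedVariables false

namespace Pool.Agent.MVC

open Set Ax

private theorem exMap_sum_umi {R : Type} [Ring R] (X : Ax R) {N N' : Md R} {r : ℕ}
    (v : Fin r → (N →ₗ[R] N')) (M : Md R) (e : X.ex N' M) (s : Finset (Fin r)) :
    X.exMap (∑ l ∈ s, v l) M e = ∑ l ∈ s, X.exMap (v l) M e := by
  classical
  induction s using Finset.induction_on with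
  | empty => rw [Finset.sum_empty, Finset.sum_empty]; exact exMap_zero X M e
  | insert a s ha ih => rw [Finset.sum_insert ha, Finset.sum_insert ha, exMap_add, ih]

theorem thm_UMI (h1 : St_DEL) : St_UMI := by
  classical
  intro R _ _ X n k k' r S V V' N N' Y g g' hV hV' hN hN' hR hD M hMc hM a ha hsat
  obtain ⟨α, β, hαβ⟩ := hR
  have hAdm : X.Adm S M a := ⟨hM, hMc, ha⟩
  have hd : ∀ (M : Md R) (a : Fin n → M), X.Adm S M a → ∃ e, X.IsDel V' N' g' M a e :=
    fun M a h => (h1 R X n k' S V' N' M g' a hV' hN' h.1 h.2.2).1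
  have huq : ∀ (M : Md R) (a : Fin n → M), X.Adm S M a → ∀ e e', X.IsDel V' N' g' M a e →
      X.IsDel V' N' g' M a e' → e = e' :=
    fun M a h => (h1 R X n k' S V' N' M g' a hV' hN' h.1 h.2.2).2.1
  obtain ⟨e', he'⟩ := hd M a hAdm
  obtain ⟨e, he⟩ := (h1 R X n k S V N M g a hV hN hM ha).1
  have he0 : e = 0 := ((h1 R X n k S V N M g a hV hN hM ha).2.2 e he).2 hsat
  -- the components
  have hcomp : ∀ b : Y →ₗ[R] N', X.exMap b M e' = 0 := by
    intro b
    let d : X.EE n Y := fun M a =>
      if h : X.Adm S M a then X.exMap b M (Classical.choose (hd M a h)) else 0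
    have hdm : d ∈ X.DS S V' N' g' Y := by
      refine ⟨b, fun M a => ⟨fun h e he => ?_, fun h => ?_⟩⟩
      · show (if h : X.Adm S M a then X.exMap b M (Classical.choose (hd M a h)) else 0) = _
        rw [dif_pos h, huq M a h _ _ (Classical.choose_spec (hd M a h)) he]
      · show (if h : X.Adm S M a then X.exMap b M (Classical.choose (hd M a h)) else 0) = _
        rw [dif_neg h]
    have h2 : d M a = X.exMap b M e' := by
      show (if h : X.Adm S M a then X.exMap b M (Classical.choose (hd M a h)) else 0) = _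
      rw [dif_pos hAdm, huq M a hAdm _ _ (Classical.choose_spec (hd M a hAdm)) he']
    obtain ⟨v, hv⟩ := hD hdm
    have h3 := (hv M a).1 hAdm e he
    rw [← h2, h3, he0, map_zero]
  have hsum : (β ∘ₗ α : N' →ₗ[R] N') =
      ∑ l : Fin r, (β ∘ₗ LinearMap.single R (fun _ : Fin r => (Y : Type)) l) ∘ₗ
        (LinearMap.proj l ∘ₗ α) := by
    apply LinearMap.ext
    intro x
    rw [LinearMap.sum_apply]
    show β (α x) = ∑ l : Fin r, β (Pi.single l (α x l))
    rw [← map_sum, Finset.univ_sum_single]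
  have hz : e' = 0 := by
    have h4 := exMap_eqv X hαβ M
    have h5 : X.exMap (LinearMap.id : N' →ₗ[R] N') M e' = e' := exMap_id X N' M e'
    rw [← h5, ← h4, hsum, exMap_sum_umi]
    refine Finset.sum_eq_zero fun l _ => ?_
    rw [← exMap_comp X (LinearMap.proj l ∘ₗ α)
      (β ∘ₗ LinearMap.single R (fun _ : Fin r => (Y : Type)) l) M e', hcomp, map_zero]
  exact ((h1 R X n k' S V' N' M g' a hV' hN' hM ha).2.2 e' he').1 hz

end Pool.Agent.MVC
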