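import Pool.Agent.MVC.St2

/-!
# Vaught's conjecture for modules, [UMJ]: 7.1 (ii), continuum many level-one types from an
irredundant family (helper82)
-/

set_option autoImplicit false
set_option linter.unusedVariables false

namespace Pool.Agent.MVC

open Set Ax

private theorem umj_not_countable {C : Type} {s : Set C} (hs : s.Countable) (f : Set ℕ → C)
    (hf : Function.Injective f) (hfs : ∀ T, f T ∈ s) : False := by
  have h1 : (range f).Countable := hs.mono (by
    rintro _ ⟨T, rfl⟩
    exact hfs T)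
  have h2 : Countable (Set ℕ) := by
    have := h1.to_subtype
    exact (Equiv.ofInjective f hf).injective.countable
  obtain ⟨F, hFs⟩ := exists_surjective_nat (Set ℕ)
  exact Function.cantor_surjective F hFs

/-- [UMJ] -/
theorem thm_UMJ (h1 : St_REP) (h2 : St_AMG) (h3 : St_HEX) (h4 : St_AMT) (h5 : St_DEL) :
    St_UMJ := by
  intro R _ _ X B hF n l S Z Y y k V N g m hZ hV hN hm hirr
  have hm' : ∀ j, ∃ v : Y →ₗ[R] N j, ∀ (M : Md R) (a : Fin n → M),
      (X.Adm S M a → ∀ e, X.IsDel (V j) (N j) (g j) M a e → m j M a = X.exMap v M e) ∧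
        (¬ X.Adm S M a → m j M a = 0) := hm
  choose v hv using hm'
  have hrep := fun j => h1 R X n (k j) l S (V j) (N j) (g j) Z Y y (v j) (hV j) (hN j) hZ
  choose k' V' N' g' i p hO hH hpi hip hdel using hrep
  -- the value of `m j` in terms of the new representation
  have hval : ∀ (j : ℕ) (M : Md R) (a : Fin n → M), X.Adm S M a → ∀ e',
      X.IsDel (V' j) (N' j) (g' j) M a e' → m j M a = X.exMap (i j) M e' := by
    intro j M a ha e' he'
    obtain ⟨e, he⟩ := (h5 R X n (k j) S (V j) (N j) M (g j) a (hV j) (hN j) ha.1 ha.2.2).1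
    rw [(hv j M a).1 ha e he]
    exact hdel j M ha.1 a ha.2.2 e e' he he'
  have hback : ∀ (j : ℕ) (M : Md R) (a : Fin n → M), X.Adm S M a → ∀ e',
      X.IsDel (V' j) (N' j) (g' j) M a e' → e' = X.exMap (p j) M (m j M a) := by
    intro j M a ha e' he'
    rw [hval j M a ha e' he', exMap_comp, exMap_eqv X (hip j) M, exMap_id]
  -- the amalgams
  have key : ∀ T : Set ℕ, ∃ (G : Md R) (x : Fin n → G), Countable G ∧ X.In G ∧
      ∀ j, Sat1 (⟨k' j, V' j⟩ : L1 R (Fin n)) G x ↔ j ∈ T := by
    intro T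
    obtain ⟨G, gg, hG⟩ := h3 R X (Fin n ⊕ (j : {j // j ∈ T}) × Fin (k' j))
      (amg S (fun j : {j // j ∈ T} => k' j) (fun j => V' j))
    refine ⟨G, fun c => gg (Sum.inl c), hG.ctbl, hG.mem, fun j => ⟨fun hs => ?_, fun hj => ?_⟩⟩
    · by_contra hj
      obtain ⟨b, hb⟩ := hs
      obtain ⟨F, μ, hμ⟩ := h2 R X n {j // j ∈ T} S (fun j => k' j) (fun j => V' j) G gg
        (fun j => N' j) (fun j => g' j) (k' j) (V' j) (N' j) (g' j) b (fun j => hO j) hG
        (fun j => hH j) (hO j) (hH j) hb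
      refine hirr j ?_
      have hsum : m j = ∑ c ∈ F, MulOpposite.op (Ideal.Quotient.mk (X.nullIdeal Y)
          ((p c ∘ₗ (μ c ∘ₗ i j) : Y →ₗ[R] Y))) • m c := by
        funext M a
        rw [Finset.sum_apply, Finset.sum_apply]
        by_cases ha : X.Adm S M a
        · obtain ⟨e, he⟩ := (h5 R X n (k' j) S (V' j) (N' j) M (g' j) a (hO j) (hH j)
            ha.1 ha.2.2).1
          have hee := fun c : {j // j ∈ T} => (h5 R X n (k' c) S (V' c) (N' c) M (g' c) a (hO c)
            (hH c) ha.1 ha.2.2).1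
          choose ee hee using hee
          have h6 := hμ M ha.1 a ha.2.2 e ee he hee
          rw [hval j M a ha e he, h6, map_sum]
          refine Finset.sum_congr rfl fun c _ => ?_
          rw [hback c M a ha (ee c) (hee c), exMap_comp, exMap_comp]
          rfl
        · rw [(hv j M a).2 ha]
          symm
          refine Finset.sum_eq_zero fun c _ => ?_
          rw [Pi.smul_apply, Pi.smul_apply, (hv c M a).2 ha, smul_zero]
      rw [hsum]
      refine Submodule.sum_mem _ fun c _ => Submodule.smul_mem _ _ (Submodule.subset_span ?_)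
      refine ⟨c, ?_, rfl⟩
      intro hc
      exact hj (hc ▸ c.2)
    · refine ⟨fun c => gg (Sum.inr ⟨⟨j, hj⟩, c⟩), ?_⟩
      have h6 : Re (ren (Sum.map id (Sigma.mk (⟨j, hj⟩ : {j // j ∈ T}))) '' V' j) G gg := by
        refine hG.sat.mono ?_
        intro φ hφ
        exact Or.inr (mem_iUnion.2 ⟨⟨j, hj⟩, hφ⟩)
      rw [re_ren] at h6
      have h7 : gg ∘ (Sum.map id (Sigma.mk (⟨j, hj⟩ : {j // j ∈ T}))) =
          Sum.elim (fun c => gg (Sum.inl c)) (fun c => gg (Sum.inr ⟨⟨j, hj⟩, c⟩)) := by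
        funext c
        cases c <;> rfl
      rw [h7] at h6
      exact h6
  choose G x hGc hGi hGx using key
  refine umj_not_countable (hF.few1 n) (fun T => tp1 (R := R) (G T) (x T)) ?_ ?_
  · intro T T' hTT
    have hTT' : tp1 (R := R) (G T) (x T) = tp1 (R := R) (G T') (x T') := hTT
    ext j
    rw [← hGx T j, ← hGx T' j]
    have h8 : (⟨k' j, V' j⟩ : L1 R (Fin n)) ∈ tp1 (R := R) (G T) (x T) ↔
        (⟨k' j, V' j⟩ : L1 R (Fin n)) ∈ tp1 (R := R) (G T') (x T') := by rw [hTT']
    exact h8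
  · intro T
    exact ⟨G T, hGc T, hGi T, x T, rfl⟩

end Pool.Agent.MVC
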