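import Pool.Agent.MVC.St2

/-!
# MVC: every tuple has a least level-one formula (helper69)
-/

set_option autoImplicit false
set_option linter.unusedVariables false

namespace Pool.Agent.MVC

open Set Ax

section

variable {R : Type} [Ring R]

/-- the type of a longer tuple is a conservative extension of the type of the tuple -/
private theorem UML_over (X : Ax R) {M : Type} [AddCommGroup M] [Module R M] {n k : ℕ}
    (a : Fin n → M) (t : Fin k → M) : X.Over (pp M a) (pp M (Sum.elim a t)) := by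
  refine ⟨fun φ hφ => ent_of_mem ?_, fun s hs => ?_⟩
  · show Sat (ren Sum.inl φ) M (Sum.elim a t)
    rw [sat_ren, Sum.elim_comp_inl]
    exact hφ
  · obtain ⟨φ₀, hφ₀⟩ := (isPP_finset s).ex
    refine ⟨{φ₀}, ?_, fun N _ _ hN x hx => ?_⟩
    · rw [Finset.coe_singleton, singleton_subset_iff]
      exact (hφ₀ M a).mp ⟨t, fun φ hφ => hs hφ⟩
    · exact (hφ₀ N x).mpr (hx φ₀ (Finset.mem_singleton_self _))

/-- renaming inside the type of an enumeration -/
private theorem UML_ren {M : Type} [AddCommGroup M] [Module R M] {n k l : ℕ} (a : Fin n → M)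
    (t : Fin l → M) (f : Fin k → Fin l) (φ : PP R (Fin n ⊕ Fin k)) :
    Sat (ren (Sum.map id f) φ) M (Sum.elim a t) ↔ Sat φ M (Sum.elim a (t ∘ f)) := by
  rw [sat_ren]
  refine iff_of_eq ?_
  congr 1
  funext i
  cases i <;> rfl

end

theorem thm_UML (h1 : St_END) (h2 : St_FT) (h3 : St_RLR) (h4 : St_UMI) (h5 : St_UMJ)
    (h6 : St_DRE) (h7 : St_HEX) : St_UML := by
  intro R _ _ X B hF M hMc hM n a
  obtain ⟨l, Z, Y, y, hY, hR⟩ := h2 R X B hF
  have : Nonempty M := ⟨0⟩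
  obtain ⟨w, hw⟩ := exists_surjective_nat M
  let t : ∀ m : ℕ, Fin m → M := fun m i => w i
  let V : ∀ m : ℕ, Set (PP R (Fin n ⊕ Fin m)) := fun m => pp M (Sum.elim a (t m))
  choose N g hg using fun m : ℕ => h7 R X (Fin m) (zer '' V m)
  have hOver : ∀ m, X.Over (pp M a) (V m) := fun m => UML_over X a (t m)
  -- the groups increase
  have hmono : Monotone (fun m => X.DS (pp M a) (V m) (N m) (g m) Y) := by
    intro m m' hmm
    obtain ⟨ρ, hρ, hρ'⟩ := h6 R X n m m' (V m) (V m') (N m) (N m') (g m) (g m') (Fin.castLE hmm)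
      (hg m) (hg m') (fun φ hφ => ent_of_mem (by
        show Sat (ren (Sum.map id (Fin.castLE hmm)) φ) M (Sum.elim a (t m'))
        rw [UML_ren]
        exact hφ))
    rintro d ⟨v, hv⟩
    refine ⟨ρ ∘ₗ v, fun M' a' => ⟨fun hA e he => ?_, (hv M' a').2⟩⟩
    rw [(hv M' a').1 hA _ (hρ' M' hA.1 a' e he), exMap_comp]
  let T : ℕ →o Submodule (X.Q Y)ᵐᵒᵖ (X.EE n Y) :=
    ⟨fun m => X.DS (pp M a) (V m) (N m) (g m) Y, hmono⟩
  by_cases hfin : Module.Finite (X.Q Y)ᵐᵒᵖ (iSup T : Submodule (X.Q Y)ᵐᵒᵖ (X.EE n Y))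
  · obtain ⟨m₀, hm₀⟩ := Submodule.FG.stabilizes_of_iSup_eq (Module.Finite.iff_fg.mp hfin) T rfl
    refine ⟨⟨m₀, V m₀⟩, ⟨t m₀, fun φ hφ => hφ⟩, ?_⟩
    rintro W ⟨s, hs⟩ M' _ _ hMc' hM' x hx
    choose f hf using fun j => hw (s j)
    obtain ⟨m, hm, hfm⟩ : ∃ m, m₀ ≤ m ∧ ∀ j, f j < m := by
      refine ⟨max m₀ (Finset.univ.sup f + 1), le_max_left _ _, fun j => ?_⟩
      exact lt_of_lt_of_le (Nat.lt_succ_of_le (Finset.le_sup (Finset.mem_univ j)))
        (le_max_right _ _)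
    obtain ⟨r, hr⟩ := hR m (zer '' V m) (N m) (g m) (hg m)
    have hle : X.DS (pp M a) (V m) (N m) (g m) Y ≤ X.DS (pp M a) (V m₀) (N m₀) (g m₀) Y := by
      have e1 : T m ≤ iSup T := le_iSup T m
      rw [hm₀] at e1
      exact e1
    have hRe : Re (pp (R := R) M a) M' x := by
      obtain ⟨u, hu⟩ := hx
      intro φ hφ
      have e1 := hu (ren Sum.inl φ) (by
        show Sat (ren Sum.inl φ) M (Sum.elim a (t m₀))
        rw [sat_ren, Sum.elim_comp_inl]
        exact hφ)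
      rw [sat_ren, Sum.elim_comp_inl] at e1
      exact e1
    obtain ⟨u, hu⟩ := h4 R X n m₀ m r (pp M a) (V m₀) (V m) (N m₀) (N m) Y (g m₀) (g m)
      (hOver m₀) (hOver m) (hg m₀) (hg m) hr hle (⟨M'⟩ : Md R) hMc' hM' x hRe hx
    refine ⟨u ∘ fun j => ⟨f j, hfm j⟩, fun φ hφ => ?_⟩
    have e2 := hu (ren (Sum.map id (fun j => (⟨f j, hfm j⟩ : Fin m))) φ) (by
      show Sat (ren (Sum.map id (fun j => (⟨f j, hfm j⟩ : Fin m))) φ) M (Sum.elim a (t m))
      rw [UML_ren]
      have e3 : (t m ∘ fun j => (⟨f j, hfm j⟩ : Fin m)) = s := by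
        funext j
        exact hf j
      rw [e3]
      exact hs φ hφ)
    rw [UML_ren] at e2
    exact e2
  · exfalso
    obtain ⟨q, hq⟩ := h3 (X.Q Y) (h1 R X B hF l Z Y y hY) _ hfin
    have hmem : ∀ j, ∃ m, (q j : X.EE n Y) ∈ T m := by
      intro j
      have e1 := (q j).2
      rw [Submodule.mem_iSup_of_directed _ T.monotone.directed_le] at e1
      exact e1
    choose k hk using hmem
    refine h5 R X B hF n l (pp M a) Z Y y k (fun j => V (k j)) (fun j => N (k j))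
      (fun j => g (k j)) (fun j => (q j : X.EE n Y)) hY (fun j => hOver _) (fun j => hg _) hk ?_
    intro j hj
    refine hq j ?_
    have e1 : (fun j => (q j : X.EE n Y)) '' {i | i ≠ j} =
        (iSup T : Submodule (X.Q Y)ᵐᵒᵖ (X.EE n Y)).subtype '' (q '' {i | i ≠ j}) := by
      rw [image_image]
      rfl
    rw [e1, ← Submodule.map_span] at hj
    obtain ⟨z, hz, hz'⟩ := hj
    have e2 : z = q j := Subtype.ext hz'
    rw [← e2]
    exact hz

end Pool.Agent.MVC
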