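import Pool.Agent.MVC.HEX
import Pool.Agent.MVC.EXT
import Pool.Agent.MVC.NULM
import Pool.Agent.MVC.HPR
import Pool.Agent.MVC.HDS
import Pool.Agent.MVC.L1N
import Pool.Agent.MVC.COL
import Pool.Agent.MVC.MSG
import Pool.Agent.MVC.BPL
import Pool.Agent.MVC.PIG
import Pool.Agent.MVC.DCC
import Pool.Agent.MVC.TON
import Pool.Agent.MVC.TOP
import Pool.Agent.MVC.RTN
import Pool.Agent.MVC.RSS
import Pool.Agent.MVC.RID
import Pool.Agent.MVC.END
import Pool.Agent.MVC.MI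
import Pool.Agent.MVC.EXZ
import Pool.Agent.MVC.DEL
import Pool.Agent.MVC.DRE
import Pool.Agent.MVC.REP
import Pool.Agent.MVC.AMT
import Pool.Agent.MVC.AMG
import Pool.Agent.MVC.UMI
import Pool.Agent.MVC.UMJ
import Pool.Agent.MVC.UML
import Pool.Agent.MVC.KMS
import Pool.Agent.MVC.KPF
import Pool.Agent.MVC.KME
import Pool.Agent.MVC.KIN
import Pool.Agent.MVC.KFW
import Pool.Agent.MVC.KCT
import Pool.Agent.MVC.BGE
import Pool.Agent.MVC.BQE
import Pool.Agent.MVC.BCP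
import Pool.Agent.MVC.RS2
import Pool.Agent.MVC.IFC
import Pool.Agent.MVC.SPL
import Pool.Agent.MVC.FIN
import Pool.Agent.MVC.HPI
import Pool.Agent.MVC.DEC
import Pool.Agent.MVC.GEN
import Pool.Agent.MVC.H31_GLD
import Pool.Agent.MVC.H31_CNT
import Pool.Agent.MVC.H31_H

/-!
# Vaught's conjecture for modules: assembly
-/

set_option autoImplicit false

namespace Pool.Agent.MVC

theorem asm_GNY (hDCC : St_DCC) : St_GNY := by
  intro R _ _ X B hB
  have hHPI := thm_HPI thm_REI thm_HPR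
  have hSPL := thm_SPL thm_HEX thm_EX0 thm_NUZ thm_NUP
  have hFIN := thm_FIN thm_REI thm_HPR thm_HPI thm_EX0 thm_NUP
  have hDCQ := thm_DCQ hDCC
  have hDEC := thm_DEC hSPL (thm_RID thm_RTN thm_RSS)
  refine ⟨hDCQ R X B hB, ?_⟩
  exact thm_GEN hHPI R X (hFIN R X B hB) fun C => hDEC R X C (hDCQ R X B hB C)

theorem asm (hRLR : St_RLR) : St_RSK := by
  have hMSG : St_MSG := thm_MSG thm_COS
  have hBPL : St_BPL := thm_BPL thm_COS hMSG
  have hPIG : St_PIG := thm_PIG hMSG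
  have hDCC : St_DCC := thm_DCC thm_COL hMSG hBPL hPIG thm_EX0 thm_NUP thm_EXT
  have hTON : St_TON := thm_TON thm_HEX thm_COL hMSG hBPL hPIG thm_EX0
  have hTOP : St_TOP := thm_TOP hTON thm_HEX (thm_L1N thm_EX0) thm_EX0
  have hEND : St_END := thm_END hDCC
  have hFT : St_FT := thm_FT (asm_GNY hDCC)
  have hEXZ : St_EXZ := thm_EXZ thm_MIS thm_MIK thm_EX0 thm_NUZ
  have hDEL : St_DEL := thm_DEL thm_MIS thm_MIK thm_MIT thm_EX0 hEXZ
  have hDRE : St_DRE := thm_DRE thm_EX0 thm_MIS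
  have hREP : St_REP := thm_REP thm_HEX thm_EX0 thm_EXT thm_NUZ thm_NUP thm_MIS thm_MIT hEXZ
  have hAMG : St_AMG := thm_AMG thm_EX0 thm_NUZ thm_HDS thm_SDS thm_MIS thm_MIT hDEL thm_EXT
    thm_AMT
  have hUMI : St_UMI := thm_UMI hDEL
  have hUMJ : St_UMJ := thm_UMJ hREP hAMG thm_HEX thm_AMT hDEL
  have hUML : St_UML := thm_UML hEND hFT hRLR hUMI hUMJ hDRE thm_HEX
  have hISO : St_ISO := thm_ISO hTOP hUML H31.thm_GLD (fun R _ X => H31.thm_CNT)
    (fun R _ X => H31.thm_H)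
  have hKME : St_KME := thm_KME thm_KMS
  have hKFW : St_KFW := thm_KFW thm_KMS thm_KPF hKME thm_KIN thm_HEX
  have hKCT : St_KCT := thm_KCT thm_KMS thm_KPF hKME thm_KIN thm_HEX
  exact thm_RSK (thm_BGE thm_HEX thm_HDS thm_SDS) thm_BQE thm_BCP hKFW hISO hKCT

end Pool.Agent.MVC
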