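import Pool.Agent.MVC.St3

/-!
# Compactness: a generic model (by an ultraproduct of finite products of models)
-/

set_option autoImplicit false
set_option linter.unusedSectionVars false
set_option linter.unusedVariables false

namespace Pool.Agent.MVC

open Set Ax FirstOrder Filter

/-- positive primitive formulas in reduced products -/
private theorem BCP_sat {R : Type} [Ring R] {A : Type} (l : Filter A) (N : A → Md R) {P : Type}
    [AddCommGroup P] [Module R P] (q : (∀ s, N s) →ₗ[R] P) (hq : Function.Surjective q)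
    (hq0 : ∀ x, q x = 0 ↔ ∀ᶠ s in l, x s = 0) {ι : Type} (φ : PP R ι) (x : ι → ∀ s, N s) :
    Sat φ P (fun k => q (x k)) ↔ ∀ᶠ s in l, Sat φ (N s) (fun k => x k s) := by
  have key : ∀ (y : ℕ → ∀ s, N s) (e : (ι ⊕ ℕ) →₀ R),
      (Finsupp.linearCombination R (Sum.elim (fun k => q (x k)) (fun n => q (y n))) e = 0) ↔
        ∀ᶠ s in l, Finsupp.linearCombination R (Sum.elim (fun k => x k s) (fun n => y n s)) e =
          0 := by
    intro y e
    have h1 : (Sum.elim (fun k => q (x k)) (fun n => q (y n))) = q ∘ Sum.elim x y := by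
      funext i
      cases i <;> rfl
    rw [h1, ← LinearMap.map_finsupp_linearCombination, hq0]
    refine eventually_congr (.of_forall fun s => ?_)
    have h2 := LinearMap.map_finsupp_linearCombination
      (LinearMap.proj (R := R) (φ := fun s => (N s : Type)) s) (g := Sum.elim x y) (l := e)
    have h3 : (LinearMap.proj (R := R) (φ := fun s => (N s : Type)) s) ∘ Sum.elim x y =
        Sum.elim (fun k => x k s) (fun n => y n s) := by
      funext i
      cases i <;> rfl
    rw [h3] at h2
    rw [← h2]
    rfl
  constructor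
  · rintro ⟨y, hy⟩
    choose z hz using fun n => hq (y n)
    have hy' : ∀ e ∈ {e | e ∈ φ}, ∀ᶠ s in l,
        Finsupp.linearCombination R (Sum.elim (fun k => x k s) (fun n => z n s)) e = 0 := by
      intro e he
      refine (key z e).1 ?_
      rw [funext hz]
      exact hy e he
    have h1 := (eventually_all_finite (List.finite_toSet φ)).2 hy'
    filter_upwards [h1] with s hs
    exact ⟨fun n => z n s, fun e he => hs e he⟩
  · intro h
    have h1 : ∀ s, ∃ y : ℕ → N s, Sat φ (N s) (fun k => x k s) → ∀ e ∈ φ,
        Finsupp.linearCombination R (Sum.elim (fun k => x k s) y) e = 0 := by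
      intro s
      by_cases hs : Sat φ (N s) (fun k => x k s)
      · obtain ⟨y, hy⟩ := hs
        exact ⟨y, fun _ => hy⟩
      · exact ⟨0, fun h => absurd h hs⟩
    choose y hy using h1
    refine ⟨fun n => q (fun s => y s n), fun e he => ?_⟩
    refine (key (fun n s => y s n) e).2 ?_
    filter_upwards [h] with s hs
    exact hy s hs e he

/-- the pairs of formulas without implication -/
private abbrev BPr {R : Type} [Ring R] (X : Ax R) : Type :=
  {p : (n : ℕ) × (PP R (Fin n) × PP R (Fin n)) // ¬ X.Le p.2.1 p.2.2}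

/-- finite products of models with given tuples -/
private theorem BCP_fin {R : Type} [Ring R] (T : (LMod R).Theory)
    (hprod : ∀ (M N : Type) [AddCommGroup M] [Module R M] [AddCommGroup N] [Module R N],
      Mods T M → Mods T N → Mods T (M × N))
    (M0 : Md R) (hM0 : Mods T M0) (s : Finset (BPr (AxT T) × ℕ)) :
    ∃ M : Md R, Mods T M ∧ ∃ c : ∀ a : BPr (AxT T) × ℕ, Fin a.1.1.1 → M,
      (∀ a ∈ s, Sat a.1.1.2.1 M (c a)) ∧ ∀ (p : BPr (AxT T)) (i j : ℕ), i ≠ j → (p, i) ∈ s →
        (p, j) ∈ s → ¬ Sat p.1.2.2 M (c (p, i) - c (p, j)) := by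
  classical
  induction s using Finset.induction_on with
  | empty =>
    exact ⟨M0, hM0, fun a => 0, fun a ha => absurd ha (Finset.notMem_empty a),
      fun p i j _ h => absurd h (Finset.notMem_empty _)⟩
  | insert b s hb ih =>
    obtain ⟨N, hN, c, hc1, hc2⟩ := ih
    -- a model with a tuple in the difference
    have h0 : ∃ M : Md R, Mods T M ∧ ∃ t : Fin b.1.1.1 → M, Sat b.1.1.2.1 M t ∧
        ¬ Sat b.1.1.2.2 M t := by
      by_contra hno
      refine b.1.2 ?_
      have h1 : (⟨b.1.1.1, b.1.1.2⟩ : (n : ℕ) × (PP R (Fin n) × PP R (Fin n))) ∈ AxT T := by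
        intro M _ _ hM x hx
        by_contra h
        exact hno ⟨⟨M⟩, hM, x, hx, h⟩
      intro M _ _ hM x hx
      exact hM _ h1 x hx
    obtain ⟨M, hM, t, ht, ht'⟩ := h0
    let u : ∀ a : BPr (AxT T) × ℕ, Fin a.1.1.1 → M := Function.update 0 b t
    have hub : u b = t := Function.update_self _ _ _
    have hua : ∀ a, a ≠ b → u a = 0 := fun a ha => Function.update_of_ne ha _ _
    let v : ∀ a : BPr (AxT T) × ℕ, Fin a.1.1.1 → N := Function.update c b 0
    have hvb : v b = 0 := Function.update_self _ _ _
    have hva : ∀ a, a ≠ b → v a = c a := fun a ha => Function.update_of_ne ha _ _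
    refine ⟨⟨M × N⟩, hprod M N hM hN, fun a k => (u a k, v a k), fun a ha => ?_,
      fun p i j hij hi hj h => ?_⟩
    · refine sat_prod.2 ?_
      show Sat _ M (u a) ∧ Sat _ N (v a)
      by_cases hab : a = b
      · subst hab
        rw [hub, hvb]
        exact ⟨ht, Sat.zero _⟩
      · rw [hua a hab, hva a hab]
        exact ⟨Sat.zero _, hc1 a ((Finset.mem_insert.1 ha).resolve_left hab)⟩
    · have h1 : Sat p.1.2.2 M (u (p, i) - u (p, j)) ∧ Sat p.1.2.2 N (v (p, i) - v (p, j)) :=
        sat_prod.1 h
      by_cases hib : (p, i) = b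
      · have hjb : (p, j) ≠ b := by
          rw [← hib]
          intro h2
          exact hij (congrArg Prod.snd h2).symm
        subst hib
        have h2 := h1.1
        rw [hub, hua _ hjb, sub_zero] at h2
        exact ht' h2
      · by_cases hjb : (p, j) = b
        · subst hjb
          have h2 := h1.1
          rw [hub, hua _ hib, zero_sub] at h2
          have h3 := h2.neg
          rw [neg_neg] at h3
          exact ht' h3
        · have h2 := h1.2
          rw [hva _ hib, hva _ hjb] at h2
          exact hc2 p i j hij ((Finset.mem_insert.1 hi).resolve_left hib)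
            ((Finset.mem_insert.1 hj).resolve_left hjb) h2

theorem thm_BCP : St_BCP := by
  intro R _ _ T hmod hprod hex
  obtain ⟨M0, hM0⟩ := hex
  have hfin := BCP_fin T hprod M0 hM0
  choose N hN c hc1 hc2 using hfin
  -- the ultrafilter
  let U : Ultrafilter (Finset (BPr (AxT T) × ℕ)) := Ultrafilter.of atTop
  have hU : ∀ a : BPr (AxT T) × ℕ, ∀ᶠ s in (U : Filter (Finset (BPr (AxT T) × ℕ))), a ∈ s := by
    intro a
    have h1 : ∀ᶠ s in (atTop : Filter (Finset (BPr (AxT T) × ℕ))), {a} ≤ s :=
      eventually_ge_atTop {a}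
    have h2 := (Ultrafilter.of_le (atTop : Filter (Finset (BPr (AxT T) × ℕ)))) h1
    filter_upwards [h2] with s hs
    exact hs (Finset.mem_singleton_self a)
  let _ : ∀ s, (LMod R).Structure (N s) := fun s => modStr R (N s)
  let S : (LMod R).Structure ((U : Filter (Finset (BPr (AxT T) × ℕ))).Product fun s =>
    (N s : Type)) := Language.Ultraproduct.structure
  have hS : @FirstOrder.Language.Theory.Model (LMod R) _ S T := by
    have : ∀ s, Nonempty (N s) := fun s => ⟨0⟩
    refine ⟨fun φ hφ => ?_⟩
    refine (Language.Ultraproduct.sentence_realize (u := U) φ).2 (.of_forall fun s => ?_)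
    exact (hN s).realize_of_mem φ hφ
  obtain ⟨g, m, hgm⟩ := hmod _ S hS
  have hfun : ∀ (n : ℕ) (f : (LMod R).Functions n) (x : Fin n → ∀ s, N s),
      @Language.Structure.funMap (LMod R) _ (@modStr R _ _ g m) n f (fun i =>
        ((x i : ∀ s, N s) : (U : Filter (Finset (BPr (AxT T) × ℕ))).Product fun s =>
          (N s : Type))) = ((fun s => @Language.Structure.funMap (LMod R) (N s) (modStr R (N s)) n f
            fun i => x i s) : (U : Filter (Finset (BPr (AxT T) × ℕ))).Product fun s =>
              (N s : Type)) := by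
    intro n f x
    rw [← hgm]
    exact Language.Ultraproduct.funMap_cast f x
  let q : (∀ s, N s) →ₗ[R] ((U : Filter (Finset (BPr (AxT T) × ℕ))).Product fun s =>
      (N s : Type)) :=
    { toFun := fun x => (x : (U : Filter (Finset (BPr (AxT T) × ℕ))).Product fun s =>
        (N s : Type))
      map_add' := fun x y => (hfun 2 ModFn.add ![x, y]).symm
      map_smul' := fun r x => (hfun 1 (ModFn.smul r) ![x]).symm }
  have hq : Function.Surjective q := Quotient.mk''_surjective
  have hq0 : ∀ x, q x = 0 ↔ ∀ᶠ s in (U : Filter (Finset (BPr (AxT T) × ℕ))), x s = 0 := by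
    intro x
    rw [← map_zero q]
    exact Quotient.eq''
  refine ⟨⟨(U : Filter (Finset (BPr (AxT T) × ℕ))).Product fun s => (N s : Type)⟩, ?_, ?_⟩
  · have h := hS
    rw [hgm] at h
    exact h
  · refine ⟨?_, ?_⟩
    · intro a ha x hx
      have h := hS
      rw [hgm] at h
      exact ha _ h x hx
    · intro n φ ψ hle
      let p : BPr (AxT T) := ⟨⟨n, (φ, ψ)⟩, hle⟩
      refine ⟨fun i k => q (fun s => c s (p, i) k), fun i => ?_, fun i j hij h => ?_⟩
      · refine (BCP_sat (U : Filter (Finset (BPr (AxT T) × ℕ))) N q hq hq0 φ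
          (fun k s => c s (p, i) k)).2 ?_
        filter_upwards [hU (p, i)] with s hs
        exact hc1 s (p, i) hs
      · have h1 : Sat ψ ((U : Filter (Finset (BPr (AxT T) × ℕ))).Product fun s => (N s : Type))
            (fun k => q (fun s => c s (p, i) k - c s (p, j) k)) := by
          have h2 : (fun k => q (fun s => c s (p, i) k - c s (p, j) k)) =
              (fun k => q (fun s => c s (p, i) k)) - (fun k => q (fun s => c s (p, j) k)) := by
            funext k
            exact map_sub q (fun s => c s (p, i) k) (fun s => c s (p, j) k)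
          rw [h2]
          exact h
        have h3 := (BCP_sat (U : Filter (Finset (BPr (AxT T) × ℕ))) N q hq hq0 ψ
          (fun k s => c s (p, i) k - c s (p, j) k)).1 h1
        obtain ⟨s, hs1, hs2, hs3⟩ := (h3.and ((hU (p, i)).and (hU (p, j)))).exists
        exact hc2 s p i j hij hs2 hs3 hs1

end Pool.Agent.MVC
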