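import Pool.Agent.MVC.St5

/-!
# Vaught's conjecture for modules: countably many completions
-/

set_option autoImplicit false
set_option linter.unusedSectionVars false
set_option linter.unusedVariables false

namespace Pool.Agent.MVC

open Set Ax FirstOrder Pool.Agent.Helper6.Str Pool.Agent.Helper5.DU

private theorem cpl_ctblRel (R : Type) [Countable R] (n : ℕ) : Countable ((LR R).Relations n) := by
  show Countable (ModRel R n)
  let F : ModRel R n → Option (Option R) := fun x => match x with
    | ModRel.zero => none
    | ModRel.smul r => some (some r)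
    | ModRel.add => some none
  have hF : Function.Injective F := by
    intro a b h
    cases a with
    | zero =>
      cases b
      rfl
    | smul r =>
      cases b with
      | smul r' =>
        have h1 : some (some r) = some (some r') := h
        rw [Option.some.injEq, Option.some.injEq] at h1
        rw [h1]
    | add =>
      cases b
      rfl
  exact hF.countable

private theorem cpl_ctblFn (R : Type) [Countable R] (n : ℕ) : Countable (ModFn R n) := by
  let F : ModFn R n → Option (Option R) := fun x => match x with
    | ModFn.zero => none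
    | ModFn.smul r => some (some r)
    | ModFn.add => some none
  have hF : Function.Injective F := by
    intro a b h
    cases a with
    | zero =>
      cases b
      rfl
    | smul r =>
      cases b with
      | smul r' =>
        have h1 : some (some r) = some (some r') := h
        rw [Option.some.injEq, Option.some.injEq] at h1
        rw [h1]
    | add =>
      cases b
      rfl
  exact hF.countable

/-- there are countably many sentences -/
private theorem cpl_ctblSent (R : Type) [Countable R] : Countable (LMod R).Sentence := by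
  have _ : ∀ n, Countable ((LMod R).Functions n) := fun n => cpl_ctblFn R n
  have _ : ∀ n, Countable ((LMod R).Relations n) := fun n => by
    show Countable Empty
    infer_instance
  have _ : Countable (LMod R).Symbols := by
    show Countable ((Σ n, (LMod R).Functions n) ⊕ (Σ n, (LMod R).Relations n))
    infer_instance
  exact inferInstanceAs (Countable ((LMod R).Formula Empty))

/-- the graph determines the structure -/
private theorem cpl_grph_inj {R M : Type} {S S' : (LMod R).Structure M} (h : grph S = grph S') :
    S = S' := by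
  have h1 : ∀ (n : ℕ) (r : ModRel R n) (v : Fin n → M),
      (grph S).RelMap (r : (LR R).Relations n) v = (grph S').RelMap (r : (LR R).Relations n) v := by
    intro n r v
    rw [h]
  apply FirstOrder.Language.Structure.ext
  · funext n f x
    exact match n, f, x with
      | _, ModFn.zero, x => by
        have h2 : (S.funMap (ModFn.zero : (LMod R).Functions 0) ![] =
            S.funMap (ModFn.zero : (LMod R).Functions 0) ![]) =
          (S'.funMap (ModFn.zero : (LMod R).Functions 0) ![] =
            S.funMap (ModFn.zero : (LMod R).Functions 0) ![]) :=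
          h1 1 ModRel.zero ![(S.funMap (ModFn.zero : (LMod R).Functions 0) ![])]
        have h3 : x = ![] := by
          funext i
          exact i.elim0
        rw [h3]
        exact (h2.mp rfl).symm
      | _, ModFn.smul r, x => by
        have h2 : (S.funMap (ModFn.smul r : (LMod R).Functions 1) ![x 0] =
            S.funMap (ModFn.smul r : (LMod R).Functions 1) ![x 0]) =
          (S'.funMap (ModFn.smul r : (LMod R).Functions 1) ![x 0] =
            S.funMap (ModFn.smul r : (LMod R).Functions 1) ![x 0]) :=
          h1 2 (ModRel.smul r) ![x 0, (S.funMap (ModFn.smul r : (LMod R).Functions 1) ![x 0])]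
        have h3 : x = ![x 0] := by
          funext i
          fin_cases i
          rfl
        rw [h3]
        exact (h2.mp rfl).symm
      | _, ModFn.add, x => by
        have h2 : (S.funMap (ModFn.add : (LMod R).Functions 2) ![x 0, x 1] =
            S.funMap (ModFn.add : (LMod R).Functions 2) ![x 0, x 1]) =
          (S'.funMap (ModFn.add : (LMod R).Functions 2) ![x 0, x 1] =
            S.funMap (ModFn.add : (LMod R).Functions 2) ![x 0, x 1]) :=
          h1 3 ModRel.add ![x 0, x 1, (S.funMap (ModFn.add : (LMod R).Functions 2) ![x 0, x 1])]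
        have h3 : x = ![x 0, x 1] := by
          funext i
          fin_cases i
          · rfl
          · rfl
        rw [h3]
        exact (h2.mp rfl).symm
  · funext n r
    exact nomatch r

private theorem cpl_model {R : Type} {T : (LMod R).Theory} {M N : Type}
    [S₁ : (LMod R).Structure M] [S₂ : (LMod R).Structure N]
    (e : FirstOrder.Language.Equiv (LMod R) M N)
    (h : @FirstOrder.Language.Theory.Model (LMod R) M S₁ T) :
    @FirstOrder.Language.Theory.Model (LMod R) N S₂ T :=
  FirstOrder.Language.StrongHomClass.theory_model e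

/-- the class is closed under isomorphism -/
private theorem cpl_kof {R : Type} (T : (LMod R).Theory) {S S' : (LR R).Structure ℕ} {e : ℕ ≃ ℕ}
    (he : RelIso S S' e) (hS : S ∈ Kof T) : S' ∈ Kof T := by
  obtain ⟨S₁, hS₁, rfl⟩ := hS
  refine ⟨@_root_.Equiv.inducedStructure (LMod R) ℕ ℕ S₁ e, ?_, ?_⟩
  · exact @cpl_model R T ℕ ℕ S₁ (@_root_.Equiv.inducedStructure (LMod R) ℕ ℕ S₁ e)
      (@_root_.Equiv.inducedStructureEquiv (LMod R) ℕ ℕ S₁ e) hS₁
  · apply FirstOrder.Language.Structure.ext
    · funext n f
      exact isEmptyElim f
    · funext n r v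
      apply propext
      refine (he.symm n r v).trans ?_
      exact match n, r, v with
        | _, ModRel.zero, v => by
          show S₁.funMap (ModFn.zero : (LMod R).Functions 0) ![] = e.symm (v 0) ↔
            e (S₁.funMap (ModFn.zero : (LMod R).Functions 0) (e.symm ∘ ![])) = v 0
          rw [_root_.Equiv.eq_symm_apply]
          have h1 : (e.symm ∘ ![] : Fin 0 → ℕ) = ![] := by
            funext i
            exact i.elim0
          rw [h1]
        | _, ModRel.smul r, v => by
          show S₁.funMap (ModFn.smul r : (LMod R).Functions 1) ![e.symm (v 0)] = e.symm (v 1) ↔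
            e (S₁.funMap (ModFn.smul r : (LMod R).Functions 1) (e.symm ∘ ![v 0])) = v 1
          rw [_root_.Equiv.eq_symm_apply]
          have h1 : (e.symm ∘ ![v 0] : Fin 1 → ℕ) = ![e.symm (v 0)] := by
            funext i
            fin_cases i
            rfl
          rw [h1]
        | _, ModRel.add, v => by
          show S₁.funMap (ModFn.add : (LMod R).Functions 2) ![e.symm (v 0), e.symm (v 1)] =
            e.symm (v 2) ↔
            e (S₁.funMap (ModFn.add : (LMod R).Functions 2) (e.symm ∘ ![v 0, v 1])) = v 2
          rw [_root_.Equiv.eq_symm_apply]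
          have h1 : (e.symm ∘ ![v 0, v 1] : Fin 2 → ℕ) = ![e.symm (v 0), e.symm (v 1)] := by
            funext i
            fin_cases i
            · rfl
            · rfl
          rw [h1]

private theorem cpl_mk {R : Type} {T : (LMod R).Theory} {S : (LMod R).Structure ℕ}
    (h : ∀ φ ∈ T, @FirstOrder.Language.Sentence.Realize (LMod R) ℕ S φ) :
    @FirstOrder.Language.Theory.Model (LMod R) ℕ S T :=
  ⟨h⟩

/-- the sentence `φ` holds -/
private theorem cpl_sent {R : Type} {T : (LMod R).Theory} {S : (LMod R).Structure ℕ}
    {φ : (LMod R).Sentence} (h : grph S ∈ Kof (T ∪ {φ})) :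
    @FirstOrder.Language.Sentence.Realize (LMod R) ℕ S φ := by
  obtain ⟨S', hS', hS⟩ := h
  rw [cpl_grph_inj hS]
  exact hS'.realize_of_mem φ (Or.inr rfl)

/-- countably many completions or perfectly many models -/
theorem thm_CPL (h1 : St_KMS) (h2 : St_KPF) : St_CPL := by
  intro R _ _ T hT hC
  by_cases hP : PerfMod T
  · exact Or.inr hP
  left
  have _ := cpl_ctblRel R
  have _ := cpl_ctblSent R
  have hPK : ¬ PerfK (Kof T) := fun h => hP (h2 R T h)
  obtain ⟨ρ, hρ⟩ := ctbl_of_props (h1 R T) hPK (n := 0) (ι := (LMod R).Sentence)
    (fun φ S' _ => S' ∈ Kof (T ∪ {φ})) (fun φ v => h1 R (T ∪ {φ})) (by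
      intro φ S S' e v he h
      exact cpl_kof (T ∪ {φ}) he h)
  have h6 : ∀ m : ℕ, ∃ g : ℕ → (LMod R).Structure ℕ, (ρ m).1 ∈ Kof T →
      ∀ S : (LMod R).Structure ℕ, (∀ φ : (LMod R).Sentence, (ρ m).1 ∈ Kof (T ∪ {φ}) →
        @FirstOrder.Language.Sentence.Realize (LMod R) ℕ S φ) →
      ∃ k : ℕ, Nonempty (@FirstOrder.Language.Equiv (LMod R) ℕ ℕ S (g k)) := by
    intro m
    by_cases h : (ρ m).1 ∈ Kof T
    · obtain ⟨S, hS, hS'⟩ := h
      obtain ⟨g, q, rfl⟩ := hT ℕ S hS
      obtain ⟨f, hf⟩ := hC g q hS
      refine ⟨f, fun _ S' hφ => hf S' ?_⟩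
      refine cpl_mk (fun φ hφ' => hφ φ ?_)
      refine ⟨@modStr R _ ℕ g q, cpl_mk (fun ψ hψ => ?_), hS'⟩
      rcases hψ with hψ | hψ
      · exact @FirstOrder.Language.Theory.realize_sentence_of_mem (LMod R) ℕ
          (@modStr R _ ℕ g q) T hS ψ hψ
      · rw [mem_singleton_iff] at hψ
        rw [hψ]
        exact hφ'
    · exact ⟨fun _ => ⟨fun _ _ => 0, fun {n} r => nomatch r⟩, fun h' => absurd h' h⟩
  choose f hf using h6
  refine ⟨fun j => f j.unpair.1 j.unpair.2, fun S hS => ?_⟩
  obtain ⟨m, hm, hm'⟩ := hρ (grph S) ⟨S, hS, rfl⟩ Fin.elim0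
  obtain ⟨k, hk⟩ := hf m hm S (fun φ hφ => cpl_sent ((hm' φ).2 hφ))
  refine ⟨Nat.pair m k, ?_⟩
  show Nonempty (@FirstOrder.Language.Equiv (LMod R) ℕ ℕ S
    (f (Nat.pair m k).unpair.1 (Nat.pair m k).unpair.2))
  rw [Nat.unpair_pair]
  exact hk

end Pool.Agent.MVC
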