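import Pool.Agent.MVC.St5

/-!
# Vaught's conjecture for modules: rings whose centre has no finite residue field

`thm_CTR`: if the centre `Z` of `R` has no finite residue field, then every `R`-module is generic for
the implications which hold in it.
-/

set_option autoImplicit false

namespace Pool.Agent.MVC

open Set Ax

/-- multiplication by a central element -/
private def mulC {R : Type} [Ring R] (M : Type) [AddCommGroup M] [Module R M]
    (c : Subring.center R) : M →ₗ[R] M where
  toFun m := (c : R) • m
  map_add' := smul_add _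
  map_smul' r m := by
    show (c : R) • r • m = r • (c : R) • m
    rw [smul_smul, smul_smul, Subring.mem_center_iff.1 c.2 r]

private theorem mulC_sub {R : Type} [Ring R] (M : Type) [AddCommGroup M] [Module R M]
    (c d : Subring.center R) {n : ℕ} (x : Fin n → M) :
    mulC M (c - d) ∘ x = mulC M c ∘ x - mulC M d ∘ x := by
  funext k
  show ((c - d : Subring.center R) : R) • x k = (c : R) • x k - (d : R) • x k
  rw [AddSubgroupClass.coe_sub, sub_smul]

/-- the central elements which send a tuple into a positive primitive subgroup -/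
private def idl {R : Type} [Ring R] {M : Type} [AddCommGroup M] [Module R M] {n : ℕ}
    (ψ : PP R (Fin n)) (x : Fin n → M) : Ideal (Subring.center R) where
  carrier := {c | Sat ψ M (mulC M c ∘ x)}
  add_mem' := by
    intro c d hc hd
    have h : mulC M (c + d) ∘ x = mulC M c ∘ x + mulC M d ∘ x := by
      funext k
      show ((c + d : Subring.center R) : R) • x k = (c : R) • x k + (d : R) • x k
      rw [Subring.coe_add, add_smul]
    show Sat ψ M (mulC M (c + d) ∘ x)
    rw [h]
    exact Sat.add hc hd
  zero_mem' := by
    have h : mulC M (0 : Subring.center R) ∘ x = 0 := by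
      funext k
      show ((0 : Subring.center R) : R) • x k = 0
      rw [Subring.coe_zero, zero_smul]
    show Sat ψ M (mulC M 0 ∘ x)
    rw [h]
    exact Sat.zero ψ
  smul_mem' := by
    intro c d hd
    have h : mulC M (c • d) ∘ x = mulC M c ∘ (mulC M d ∘ x) := by
      funext k
      show ((c * d : Subring.center R) : R) • x k = (c : R) • (d : R) • x k
      rw [Subring.coe_mul, mul_smul]
    show Sat ψ M (mulC M (c • d) ∘ x)
    rw [h]
    exact Sat.map hd (mulC M c)

theorem thm_CTR : St_CTR := by
  intro R _ hR M _ _
  refine ⟨fun a ha => ha, fun n φ ψ h => ?_⟩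
  obtain ⟨x, h1, h2⟩ : ∃ x : Fin n → M, Sat φ M x ∧ ¬ Sat ψ M x := by
    by_contra hc
    push Not at hc
    exact h (fun N _ _ hN => hN ⟨n, φ, ψ⟩ hc)
  have hI : idl ψ x ≠ ⊤ := by
    intro hI
    have h3 : (1 : Subring.center R) ∈ idl ψ x := hI ▸ Submodule.mem_top
    apply h2
    have h4 : mulC M (1 : Subring.center R) ∘ x = x := by
      funext k
      show ((1 : Subring.center R) : R) • x k = x k
      rw [Subring.coe_one, one_smul]
    rw [← h4]
    exact h3
  obtain ⟨J, hJ, hIJ⟩ := Ideal.exists_le_maximal _ hI
  have := hR J hJ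
  choose c hc using fun i : ℕ =>
    Ideal.Quotient.mk_surjective (Infinite.natEmbedding (Subring.center R ⧸ J) i)
  refine ⟨fun i => mulC M (c i) ∘ x, fun i => Sat.map h1 _, fun i j hij hs =>
    hij ((Infinite.natEmbedding (Subring.center R ⧸ J)).injective ?_)⟩
  rw [← hc i, ← hc j, Ideal.Quotient.eq]
  apply hIJ
  show Sat ψ M (mulC M (c i - c j) ∘ x)
  rw [mulC_sub]
  exact hs

end Pool.Agent.MVC
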