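import Pool.Agent.MVC.St5

/-!
# Positive primitive formulas are first-order formulas (helper73)
-/

set_option autoImplicit false
set_option linter.unusedSectionVars false
set_option linter.unusedVariables false

namespace Pool.Agent.MVC

open Set Ax FirstOrder

private theorem FOR_term (R : Type) [Ring R] {α : Type} (e : α →₀ R) :
    ∃ t : (LMod R).Term α, ∀ (M : Type) [AddCommGroup M] [Module R M] (v : α → M),
      @FirstOrder.Language.Term.realize (LMod R) M (modStr R M) α v t =
        Finsupp.linearCombination R v e := by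
  induction e using Finsupp.induction_linear with
  | zero =>
    refine ⟨FirstOrder.Language.Term.func (L := LMod R) (ModFn.zero : ModFn R 0)
      (fun i => i.elim0), fun M _ _ v => ?_⟩
    rw [map_zero]
    rfl
  | add f g hf hg =>
    obtain ⟨t, ht⟩ := hf
    obtain ⟨s, hs⟩ := hg
    refine ⟨FirstOrder.Language.Term.func (L := LMod R) (ModFn.add : ModFn R 2) ![t, s],
      fun M _ _ v => ?_⟩
    rw [map_add, ← ht M v, ← hs M v]
    rfl
  | single a b =>
    refine ⟨FirstOrder.Language.Term.func (L := LMod R) (ModFn.smul b : ModFn R 1)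
      (fun _ => FirstOrder.Language.Term.var a), fun M _ _ v => ?_⟩
    rw [Finsupp.linearCombination_single]
    rfl

private theorem FOR_conj (R : Type) [Ring R] {α : Type} (φ : List (α →₀ R)) :
    ∃ ψ : (LMod R).Formula α, ∀ (M : Type) [AddCommGroup M] [Module R M] (v : α → M),
      @FirstOrder.Language.Formula.Realize (LMod R) M (modStr R M) α ψ v ↔
        ∀ e ∈ φ, Finsupp.linearCombination R v e = 0 := by
  induction φ with
  | nil =>
    refine ⟨⊤, fun M _ _ v => ?_⟩
    rw [@FirstOrder.Language.Formula.realize_top (LMod R) M (modStr R M)]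
    exact ⟨fun _ e he => absurd he List.not_mem_nil, fun _ => trivial⟩
  | cons e l ih =>
    obtain ⟨ψ, hψ⟩ := ih
    obtain ⟨t, ht⟩ := FOR_term R e
    obtain ⟨s, hs⟩ := FOR_term R (0 : α →₀ R)
    refine ⟨(t.equal s) ⊓ ψ, fun M _ _ v => ?_⟩
    rw [@FirstOrder.Language.Formula.realize_inf (LMod R) M (modStr R M), hψ,
      @FirstOrder.Language.Formula.realize_equal (LMod R) M (modStr R M), ht, hs, map_zero,
      List.forall_mem_cons]

private theorem FOR_bd {R : Type} [Ring R] {n : ℕ} (φ : PP R (Fin n)) :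
    ∃ K : ℕ, ∀ e ∈ φ, ∀ m : ℕ, (Sum.inr m : Fin n ⊕ ℕ) ∈ e.support → m ≤ K := by
  induction φ with
  | nil => exact ⟨0, fun e he => absurd he List.not_mem_nil⟩
  | cons e l ih =>
    obtain ⟨K, hK⟩ := ih
    refine ⟨max K (e.support.sup (Sum.elim (fun _ => 0) id)), ?_⟩
    intro e' he' m hm
    rcases List.mem_cons.1 he' with rfl | h
    · exact le_trans (Finset.le_sup (f := (Sum.elim (fun _ => 0) id : Fin n ⊕ ℕ → ℕ)) hm)
        (le_max_right _ _)
    · exact le_trans (hK e' h m hm) (le_max_left _ _)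

theorem thm_FOR : St_FOR := by
  intro R _ n φ
  obtain ⟨K, hK⟩ := FOR_bd φ
  let f : ℕ → Fin (K + 1) := fun m => Fin.ofNat (K + 1) m
  have hf : ∀ m, m ≤ K → (f m).1 = m := fun m hm => Nat.mod_eq_of_lt (Nat.lt_succ_of_le hm)
  obtain ⟨ψ, hψ⟩ := FOR_conj R (φ.map (Finsupp.mapDomain
    (Sum.map id f : Fin n ⊕ ℕ → Fin n ⊕ Fin (K + 1))))
  refine ⟨ψ.iExs (Fin (K + 1)), fun M _ _ x => ?_⟩
  have h1 : ∀ (y : Fin (K + 1) → M) (e : (Fin n ⊕ ℕ) →₀ R),
      Finsupp.linearCombination R (Sum.elim x y) (Finsupp.mapDomain (Sum.map id f) e) =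
        Finsupp.linearCombination R (Sum.elim x (y ∘ f)) e := by
    intro y e
    rw [Finsupp.linearCombination_mapDomain]
    congr 2
    funext i
    cases i <;> rfl
  rw [@FirstOrder.Language.Formula.realize_iExs (LMod R) M (modStr R M)]
  constructor
  · rintro ⟨y, hy⟩
    rw [hψ] at hy
    refine ⟨y ∘ f, fun e he => ?_⟩
    rw [← h1]
    exact hy _ (List.mem_map_of_mem he)
  · rintro ⟨y, hy⟩
    refine ⟨fun k => y k.1, ?_⟩
    rw [hψ]
    intro e' he'
    obtain ⟨e, he, rfl⟩ := List.mem_map.1 he'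
    rw [h1, ← hy e he, Finsupp.linearCombination_apply, Finsupp.linearCombination_apply]
    refine Finset.sum_congr rfl fun i hi => ?_
    rcases i with i | m
    · rfl
    · show e (Sum.inr m) • y (f m).1 = e (Sum.inr m) • y m
      rw [hf m (hK e he m hi)]

end Pool.Agent.MVC
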