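import Pool.Agent.MVC.St5

/-!
# Vaught's conjecture for modules: idempotent modules are generic

If `M` and `M × M` are elementarily equivalent and `x₀` satisfies `φ` and not `ψ` in `M`, then for
each `k` there are `k` elements of `φ(M)` which are different modulo `ψ(M)`: if `x_1, ..., x_k` are
such elements, then `(x_1, 0), ..., (x_k, 0), (0, x₀)` are such elements of `M × M`, and the
existence of `k + 1` such elements is expressed by a sentence.
-/

set_option autoImplicit false
set_option linter.unusedSectionVars false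
set_option linter.unusedVariables false

namespace Pool.Agent.MVC

open Set Ax FirstOrder FirstOrder.Language

/-- there are `k` elements of `φ` which are different modulo `ψ` -/
private def IDM_P {R : Type} [Ring R] {n : ℕ} (φ ψ : PP R (Fin n)) (k : ℕ) (M : Type)
    [AddCommGroup M] [Module R M] : Prop :=
  ∃ x : Fin k → Fin n → M, (∀ i, Sat φ M (x i)) ∧ ∀ i j, i ≠ j → ¬ Sat ψ M (x i - x j)

/-- the sentence -/
private theorem IDM_sent (hF : St_FOR) {R : Type} [Ring R] {n : ℕ} (φ ψ : PP R (Fin n)) (k : ℕ) :
    ∃ σ : (LMod R).Sentence, ∀ (M : Type) [AddCommGroup M] [Module R M],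
      @FirstOrder.Language.Sentence.Realize (LMod R) M (modStr R M) σ ↔ IDM_P φ ψ k M := by
  classical
  have h1 : ∀ i : Fin k, IsPP (R := R) (ι := Fin (k * n))
      (fun M _ _ z => Sat φ M (z ∘ (fun a => finProdFinEquiv (i, a)))) :=
    fun i => (isPP_sat φ).comap _
  have h2 : ∀ p : Fin k × Fin k, IsPP (R := R) (ι := Fin (k * n))
      (fun M _ _ z => Sat ψ M (fun a => z (finProdFinEquiv (p.1, a)) -
        z (finProdFinEquiv (p.2, a)))) := by
    intro p
    refine ((isPP_sat ψ).subst (fun a : Fin n =>
      Finsupp.single (finProdFinEquiv (p.1, a)) (1 : R) -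
      Finsupp.single (finProdFinEquiv (p.2, a)) 1)).congr (fun M _ _ x => ?_)
    simp [map_sub]
  choose η hη using h1
  choose θ hθ using h2
  choose fη hfη using fun i => hF R (k * n) (η i)
  choose fθ hfθ using fun p => hF R (k * n) (θ p)
  obtain ⟨F, hFdef⟩ : ∃ F : (LMod R).Formula (Fin (k * n)), F =
    (BoundedFormula.iInf fη) ⊓ (BoundedFormula.iInf
      fun p : {p : Fin k × Fin k // p.1 ≠ p.2} => (fθ p.1).not) := ⟨_, rfl⟩
  refine ⟨(Formula.relabel (Sum.inr : Fin (k * n) → Empty ⊕ Fin (k * n)) F).iExs _,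
    fun M _ _ => ?_⟩
  have hFM : ∀ z : Fin (k * n) → M,
      @FirstOrder.Language.Formula.Realize (LMod R) M (modStr R M) (Fin (k * n)) F z ↔
      (∀ i : Fin k, Sat φ M (fun a => z (finProdFinEquiv (i, a)))) ∧ ∀ p : Fin k × Fin k,
        p.1 ≠ p.2 → ¬ Sat ψ M (fun a => z (finProdFinEquiv (p.1, a)) -
          z (finProdFinEquiv (p.2, a))) := by
    intro z
    let _ := modStr R M
    rw [hFdef]
    unfold Formula.Realize
    rw [BoundedFormula.realize_inf, BoundedFormula.realize_iInf, BoundedFormula.realize_iInf]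
    refine and_congr (forall_congr' fun i => ?_) ?_
    · have h3 := hfη i M z
      have h4 := hη i M z
      exact h3.trans h4.symm
    · constructor
      · intro h p hp hs
        have h5 := h ⟨p, hp⟩
        rw [BoundedFormula.realize_not] at h5
        exact h5 ((hfθ p M z).2 ((hθ p M z).1 hs))
      · intro h p
        rw [BoundedFormula.realize_not]
        intro hs
        exact h p.1 p.2 ((hθ p.1 M z).2 ((hfθ p.1 M z).1 hs))
  let _ := modStr R M
  have h6 : @FirstOrder.Language.Sentence.Realize (LMod R) M (modStr R M)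
      ((Formula.relabel (Sum.inr : Fin (k * n) → Empty ⊕ Fin (k * n)) F).iExs _) ↔
      ∃ z : Fin (k * n) → M, F.Realize z := by
    unfold Sentence.Realize
    rw [Formula.realize_iExs]
    refine exists_congr fun z => ?_
    rw [Formula.realize_relabel]
    rfl
  rw [h6]
  constructor
  · rintro ⟨z, hz⟩
    obtain ⟨h7, h8⟩ := (hFM z).1 hz
    exact ⟨fun i a => z (finProdFinEquiv (i, a)), h7, fun i j hij => h8 (i, j) hij⟩
  · rintro ⟨x, h7, h8⟩
    refine ⟨fun q => x (finProdFinEquiv.symm q).1 (finProdFinEquiv.symm q).2, (hFM _).2 ?_⟩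
    simp only [Equiv.symm_apply_apply]
    exact ⟨h7, fun p hp => h8 p.1 p.2 hp⟩

/-- infinitely many elements -/
private theorem IDM_inf {R : Type} [Ring R] {n : ℕ} (φ ψ : PP R (Fin n)) (M : Type)
    [AddCommGroup M] [Module R M] (h : ∀ k, IDM_P φ ψ k M) :
    ∃ x : ℕ → Fin n → M, (∀ i, Sat φ M (x i)) ∧ ∀ i j, i ≠ j → ¬ Sat ψ M (x i - x j) := by
  have hinf : Infinite (satGroup φ M ⧸ (satGroup ψ M).addSubgroupOf (satGroup φ M)) := by
    by_contra hfin
    rw [not_infinite_iff_finite] at hfin
    have := Fintype.ofFinite (satGroup φ M ⧸ (satGroup ψ M).addSubgroupOf (satGroup φ M))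
    obtain ⟨x, hx1, hx2⟩ := h (Fintype.card
      (satGroup φ M ⧸ (satGroup ψ M).addSubgroupOf (satGroup φ M)) + 1)
    have hinj : Function.Injective (fun i => (QuotientAddGroup.mk
        (⟨x i, hx1 i⟩ : satGroup φ M) :
        satGroup φ M ⧸ (satGroup ψ M).addSubgroupOf (satGroup φ M))) := by
      intro i j hij
      by_contra hne
      have h1 := (QuotientAddGroup.eq).1 hij
      rw [AddSubgroup.mem_addSubgroupOf] at h1
      have h2 : Sat ψ M (-x i + x j) := h1
      apply hx2 j i (Ne.symm hne)
      have h3 : x j - x i = -x i + x j := by abel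
      rw [h3]
      exact h2
    have h4 := Fintype.card_le_of_injective _ hinj
    rw [Fintype.card_fin] at h4
    omega
  let f := Infinite.natEmbedding
    (satGroup φ M ⧸ (satGroup ψ M).addSubgroupOf (satGroup φ M))
  refine ⟨fun i => ((Quotient.out (f i) : satGroup φ M) : Fin n → M),
    fun i => (Quotient.out (f i) : satGroup φ M).2, fun i j hij hs => hij ?_⟩
  apply f.injective
  rw [← QuotientAddGroup.out_eq' (f i), ← QuotientAddGroup.out_eq' (f j), eq_comm,
    QuotientAddGroup.eq, AddSubgroup.mem_addSubgroupOf]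
  have h3 : (((-(Quotient.out (f j) : satGroup φ M) + (Quotient.out (f i) : satGroup φ M)) :
      satGroup φ M) : Fin n → M) =
      ((Quotient.out (f i) : satGroup φ M) : Fin n → M) -
        ((Quotient.out (f j) : satGroup φ M) : Fin n → M) := by
    push_cast
    abel
  rw [h3]
  exact hs

/-- **IDM** -/
theorem thm_IDM (h : St_FOR) : St_IDM := by
  intro R _ M _ _ hM
  refine ⟨fun a ha => ha, fun n φ ψ hle => ?_⟩
  obtain ⟨x₀, hx₀, hx₀'⟩ : ∃ x : Fin n → M, Sat φ M x ∧ ¬ Sat ψ M x := by
    by_contra hcon
    push Not at hcon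
    apply hle
    intro N _ _ hN x hx
    exact hN ⟨n, φ, ψ⟩ hcon x hx
  apply IDM_inf φ ψ M
  intro k
  induction k with
  | zero => exact ⟨fun i => i.elim0, fun i => i.elim0, fun i => i.elim0⟩
  | succ k ih =>
    obtain ⟨x, hx1, hx2⟩ := ih
    obtain ⟨σ, hσ⟩ := IDM_sent h φ ψ (k + 1)
    by_contra hno
    have h1 : (σ.not : (LMod R).Sentence) ∈ Th R M := by
      show @FirstOrder.Language.Sentence.Realize (LMod R) M (modStr R M) σ.not
      rw [Sentence.realize_not, hσ M]
      exact hno
    have h2 : @FirstOrder.Language.Sentence.Realize (LMod R) (M × M) (modStr R (M × M)) σ.not :=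
      @FirstOrder.Language.Theory.Model.realize_of_mem _ _ (modStr R (M × M)) _ hM _ h1
    rw [Sentence.realize_not, hσ (M × M)] at h2
    apply h2
    refine ⟨Fin.snoc (fun i : Fin k => (fun a => (x i a, 0) : Fin n → M × M))
      (fun a => (0, x₀ a)), fun i => ?_, fun i j hij hs => ?_⟩
    · refine Fin.lastCases ?_ (fun i => ?_) i
      · rw [Fin.snoc_last, sat_prod]
        exact ⟨Sat.zero φ, hx₀⟩
      · rw [Fin.snoc_castSucc, sat_prod]
        exact ⟨hx1 i, Sat.zero φ⟩
    · revert hij hs
      refine Fin.lastCases ?_ (fun i => ?_) i <;> refine Fin.lastCases ?_ (fun j => ?_) j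
      · intro hij
        exact absurd rfl hij
      · intro hij hs
        rw [Fin.snoc_last, Fin.snoc_castSucc, sat_prod] at hs
        apply hx₀'
        have h3 := hs.2
        simp only [Pi.sub_apply, Prod.snd_sub, sub_zero] at h3
        exact h3
      · intro hij hs
        rw [Fin.snoc_last, Fin.snoc_castSucc, sat_prod] at hs
        apply hx₀'
        have h3 := hs.2.neg
        have h4 : (-fun a : Fin n => ((((fun a => (x i a, 0)) : Fin n → M × M) -
            ((fun a => (0, x₀ a)) : Fin n → M × M)) a).2) = x₀ := by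
          funext a
          simp
        rw [h4] at h3
        exact h3
      · intro hij hs
        rw [Fin.snoc_castSucc, Fin.snoc_castSucc, sat_prod] at hs
        apply hx2 i j (fun he => hij (by rw [he]))
        exact hs.1

end Pool.Agent.MVC
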