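import Pool.Agent.MVC.St

/-!
# MVC [RLR]: Lemma R, an infinite irredundant family in a right module which is not finitely
generated, over a ring with the descending chain condition for principal left ideals (helper49)
-/

set_option autoImplicit false

namespace Pool.Agent.MVC

open MulOpposite

private theorem RLR_ss {L : Type} [Ring L] (hs : IsSemisimpleRing (L ⧸ Ring.jacobson L))
    (Q : Type 1) [AddCommGroup Q] [Module Lᵐᵒᵖ Q]
    (hQ : ∀ a ∈ Ring.jacobson L, ∀ x : Q, op a • x = 0) : IsSemisimpleModule Lᵐᵒᵖ Q := by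
  let φ : Lᵐᵒᵖ →+* (L ⧸ Ring.jacobson L)ᵐᵒᵖ := (Ideal.Quotient.mk (Ring.jacobson L)).op
  have hφ : Function.Surjective φ := by
    intro y
    obtain ⟨x, hx⟩ := Ideal.Quotient.mk_surjective (unop y)
    exact ⟨op x, congrArg op hx⟩
  have h1 : IsSemisimpleRing (Lᵐᵒᵖ ⧸ RingHom.ker φ) :=
    (RingHom.quotientKerEquivOfSurjective hφ).symm.isSemisimpleRing
  have h2 : Module.IsTorsionBySet Lᵐᵒᵖ Q (RingHom.ker φ : Set Lᵐᵒᵖ) := by
    rintro x ⟨a, ha⟩
    have h3 : φ a = 0 := ha
    have h4 : Ideal.Quotient.mk (Ring.jacobson L) (unop a) = 0 := congrArg unop h3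
    exact hQ (unop a) (Ideal.Quotient.eq_zero_iff_mem.1 h4) x
  let _ := h2.module
  exact h2.isSemisimpleModule_iff.1 inferInstance

private theorem RLR_next {L : Type} [Ring L] (N : Type 1) [AddCommGroup N] [Module Lᵐᵒᵖ N]
    (hN : Submodule.span Lᵐᵒᵖ {y : N | ∃ x : N, ∃ a ∈ Ring.jacobson L, y = op a • x} = ⊤)
    (a : L) (x : N) (hx : op a • x ≠ 0) :
    ∃ (f : L) (x' : N), f ∈ Ring.jacobson L ∧ op (f * a) • x' ≠ 0 := by
  by_contra hcon
  push Not at hcon
  have h1 : ∀ x ∈ Submodule.span Lᵐᵒᵖ {y : N | ∃ x : N, ∃ a ∈ Ring.jacobson L, y = op a • x},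
      ∀ r : Lᵐᵒᵖ, op a • (r • x) = 0 := by
    intro x hx
    induction hx using Submodule.span_induction with
    | mem x hx =>
      obtain ⟨x', f, hf, rfl⟩ := hx
      intro r
      have h2 := hcon (f * unop r) x' (Ideal.mul_mem_right _ _ hf)
      rw [← h2, smul_smul, smul_smul, mul_assoc]
      rfl
    | zero => intro r; rw [smul_zero, smul_zero]
    | add x y _ _ hx hy => intro r; rw [smul_add, smul_add, hx r, hy r, add_zero]
    | smul s x _ hx => intro r; rw [smul_smul r s x]; exact hx _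
  have h2 := h1 x (by rw [hN]; trivial) 1
  rw [one_smul] at h2
  exact hx h2

private theorem RLR_nak {L : Type} [Ring L]
    (hT : ∀ f : ℕ → L, (∀ i, f i ∈ Ring.jacobson L) → ∃ n, prs f n = 0)
    (N : Type 1) [AddCommGroup N] [Module Lᵐᵒᵖ N]
    (hN : Submodule.span Lᵐᵒᵖ {y : N | ∃ x : N, ∃ a ∈ Ring.jacobson L, y = op a • x} = ⊤)
    (x : N) : x = 0 := by
  by_contra hx
  choose! f x' hf hfx using fun (a : L) (x : N) => RLR_next N hN a x
  -- the sequence of pairs
  let p : ℕ → L × N := fun n => Nat.rec (1, x) (fun _ q => (f q.1 q.2 * q.1, x' q.1 q.2)) n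
  have hp : ∀ n, op (p n).1 • (p n).2 ≠ 0 := by
    intro n
    induction n with
    | zero =>
      show op (1 : L) • x ≠ 0
      rw [op_one, one_smul]
      exact hx
    | succ n ih => exact hfx _ _ ih
  let F : ℕ → L := fun n => f (p n).1 (p n).2
  have hF : ∀ n, prs F n = (p n).1 := by
    intro n
    induction n with
    | zero => rfl
    | succ n ih =>
      show F n * prs F n = _
      rw [ih]
  obtain ⟨n, hn⟩ := hT F (fun i => hf _ _ (hp i))
  rw [hF] at hn
  have h1 := hp n
  rw [hn, op_zero, zero_smul] at h1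
  exact h1 rfl

private theorem RLR_seq {A : Type} [Ring A] (Q : Type 1) [AddCommGroup Q] [Module A Q]
    (hs : IsSemisimpleModule A Q) (hQ : ¬ Module.Finite A Q) :
    ∃ x : ℕ → Q, ∀ k, x k ≠ 0 ∧ Disjoint (Submodule.span A (x '' {j | j < k}))
      (Submodule.span A {x k}) := by
  have h1 : ∀ F : Submodule A Q, F.FG → ∃ x : Q, x ≠ 0 ∧ Disjoint F (Submodule.span A {x}) := by
    intro F hF
    have hne : F ≠ ⊤ := fun h => hQ ⟨h ▸ hF⟩
    obtain ⟨C, hC⟩ := exists_isCompl F
    have hC0 : C ≠ ⊥ := by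
      intro h
      have h2 := hC.sup_eq_top
      rw [h, sup_bot_eq] at h2
      exact hne h2
    obtain ⟨x, hx, hx0⟩ := Submodule.exists_mem_ne_zero_of_ne_bot hC0
    exact ⟨x, hx0, hC.disjoint.mono_right ((Submodule.span_singleton_le_iff_mem _ _).2 hx)⟩
  choose! g hg0 hg using h1
  let F : ℕ → Submodule A Q := fun n => Nat.rec ⊥ (fun _ G => G ⊔ Submodule.span A {g G}) n
  have hFs : ∀ n, F (n + 1) = F n ⊔ Submodule.span A {g (F n)} := fun n => rfl
  have hFG : ∀ n, (F n).FG := by
    intro n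
    induction n with
    | zero => exact Submodule.fg_bot
    | succ n ih =>
      rw [hFs]
      exact ih.sup (Submodule.fg_span_singleton _)
  have hspan : ∀ n, Submodule.span A ((fun k => g (F k)) '' {j | j < n}) = F n := by
    intro n
    induction n with
    | zero =>
      have h2 : {j : ℕ | j < 0} = ∅ := by
        ext j
        simp
      rw [h2, Set.image_empty, Submodule.span_empty]
      rfl
    | succ n ih =>
      have h2 : {j : ℕ | j < n + 1} = {j | j < n} ∪ {n} := by
        ext j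
        simp only [Set.mem_ofPred_eq, Set.mem_union, Set.mem_singleton_iff]
        omega
      rw [h2, Set.image_union, Submodule.span_union, ih, Set.image_singleton, hFs]
  refine ⟨fun k => g (F k), fun k => ⟨hg0 _ (hFG k), ?_⟩⟩
  rw [hspan]
  exact hg _ (hFG k)

private theorem RLR_irr {A : Type} [Ring A] (Q : Type 1) [AddCommGroup Q] [Module A Q]
    (x : ℕ → Q) (hx : ∀ k, x k ≠ 0 ∧ Disjoint (Submodule.span A (x '' {j | j < k}))
      (Submodule.span A {x k})) (k : ℕ) : x k ∉ Submodule.span A (x '' {j | j ≠ k}) := by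
  -- the finite version
  have h1 : ∀ n, x k ∉ Submodule.span A (x '' {j | j < n ∧ j ≠ k}) := by
    intro n
    induction n with
    | zero =>
      have h2 : {j : ℕ | j < 0 ∧ j ≠ k} = ∅ := by
        ext j
        simp
      rw [h2, Set.image_empty, Submodule.span_empty, Submodule.mem_bot]
      exact (hx k).1
    | succ n ih =>
      intro hmem
      rcases lt_or_ge k n with hkn | hkn
      · have h2 : {j : ℕ | j < n + 1 ∧ j ≠ k} = {j | j < n ∧ j ≠ k} ∪ {n} := by
          ext j
          simp only [Set.mem_ofPred_eq, Set.mem_union, Set.mem_singleton_iff]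
          omega
        rw [h2, Set.image_union, Submodule.span_union, Set.image_singleton] at hmem
        obtain ⟨u, hu, v, hv, huv⟩ := Submodule.mem_sup.1 hmem
        have h3 : Submodule.span A (x '' {j | j < n ∧ j ≠ k}) ≤
            Submodule.span A (x '' {j | j < n}) :=
          Submodule.span_mono (Set.image_mono fun j hj => hj.1)
        have h4 : v ∈ Submodule.span A (x '' {j | j < n}) := by
          have h5 : v = x k - u := by rw [← huv, add_sub_cancel_left]
          rw [h5]
          exact Submodule.sub_mem _ (Submodule.subset_span ⟨k, hkn, rfl⟩) (h3 hu)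
        have h5 : v = 0 := Submodule.disjoint_def.1 (hx n).2 v h4 hv
        rw [h5, add_zero] at huv
        rw [huv] at hu
        exact ih hu
      · have h2 : x k ∈ Submodule.span A (x '' {j | j < k}) := by
          refine Submodule.span_mono (Set.image_mono ?_) hmem
          intro j hj
          have h3 : j < n + 1 := hj.1
          have h4 : j ≠ k := hj.2
          show j < k
          omega
        exact (hx k).1 (Submodule.disjoint_def.1 (hx k).2 _ h2
          (Submodule.mem_span_singleton_self _))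
  intro hmem
  have h2 : x '' {j | j ≠ k} = ⋃ n, x '' {j | j < n ∧ j ≠ k} := by
    ext y
    simp only [Set.mem_image, Set.mem_ofPred_eq, Set.mem_iUnion]
    constructor
    · rintro ⟨j, hj, rfl⟩
      exact ⟨j + 1, j, ⟨Nat.lt_succ_self j, hj⟩, rfl⟩
    · rintro ⟨n, j, ⟨-, hj⟩, rfl⟩
      exact ⟨j, hj, rfl⟩
  rw [h2, Submodule.span_iUnion] at hmem
  have hdir : Directed (· ≤ ·) fun n => Submodule.span A (x '' {j | j < n ∧ j ≠ k}) :=
    (Monotone.directed_le fun a b hab => Submodule.span_mono (Set.image_mono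
      fun j hj => ⟨lt_of_lt_of_le hj.1 hab, hj.2⟩))
  obtain ⟨n, hn⟩ := (Submodule.mem_iSup_of_directed _ hdir).1 hmem
  exact h1 n hn

/-- 5.2 (d), Lemma R -/
theorem thm_RLR (h1 : St_RTN) (h2 : St_RSS) : St_RLR := by
  intro L _ hL T _ _ hfin
  have hT := h1 L hL
  have hs := (h2 L hL).1
  set TJ : Submodule Lᵐᵒᵖ T := Submodule.span Lᵐᵒᵖ
    {y : T | ∃ x : T, ∃ a ∈ Ring.jacobson L, y = op a • x} with hTJ
  have hss : IsSemisimpleModule Lᵐᵒᵖ (T ⧸ TJ) := by
    refine RLR_ss hs _ fun a ha x => ?_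
    obtain ⟨x, rfl⟩ := TJ.mkQ_surjective x
    rw [← map_smul, Submodule.mkQ_apply, Submodule.Quotient.mk_eq_zero]
    exact Submodule.subset_span ⟨x, a, ha, rfl⟩
  have hnf : ¬ Module.Finite Lᵐᵒᵖ (T ⧸ TJ) := by
    intro hf
    apply hfin
    obtain ⟨S, hS⟩ := hf.fg_top
    choose l hl using fun s : T ⧸ TJ => TJ.mkQ_surjective s
    classical
    set F : Submodule Lᵐᵒᵖ T := Submodule.span Lᵐᵒᵖ (l '' (S : Set (T ⧸ TJ))) with hF
    have hFG : F.FG := by
      refine ⟨S.image l, ?_⟩
      rw [Finset.coe_image]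
    have hmap : F.map TJ.mkQ = ⊤ := by
      rw [hF, Submodule.map_span, Set.image_image, ← hS]
      congr 1
      ext s
      simp only [Set.mem_image, hl]
      constructor
      · rintro ⟨s', hs', rfl⟩
        exact hs'
      · intro hs'
        exact ⟨s, hs', rfl⟩
    have hsup : F ⊔ TJ = ⊤ := by
      have h3 := Submodule.comap_map_mkQ TJ F
      rw [hmap, Submodule.comap_top] at h3
      rw [sup_comm, ← h3]
    have hN : Submodule.span Lᵐᵒᵖ
        {y : T ⧸ F | ∃ x : T ⧸ F, ∃ a ∈ Ring.jacobson L, y = op a • x} = ⊤ := by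
      have h3 : TJ.map F.mkQ = ⊤ := by
        have h4 : (F ⊔ TJ).map F.mkQ = ⊤ := by
          rw [hsup, Submodule.map_top, Submodule.range_mkQ]
        rw [Submodule.map_sup, Submodule.mkQ_map_self, bot_sup_eq] at h4
        exact h4
      rw [eq_top_iff, ← h3, hTJ, Submodule.map_span]
      refine Submodule.span_mono ?_
      rintro _ ⟨_, ⟨x, a, ha, rfl⟩, rfl⟩
      exact ⟨F.mkQ x, a, ha, by rw [map_smul]⟩
    have hz := RLR_nak hT (T ⧸ F) hN
    have hFtop : F = ⊤ := by
      rw [eq_top_iff]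
      intro x _
      have h3 := hz (F.mkQ x)
      rwa [Submodule.mkQ_apply, Submodule.Quotient.mk_eq_zero] at h3
    exact ⟨hFtop ▸ hFG⟩
  obtain ⟨x, hx⟩ := RLR_seq (T ⧸ TJ) hss hnf
  choose m hm using fun k => TJ.mkQ_surjective (x k)
  refine ⟨m, fun k hk => RLR_irr (T ⧸ TJ) x hx k ?_⟩
  have h3 : TJ.mkQ (m k) ∈ (Submodule.span Lᵐᵒᵖ (m '' {j | j ≠ k})).map TJ.mkQ :=
    Submodule.mem_map_of_mem hk
  rw [Submodule.map_span, Set.image_image, hm] at h3
  have h4 : (fun j => TJ.mkQ (m j)) = x := funext hm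
  rwa [h4] at h3

end Pool.Agent.MVC
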