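import Pool.Agent.MVC.RS3

/-!
# Vaught's conjecture for modules: the final statement, three sufficient conditions
-/

set_option autoImplicit false
set_option linter.unusedSectionVars false
set_option linter.unusedVariables false

namespace Pool.Agent.MVC

open Set Ax FirstOrder

/-- The centre of `R` has no finite residue field. -/
def NoFinRes (R : Type) [Ring R] : Prop :=
  ∀ I : Ideal (Subring.center R), I.IsMaximal → Infinite (Subring.center R ⧸ I)

/-- `R` is an algebra over an infinite field. -/
def InfAlg (R : Type) [Ring R] : Prop :=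
  ∃ (k : Type) (_ : Field k), Infinite k ∧ Nonempty (Algebra k R)

/-- `M` is a direct summand of `N`. -/
def Summand (R : Type) [Ring R] (M N : Type) [AddCommGroup M] [Module R M] [AddCommGroup N]
    [Module R N] : Prop :=
  ∃ (i : M →ₗ[R] N) (p : N →ₗ[R] M), ∀ x, p (i x) = x

/-- Each model of `T` is a direct summand of a model `M'` of `T` which is elementarily equivalent to
`M' × M'`. -/
def IdemModels {R : Type} [Ring R] (T : (LMod R).Theory) : Prop :=
  ∀ (M : Type) [AddCommGroup M] [Module R M], Mods T M →
    ∃ (M' : Type) (_ : AddCommGroup M') (_ : Module R M'), Mods T M' ∧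
      Th R (M' × M') = Th R M' ∧ Summand R M M'

/-- The final statement. -/
def St_RS4 : Prop := ∀ (R : Type) [Ring R] [Countable R] (T : (LMod R).Theory), ModTh T →
  (InfAlg R ∨ NoFinRes R ∨ SumCl T ∨ IdemModels T) → CtblMod T ∨ PerfMod T

theorem InfAlg.noFinRes {R : Type} [Ring R] (h : InfAlg R) : NoFinRes R := by
  obtain ⟨k, _, _, ⟨_⟩⟩ := h
  intro I hI
  let f : k →+* Subring.center R :=
    { toFun := fun a => ⟨algebraMap k R a, Subring.mem_center_iff.mpr fun g =>
        (Algebra.commutes a g).symm⟩
      map_one' := by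
        apply Subtype.ext
        simp
      map_mul' := fun a b => by
        apply Subtype.ext
        simp
      map_zero' := by
        apply Subtype.ext
        simp
      map_add' := fun a b => by
        apply Subtype.ext
        simp }
  haveI : Nontrivial (Subring.center R ⧸ I) := Ideal.Quotient.nontrivial_iff.mpr hI.ne_top
  exact Infinite.of_injective ((Ideal.Quotient.mk I).comp f) (RingHom.injective _)

theorem Summand.own {R : Type} [Ring R] {M N : Type} [AddCommGroup M] [Module R M]
    [AddCommGroup N] [Module R N] (h : Summand R M N) : (Own R N).In M := by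
  obtain ⟨i, p, hp⟩ := h
  intro a ha x hx
  have h1 := ha (i ∘ x) (hx.map i)
  have h2 := h1.map p
  have h3 : p ∘ (i ∘ x) = x := by
    funext j
    exact hp (x j)
  rwa [h3] at h2

theorem thm_RS4 (h : St_RSK) (hQ : St_BQE) (hO : St_OWN) (hG : St_GEQ) (hC : St_CPL)
    (hI : St_IDM) (hZ : St_CTR) : St_RS4 := by
  intro R _ _ T hT hh
  have h3 := thm_RS3 h hQ hO hG hC R T hT
  have hz : NoFinRes R → CtblMod T ∨ PerfMod T := fun hz => h3 fun M _ _ hM =>
    ⟨M, _, _, hM, hZ R hz M, (hZ R hz M).1⟩
  rcases hh with hh | hh | hh | hh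
  · exact hz hh.noFinRes
  · exact hz hh
  · rcases thm_RS2 h R T hT hh with hp | hp
    · exact Or.inr hp
    · exact Or.inl hp.1
  · refine h3 fun M _ _ hM => ?_
    obtain ⟨M', _, _, hM', he, hs⟩ := hh M hM
    exact ⟨M', _, _, hM', hI R M' (he ▸ mods_th R (M' × M')), hs.own⟩

end Pool.Agent.MVC
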