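import Pool.Agent.MVC.AsmH
import Pool.Agent.MVC.RS4
import Pool.Agent.MVC.RLR
import Pool.Agent.MVC.FOR
import Pool.Agent.MVC.OWN
import Pool.Agent.MVC.GEQ
import Pool.Agent.MVC.IDM
import Pool.Agent.MVC.CTR
import Pool.Agent.MVC.CPL

/-!
# Vaught's conjecture for modules over algebras over infinite fields

Let `R` be a countable ring and let `T` be a first-order theory of `R`-modules, complete or not. The
dichotomy of Vaught's conjecture holds for `T`

* if `R` is an algebra over an infinite field, or more generally if the centre of `R` has no finite residue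
  field;
* over all countable rings `R`, if the models of `T` are closed under direct sums, or if each model of `T`
  is a direct summand of a model `M'` of `T` which is elementarily equivalent to `M' × M'`.
-/

set_option autoImplicit false

namespace Pool.Agent.MVC.CAND

open FirstOrder Pool.Agent.MVC

theorem result (R : Type) [Ring R] [Countable R] (T : (LMod R).Theory) (hT : ModTh T)
    (h : InfAlg R ∨ NoFinRes R ∨ SumCl T ∨ IdemModels T) : CtblMod T ∨ PerfMod T :=
  thm_RS4 (asm (thm_RLR thm_RTN thm_RSS)) thm_BQE (thm_OWN thm_FOR) (thm_GEQ thm_FOR)
    (thm_CPL thm_KMS thm_KPF) (thm_IDM thm_FOR) thm_CTR R T hT h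

end Pool.Agent.MVC.CAND
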