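import Mathlib

/-!
# Vaught's conjecture for modules: positive primitive formulas, classes, types, level-one groups
-/

set_option autoImplicit false
set_option linter.unusedSectionVars false
set_option linter.unusedVariables false

namespace Pool.Agent.MVC

open Set

/-- A positive primitive formula with free variables `ι`: finitely many linear equations in the
free variables and in bound variables `ℕ`. -/
abbrev PP (R : Type) [Ring R] (ι : Type) : Type := List ((ι ⊕ ℕ) →₀ R)

section

variable {R : Type} [Ring R] {ι κ : Type}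

/-- satisfaction of a positive primitive formula -/
def Sat (φ : PP R ι) (M : Type) [AddCommGroup M] [Module R M] (x : ι → M) : Prop :=
  ∃ y : ℕ → M, ∀ e ∈ φ, Finsupp.linearCombination R (Sum.elim x y) e = 0

/-- bundled modules -/
structure Md (R : Type) [Ring R] : Type 1 where
  car : Type
  [grp : AddCommGroup car]
  [mod : Module R car]

instance : CoeSort (Md R) Type := ⟨Md.car⟩

attribute [instance] Md.grp Md.mod

/-- A family of relations which is given by a positive primitive formula. -/
def IsPP (F : ∀ (M : Type) [AddCommGroup M] [Module R M], (ι → M) → Prop) : Prop :=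
  ∃ φ : PP R ι, ∀ (M : Type) [AddCommGroup M] [Module R M] (x : ι → M), F M x ↔ Sat φ M x

/-- Axioms of a definable class: implications between positive primitive formulas. -/
abbrev Ax (R : Type) [Ring R] : Type := Set ((n : ℕ) × (PP R (Fin n) × PP R (Fin n)))

/-- the modules of the class -/
def Ax.In (X : Ax R) (M : Type) [AddCommGroup M] [Module R M] : Prop :=
  ∀ a ∈ X, ∀ x : Fin a.1 → M, Sat a.2.1 M x → Sat a.2.2 M x

/-- implication in the class -/
def Ax.Le (X : Ax R) (φ ψ : PP R ι) : Prop :=
  ∀ (M : Type) [AddCommGroup M] [Module R M], X.In M → ∀ x : ι → M, Sat φ M x → Sat ψ M x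

/-- realisation of a set of formulas -/
def Re (S : Set (PP R ι)) (M : Type) [AddCommGroup M] [Module R M] (x : ι → M) : Prop :=
  ∀ φ ∈ S, Sat φ M x

/-- the positive primitive type of a tuple -/
def pp (M : Type) [AddCommGroup M] [Module R M] (x : ι → M) : Set (PP R ι) := {φ | Sat φ M x}

/-- entailment in the class: finitely many members of `S` imply `ψ` -/
def Ax.Ent (X : Ax R) (S : Set (PP R ι)) (ψ : PP R ι) : Prop :=
  ∃ s : Finset (PP R ι), ↑s ⊆ S ∧ ∀ (M : Type) [AddCommGroup M] [Module R M], X.In M →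
    ∀ x : ι → M, (∀ φ ∈ s, Sat φ M x) → Sat ψ M x

/-- closure of a set of formulas -/
def Ax.Cl (X : Ax R) (S : Set (PP R ι)) : Set (PP R ι) := {ψ | X.Ent S ψ}

/-- `(N, g)` is honest for `S`: the type of `g` is generated by `S`, and the type of each finite
tuple over `g` is generated by `S` and one formula. -/
structure Ax.Honest (X : Ax R) (S : Set (PP R ι)) (N : Type) [AddCommGroup N] [Module R N]
    (g : ι → N) : Prop where
  mem : X.In N
  ctbl : Countable N
  sat : Re S N g
  gen0 : ∀ ψ : PP R ι, Sat ψ N g → X.Ent S ψ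
  gen : ∀ (k : ℕ) (b : Fin k → N), ∃ θ : PP R (ι ⊕ Fin k), Sat θ N (Sum.elim g b) ∧
    ∀ ψ : PP R (ι ⊕ Fin k), Sat ψ N (Sum.elim g b) → ∃ s : Finset (PP R ι), ↑s ⊆ S ∧
      ∀ (M : Type) [AddCommGroup M] [Module R M], X.In M → ∀ (x : ι → M) (y : Fin k → M),
        (∀ φ ∈ s, Sat φ M x) → Sat θ M (Sum.elim x y) → Sat ψ M (Sum.elim x y)

/-- the tuples satisfying one formula which implies all of `S` -/
def Ax.P (X : Ax R) (S : Set (PP R ι)) (M : Type) [AddCommGroup M] [Module R M] (x : ι → M) :
    Prop :=
  ∃ χ : PP R ι, (∀ ψ ∈ S, X.Le χ ψ) ∧ Sat χ M x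

/-- null maps -/
def Ax.Null (X : Ax R) {N M : Type} [AddCommGroup N] [Module R N] [AddCommGroup M] [Module R M]
    (u : N →ₗ[R] M) : Prop :=
  ∀ (k : ℕ) (b : Fin k → N), X.P (pp N b) M (u ∘ b)

/-- equality of maps modulo null maps -/
def Ax.Eqv (X : Ax R) {N M : Type} [AddCommGroup N] [Module R N] [AddCommGroup M] [Module R M]
    (u v : N →ₗ[R] M) : Prop := X.Null (u - v)

/-- `N` is a retract of `M` modulo null maps -/
def Ax.Retr (X : Ax R) (N M : Type) [AddCommGroup N] [Module R N] [AddCommGroup M] [Module R M] :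
    Prop := ∃ (α : N →ₗ[R] M) (β : M →ₗ[R] N), X.Eqv (β ∘ₗ α) LinearMap.id

/-- all types of finite tuples are principal -/
def Ax.Atomic (X : Ax R) (B : Type) [AddCommGroup B] [Module R B] : Prop :=
  ∀ (k : ℕ) (b : Fin k → B), ∃ β : PP R (Fin k), Sat β B b ∧ ∀ ψ, Sat ψ B b → X.Le β ψ

/-- Level-one formulas: `∃ t, V(x, t)`, where `V` is a set of positive primitive formulas. -/
abbrev L1 (R : Type) [Ring R] (ι : Type) : Type := (k : ℕ) × Set (PP R (ι ⊕ Fin k))

/-- satisfaction of a level-one formula -/
def Sat1 (V : L1 R ι) (M : Type) [AddCommGroup M] [Module R M] (x : ι → M) : Prop :=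
  ∃ t : Fin V.1 → M, Re V.2 M (Sum.elim x t)

/-- A family of relations given by a level-one formula (for the countable modules of the class). -/
def Ax.IsL1 (X : Ax R) (F : ∀ (M : Type) [AddCommGroup M] [Module R M], (ι → M) → Prop) : Prop :=
  ∃ V : L1 R ι, ∀ (M : Type) [AddCommGroup M] [Module R M], Countable M → X.In M →
    ∀ x : ι → M, F M x ↔ Sat1 V M x

/-- implication between level-one formulas -/
def Ax.Le1 (X : Ax R) (V W : L1 R ι) : Prop :=
  ∀ (M : Type) [AddCommGroup M] [Module R M], Countable M → X.In M → ∀ x : ι → M,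
    Sat1 V M x → Sat1 W M x

/-- the level-one type of a tuple -/
def tp1 (M : Type) [AddCommGroup M] [Module R M] (x : ι → M) : Set (L1 R ι) := {V | Sat1 V M x}

/-- `x` is exact for `V`: `V` is the least level-one formula which `x` satisfies -/
def Ax.Exact (X : Ax R) (V : L1 R ι) (M : Type) [AddCommGroup M] [Module R M] (x : ι → M) : Prop :=
  Sat1 V M x ∧ ∀ W : L1 R ι, Sat1 W M x → X.Le1 V W

/-- the level-one types realised in a module -/
def real1 (M : Type) [AddCommGroup M] [Module R M] : Set ((n : ℕ) × Set (L1 R (Fin n))) :=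
  {τ | ∃ x : Fin τ.1 → M, tp1 M x = τ.2}

/-- countably many level-one types in the class, with an atomic module `B` -/
structure Ax.Few (X : Ax R) (B : Type) [AddCommGroup B] [Module R B] : Prop where
  mem : X.In B
  ctbl : Countable B
  atomic : X.Atomic B
  few1 : ∀ n : ℕ, {τ : Set (L1 R (Fin n)) | ∃ N : Md R, Countable N ∧ X.In N ∧
    ∃ x : Fin n → N, tp1 N x = τ}.Countable
  few2 : {Θ : Set ((n : ℕ) × Set (L1 R (Fin n))) | ∃ N : Md R, Countable N ∧ X.In N ∧
    real1 (B × N) = Θ}.Countable

end

end Pool.Agent.MVC
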