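import Pool.Agent.MVC.Api3

/-!
# The stable endomorphism ring, reduced powers, the groups `e_q(M)`
-/

set_option autoImplicit false
set_option linter.unusedSectionVars false
set_option linter.unusedVariables false

namespace Pool.Agent.MVC

open Set Ax

variable {R : Type} [Ring R]

/-! ### The stable endomorphism ring -/

/-- the null endomorphisms -/
def Ax.nullIdeal (X : Ax R) (N : Type) [AddCommGroup N] [Module R N] : Ideal (Module.End R N) where
  carrier := {u | X.Null u}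
  add_mem' := fun h h' => Null.add h h'
  zero_mem' := Null.zero
  smul_mem' := fun f u hu => Null.comp_left hu f

instance (X : Ax R) (N : Type) [AddCommGroup N] [Module R N] : (X.nullIdeal N).IsTwoSided :=
  ⟨fun {u} f hu => Null.comp_right hu f⟩

/-- the stable endomorphism ring -/
abbrev Ax.Q (X : Ax R) (N : Type) [AddCommGroup N] [Module R N] : Type :=
  Module.End R N ⧸ X.nullIdeal N

/-! ### Reduced powers -/

/-- sequences which are eventually zero -/
def fin0 (R : Type) [Ring R] (M : Type) [AddCommGroup M] [Module R M] : Submodule R (ℕ → M) where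
  carrier := {s | ∃ n, ∀ m ≥ n, s m = 0}
  add_mem' := by
    rintro s t ⟨n, hn⟩ ⟨k, hk⟩
    exact ⟨max n k, fun m hm => by
      rw [Pi.add_apply, hn m (le_trans (le_max_left _ _) hm), hk m (le_trans (le_max_right _ _) hm),
        add_zero]⟩
  zero_mem' := ⟨0, fun m _ => rfl⟩
  smul_mem' := by
    rintro r s ⟨n, hn⟩
    exact ⟨n, fun m hm => by rw [Pi.smul_apply, hn m hm, smul_zero]⟩

/-- the reduced power -/
def MI (M : Md R) : Md R := ⟨(ℕ → M) ⧸ fin0 R M⟩

/-- the class of a sequence -/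
def MI.mk (M : Md R) : (ℕ → M) →ₗ[R] MI M := (fin0 R M).mkQ

/-- constant sequences -/
def MI.cst (M : Md R) : M →ₗ[R] MI M :=
  MI.mk M ∘ₗ LinearMap.pi (fun _ => LinearMap.id)

/-- the shift -/
def MI.sh (M : Md R) : MI M →ₗ[R] MI M :=
  (fin0 R M).mapQ (fin0 R M) (LinearMap.funLeft R M Nat.succ) (by
    rintro s ⟨n, hn⟩
    exact ⟨n, fun m hm => hn (m + 1) (le_trans hm (Nat.le_succ m))⟩)

theorem MI.sh_mk (M : Md R) (s : ℕ → M) : MI.sh M (MI.mk M s) = MI.mk M (fun n => s (n + 1)) := rfl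

theorem MI.mk_surj (M : Md R) : Function.Surjective (MI.mk M) := Submodule.mkQ_surjective _

theorem MI.mk_eq (M : Md R) (s t : ℕ → M) :
    MI.mk M s = MI.mk M t ↔ ∃ n, ∀ m ≥ n, s m = t m := by
  have h1 : MI.mk M s = MI.mk M t ↔ s - t ∈ fin0 R M := Submodule.Quotient.eq _
  rw [h1]
  exact exists_congr fun n => forall_congr' fun m => imp_congr Iff.rfl (by
    rw [Pi.sub_apply, sub_eq_zero])

/-! ### The groups `e_q(M)` -/

/-- the maps `N → M^∞` which represent zero -/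
def Ax.exSub (X : Ax R) (N M : Md R) : AddSubgroup (N →ₗ[R] MI M) where
  carrier := {f | ∃ h u : N →ₗ[R] MI M, X.Null u ∧ f = (MI.sh M ∘ₗ h - h) + u}
  add_mem' := by
    rintro f f' ⟨h, u, hu, rfl⟩ ⟨h', u', hu', rfl⟩
    refine ⟨h + h', u + u', Null.add hu hu', ?_⟩
    rw [LinearMap.comp_add]
    abel
  zero_mem' := ⟨0, 0, Null.zero, by simp⟩
  neg_mem' := by
    rintro f ⟨h, u, hu, rfl⟩
    refine ⟨-h, -u, Null.neg hu, ?_⟩
    rw [LinearMap.comp_neg]
    abel

/-- the group `e_q(M)`, where `N` is honest for `q` -/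
def Ax.ex (X : Ax R) (N M : Md R) : Type := (N →ₗ[R] MI M) ⧸ X.exSub N M

instance (X : Ax R) (N M : Md R) : AddCommGroup (X.ex N M) :=
  inferInstanceAs (AddCommGroup ((N →ₗ[R] MI M) ⧸ X.exSub N M))

/-- the class of a map -/
def Ax.exMk (X : Ax R) (N M : Md R) : (N →ₗ[R] MI M) →+ X.ex N M := QuotientAddGroup.mk' _

theorem exMk_surj (X : Ax R) (N M : Md R) : Function.Surjective (X.exMk N M) :=
  QuotientAddGroup.mk'_surjective _

theorem exMk_eq_zero (X : Ax R) (N M : Md R) (f : N →ₗ[R] MI M) :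
    X.exMk N M f = 0 ↔ ∃ h u : N →ₗ[R] MI M, X.Null u ∧ f = (MI.sh M ∘ₗ h - h) + u :=
  QuotientAddGroup.eq_zero_iff _

/-- pulling back along a map -/
def Ax.exMap (X : Ax R) {N N' : Md R} (v : N →ₗ[R] N') (M : Md R) : X.ex N' M →+ X.ex N M :=
  QuotientAddGroup.map (X.exSub N' M) (X.exSub N M)
    ({ toFun := fun f => f ∘ₗ v, map_zero' := LinearMap.zero_comp v,
       map_add' := fun f f' => LinearMap.add_comp v f' f } : (N' →ₗ[R] MI M) →+ (N →ₗ[R] MI M)) (by
    rintro f ⟨h, u, hu, rfl⟩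
    refine ⟨h ∘ₗ v, u ∘ₗ v, Null.comp_right hu v, ?_⟩
    show ((MI.sh M ∘ₗ h - h) + u) ∘ₗ v = _
    rw [LinearMap.add_comp, LinearMap.sub_comp, LinearMap.comp_assoc])

theorem exMap_mk (X : Ax R) {N N' : Md R} (v : N →ₗ[R] N') (M : Md R) (f : N' →ₗ[R] MI M) :
    X.exMap v M (X.exMk N' M f) = X.exMk N M (f ∘ₗ v) := rfl

theorem exMap_eqv (X : Ax R) {N N' : Md R} {v w : N →ₗ[R] N'} (h : X.Eqv v w) (M : Md R) :
    X.exMap v M = X.exMap w M := by
  ext e
  obtain ⟨f, rfl⟩ := exMk_surj X N' M e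
  rw [exMap_mk, exMap_mk, ← sub_eq_zero, ← map_sub, exMk_eq_zero]
  refine ⟨0, f ∘ₗ (v - w), Null.comp_left h f, ?_⟩
  rw [LinearMap.comp_zero, sub_zero, zero_add, LinearMap.comp_sub]

theorem exMap_add (X : Ax R) {N N' : Md R} (v w : N →ₗ[R] N') (M : Md R) (e : X.ex N' M) :
    X.exMap (v + w) M e = X.exMap v M e + X.exMap w M e := by
  obtain ⟨f, rfl⟩ := exMk_surj X N' M e
  rw [exMap_mk, exMap_mk, exMap_mk, ← map_add, LinearMap.comp_add]

theorem exMap_zero (X : Ax R) {N N' : Md R} (M : Md R) (e : X.ex N' M) :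
    X.exMap (0 : N →ₗ[R] N') M e = 0 := by
  obtain ⟨f, rfl⟩ := exMk_surj X N' M e
  rw [exMap_mk, LinearMap.comp_zero, map_zero]

theorem exMap_comp (X : Ax R) {N N' N'' : Md R} (v : N →ₗ[R] N') (w : N' →ₗ[R] N'') (M : Md R)
    (e : X.ex N'' M) : X.exMap v M (X.exMap w M e) = X.exMap (w ∘ₗ v) M e := by
  obtain ⟨f, rfl⟩ := exMk_surj X N'' M e
  rfl

theorem exMap_id (X : Ax R) (N M : Md R) (e : X.ex N M) :
    X.exMap (LinearMap.id : N →ₗ[R] N) M e = e := by
  obtain ⟨f, rfl⟩ := exMk_surj X N M e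
  rfl

/-- the action of the stable endomorphism ring as additive maps -/
def Ax.exAct (X : Ax R) (N M : Md R) : X.Q N →+ (X.ex N M →+ X.ex N M) :=
  QuotientAddGroup.lift (X.nullIdeal N).toAddSubgroup
    ({ toFun := fun v => X.exMap v M
       map_zero' := by
         ext e
         exact exMap_zero X M e
       map_add' := fun v w => by
         ext e
         exact exMap_add X v w M e } : Module.End R N →+ (X.ex N M →+ X.ex N M)) (by
    intro v hv
    have h1 : X.Eqv v (0 : N →ₗ[R] N) := by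
      unfold Ax.Eqv
      rw [sub_zero]
      exact hv
    have h2 := exMap_eqv X h1 M
    show X.exMap v M = 0
    rw [h2]
    ext e
    exact exMap_zero X M e)

instance (X : Ax R) (N M : Md R) : SMul (X.Q N)ᵐᵒᵖ (X.ex N M) :=
  ⟨fun q e => X.exAct N M (MulOpposite.unop q) e⟩

theorem smul_mk_ex (X : Ax R) (N M : Md R) (v : Module.End R N) (e : X.ex N M) :
    MulOpposite.op (Ideal.Quotient.mk (X.nullIdeal N) v) • e = X.exMap v M e := rfl

/-- `e_q(M)` is a right module over the stable endomorphism ring. -/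
instance (X : Ax R) (N M : Md R) : Module (X.Q N)ᵐᵒᵖ (X.ex N M) where
  one_smul := fun e => exMap_id X N M e
  mul_smul := by
    intro p q e
    obtain ⟨v, hv⟩ := Ideal.Quotient.mk_surjective (MulOpposite.unop p)
    obtain ⟨w, hw⟩ := Ideal.Quotient.mk_surjective (MulOpposite.unop q)
    have hp : p = MulOpposite.op (Ideal.Quotient.mk (X.nullIdeal N) v) := by
      rw [hv, MulOpposite.op_unop]
    have hq : q = MulOpposite.op (Ideal.Quotient.mk (X.nullIdeal N) w) := by
      rw [hw, MulOpposite.op_unop]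
    rw [hp, hq, ← MulOpposite.op_mul, ← map_mul, smul_mk_ex, smul_mk_ex, smul_mk_ex, exMap_comp]
    rfl
  smul_zero := fun q => map_zero _
  smul_add := fun q e e' => map_add _ e e'
  add_smul := by
    intro p q e
    show X.exAct N M (MulOpposite.unop (p + q)) e = _
    rw [MulOpposite.unop_add, map_add]
    rfl
  zero_smul := by
    intro e
    show X.exAct N M (MulOpposite.unop 0) e = 0
    rw [MulOpposite.unop_zero, map_zero]
    rfl

/-- the product of all `e_Y(M)` over all modules `M` and all `n`-tuples -/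
abbrev Ax.EE (X : Ax R) (n : ℕ) (Y : Md R) : Type 1 := ∀ (M : Md R), (Fin n → M) → X.ex Y M

/-! ### Types over a type -/

/-- `V(x, t)` is a conservative extension of `S(x)` -/
def Ax.Over {ι κ : Type} (X : Ax R) (S : Set (PP R ι)) (V : Set (PP R (ι ⊕ κ))) : Prop :=
  (∀ φ ∈ S, X.Ent V (ren Sum.inl φ)) ∧ ∀ s : Finset (PP R (ι ⊕ κ)), ↑s ⊆ V →
    ∃ s' : Finset (PP R ι), ↑s' ⊆ S ∧ ∀ (M : Type) [AddCommGroup M] [Module R M], X.In M →
      ∀ x : ι → M, (∀ φ ∈ s', Sat φ M x) → ∃ t : κ → M, ∀ φ ∈ s, Sat φ M (Sum.elim x t)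

/-- the element `e` of `e_{q_V}(M)` belongs to the tuple `a`: for some `T` in `M^∞` with `V(a, T)`
it is the class of the map `g ↦ (sh - 1)T`. -/
def Ax.IsDel (X : Ax R) {n k : ℕ} (V : Set (PP R (Fin n ⊕ Fin k))) (N : Md R) (g : Fin k → N)
    (M : Md R) (a : Fin n → M) (e : X.ex N M) : Prop :=
  ∃ (T : Fin k → MI M) (f : N →ₗ[R] MI M), Re V (MI M) (Sum.elim (fun i => MI.cst M (a i)) T) ∧
    (∀ i, f (g i) = MI.sh M (T i) - T i) ∧ e = X.exMk N M f

/-- the module and the tuple are admissible -/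
def Ax.Adm {n : ℕ} (X : Ax R) (S : Set (PP R (Fin n))) (M : Md R) (a : Fin n → M) : Prop :=
  X.In M ∧ Countable M ∧ Re S M a

/-- the submodule of all `δ_V λ`, `λ : Y → N_{q_V}`, in the product of all `e_Y(M)` -/
def Ax.DS (X : Ax R) {n k : ℕ} (S : Set (PP R (Fin n))) (V : Set (PP R (Fin n ⊕ Fin k)))
    (N : Md R) (g : Fin k → N) (Y : Md R) : Submodule (X.Q Y)ᵐᵒᵖ (X.EE n Y) where
  carrier := {d | ∃ v : Y →ₗ[R] N, ∀ (M : Md R) (a : Fin n → M),
    (X.Adm S M a → ∀ e, X.IsDel V N g M a e → d M a = X.exMap v M e) ∧ (¬ X.Adm S M a → d M a = 0)}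
  add_mem' := by
    rintro d d' ⟨v, hv⟩ ⟨v', hv'⟩
    refine ⟨v + v', fun M a => ⟨fun h e he => ?_, fun h => ?_⟩⟩
    · rw [exMap_add, ← (hv M a).1 h e he, ← (hv' M a).1 h e he]
      rfl
    · have h1 := (hv M a).2 h
      have h2 := (hv' M a).2 h
      show d M a + d' M a = 0
      rw [h1, h2, add_zero]
  zero_mem' := ⟨0, fun M a => ⟨fun h e he => (exMap_zero X M e).symm, fun h => rfl⟩⟩
  smul_mem' := by
    rintro q d ⟨v, hv⟩
    obtain ⟨w, hw⟩ := Ideal.Quotient.mk_surjective (MulOpposite.unop q)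
    have hq : q = MulOpposite.op (Ideal.Quotient.mk (X.nullIdeal Y) w) := by
      rw [hw, MulOpposite.op_unop]
    refine ⟨v ∘ₗ w, fun M a => ⟨fun h e he => ?_, fun h => ?_⟩⟩
    · show q • d M a = _
      rw [hq, smul_mk_ex, (hv M a).1 h e he, exMap_comp]
    · show q • d M a = 0
      rw [(hv M a).2 h, smul_zero]

end Pool.Agent.MVC
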