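import Pool.Agent.MVC.St

/-!
# Existence of honest modules (Henkin construction)
-/

set_option autoImplicit false
set_option linter.unusedSectionVars false
set_option linter.unusedVariables false

namespace Pool.Agent.MVC

open Set

variable {R : Type} [Ring R] {ι : Type}

private theorem lc_rank {W : Type} (h : W → ℕ) (e : W →₀ R) :
    ∃ n : ℕ, ∀ (M : Type) [AddCommGroup M] [Module R M] (z z' : W → M),
      (∀ w, h w < n → z w = z' w) →
      Finsupp.linearCombination R z e = Finsupp.linearCombination R z' e := by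
  refine ⟨e.support.sup h + 1, fun M _ _ z z' hz => ?_⟩
  rw [Finsupp.linearCombination_apply, Finsupp.linearCombination_apply]
  refine Finsupp.sum_congr fun w hw => ?_
  rw [hz w (Nat.lt_succ_of_le (Finset.le_sup hw))]

private theorem list_rank {W : Type} (h : W → ℕ) (l : List (W →₀ R)) :
    ∃ n : ℕ, ∀ e ∈ l, ∀ (M : Type) [AddCommGroup M] [Module R M] (z z' : W → M),
      (∀ w, h w < n → z w = z' w) →
      Finsupp.linearCombination R z e = Finsupp.linearCombination R z' e := by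
  induction l with
  | nil => exact ⟨0, fun e he => absurd he List.not_mem_nil⟩
  | cons e l ih =>
    obtain ⟨n, hn⟩ := ih
    obtain ⟨m, hm⟩ := lc_rank h e
    refine ⟨max n m, fun e' he' M _ _ z z' hz => ?_⟩
    rcases List.mem_cons.mp he' with rfl | he'
    · exact hm M z z' fun w hw => hz w (lt_of_lt_of_le hw (le_max_right _ _))
    · exact hn e' he' M z z' fun w hw => hz w (lt_of_lt_of_le hw (le_max_left _ _))

/-- the free variables of a formula which lie in `ℕ` are bounded -/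
private theorem fm_bound (ψ : PP R (ι ⊕ ℕ)) : ∃ n : ℕ, ∀ e ∈ ψ,
    ∀ (M : Type) [AddCommGroup M] [Module R M] (x : ι → M) (v v' y : ℕ → M),
      (∀ i < n, v i = v' i) →
      Finsupp.linearCombination R (Sum.elim (Sum.elim x v) y) e =
        Finsupp.linearCombination R (Sum.elim (Sum.elim x v') y) e := by
  obtain ⟨n, hn⟩ := list_rank
    (Sum.elim (Sum.elim (fun _ => 0) id) (fun _ => 0) : (ι ⊕ ℕ) ⊕ ℕ → ℕ) ψ
  refine ⟨n, fun e he M _ _ x v v' y hv => hn e he M _ _ ?_⟩
  rintro ((i | i) | i) hi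
  · rfl
  · exact hv i hi
  · rfl

/-- the formula depends only on the first `n` variables -/
private def Dep (n : ℕ) (θ : PP R (ι ⊕ ℕ)) : Prop :=
  ∀ (M : Type) [AddCommGroup M] [Module R M] (x : ι → M) (v v' : ℕ → M),
    (∀ i < n, v i = v' i) → Sat θ M (Sum.elim x v) → Sat θ M (Sum.elim x v')

private theorem exists_dep (θ : PP R (ι ⊕ ℕ)) : ∃ n, ∀ n' ≥ n, Dep n' θ := by
  obtain ⟨n, hn⟩ := fm_bound θ
  refine ⟨n, fun n' hn' M _ _ x v v' hv hs => ?_⟩
  obtain ⟨y, hy⟩ := hs
  refine ⟨y, fun e he => ?_⟩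
  rw [← hn e he M x v v' y fun i hi => hv i (lt_of_lt_of_le hi hn')]
  exact hy e he

/-- entailment from `S` and `θ` -/
private def En (X : Ax R) (S : Set (PP R ι)) (θ ψ : PP R (ι ⊕ ℕ)) : Prop :=
  ∃ s : Finset (PP R ι), ↑s ⊆ S ∧ ∀ (M : Type) [AddCommGroup M] [Module R M], X.In M →
    ∀ (x : ι → M) (v : ℕ → M), (∀ φ ∈ s, Sat φ M x) → Sat θ M (Sum.elim x v) →
      Sat ψ M (Sum.elim x v)

private theorem isPP_eqs {W : Type} (r : W → ι ⊕ ℕ) (l : List (W →₀ R)) :
    IsPP (R := R) (ι := ι ⊕ ℕ)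
      (fun M _ _ z => ∀ e ∈ l, Finsupp.linearCombination R (z ∘ r) e = 0) := by
  induction l with
  | nil => exact isPP_true.congr fun M _ _ x => by simp
  | cons e l ih =>
    refine ((isPP_lin (e.mapDomain r)).and ih).congr fun M _ _ x => ?_
    rw [Finsupp.linearCombination_mapDomain]
    simp

/-- one step of the construction -/
private structure Stp (X : Ax R) (S : Set (PP R ι)) (ψ : PP R (ι ⊕ ℕ))
    (p q : ℕ × PP R (ι ⊕ ℕ)) : Prop where
  lt : p.1 < q.1
  le : ∀ (M : Type) [AddCommGroup M] [Module R M] (z : ι ⊕ ℕ → M), Sat q.2 M z → Sat p.2 M z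
  ext : ∃ s : Finset (PP R ι), ↑s ⊆ S ∧ ∀ (M : Type) [AddCommGroup M] [Module R M], X.In M →
    ∀ (x : ι → M) (v : ℕ → M), (∀ φ ∈ s, Sat φ M x) → Sat p.2 M (Sum.elim x v) →
      ∃ v' : ℕ → M, (∀ i < p.1, v' i = v i) ∧ Sat q.2 M (Sum.elim x v')
  wit : En X S p.2 ψ → ∃ w : ℕ → ℕ, ∀ (M : Type) [AddCommGroup M] [Module R M]
    (z : ι ⊕ ℕ → M), Sat q.2 M z → ∀ e ∈ ψ,
      Finsupp.linearCombination R (Sum.elim z (fun k => z (Sum.inr (w k)))) e = 0

private theorem exists_step (X : Ax R) (S : Set (PP R ι)) (ψ : PP R (ι ⊕ ℕ))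
    (p : ℕ × PP R (ι ⊕ ℕ)) (hp : Dep p.1 p.2) :
    ∃ q : ℕ × PP R (ι ⊕ ℕ), Dep q.1 q.2 ∧ Stp X S ψ p q := by
  by_cases hE : En X S p.2 ψ
  · obtain ⟨n0, hn0⟩ := fm_bound ψ
    obtain ⟨θ, hθ⟩ := (isPP_sat p.2).and (isPP_eqs (R := R) (ι := ι)
      (Sum.elim id (fun k => Sum.inr (max p.1 n0 + k)) : (ι ⊕ ℕ) ⊕ ℕ → ι ⊕ ℕ) ψ)
    obtain ⟨n1, hn1⟩ := exists_dep θ
    have hr : ∀ (M : Type) (z : ι ⊕ ℕ → M),
        z ∘ (Sum.elim id (fun k => Sum.inr (max p.1 n0 + k)) : (ι ⊕ ℕ) ⊕ ℕ → ι ⊕ ℕ) =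
        Sum.elim z (fun k => z (Sum.inr (max p.1 n0 + k))) := by
      intro M z
      funext i
      cases i <;> rfl
    refine ⟨(max n1 (p.1 + 1), θ), hn1 _ (le_max_left _ _), ?_, ?_, ?_, ?_⟩
    · exact lt_of_lt_of_le (Nat.lt_succ_self _) (le_max_right _ _)
    · intro M _ _ z hz
      exact ((hθ M z).mpr hz).1
    · obtain ⟨s, hs, hE⟩ := hE
      refine ⟨s, hs, fun M _ _ hM x v hx hv => ?_⟩
      obtain ⟨y, hy⟩ := hE M hM x v hx hv
      have h1 : ∀ i < max p.1 n0,
          (fun i => if i < max p.1 n0 then v i else y (i - max p.1 n0)) i = v i := by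
        intro i hi
        simp only [hi, if_true]
      have h2 : ∀ k, (fun i => if i < max p.1 n0 then v i else y (i - max p.1 n0))
          (max p.1 n0 + k) = y k := by
        intro k
        have : ¬ (max p.1 n0 + k < max p.1 n0) := by omega
        simp only [this, if_false]
        congr 1
        omega
      refine ⟨fun i => if i < max p.1 n0 then v i else y (i - max p.1 n0),
        fun i hi => h1 i (lt_of_lt_of_le hi (le_max_left _ _)), ?_⟩
      generalize (fun i => if i < max p.1 n0 then v i else y (i - max p.1 n0)) = v' at h1 h2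
      refine (hθ M _).mp ⟨hp M x v v' (fun i hi => (h1 i (lt_of_lt_of_le hi
        (le_max_left _ _))).symm) hv, fun e he => ?_⟩
      rw [hr]
      have h3 : (fun k => Sum.elim x v' (Sum.inr (max p.1 n0 + k))) = y := by
        funext k
        exact h2 k
      rw [h3, hn0 e he M x v' v y fun i hi => h1 i (lt_of_lt_of_le hi (le_max_right _ _))]
      exact hy e he
    · intro _
      refine ⟨fun k => max p.1 n0 + k, fun M _ _ z hz e he => ?_⟩
      rw [← hr]
      exact ((hθ M z).mpr hz).2 e he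
  · refine ⟨(p.1 + 1, p.2), ?_, Nat.lt_succ_self _, fun M _ _ z hz => hz, ?_,
      fun h => absurd h hE⟩
    · intro M _ _ x v v' hv hs
      exact hp M x v v' (fun i hi => hv i (Nat.lt_succ_of_lt hi)) hs
    · exact ⟨∅, by simp, fun M _ _ hM x v hx hv => ⟨v, fun i _ => rfl, hv⟩⟩

/-- the sequence of the construction -/
private structure Hk (X : Ax R) (S : Set (PP R ι)) (P : ℕ → ℕ × PP R (ι ⊕ ℕ)) : Prop where
  zero : ∀ (M : Type) [AddCommGroup M] [Module R M] (z : ι ⊕ ℕ → M), Sat (P 0).2 M z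
  lt : ∀ m, (P m).1 < (P (m + 1)).1
  le : ∀ m m' : ℕ, m ≤ m' → ∀ (M : Type) [AddCommGroup M] [Module R M] (z : ι ⊕ ℕ → M),
    Sat (P m').2 M z → Sat (P m).2 M z
  ext : ∀ m m' : ℕ, m ≤ m' → ∃ s : Finset (PP R ι), ↑s ⊆ S ∧
    ∀ (M : Type) [AddCommGroup M] [Module R M], X.In M →
    ∀ (x : ι → M) (v : ℕ → M), (∀ φ ∈ s, Sat φ M x) → Sat (P m).2 M (Sum.elim x v) →
      ∃ v' : ℕ → M, (∀ i < (P m).1, v' i = v i) ∧ Sat (P m').2 M (Sum.elim x v')
  wit : ∀ (ψ : PP R (ι ⊕ ℕ)) (m : ℕ), En X S (P m).2 ψ → ∃ (m' : ℕ) (w : ℕ → ℕ),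
    ∀ (M : Type) [AddCommGroup M] [Module R M] (z : ι ⊕ ℕ → M), Sat (P m').2 M z → ∀ e ∈ ψ,
      Finsupp.linearCombination R (Sum.elim z (fun k => z (Sum.inr (w k)))) e = 0

private theorem exists_seq [Countable R] [Countable ι] (X : Ax R) (S : Set (PP R ι)) :
    ∃ P : ℕ → ℕ × PP R (ι ⊕ ℕ), Hk X S P := by
  obtain ⟨T, hT⟩ := exists_surjective_nat (PP R (ι ⊕ ℕ))
  choose nx hd hs using fun (ψ : PP R (ι ⊕ ℕ)) (p : {p : ℕ × PP R (ι ⊕ ℕ) // Dep p.1 p.2}) =>
    exists_step X S ψ p.1 p.2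
  have h0 : Dep (R := R) (ι := ι) 0 [] := fun M _ _ x v v' _ _ => ⟨0, fun e he =>
    absurd he List.not_mem_nil⟩
  let Q : ℕ → {p : ℕ × PP R (ι ⊕ ℕ) // Dep p.1 p.2} := fun m => Nat.rec ⟨(0, []), h0⟩
    (fun m p => ⟨nx (T (Nat.unpair m).1) p, hd _ p⟩) m
  have hQ : ∀ m, Stp X S (T (Nat.unpair m).1) (Q m).1 (Q (m + 1)).1 := fun m => hs _ (Q m)
  have hle : ∀ m k : ℕ, ∀ (M : Type) [AddCommGroup M] [Module R M] (z : ι ⊕ ℕ → M),
      Sat (Q (m + k)).1.2 M z → Sat (Q m).1.2 M z := by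
    intro m k
    induction k with
    | zero => exact fun M _ _ z hz => hz
    | succ k ih => exact fun M _ _ z hz => ih M z ((hQ (m + k)).le M z hz)
  have hlt : ∀ m k : ℕ, (Q m).1.1 ≤ (Q (m + k)).1.1 := by
    intro m k
    induction k with
    | zero => exact le_refl _
    | succ k ih => exact ih.trans (hQ (m + k)).lt.le
  refine ⟨fun m => (Q m).1, ?_, fun m => (hQ m).lt, ?_, ?_, ?_⟩
  · exact fun M _ _ z => ⟨0, fun e he => absurd he List.not_mem_nil⟩
  · intro m m' hm M _ _ z hz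
    obtain ⟨k, rfl⟩ := Nat.exists_eq_add_of_le hm
    exact hle m k M z hz
  · intro m m' hm
    obtain ⟨k, rfl⟩ := Nat.exists_eq_add_of_le hm
    induction k with
    | zero => exact ⟨∅, by simp, fun M _ _ hM x v hx hv => ⟨v, fun i _ => rfl, hv⟩⟩
    | succ k ih =>
      classical
      obtain ⟨s, hs1, hs2⟩ := ih (Nat.le_add_right m k)
      obtain ⟨t, ht1, ht2⟩ := (hQ (m + k)).ext
      refine ⟨s ∪ t, by
        rw [Finset.coe_union]
        exact union_subset hs1 ht1, fun M _ _ hM x v hx hv => ?_⟩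
      obtain ⟨v1, h1, h2⟩ := hs2 M hM x v (fun φ hφ => hx φ (Finset.mem_union_left _ hφ)) hv
      obtain ⟨v2, h3, h4⟩ := ht2 M hM x v1 (fun φ hφ => hx φ (Finset.mem_union_right _ hφ)) h2
      exact ⟨v2, fun i hi => (h3 i (lt_of_lt_of_le hi (hlt m k))).trans (h1 i hi), h4⟩
  · intro ψ m hE
    obtain ⟨a, rfl⟩ := hT ψ
    have h1 : m ≤ Nat.pair a m := Nat.right_le_pair a m
    have h2 : (Nat.unpair (Nat.pair a m)).1 = a := by simp
    have h3 := (hQ (Nat.pair a m)).wit
    rw [h2] at h3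
    obtain ⟨k, hk⟩ := Nat.exists_eq_add_of_le h1
    obtain ⟨s, hs1, hs2⟩ := hE
    obtain ⟨w, hw⟩ := h3 ⟨s, hs1, fun M _ _ hM x v hx hv => hs2 M hM x v hx (hle m k M _ (by
      rw [← hk]
      exact hv))⟩
    exact ⟨Nat.pair a m + 1, w, hw⟩

/-- the linear equations of the theory -/
private def rel (X : Ax R) (S : Set (PP R ι)) (P : ℕ → ℕ × PP R (ι ⊕ ℕ)) (hP : Hk X S P) :
    Submodule R ((ι ⊕ ℕ) →₀ R) where
  carrier := {e | ∃ m : ℕ, ∃ s : Finset (PP R ι), ↑s ⊆ S ∧
    ∀ (M : Type) [AddCommGroup M] [Module R M], X.In M → ∀ (x : ι → M) (v : ℕ → M),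
      (∀ φ ∈ s, Sat φ M x) → Sat (P m).2 M (Sum.elim x v) →
      Finsupp.linearCombination R (Sum.elim x v) e = 0}
  add_mem' := by
    classical
    rintro e e' ⟨m, s, hs1, hs2⟩ ⟨m', s', hs1', hs2'⟩
    refine ⟨max m m', s ∪ s', by
      rw [Finset.coe_union]
      exact union_subset hs1 hs1', fun M _ _ hM x v hx hv => ?_⟩
    rw [map_add, hs2 M hM x v (fun φ hφ => hx φ (Finset.mem_union_left _ hφ))
      (hP.le _ _ (le_max_left _ _) M _ hv), hs2' M hM x v
      (fun φ hφ => hx φ (Finset.mem_union_right _ hφ)) (hP.le _ _ (le_max_right _ _) M _ hv),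
      add_zero]
  zero_mem' := ⟨0, ∅, by simp, fun M _ _ hM x v hx hv => map_zero _⟩
  smul_mem' := by
    rintro c e ⟨m, s, hs1, hs2⟩
    refine ⟨m, s, hs1, fun M _ _ hM x v hx hv => ?_⟩
    rw [map_smul, hs2 M hM x v hx hv, smul_zero]

private theorem lc_mk {W : Type} (L : Submodule R (W →₀ R)) (e : W →₀ R) :
    Finsupp.linearCombination R (fun w => (Submodule.Quotient.mk (Finsupp.single w 1) :
      (W →₀ R) ⧸ L)) e = Submodule.Quotient.mk e := by
  have h := LinearMap.map_finsupp_linearCombination L.mkQ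
    (g := fun w => (Finsupp.single w 1 : W →₀ R)) (l := e)
  have h1 : Finsupp.linearCombination R (fun w => (Finsupp.single w 1 : W →₀ R)) e = e := by
    rw [Finsupp.linearCombination_apply]
    simp
  rw [h1] at h
  exact h.symm

private theorem lc_elim_mk {W : Type} {M : Type} [AddCommGroup M] [Module R M] (z : W → M)
    (f : ℕ → (W →₀ R)) (e : (W ⊕ ℕ) →₀ R) :
    Finsupp.linearCombination R z (Finsupp.linearCombination R
      (Sum.elim (fun w => Finsupp.single w 1) f) e) =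
    Finsupp.linearCombination R (Sum.elim z (fun k => Finsupp.linearCombination R z (f k))) e := by
  rw [LinearMap.map_finsupp_linearCombination]
  congr 2
  funext i
  cases i <;> simp

section

variable {X : Ax R} {S : Set (PP R ι)} {P : ℕ → ℕ × PP R (ι ⊕ ℕ)}

/-- the truth lemma -/
private theorem truth (hP : Hk X S P) (ψ : PP R (ι ⊕ ℕ)) :
    Sat ψ (((ι ⊕ ℕ) →₀ R) ⧸ rel X S P hP)
      (fun w => Submodule.Quotient.mk (Finsupp.single w 1)) ↔ ∃ m, En X S (P m).2 ψ := by
  constructor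
  · rintro ⟨y, hy⟩
    have hf : ∀ k, ∃ f : (ι ⊕ ℕ) →₀ R, Submodule.Quotient.mk f = y k := fun k =>
      Submodule.Quotient.mk_surjective _ (y k)
    choose f hf using hf
    have h1 : ∀ e ∈ ψ, Finsupp.linearCombination R (Sum.elim (fun w => Finsupp.single w 1) f) e ∈
        rel X S P hP := by
      intro e he
      rw [← Submodule.Quotient.mk_eq_zero, ← lc_mk, lc_elim_mk]
      have h2 : (fun k => Finsupp.linearCombination R
          (fun w => (Submodule.Quotient.mk (Finsupp.single w 1) :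
            ((ι ⊕ ℕ) →₀ R) ⧸ rel X S P hP)) (f k)) = y := by
        funext k
        rw [lc_mk, hf]
      rw [h2]
      exact hy e he
    -- common stage
    have h3 : ∀ l : List (((ι ⊕ ℕ) ⊕ ℕ) →₀ R), (∀ e ∈ l,
        Finsupp.linearCombination R (Sum.elim (fun w => Finsupp.single w 1) f) e ∈
        rel X S P hP) → ∃ m : ℕ, ∃ s : Finset (PP R ι), ↑s ⊆ S ∧
        ∀ (M : Type) [AddCommGroup M] [Module R M], X.In M → ∀ (x : ι → M) (v : ℕ → M),
        (∀ φ ∈ s, Sat φ M x) → Sat (P m).2 M (Sum.elim x v) → ∀ e ∈ l,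
        Finsupp.linearCombination R (Sum.elim (Sum.elim x v)
          (fun k => Finsupp.linearCombination R (Sum.elim x v) (f k))) e = 0 := by
      intro l
      induction l with
      | nil => exact fun _ => ⟨0, ∅, by simp, fun M _ _ hM x v hx hv e he =>
          absurd he List.not_mem_nil⟩
      | cons e l ih =>
        intro hl
        classical
        obtain ⟨m, s, hs1, hs2⟩ := ih fun e he => hl e (List.mem_cons_of_mem _ he)
        obtain ⟨m', s', hs1', hs2'⟩ := hl e List.mem_cons_self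
        refine ⟨max m m', s ∪ s', by
          rw [Finset.coe_union]
          exact union_subset hs1 hs1', fun M _ _ hM x v hx hv e' he' => ?_⟩
        rcases List.mem_cons.mp he' with rfl | he'
        · rw [← lc_elim_mk]
          exact hs2' M hM x v (fun φ hφ => hx φ (Finset.mem_union_right _ hφ))
            (hP.le _ _ (le_max_right _ _) M _ hv)
        · exact hs2 M hM x v (fun φ hφ => hx φ (Finset.mem_union_left _ hφ))
            (hP.le _ _ (le_max_left _ _) M _ hv) e' he'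
    obtain ⟨m, s, hs1, hs2⟩ := h3 ψ h1
    exact ⟨m, s, hs1, fun M _ _ hM x v hx hv => ⟨_, hs2 M hM x v hx hv⟩⟩
  · rintro ⟨m, hm⟩
    obtain ⟨m', w, hw⟩ := hP.wit ψ m hm
    refine ⟨fun k => Submodule.Quotient.mk (Finsupp.single (Sum.inr (w k)) 1), fun e he => ?_⟩
    have h1 : Finsupp.linearCombination R (Sum.elim (fun w => Finsupp.single w (1 : R))
        (fun k => Finsupp.single (Sum.inr (w k)) 1)) e ∈ rel X S P hP := by
      refine ⟨m', ∅, by simp, fun M _ _ hM x v hx hv => ?_⟩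
      rw [lc_elim_mk]
      have h2 := hw M _ hv e he
      have h3 : (fun k => Finsupp.linearCombination R (Sum.elim x v)
          (Finsupp.single (Sum.inr (w k)) (1 : R))) =
          fun k => (Sum.elim x v) (Sum.inr (w k)) := by
        funext k
        simp
      rw [h3]
      exact h2
    rw [← Submodule.Quotient.mk_eq_zero, ← lc_mk, lc_elim_mk] at h1
    have h3 : (fun k => Finsupp.linearCombination R
        (fun w => (Submodule.Quotient.mk (Finsupp.single w 1) :
          ((ι ⊕ ℕ) →₀ R) ⧸ rel X S P hP)) (Finsupp.single (Sum.inr (w k)) 1)) =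
        fun k => Submodule.Quotient.mk (Finsupp.single (Sum.inr (w k)) 1) := by
      funext k
      rw [lc_mk]
    rw [h3] at h1
    exact h1

/-- satisfaction by tuples of linear combinations -/
private theorem truth_subst (hP : Hk X S P) {κ : Type} (ψ : PP R κ) (f : κ → (ι ⊕ ℕ) →₀ R) :
    Sat ψ (((ι ⊕ ℕ) →₀ R) ⧸ rel X S P hP) (fun i => Submodule.Quotient.mk (f i)) ↔
    ∃ m : ℕ, ∃ s : Finset (PP R ι), ↑s ⊆ S ∧
      ∀ (M : Type) [AddCommGroup M] [Module R M], X.In M → ∀ (x : ι → M) (v : ℕ → M),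
      (∀ φ ∈ s, Sat φ M x) → Sat (P m).2 M (Sum.elim x v) →
      Sat ψ M (fun i => Finsupp.linearCombination R (Sum.elim x v) (f i)) := by
  obtain ⟨σ, hσ⟩ := (isPP_sat ψ).subst f
  have h1 : (fun i => (Submodule.Quotient.mk (f i) : ((ι ⊕ ℕ) →₀ R) ⧸ rel X S P hP)) =
      fun i => Finsupp.linearCombination R
        (fun w => (Submodule.Quotient.mk (Finsupp.single w 1) :
          ((ι ⊕ ℕ) →₀ R) ⧸ rel X S P hP)) (f i) := by
    funext i
    rw [lc_mk]
  rw [h1]
  refine (hσ _ _).trans ((truth hP σ).trans ?_)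
  refine exists_congr fun m => exists_congr fun s => and_congr_right fun _ => ?_
  constructor
  · intro h M _ _ hM x v hx hv
    exact (hσ M _).mpr (h M hM x v hx hv)
  · intro h M _ _ hM x v hx hv
    exact (hσ M _).mp (h M hM x v hx hv)

private theorem honest [Countable R] [Countable ι] (hP : Hk X S P) :
    X.Honest S (((ι ⊕ ℕ) →₀ R) ⧸ rel X S P hP)
      (fun i => Submodule.Quotient.mk (Finsupp.single (Sum.inl i) 1)) := by
  classical
  have hlc : ∀ (M : Type) [AddCommGroup M] [Module R M] (x : ι → M) (v : ℕ → M),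
      (fun i => Finsupp.linearCombination R (Sum.elim x v) (Finsupp.single (Sum.inl i) 1)) =
      x := by
    intro M _ _ x v
    funext i
    simp
  refine ⟨?_, ?_, ?_, ?_, ?_⟩
  · intro a ha x hx
    have hf : ∀ i, ∃ f : (ι ⊕ ℕ) →₀ R, Submodule.Quotient.mk f = x i := fun i =>
      Submodule.Quotient.mk_surjective _ (x i)
    choose f hf using hf
    have h1 : x = fun i => Submodule.Quotient.mk (f i) := by
      funext i
      exact (hf i).symm
    rw [h1, truth_subst] at hx ⊢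
    obtain ⟨m, s, hs1, hs2⟩ := hx
    exact ⟨m, s, hs1, fun M _ _ hM x v hx hv => hM a ha _ (hs2 M hM x v hx hv)⟩
  · exact (Submodule.Quotient.mk_surjective _).countable
  · intro φ hφ
    rw [truth_subst]
    refine ⟨0, {φ}, by simpa using hφ, fun M _ _ hM x v hx hv => ?_⟩
    rw [hlc]
    exact hx φ (Finset.mem_singleton_self φ)
  · intro ψ hψ
    rw [truth_subst] at hψ
    obtain ⟨m, s, hs1, hs2⟩ := hψ
    obtain ⟨t, ht1, ht2⟩ := hP.ext 0 m (Nat.zero_le m)
    refine ⟨s ∪ t, by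
      rw [Finset.coe_union]
      exact union_subset hs1 ht1, fun M _ _ hM x hx => ?_⟩
    obtain ⟨v', -, hv'⟩ := ht2 M hM x 0 (fun φ hφ => hx φ (Finset.mem_union_right _ hφ))
      (hP.zero M _)
    have := hs2 M hM x v' (fun φ hφ => hx φ (Finset.mem_union_left _ hφ)) hv'
    rwa [hlc] at this
  · intro k b
    have hf : ∀ i, ∃ f : (ι ⊕ ℕ) →₀ R, Submodule.Quotient.mk f = b i := fun i =>
      Submodule.Quotient.mk_surjective _ (b i)
    choose f hf using hf
    -- a stage which contains all variables of `f`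
    obtain ⟨n, hn⟩ := list_rank (Sum.elim (fun _ => 0) id : ι ⊕ ℕ → ℕ) (List.ofFn f)
    have hgrow : ∀ m, m ≤ (P m).1 := by
      intro m
      induction m with
      | zero => exact Nat.zero_le _
      | succ m ih => exact lt_of_le_of_lt ih (hP.lt m)
    -- the formula
    have hpp : IsPP (R := R) (ι := ι ⊕ Fin k) (fun M _ _ z => ∃ v : ℕ → M,
        Sat (P n).2 M (Sum.elim (z ∘ Sum.inl) v) ∧ ∀ j ∈ List.finRange k,
          Finsupp.linearCombination R (Sum.elim (z ∘ Sum.inl) v) (f j) -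
            z (Sum.inr j) = 0) := by
      have h1 : IsPP (R := R) (ι := (ι ⊕ Fin k) ⊕ ℕ) (fun M _ _ z =>
          Sat (P n).2 M (z ∘ Sum.elim (fun i => Sum.inl (Sum.inl i)) Sum.inr)) :=
        (isPP_sat _).comap _
      have h2 : ∀ l : List (Fin k), IsPP (R := R) (ι := (ι ⊕ Fin k) ⊕ ℕ) (fun M _ _ z =>
          ∀ j ∈ l, Finsupp.linearCombination R
            (z ∘ Sum.elim (fun i => Sum.inl (Sum.inl i)) Sum.inr) (f j) -
            z (Sum.inl (Sum.inr j)) = 0) := by
        intro l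
        induction l with
        | nil => exact isPP_true.congr fun M _ _ x => by simp
        | cons j l ih =>
          refine ((isPP_lin ((f j).mapDomain (Sum.elim (fun i => Sum.inl (Sum.inl i)) Sum.inr :
            ι ⊕ ℕ → (ι ⊕ Fin k) ⊕ ℕ) - Finsupp.single (Sum.inl (Sum.inr j)) 1)).and ih).congr
            fun M _ _ x => ?_
          rw [map_sub, Finsupp.linearCombination_mapDomain]
          simp
      refine (h1.and (h2 (List.finRange k))).ex.congr fun M _ _ z => exists_congr fun v => ?_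
      have h3 : (Sum.elim z v) ∘ (Sum.elim (fun i => Sum.inl (Sum.inl i)) Sum.inr :
          ι ⊕ ℕ → (ι ⊕ Fin k) ⊕ ℕ) = Sum.elim (z ∘ Sum.inl) v := by
        funext i
        cases i <;> rfl
      rw [h3]
      exact Iff.rfl
    obtain ⟨θ, hθ⟩ := hpp
    refine ⟨θ, ?_, ?_⟩
    · rw [← hθ]
      refine ⟨fun i => Submodule.Quotient.mk (Finsupp.single (Sum.inr i) 1), ?_, ?_⟩
      · have h1 := (truth hP (P n).2).mpr ⟨n, ∅, by simp, fun M _ _ hM x v hx hv => hv⟩
        refine (iff_of_eq ?_).mp h1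
        congr 1
        funext i
        cases i <;> rfl
      · intro j _
        have h1 : (Sum.elim ((Sum.elim (fun i => (Submodule.Quotient.mk
            (Finsupp.single (Sum.inl i) 1) : ((ι ⊕ ℕ) →₀ R) ⧸ rel X S P hP)) b) ∘ Sum.inl)
            (fun i => Submodule.Quotient.mk (Finsupp.single (Sum.inr i) 1))) =
            fun w => Submodule.Quotient.mk (Finsupp.single w 1) := by
          funext i
          cases i <;> rfl
        rw [h1, lc_mk, hf]
        simp
    · intro ψ hψ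
      have h1 : Sum.elim (fun i => (Submodule.Quotient.mk
            (Finsupp.single (Sum.inl i) 1) : ((ι ⊕ ℕ) →₀ R) ⧸ rel X S P hP)) b =
          fun i => Submodule.Quotient.mk
            (Sum.elim (fun i => Finsupp.single (Sum.inl i) 1) f i) := by
        funext i
        cases i with
        | inl i => rfl
        | inr j => exact (hf j).symm
      rw [h1, truth_subst] at hψ
      obtain ⟨m, s, hs1, hs2⟩ := hψ
      obtain ⟨t, ht1, ht2⟩ := hP.ext n (max n m) (le_max_left _ _)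
      refine ⟨s ∪ t, by
        rw [Finset.coe_union]
        exact union_subset hs1 ht1, fun M _ _ hM x y hx hy => ?_⟩
      rw [← hθ] at hy
      obtain ⟨v, hv1, hv2⟩ := hy
      obtain ⟨v', hv3, hv4⟩ := ht2 M hM x v (fun φ hφ => hx φ (Finset.mem_union_right _ hφ)) hv1
      have h2 := hs2 M hM x v' (fun φ hφ => hx φ (Finset.mem_union_left _ hφ))
        (hP.le m _ (le_max_right _ _) M _ hv4)
      refine (iff_of_eq ?_).mp h2
      congr 1
      funext i
      cases i with
      | inl i => simp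
      | inr j =>
        have h3 := hv2 j (List.mem_finRange j)
        rw [sub_eq_zero] at h3
        simp only [Sum.elim_inr] at h3 ⊢
        rw [← h3]
        refine hn (f j) (List.mem_ofFn.mpr ⟨j, rfl⟩) M _ _ ?_
        rintro (i | i) hi
        · rfl
        · exact hv3 i (lt_of_lt_of_le hi (hgrow n))

end

theorem thm_HEX : St_HEX := by
  intro R _ _ X ι _ S
  obtain ⟨P, hP⟩ := exists_seq X S
  exact ⟨⟨((ι ⊕ ℕ) →₀ R) ⧸ rel X S P hP⟩, _, honest hP⟩

end Pool.Agent.MVC
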