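import Pool.Agent.MVC.St3

/-!
# MVC [RES]: the theorem from the blocks (helper28)
-/

set_option autoImplicit false

namespace Pool.Agent.MVC

open Set Ax FirstOrder

private theorem RES_gen {R : Type} [Ring R] {X : Ax R} {B N : Type} [AddCommGroup B] [Module R B]
    [AddCommGroup N] [Module R N] (hB : X.Generic B) (hN : X.In N) : X.Generic (B × N) := by
  refine ⟨Ax.In.prod hB.1 hN, ?_⟩
  intro n φ ψ h
  obtain ⟨x, hx, hx'⟩ := hB.2 n φ ψ h
  refine ⟨fun i a => (x i a, 0), fun i => ?_, fun i j hij hs => ?_⟩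
  · exact sat_prod.2 ⟨hx i, Sat.zero φ⟩
  · exact hx' i j hij (sat_prod.1 hs).1

private theorem RES_inf {R : Type} [Ring R] {X : Ax R} {B M : Type} [AddCommGroup B] [Module R B]
    [AddCommGroup M] [Module R M] (hB : X.Generic B) (hM : X.In M) (z : M) (hz : z ≠ 0) :
    Infinite B := by
  obtain ⟨φ, hφ⟩ := isPP_true (R := R) (ι := Fin 1)
  obtain ⟨ψ, hψ⟩ := isPP_zero (R := R) (ι := Fin 1)
  have h1 : ¬ X.Le φ ψ := by
    intro h
    have h2 := (hψ M (fun _ => z)).2 (h M hM (fun _ => z) ((hφ M (fun _ => z)).1 trivial))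
    exact hz (congrFun h2 0)
  obtain ⟨x, -, hx⟩ := hB.2 1 φ ψ h1
  refine Infinite.of_injective (fun i => x i 0) fun i j hij => ?_
  by_contra hne
  refine hx i j hne ((hψ B (x i - x j)).1 ?_)
  funext a
  have ha : a = 0 := Subsingleton.elim a 0
  rw [ha, Pi.sub_apply, Pi.zero_apply, sub_eq_zero]
  exact hij

theorem thm_RES (h1 : St_BGE) (h2 : St_BQE) (h3 : St_BCP) (h4 : St_KFW) (h5 : St_ISO)
    (h6 : St_KCT) : St_RES := by
  intro R _ _ T hM hprod
  by_cases hP : PerfMod T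
  · exact Or.inr hP
  left
  by_cases hN : ∃ S : (LMod R).Structure ℕ, @FirstOrder.Language.Theory.Model (LMod R) ℕ S T
  swap
  · exact ⟨fun _ => ⟨fun {n} f v => 0, fun {n} r => nomatch r⟩, fun S hS => absurd ⟨S, hS⟩ hN⟩
  obtain ⟨S, hS⟩ := hN
  obtain ⟨g, m, hgm⟩ := hM ℕ S hS
  have hin : ∀ (M : Type) [AddCommGroup M] [Module R M], Mods T M → (AxT T).In M :=
    fun M _ _ h a ha x hx => ha M h x hx
  obtain ⟨M0, hM0, hnt⟩ : ∃ M0 : Md R, Mods T M0 ∧ Nontrivial M0 := by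
    refine ⟨@Md.mk R _ ℕ g m, ?_, inferInstanceAs (Nontrivial ℕ)⟩
    show @FirstOrder.Language.Theory.Model (LMod R) ℕ (@modStr R _ ℕ g m) T
    rw [← hgm]
    exact hS
  obtain ⟨M, hMT, hMg⟩ := h3 R T hM hprod ⟨M0, hM0⟩
  obtain ⟨B, hBc, hBin, hBa, hBg⟩ := h1 R (AxT T)
  obtain ⟨z, hz⟩ := exists_ne (0 : M0)
  have hinf : Infinite B := RES_inf hBg (hin _ hM0) z hz
  have hmod : ∀ S : (LMod R).Structure ℕ, @FirstOrder.Language.Theory.Model (LMod R) ℕ S T →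
      IsMod S := fun S hS => hM ℕ S hS
  have hfew : (AxT T).Few B := h4 R T hmod (AxT T) B hBin hBc hinf hBa
    (fun N _ hN => h2 R (AxT T) M ⟨B × N⟩ hMg (RES_gen hBg hN) T hMT) hP
  exact h6 R T hmod (AxT T) B hfew hin hP (h5 R (AxT T) B hfew)

end Pool.Agent.MVC
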