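import Pool.Agent.MVC.St5
import Pool.Agent.MVC.RS2

/-!
# Vaught's conjecture for modules: theories with idempotent models
-/

set_option autoImplicit false
set_option linter.unusedSectionVars false
set_option linter.unusedVariables false

namespace Pool.Agent.MVC

open Set Ax FirstOrder

theorem PerfMod.mono {R : Type} {T T' : (LMod R).Theory} (h : T ⊆ T') (hp : PerfMod T') :
    PerfMod T := by
  obtain ⟨f, h1, h2, h3⟩ := hp
  exact ⟨f, fun x => @FirstOrder.Language.Theory.Model.mono (LMod R) ℕ (f x) _ _ (h1 x) h, h2, h3⟩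

theorem mods_th (R : Type) [Ring R] (M : Type) [AddCommGroup M] [Module R M] :
    Mods (Th R M) M :=
  @FirstOrder.Language.Theory.Model.mk (LMod R) M (modStr R M) _ fun φ hφ => hφ

theorem subset_th {R : Type} [Ring R] {T : (LMod R).Theory} {M : Type} [AddCommGroup M]
    [Module R M] (h : Mods T M) : T ⊆ Th R M := fun φ hφ =>
  @FirstOrder.Language.Theory.realize_sentence_of_mem (LMod R) M (modStr R M) T h φ hφ

theorem Mods.mono {R : Type} [Ring R] {T T' : (LMod R).Theory} {M : Type} [AddCommGroup M]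
    [Module R M] (h : Mods T' M) (hT : T ⊆ T') : Mods T M :=
  @FirstOrder.Language.Theory.Model.mono (LMod R) M (modStr R M) _ _ h hT

theorem ModTh.mono {R : Type} [Ring R] {T T' : (LMod R).Theory} (h : ModTh T) (hT : T ⊆ T') :
    ModTh T' := fun M S hS =>
  h M S (@FirstOrder.Language.Theory.Model.mono (LMod R) M S _ _ hS hT)

theorem thm_RS3 (h : St_RSK) (hQ : St_BQE) (hO : St_OWN) (hG : St_GEQ) (hC : St_CPL) :
    St_RS3 := by
  intro R _ _ T hT hM
  by_cases hp : PerfMod T
  · exact Or.inr hp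
  refine hC R T hT fun g m hS => ?_
  obtain ⟨M', _, _, hM'T, hgen, hin⟩ := @hM ℕ g m hS
  have hT' : T ⊆ Th R M' := subset_th hM'T
  have hSum : SumCl (Th R M') := by
    intro N₁ N₂ _ _ _ _ h1 h2
    have g1 := hG R M' N₁ hgen h1
    have g2 := hG R M' N₂ hgen h2
    exact hQ R (Own R M') ⟨M'⟩ ⟨N₁ × N₂⟩ hgen (g1.prod g2.1) (Th R M') (mods_th R M')
  rcases h R (Th R M') (hT.mono hT') hSum with hp' | key
  · exact absurd (hp'.mono hT') hp
  have hTS : T ⊆ @Th R _ ℕ g m := @subset_th R _ T ℕ g m hS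
  refine (key (@Th R _ ℕ g m) (hT.mono hTS) fun N _ _ hN => ?_).resolve_right
    fun hp' => hp (hp'.mono hTS)
  intro a ha
  have h1 : a ∈ Own R M' := fun x hx => ha M' (mods_th R M') x hx
  have h2 : a ∈ @Own R _ ℕ g m := fun x hx => hin a h1 x hx
  have h3 : Own R N = @Own R _ ℕ g m := @hO R _ ℕ N g m _ _ hN
  rw [← h3] at h2
  exact h2

end Pool.Agent.MVC
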