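import Pool.Agent.MVC.St2
import Pool.Agent.MVC.Defs3

/-!
# Vaught's conjecture for modules: statements, part 3 (from the algebra to the theorem)

The proofs are in the paper GC_VM_helper21.md (section 9) and in the docstrings.
-/

set_option autoImplicit false
set_option linter.unusedSectionVars false
set_option linter.unusedVariables false

namespace Pool.Agent.MVC

open Set Ax FirstOrder Pool.Agent.Helper6.Str Pool.Agent.Helper5.DU

/-! ### Descriptive set theory -/

/-- The set of codes of graphs of models of `T` is measurable. For a code `c` let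
`fadd c a b = sInf {n | (toStr c).RelMap add ![a, b, n]}` etc.; these are measurable functions of
`c`, they define a structure `S_c` of the language `LMod R`; `toStr c ∈ Kof T` iff
`toStr c = grph S_c` (countably many atomic conditions) and `S_c ⊨ T`; `{c | S_c ⊨ φ(v)}` is
measurable for each first-order formula `φ` (induction); `T` has countably many sentences. -/
def St_KMS : Prop := ∀ (R : Type) [Ring R] [Countable R] (T : (LMod R).Theory),
  MeasurableSet {c : Code (LR R) | toStr c ∈ Kof T}

/-- Perfectly many graphs give perfectly many models. -/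
def St_KPF : Prop := ∀ (R : Type) [Ring R] [Countable R] (T : (LMod R).Theory),
  PerfK (Kof T) → PerfMod T

/-- Level-one properties of tuples are measurable. `T` is a theory of modules. First
`{c | toStr c ∈ Kof T ∧ AtM (toStr c) (Sat φ) v}` for a positive primitive formula `φ`: the value of a
linear combination with fixed entries is a measurable function of `c` on this set (use the
functions `fadd c`, `fsmul c` of `St_KMS`), and `∃ y : ℕ → M` may be replaced by `∃ y : ℕ →₀ ℕ`
(only finitely many bound variables occur). Then `Sat1 V` is a countable union (over `t`) of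
countable intersections (over `φ ∈ V`); `g, m` in `AtM` are determined by the graph. -/
def St_KME : Prop := ∀ (R : Type) [Ring R] [Countable R] (T : (LMod R).Theory),
  (∀ S : (LMod R).Structure ℕ, @FirstOrder.Language.Theory.Model (LMod R) ℕ S T → IsMod S) →
  ∀ (n : ℕ) (V : L1 R (Fin n)) (v : Fin n → ℕ),
    MeasurableSet {c : Code (LR R) | toStr c ∈ Kof T ∧ AtM (toStr c) (fun M _ _ x => Sat1 V M x) v}

/-- Transport: the module of a structure in `Kof T`, uniqueness, invariance. -/
def St_KIN : Prop := ∀ (R : Type) [Ring R] (n : ℕ)
  (P : ∀ (M : Type) [AddCommGroup M] [Module R M], (Fin n → M) → Prop),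
  (∀ (M N : Type) [AddCommGroup M] [Module R M] [AddCommGroup N] [Module R N] (e : M ≃ₗ[R] N)
    (x : Fin n → M), P M x → P N (fun i => e (x i))) →
  (∀ (S S' : (LR R).Structure ℕ) (e : ℕ ≃ ℕ) (v : Fin n → ℕ), RelIso S S' e → AtM S P v →
    AtM S' P (e ∘ v)) ∧
  (∀ (g g' : AddCommGroup ℕ) (m : @Module R ℕ _ g.toAddCommMonoid)
    (m' : @Module R ℕ _ g'.toAddCommMonoid), grph (@modStr R _ ℕ g m) = grph (@modStr R _ ℕ g' m') →
    ∀ v, @P ℕ g m v → @P ℕ g' m' v) ∧
  (∀ (M : Type) [AddCommGroup M] [Module R M] [Countable M] [Infinite M] (T : (LMod R).Theory),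
    Mods T M → ∃ (g : AddCommGroup ℕ) (m : @Module R ℕ _ g.toAddCommMonoid)
      (e : @LinearEquiv R R _ _ (RingHom.id R) (RingHom.id R) _ _ M ℕ _ g.toAddCommMonoid _ m),
      grph (@modStr R _ ℕ g m) ∈ Kof T)

/-- `Few` from `not perfectly many`. Three applications of `ctbl_of_props` (VB/B.lean) with
`K = Kof T`, `St_KMS`, `St_KPF`; for `N` in the class let `S` be the graph of a copy of `B × N` on `ℕ`,
`v` the copy of the tuple `(0, x)`: `Sat φ (B × N) (0, x) ↔ Sat φ N x` (`sat_prod`, `sat1_prod`).
(0) the family of all pp formulas `φ` (as level-one formulas `ofRe {φ}`): the pp-types of tuples in `N`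
form a countable set, for each `n`. Hence the sets `X.Cl V`, `V : Set (PP R (Fin n ⊕ Fin k))`, form a
countable set for each `n, k` (each `X.Cl V` is the type of the generators of an honest module, `St_HEX`);
`Sat1 ⟨k, V⟩ M x ↔ Sat1 ⟨k, X.Cl V⟩ M x` in the class. (1) the family of the `⟨k, X.Cl V⟩`: `few1`.
(2) the family of the properties `∃ x, tp1 (B × N) x = τ` for the countably many `(n, τ)` of
(1) applied to `B × N`: `few2` (properties of the empty tuple; `∃ x` is a countable union, and
`tp1 M x = τ` is the conjunction over the countably many `⟨k, X.Cl V⟩`). -/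
def St_KFW : Prop := ∀ (R : Type) [Ring R] [Countable R] (T : (LMod R).Theory),
  (∀ S : (LMod R).Structure ℕ, @FirstOrder.Language.Theory.Model (LMod R) ℕ S T → IsMod S) →
  ∀ (X : Ax R) (B : Md R), X.In B → Countable B → Infinite B → X.Atomic B →
  (∀ N : Md R, Countable N → X.In N → Mods T (B × N)) → ¬ PerfMod T → X.Few B

/-- The final count: `ctbl_of_props` with `n = 0` and the countably many properties `M has an exact
tuple for ⟨k, X.Cl V⟩` (`x` is exact for `V` iff `Sat1 V M x` and not `Sat1 W M x` for the `W` (closed) with
not `X.Le1 V W`). -/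
def St_KCT : Prop := ∀ (R : Type) [Ring R] [Countable R] (T : (LMod R).Theory),
  (∀ S : (LMod R).Structure ℕ, @FirstOrder.Language.Theory.Model (LMod R) ℕ S T → IsMod S) →
  ∀ (X : Ax R) (B : Md R), X.Few B →
  (∀ (M : Type) [AddCommGroup M] [Module R M], Mods T M → X.In M) → ¬ PerfMod T →
  (∀ M N : Md R, Countable M → Countable N → X.In M → X.In N →
    (∀ (n : ℕ) (D : L1 R (Fin n)), (∃ x : Fin n → M, X.Exact D M x) ↔
      ∃ x : Fin n → N, X.Exact D N x) → Nonempty (M ≃ₗ[R] N)) →
  CtblMod T

/-! ### Generic modules, elimination of quantifiers, compactness -/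

/-- There is a countable atomic generic module in each class: the direct sum of countably many
copies of honest modules `N_φ` for `{φ}`, for all `n` and all `φ : PP R (Fin n)`. Atomic: a tuple lies in
a finite subsum, whose generators satisfy one formula `χ`, so its type is principal
(`Honest.gen`); generic: the generators of the copies of `N_φ`: `Sat ψ` at the difference of two of
them gives `Sat ψ` at the generator of one of them (project), so `X.Le φ ψ`. -/
def St_BGE : Prop := ∀ (R : Type) [Ring R] [Countable R] (X : Ax R),
  ∃ B : Md R, Countable B ∧ X.In B ∧ X.Atomic B ∧ X.Generic B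

/-- Generic modules are elementarily equivalent. Elimination of quantifiers: every first-order
formula is equivalent, uniformly in all generic modules of the class, to a Boolean combination of
positive primitive formulas (as a relation on `Fin n → M`). For `∃ y (φ(x, y) & ⋀ ¬ ψ_i(x, y))`, w.l.o.g.
`ψ_i ≤ φ` (replace `ψ_i` by `ψ_i & φ`): true at `x` iff `∃ y φ(x, y)` and for each `i` with
`φ(0, ·) ≤ ψ_i(0, ·)` not `∃ y ψ_i(x, y)`. Indeed the cosets `ψ_i(x, ·)` with `φ(0, ·) ≰ ψ_i(0, ·)` are
cosets of subgroups of infinite index in `φ(0, M)` (generic), and by Neumann's lemma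
(`Subgroup.exists_finiteIndex_of_leftCoset_cover` or the `AddSubgroup` version) they do not cover
the coset `φ(x, ·)`. Atomic formulas: terms are linear combinations of variables. Use total
assignments or `Fin n` as you like. -/
def St_BQE : Prop := ∀ (R : Type) [Ring R] (X : Ax R) (M N : Md R), X.Generic M → X.Generic N →
  ∀ T : (LMod R).Theory, Mods T M → Mods T N

/-- Compactness: a theory of modules which has a model and whose models are closed under
products of two has a model which is generic for the class `AxT T`. Expand the language by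
constants `c_{φ, ψ, i, j}` (`i ∈ ℕ`, `j < n`) for each pair with not `(AxT T).Le φ ψ`, and add
`φ(c_i)`, `¬ ψ(c_i - c_{i'})`: a finite part is satisfied in a finite product of models of `T` (for each of
the finitely many pairs and each `i` one factor `M` with a tuple in `φ(M) \ ψ(M)`:
`c_i` has this tuple in the factor `(φ, ψ, i)` and `0` in the other factors). `(AxT T).Le φ ψ` iff it holds
in all models of `T`. -/
def St_BCP : Prop := ∀ (R : Type) [Ring R] [Countable R] (T : (LMod R).Theory),
  (∀ (M : Type) (S : (LMod R).Structure M),
    @FirstOrder.Language.Theory.Model (LMod R) M S T → IsMod S) →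
  (∀ (M N : Type) [AddCommGroup M] [Module R M] [AddCommGroup N] [Module R N],
    Mods T M → Mods T N → Mods T (M × N)) →
  (∃ M : Md R, Mods T M) → ∃ M : Md R, Mods T M ∧ (AxT T).Generic M

/-! ### The homogeneity block (helper31) -/

/-- Countable modules of the class with the same exact formulas are isomorphic (from UML, H). -/
def St_ISO : Prop := ∀ (R : Type) [Ring R] [Countable R] (X : Ax R) (B : Md R), X.Few B →
  ∀ M N : Md R, Countable M → Countable N → X.In M → X.In N →
    (∀ (n : ℕ) (D : L1 R (Fin n)), (∃ x : Fin n → M, X.Exact D M x) ↔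
      ∃ x : Fin n → N, X.Exact D N x) → Nonempty (M ≃ₗ[R] N)

/-- **The theorem.** -/
def St_RES : Prop := ∀ (R : Type) [Ring R] [Countable R] (T : (LMod R).Theory),
  (∀ (M : Type) (S : (LMod R).Structure M),
    @FirstOrder.Language.Theory.Model (LMod R) M S T → IsMod S) →
  (∀ (M N : Type) [AddCommGroup M] [Module R M] [AddCommGroup N] [Module R N],
    Mods T M → Mods T N → Mods T (M × N)) →
  CtblMod T ∨ PerfMod T

end Pool.Agent.MVC
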