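import Pool.Agent.MVC.St4

/-!
# Vaught's conjecture for modules: idempotent models, completions (statements)

`M` is idempotent if `M` and `M × M` are elementarily equivalent.
-/

set_option autoImplicit false
set_option linter.unusedSectionVars false
set_option linter.unusedVariables false

namespace Pool.Agent.MVC

open Set Ax FirstOrder

/-- the complete theory of a module -/
def Th (R : Type) [Ring R] (M : Type) [AddCommGroup M] [Module R M] : (LMod R).Theory :=
  {φ | @FirstOrder.Language.Sentence.Realize (LMod R) M (modStr R M) φ}

/-- all implications between positive primitive formulas which hold in `M` -/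
def Own (R : Type) [Ring R] (M : Type) [AddCommGroup M] [Module R M] : Ax R :=
  {a | ∀ x : Fin a.1 → M, Sat a.2.1 M x → Sat a.2.2 M x}

/-- Positive primitive formulas are first-order formulas. -/
def St_FOR : Prop := ∀ (R : Type) [Ring R] (n : ℕ) (φ : PP R (Fin n)),
  ∃ ψ : (LMod R).Formula (Fin n), ∀ (M : Type) [AddCommGroup M] [Module R M] (x : Fin n → M),
    @FirstOrder.Language.Formula.Realize (LMod R) M (modStr R M) (Fin n) ψ x ↔ Sat φ M x

/-- Elementarily equivalent modules satisfy the same implications. (`St_FOR`) -/
def St_OWN : Prop := ∀ (R : Type) [Ring R] (M N : Type) [AddCommGroup M] [Module R M]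
  [AddCommGroup N] [Module R N], Mods (Th R M) N → Own R N = Own R M

/-- Genericity is an elementary property. For `φ, ψ` and `m` there is a sentence which says: there are
`m` elements of `φ` which are different modulo `ψ`. (`St_FOR`) -/
def St_GEQ : Prop := ∀ (R : Type) [Ring R] (M N : Type) [AddCommGroup M] [Module R M]
  [AddCommGroup N] [Module R N], (Own R M).Generic M → Mods (Th R M) N → (Own R M).Generic N

/-- Idempotent modules are generic: if not `(Own R M).Le φ ψ`, then some element of `φ(M)` is not in
`ψ(M)`; if the number `m ≥ 2` of cosets of `ψ(M) ∩ φ(M)` in `φ(M)` is finite, it is `m ^ 2` in `M × M`;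
but `M` and `M × M` satisfy the same sentences of `St_GEQ`. -/
def St_IDM : Prop := ∀ (R : Type) [Ring R] (M : Type) [AddCommGroup M] [Module R M],
  Mods (Th R M) (M × M) → (Own R M).Generic M

/-- If the centre of `R` has no finite residue field, then all modules are generic: the group
`A = φ(M) / (φ(M) ∩ ψ(M))` is a module over the centre `Z`; if `A` is finite and `a ∈ A` is not zero, then
`Z / Ann a` is finite, and a maximal ideal which contains `Ann a` has a finite residue field. -/
def St_CTR : Prop := ∀ (R : Type) [Ring R],
  (∀ I : Ideal (Subring.center R), I.IsMaximal → Infinite (Subring.center R ⧸ I)) →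
  ∀ (M : Type) [AddCommGroup M] [Module R M], (Own R M).Generic M

/-- Completions. If `T` has not perfectly many models, then the models of `T` on `ℕ` have only
countably many complete theories: `ctbl_of_props` (VB/B.lean) with `K = Kof T`, `n = 0` and the
properties `S' ∈ Kof (T ∪ {φ})` for the countably many sentences `φ`; measurable by `St_KMS`. Then take
the union of the countable families. -/
def St_CPL : Prop := ∀ (R : Type) [Ring R] [Countable R] (T : (LMod R).Theory), ModTh T →
  (∀ (g : AddCommGroup ℕ) (m : @Module R ℕ _ g.toAddCommMonoid), @Mods R _ T ℕ g m →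
    CtblMod (@Th R _ ℕ g m)) → CtblMod T ∨ PerfMod T

/-- The final statement. -/
def St_RS3 : Prop := ∀ (R : Type) [Ring R] [Countable R] (T : (LMod R).Theory), ModTh T →
  (∀ (M : Type) [AddCommGroup M] [Module R M], Mods T M → ∃ (M' : Type) (_ : AddCommGroup M')
    (_ : Module R M'), Mods T M' ∧ (Own R M').Generic M' ∧ (Own R M').In M) →
  CtblMod T ∨ PerfMod T

end Pool.Agent.MVC
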